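import Pool.Agent.Lib.HR.Defs
import Pool.Agent.Lib.MP_1a953e_ag.Defs

/-!
# Global part of henselian rationality: definitions

All fields are subfields of one ultrametric field `W` of characteristic `p` (algebraically closed
where needed).  From `MP1a953e`: `adj F x` (field generated by `F` and `x`), `Imm F K` (immediate),
`DenseIn A K`, `OrthBasis F F' θ` (finite orthogonal basis with `θ 0 = 1`), `Ext A F A' F'` (common
orthogonal basis of `A'/A` and `F'/F`), `TT F T` (point of type four over the complete field `F`),
`powField p H A` (the field of `p ^ H`-th powers), `Coeffs`.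
-/

namespace HR

open Polynomial MP1a953e

variable {W : Type*} [NormedField W]

/-- `E` is a finite separable extension of `K` inside `W`. -/
structure FSep (K E : Subfield W) : Prop where
  le : K ≤ E
  sep : ∀ x ∈ E, IsSeparable K x
  fg : ∃ s : Finset W, E = K ⊔ Subfield.closure (s : Set W)

/-- The pairs `(L, K)`: `L` is finitely generated over `k`, has orthogonal coordinates over `L ^ p`, is
dense in the complete field `K`, and the norm is not trivial on `L`.  (`k` is algebraically closed
in all applications; this is a separate hypothesis.) -/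
structure HCl (p : ℕ) (k L K : Subfield W) : Prop where
  k_le : k ≤ L
  fg : ∃ s : Finset W, L = k ⊔ Subfield.closure (s : Set W)
  pc : Nonempty (PCoord p L)
  dense : DenseIn L K
  complete : IsComplete (K : Set W)
  nontriv : ∃ x ∈ L, 1 < ‖x‖

/-- `y` has no good approximation in `E`. -/
def Bad (E : Subfield W) (y : W) : Prop := ∀ c ∈ E, ‖y‖ ≤ ‖y - c‖

/-- The powers `1, y, ..., y ^ (n - 1)` are orthogonal over `E`. -/
def PowOrth (E : Subfield W) (y : W) (n : ℕ) : Prop :=
  ∀ h : W[X], PolyIn E h → h.natDegree < n → ∀ i, ‖h.coeff i‖ * ‖y‖ ^ i ≤ ‖h.eval y‖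

/-- Finite separable extensions of `K` with an orthogonal basis. -/
structure FF (K E : Subfield W) : Prop where
  fsep : FSep K E
  ob : HasOB K (E : Set W)

/-- Subfields `E` of the separable closure of `K` all of whose finite subsets lie in a member of `FF K`
contained in `E`. -/
structure LFF (K E : Subfield W) : Prop where
  le : K ≤ E
  loc : ∀ s : Finset W, (s : Set W) ⊆ E → ∃ E', FF K E' ∧ E' ≤ E ∧ (s : Set W) ⊆ E'

/-- Towers of Artin-Schreier extensions. -/
inductive ASTower (p : ℕ) (Q : Subfield W) : Subfield W → Prop
  | base : ASTower p Q Q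
  | step (D : Subfield W) (z : W) (h : ASTower p Q D) (hz : z ^ p - z ∈ D) : ASTower p Q (adj D z)

/-- `K'` is an algebraic extension of `K`, closed under extensions of degree prime to `p`: the
finite subextensions of `K' / K` are separable of degree prime to `p`, and an element which is
separable over `K` and of degree prime to `p` over `K'` lies in `K'`. -/
structure PClosed (p : ℕ) (K K' : Subfield W) : Prop where
  le : K ≤ K'
  loc : ∀ s : Finset W, (s : Set W) ⊆ K' → ∃ E, FSep K E ∧ E ≤ K' ∧ (s : Set W) ⊆ E ∧
    ¬ p ∣ K.relfinrank E
  sub : ∀ E, FSep K E → E ≤ K' → ¬ p ∣ K.relfinrank E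
  root : ∀ y : W, IsSeparable K y → ¬ p ∣ (minpoly K' y).natDegree → y ∈ K'

end HR
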