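import Pool.Agent.Lib.HR.Defs

/-!
# PC: the coordinate functions of an orthogonal `L ^ p`-basis

`σ_unique`: apply `orth` to the differences `σ i y - a i` (all in `L`; use `(a - b) ^ p =
a ^ p - b ^ p`, `sub_pow_char`), where `y = ∑ a i ^ p * x i`: the sum of the differences is zero, so
each `‖σ i y - a i‖ ^ p * ‖x i‖ ≤ 0`, and `x i ≠ 0`.
Everything else follows from `σ_unique`, `sum` and `orth`.  `exists_norm`: the norm of the finite sum
`∑ (σ j y) ^ p * x j` is at most the norm of one of the summands (ultrametric), and `orth` gives the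
other inequality.
-/

namespace HR

open Polynomial

variable {W : Type*} [NormedField W] [IsUltrametricDist W] {p : ℕ} [Fact p.Prime] [CharP W p]
  {L : Subfield W} (c : PCoord p L)

private theorem pc_mem (a : c.J → W) (ha : ∀ j, a j ∈ L) : ∑ i, (a i) ^ p * c.x i ∈ L :=
  L.sum_mem fun i _ => L.mul_mem (L.pow_mem (ha i) p) (c.x_mem i)

theorem PCoord.σ_unique (a : c.J → W) (ha : ∀ j, a j ∈ L) (j : c.J) :
    c.σ j (∑ i, (a i) ^ p * c.x i) = a j := by
  have hp : p.Prime := Fact.out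
  set y := ∑ i, (a i) ^ p * c.x i with hy
  have hyL : y ∈ L := pc_mem c a ha
  have h1 := c.orth (fun i => c.σ i y - a i) (fun i => L.sub_mem (c.σ_mem i y hyL) (ha i)) j
  have h2 : ∑ i, (c.σ i y - a i) ^ p * c.x i = 0 := by
    have h3 : ∀ i, (c.σ i y - a i) ^ p * c.x i = (c.σ i y) ^ p * c.x i - (a i) ^ p * c.x i := by
      intro i
      rw [sub_pow_char, sub_mul]
    rw [Finset.sum_congr rfl fun i _ => h3 i, Finset.sum_sub_distrib, c.sum y hyL, ← hy, sub_self]
  rw [h2, norm_zero] at h1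
  have h4 : ‖c.x j‖ ≠ 0 := norm_ne_zero_iff.2 (c.x_ne j)
  have h5 : 0 < ‖c.x j‖ := lt_of_le_of_ne (norm_nonneg _) h4.symm
  have h6 : ‖c.σ j y - a j‖ ^ p = 0 := by
    have h7 : 0 ≤ ‖c.σ j y - a j‖ ^ p := pow_nonneg (norm_nonneg _) p
    nlinarith
  have h8 : ‖c.σ j y - a j‖ = 0 := by
    by_contra h
    exact (pow_ne_zero p h) h6
  exact sub_eq_zero.1 (norm_eq_zero.1 h8)

theorem PCoord.σ_zero (j : c.J) : c.σ j 0 = 0 := by
  have h := c.σ_unique (fun _ => 0) (fun _ => L.zero_mem) j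
  have hp : p ≠ 0 := (Fact.out : p.Prime).ne_zero
  simpa [zero_pow hp] using h

theorem PCoord.σ_add {y z : W} (hy : y ∈ L) (hz : z ∈ L) (j : c.J) :
    c.σ j (y + z) = c.σ j y + c.σ j z := by
  have h := c.σ_unique (fun i => c.σ i y + c.σ i z)
    (fun i => L.add_mem (c.σ_mem i y hy) (c.σ_mem i z hz)) j
  have h1 : ∑ i, (c.σ i y + c.σ i z) ^ p * c.x i = y + z := by
    have h3 : ∀ i, (c.σ i y + c.σ i z) ^ p * c.x i =
        (c.σ i y) ^ p * c.x i + (c.σ i z) ^ p * c.x i := by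
      intro i
      rw [add_pow_char, add_mul]
    rw [Finset.sum_congr rfl fun i _ => h3 i, Finset.sum_add_distrib, c.sum y hy, c.sum z hz]
  rw [h1] at h
  exact h

theorem PCoord.σ_neg {y : W} (hy : y ∈ L) (j : c.J) : c.σ j (-y) = - c.σ j y := by
  have h := c.σ_add hy (L.neg_mem hy) j
  rw [add_neg_cancel, c.σ_zero] at h
  exact (neg_eq_of_add_eq_zero_right h.symm).symm

theorem PCoord.σ_sub {y z : W} (hy : y ∈ L) (hz : z ∈ L) (j : c.J) :
    c.σ j (y - z) = c.σ j y - c.σ j z := by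
  rw [sub_eq_add_neg, c.σ_add hy (L.neg_mem hz), c.σ_neg hz, ← sub_eq_add_neg]

theorem PCoord.σ_sum {ι : Type*} (s : Finset ι) (y : ι → W) (hy : ∀ i ∈ s, y i ∈ L) (j : c.J) :
    c.σ j (∑ i ∈ s, y i) = ∑ i ∈ s, c.σ j (y i) := by
  classical
  induction s using Finset.induction_on with
  | empty => simpa using c.σ_zero j
  | insert a s ha ih =>
    have h1 : ∀ i ∈ s, y i ∈ L := fun i hi => hy i (Finset.mem_insert_of_mem hi)
    rw [Finset.sum_insert ha, Finset.sum_insert ha,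
      c.σ_add (hy a (Finset.mem_insert_self a s)) (L.sum_mem h1), ih h1]

theorem PCoord.σ_pow_mul {a y : W} (ha : a ∈ L) (hy : y ∈ L) (j : c.J) :
    c.σ j (a ^ p * y) = a * c.σ j y := by
  have h := c.σ_unique (fun i => a * c.σ i y) (fun i => L.mul_mem ha (c.σ_mem i y hy)) j
  have h1 : ∑ i, (a * c.σ i y) ^ p * c.x i = a ^ p * y := by
    have h3 : ∀ i, (a * c.σ i y) ^ p * c.x i = a ^ p * ((c.σ i y) ^ p * c.x i) := by
      intro i
      rw [mul_pow, mul_assoc]
    rw [Finset.sum_congr rfl fun i _ => h3 i, ← Finset.mul_sum, c.sum y hy]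
  rw [h1] at h
  exact h

/-- `a ^ p * x i` has only the `i`-th coordinate. -/
theorem PCoord.σ_mul_x {a : W} (ha : a ∈ L) (i j : c.J) :
    c.σ j (a ^ p * c.x i) = if j = i then a else 0 := by
  have hp : p ≠ 0 := (Fact.out : p.Prime).ne_zero
  have h := c.σ_unique (fun l => if l = i then a else 0)
    (fun l => by
      by_cases hl : l = i
      · rw [if_pos hl]; exact ha
      · rw [if_neg hl]; exact L.zero_mem) j
  have h1 : ∑ l, (if l = i then a else 0) ^ p * c.x l = a ^ p * c.x i := by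
    rw [Finset.sum_eq_single i]
    · rw [if_pos rfl]
    · intro l _ hl
      rw [if_neg hl, zero_pow hp, zero_mul]
    · intro hi
      exact absurd (Finset.mem_univ i) hi
  rw [h1] at h
  exact h

theorem PCoord.σ_o_pow {a : W} (ha : a ∈ L) : c.σ c.o (a ^ p) = a := by
  have h := c.σ_mul_x ha c.o c.o
  rw [c.x_o, mul_one, if_pos rfl] at h
  exact h

theorem PCoord.σ_ne_pow {a : W} (ha : a ∈ L) {j : c.J} (hj : j ≠ c.o) : c.σ j (a ^ p) = 0 := by
  have h := c.σ_mul_x ha c.o j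
  rw [c.x_o, mul_one, if_neg hj] at h
  exact h

theorem PCoord.norm_σ {y : W} (hy : y ∈ L) (j : c.J) : ‖c.σ j y‖ ^ p * ‖c.x j‖ ≤ ‖y‖ := by
  have h := c.orth (fun i => c.σ i y) (fun i => c.σ_mem i y hy) j
  rw [c.sum y hy] at h
  exact h

theorem PCoord.exists_norm {y : W} (hy : y ∈ L) : ∃ j, ‖y‖ = ‖c.σ j y‖ ^ p * ‖c.x j‖ := by
  have hne : (Finset.univ : Finset c.J).Nonempty := ⟨c.o, Finset.mem_univ _⟩
  obtain ⟨j, _, hj⟩ := IsUltrametricDist.exists_norm_finsetSum_le_of_nonempty hne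
    (fun i => (c.σ i y) ^ p * c.x i)
  rw [c.sum y hy, norm_mul, norm_pow] at hj
  exact ⟨j, le_antisymm hj (c.norm_σ hy j)⟩

/-- The coordinate at `1` is a Cartier type operator. -/
theorem PCoord.cart : Cart p L (c.σ c.o) where
  mem := c.σ_mem c.o
  add y hy z hz := c.σ_add hy hz c.o
  smul a ha y hy := c.σ_pow_mul ha hy c.o
  one := by
    have h := c.σ_o_pow L.one_mem
    rw [one_pow] at h
    exact h
  norm y hy := by
    have h := c.norm_σ hy c.o
    rw [c.x_o, norm_one, mul_one] at h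
    exact h

omit [IsUltrametricDist W] [CharP W p] in
theorem Cart.zero {σ : W → W} (h : Cart p L σ) : σ 0 = 0 := by
  have h1 := h.add 0 L.zero_mem 0 L.zero_mem
  rw [add_zero] at h1
  exact left_eq_add.1 h1

omit [IsUltrametricDist W] [CharP W p] in
theorem Cart.neg {σ : W → W} (h : Cart p L σ) {y : W} (hy : y ∈ L) : σ (-y) = - σ y := by
  have h1 := h.add y hy (-y) (L.neg_mem hy)
  rw [add_neg_cancel, h.zero] at h1
  exact (neg_eq_of_add_eq_zero_right h1.symm).symm

omit [IsUltrametricDist W] [CharP W p] in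
theorem Cart.sub {σ : W → W} (h : Cart p L σ) {y z : W} (hy : y ∈ L) (hz : z ∈ L) :
    σ (y - z) = σ y - σ z := by
  rw [sub_eq_add_neg, h.add y hy (-z) (L.neg_mem hz), h.neg hz, ← sub_eq_add_neg]

omit [IsUltrametricDist W] [CharP W p] in
theorem Cart.pow {σ : W → W} (h : Cart p L σ) {a : W} (ha : a ∈ L) : σ (a ^ p) = a := by
  have h1 := h.smul a ha 1 L.one_mem
  rw [mul_one, h.one, mul_one] at h1
  exact h1

end HR
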