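import Pool.Agent.Lib.HR.OL2
import Pool.Agent.Lib.HR.PC

/-!
# PCD: orthogonal coordinates and orthogonal bases over the field of p-th powers

`PCoord p L` is the same as an orthogonal basis of `L` over `powField p 1 L` (`mem_powField`,
`p ^ 1 = p`): the coordinate `b j ∈ powField p 1 L` is `(σ j y) ^ p` (choose the root in `L`, it is unique).

`pcoord_ext`: `L` has an orthogonal basis over `A = powField p 1 L` (finitely many `x j`; reindex by
`Fin n`), `L₁` has one over `L`, so `HasOB A L₁` (`hasOB_trans`); `A ≤ B = powField p 1 L₁ ≤ L₁`, and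
`orthBasis_top` gives an orthogonal basis over `B`.

`orthBasis_complete`: let `x j` be the basis of `L` over `L ^ p`.  For `y ∈ K` take `y n ∈ L`, `y n → y`;
`‖σ j (y n) - σ j (y m)‖ ^ p ‖x j‖ ≤ ‖y n - y m‖`, so `σ j (y n)` is a Cauchy sequence in `L ≤ K`, with
limit `s j ∈ K`, and `y = ∑ (s j) ^ p x j`.  Orthogonality over `K ^ p` by density of `L` in `K`
(continuity).
-/

namespace HR

open Polynomial MP1a953e

variable {W : Type*} [NormedField W] [IsUltrametricDist W] {p : ℕ} [Fact p.Prime] [CharP W p]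

omit [IsUltrametricDist W] [Fact p.Prime] [CharP W p] in
private theorem pcd_mk {L : Subfield W} {J : Type} [Fintype J] [DecidableEq J] (o : J)
    (x : J → W) (x_mem : ∀ j, x j ∈ L) (x_ne : ∀ j, x j ≠ 0) (x_o : x o = 1)
    (hspan : ∀ y ∈ L, ∃ a : J → W, (∀ j, a j ∈ L) ∧ ∑ j, (a j) ^ p * x j = y)
    (orth : ∀ a : J → W, (∀ j, a j ∈ L) → ∀ j, ‖a j‖ ^ p * ‖x j‖ ≤ ‖∑ i, (a i) ^ p * x i‖) :
    Nonempty (PCoord p L) := by
  classical
  refine ⟨{ J := J, fin := inferInstance, dec := inferInstance, o := o, x := x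
            σ := fun j y => if hy : y ∈ L then (hspan y hy).choose j else 0
            x_mem := x_mem, x_ne := x_ne, x_o := x_o
            σ_mem := ?_, sum := ?_, orth := orth }⟩
  · intro j y hy
    rw [dif_pos hy]
    exact (hspan y hy).choose_spec.1 j
  · intro y hy
    have h1 : ∀ j, (if hy : y ∈ L then (hspan y hy).choose j else 0) ^ p * x j =
        ((hspan y hy).choose j) ^ p * x j := by
      intro j
      rw [dif_pos hy]
    rw [Finset.sum_congr rfl fun j _ => h1 j]
    exact (hspan y hy).choose_spec.2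

omit [IsUltrametricDist W] in
private theorem pcd_powField_le (L : Subfield W) : powField p 1 L ≤ L := by
  intro x hx
  obtain ⟨y, hy, rfl⟩ := mem_powField.1 hx
  exact L.pow_mem hy _

theorem pcoord_of_orthBasis {L : Subfield W} {d : ℕ} {θ : Fin (d + 1) → W}
    (h : OrthBasis (powField p 1 L) L θ) : Nonempty (PCoord p L) := by
  refine pcd_mk 0 θ h.mem h.ne h.zero ?_ ?_
  · intro y hy
    obtain ⟨c, hc, hyc⟩ := h.span y hy
    choose a ha hac using fun i => mem_powField.1 (hc i)
    refine ⟨a, ha, ?_⟩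
    rw [hyc]
    refine Finset.sum_congr rfl fun i _ => ?_
    rw [← hac i, pow_one]
  · intro a ha j
    have h1 := h.orth (fun i => (a i) ^ p)
      (fun i => mem_powField.2 ⟨a i, ha i, by rw [pow_one]⟩) j
    rw [norm_mul, norm_pow] at h1
    exact h1

theorem hasOB_of_pcoord {L : Subfield W} (c : PCoord p L) :
    HasOB (powField p 1 L) (L : Set W) := by
  set e := Fintype.equivFin c.J with he
  have hsum : ∀ g : c.J → W, ∑ i, g (e.symm i) = ∑ j, g j := fun g =>
    Equiv.sum_comp e.symm g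
  refine ⟨Fintype.card c.J, fun i => c.x (e.symm i), ?_, ?_, ?_⟩
  · intro i
    exact c.x_ne _
  · intro y
    constructor
    · intro hy
      refine ⟨fun i => (c.σ (e.symm i) y) ^ p, fun i => mem_powField.2
        ⟨c.σ (e.symm i) y, c.σ_mem _ y hy, by rw [pow_one]⟩, ?_⟩
      have h1 := hsum fun j => (c.σ j y) ^ p * c.x j
      rw [c.sum y hy] at h1
      exact h1.symm
    · rintro ⟨a, ha, rfl⟩
      exact L.sum_mem fun i _ => L.mul_mem (pcd_powField_le L (ha i)) (c.x_mem _)
  · intro a ha i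
    choose b hb hba using fun i => mem_powField.1 (ha i)
    have h1 := c.orth (fun j => b (e j)) (fun j => hb _) (e.symm i)
    have h2 := hsum fun j => (b (e j)) ^ p * c.x j
    rw [← h2] at h1
    have h3 : ∀ i, a i = (b i) ^ p := fun i => by rw [← hba i, pow_one]
    simp only [Equiv.apply_symm_apply] at h1
    have h4 : ∑ j, a j * c.x (e.symm j) = ∑ j, b j ^ p * c.x (e.symm j) :=
      Finset.sum_congr rfl fun j _ => by rw [h3 j]
    rw [h4, h3 i, norm_pow]
    exact h1

theorem pcoord_ext {L L₁ : Subfield W} {d : ℕ} {θ : Fin (d + 1) → W} (h : OrthBasis L L₁ θ)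
    (hc : Nonempty (PCoord p L)) : Nonempty (PCoord p L₁) := by
  obtain ⟨c⟩ := hc
  have h1 : HasOB (powField p 1 L) (L₁ : Set W) :=
    hasOB_trans (pcd_powField_le L) h.le (hasOB_of_pcoord c) (hasOB_of_orthBasis h)
  have h2 : powField p 1 L ≤ powField p 1 L₁ := by
    intro x hx
    obtain ⟨y, hy, rfl⟩ := mem_powField.1 hx
    exact mem_powField.2 ⟨y, h.le hy, rfl⟩
  obtain ⟨e, η, hη⟩ := orthBasis_top h2 (pcd_powField_le L₁) h1
  exact pcoord_of_orthBasis hη

omit [IsUltrametricDist W] in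
private theorem pcd_seq {L K : Subfield W} (hd : DenseIn L K) {y : W} (hy : y ∈ K) :
    ∃ u : ℕ → W, (∀ n, u n ∈ L) ∧ Filter.Tendsto u Filter.atTop (nhds y) := by
  choose u hu hyu using fun n : ℕ => hd.2 y hy (1 / ((n : ℝ) + 1)) (by positivity)
  refine ⟨u, hu, ?_⟩
  rw [tendsto_iff_norm_sub_tendsto_zero]
  refine squeeze_zero (fun n => norm_nonneg _) (fun n => ?_)
    tendsto_one_div_add_atTop_nhds_zero_nat
  rw [norm_sub_rev]
  exact (hyu n).le

theorem pcoord_complete {L K : Subfield W} (hd : DenseIn L K) (hK : IsComplete (K : Set W))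
    (hc : Nonempty (PCoord p L)) : Nonempty (PCoord p K) := by
  obtain ⟨c⟩ := hc
  have hp : p.Prime := Fact.out
  refine pcd_mk c.o c.x (fun j => hd.1 (c.x_mem j)) c.x_ne c.x_o ?_ ?_
  · intro y hy
    obtain ⟨u, hu, hlim⟩ := pcd_seq hd hy
    have hcau : CauchySeq u := hlim.cauchySeq
    have hs : ∀ j, ∃ s ∈ K, Filter.Tendsto (fun n => c.σ j (u n)) Filter.atTop (nhds s) := by
      intro j
      have hxj : 0 < ‖c.x j‖ := norm_pos_iff.2 (c.x_ne j)
      have hcs : CauchySeq fun n => c.σ j (u n) := by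
        rw [Metric.cauchySeq_iff] at hcau ⊢
        intro ε hε
        obtain ⟨N, hN⟩ := hcau (ε ^ p * ‖c.x j‖) (by positivity)
        refine ⟨N, fun m hm n hn => ?_⟩
        have h1 := hN m hm n hn
        rw [dist_eq_norm] at h1 ⊢
        have h2 := c.norm_σ (L.sub_mem (hu m) (hu n)) j
        rw [c.σ_sub (hu m) (hu n)] at h2
        have h3 : ‖c.σ j (u m) - c.σ j (u n)‖ ^ p * ‖c.x j‖ < ε ^ p * ‖c.x j‖ :=
          lt_of_le_of_lt h2 h1
        exact lt_of_pow_lt_pow_left₀ p hε.le (lt_of_mul_lt_mul_right h3 hxj.le)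
      obtain ⟨s, hsK, hs⟩ := cauchySeq_tendsto_of_isComplete hK
        (fun n => hd.1 (c.σ_mem j _ (hu n))) hcs
      exact ⟨s, hsK, hs⟩
    choose s hsK hslim using hs
    refine ⟨s, hsK, ?_⟩
    have h1 : Filter.Tendsto (fun n => ∑ j, (c.σ j (u n)) ^ p * c.x j) Filter.atTop
        (nhds (∑ j, (s j) ^ p * c.x j)) :=
      tendsto_finsetSum _ fun j _ => ((hslim j).pow p).mul_const _
    have h2 : (fun n => ∑ j, (c.σ j (u n)) ^ p * c.x j) = u := by
      funext n
      exact c.sum (u n) (hu n)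
    rw [h2] at h1
    exact tendsto_nhds_unique h1 hlim
  · intro a ha j
    choose u hu hlim using fun i => pcd_seq hd (ha i)
    have h1 : Filter.Tendsto (fun n => ‖u j n‖ ^ p * ‖c.x j‖) Filter.atTop
        (nhds (‖a j‖ ^ p * ‖c.x j‖)) := ((hlim j).norm.pow p).mul_const _
    have h2 : Filter.Tendsto (fun n => ‖∑ i, (u i n) ^ p * c.x i‖) Filter.atTop
        (nhds ‖∑ i, (a i) ^ p * c.x i‖) :=
      (tendsto_finsetSum _ fun i _ => ((hlim i).pow p).mul_const _).norm
    exact le_of_tendsto_of_tendsto' h1 h2 fun n => c.orth (fun i => u i n) (fun i => hu i n) j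

end HR
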