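import Pool.Agent.Lib.HR.Stab2
import Pool.Agent.Lib.MP_1a953e_ag.Lin1
import Pool.Agent.Lib.MP_1a953e_ag.Lin3

/-!
# Am: algebraic maximality

`am_sep`: `adj K b` is finite separable, so it has an orthogonal basis `θ` with `θ 0 = 1` (`stable`,
`orthBasis_of_hasOB`); if there is another vector `θ 1 ≠ 0`, immediacy gives `c ∈ K` with
`‖θ 1 - c‖ < ‖θ 1‖`, contradicting orthogonality.  So `adj K b = K`.

`am_insep`: `b ^ p ∈ K`: `K` has orthogonal coordinates (`pcoord_complete`): `b ^ p = ∑ a j ^ p x j`,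
`a j ∈ K`; put `b' = b - a o`, `b' ^ p = ∑_{j ≠ o} a j ^ p x j`.  If `b' ≠ 0` there is `c ∈ K` with
`‖b' - c‖ < ‖b'‖`, so `‖b' ^ p - c ^ p‖ < ‖b'‖ ^ p`; but `b' ^ p - c ^ p` has the coordinates `a j` (`j ≠ o`) and
`- c` at `o`, and `‖b'‖ ^ p` is at most the maximum of the `‖a j‖ ^ p ‖x j‖`, `j ≠ o`: contradiction.

`am`: `b` algebraic over `K`: some `b ^ (p ^ n)` is separable over `K`
(`exists_pow_isSeparable`-like: `IsPurelyInseparable` / `minpoly` contraction); it lies in `adj K b`, so in `K`
(`am_sep`, `Imm.mono`); then descend with `am_insep` (`b ^ (p ^ (n-1))`, ...).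

`tt_of_am`: copy the proof of `MP1a953e.tt_of_class` (module Tow2): it only uses completeness and
algebraic maximality.
-/

namespace HR

open Polynomial MP1a953e

variable {W : Type*} [NormedField W] [IsUltrametricDist W] [IsAlgClosed W] {p : ℕ}
  [Fact p.Prime] [CharP W p] {k L K : Subfield W}

theorem am_sep (hk : IsAlgClosed k) (h : HCl p k L K) {b : W} (hb : IsSeparable K b)
    (hI : MP1a953e.Imm K (adj K b)) : b ∈ K := by
  have hFF : FF K (adj K b) := stable hk h (FSep.adj hb)
  obtain ⟨d, θ, hθ⟩ := orthBasis_of_hasOB (le_adj K b) hFF.ob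
  by_cases hd : ∃ i : Fin (d + 1), i ≠ 0
  · exfalso
    obtain ⟨i, hi⟩ := hd
    obtain ⟨f, hf, h1⟩ := hI.2 (θ i) (hθ.mem i) (hθ.ne i)
    have h2 := hθ.orth (fun j => if j = i then 1 else if j = 0 then -f else 0) (fun j => by
      split_ifs
      · exact K.one_mem
      · exact K.neg_mem hf
      · exact K.zero_mem) i
    have h3 : ∑ j, (if j = i then (1 : W) else if j = 0 then -f else 0) * θ j = θ i - f := by
      have h4 : ∀ j, (if j = i then (1 : W) else if j = 0 then -f else 0) * θ j =
          (if j = i then θ j else 0) + (if j = 0 then -f * θ j else 0) := by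
        intro j
        by_cases h5 : j = i
        · subst h5
          simp [hi]
        · simp [h5]
      rw [Finset.sum_congr rfl fun j _ => h4 j, Finset.sum_add_distrib,
        Finset.sum_ite_eq' Finset.univ i, Finset.sum_ite_eq' Finset.univ (0 : Fin (d + 1)),
        if_pos (Finset.mem_univ _), if_pos (Finset.mem_univ _), hθ.zero, mul_one,
        sub_eq_add_neg]
    rw [h3] at h2
    have h6 : (if i = i then (1 : W) else if i = 0 then -f else 0) * θ i = θ i := by simp
    have h7 : ‖θ i‖ ≤ ‖θ i - f‖ := by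
      calc ‖θ i‖ = ‖(if i = i then (1 : W) else if i = 0 then -f else 0) * θ i‖ := by rw [h6]
        _ ≤ ‖θ i - f‖ := h2
    linarith
  · push Not at hd
    obtain ⟨c, hc, hbc⟩ := hθ.span b (mem_adj_self K b)
    have h1 : ∑ i, c i * θ i = c 0 := by
      rw [Finset.sum_eq_single (0 : Fin (d + 1)), hθ.zero, mul_one]
      · intro j _ hj
        exact absurd (hd j) hj
      · intro h0
        exact absurd (Finset.mem_univ _) h0
    rw [hbc, h1]
    exact hc 0

omit [IsAlgClosed W] in
theorem am_insep (h : HCl p k L K) {b : W} (hb : b ^ p ∈ K)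
    (hI : MP1a953e.Imm K (adj K b)) : b ∈ K := by
  have hp : p.Prime := Fact.out
  obtain ⟨c⟩ := pcoord_complete h.dense h.complete h.pc
  set a : W := c.σ c.o (b ^ p) with ha
  have haK : a ∈ K := c.σ_mem c.o _ hb
  by_contra hbK
  have hne : b - a ≠ 0 := fun h0 => hbK (by rw [sub_eq_zero.1 h0]; exact haK)
  have hmem : b - a ∈ adj K b :=
    (adj K b).sub_mem (mem_adj_self K b) (le_adj K b haK)
  obtain ⟨f, hf, hlt⟩ := hI.2 _ hmem hne
  have hbpa : (b - a) ^ p = b ^ p - a ^ p := sub_pow_char b a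
  have hmemp : (b - a) ^ p ∈ K := by
    rw [hbpa]
    exact K.sub_mem hb (K.pow_mem haK p)
  have hlt' : ‖(b - a - f) ^ p‖ < ‖(b - a) ^ p‖ := by
    rw [norm_pow, norm_pow]
    exact pow_lt_pow_left₀ hlt (norm_nonneg _) hp.ne_zero
  obtain ⟨j, hj⟩ := c.exists_norm hmemp
  by_cases hjo : j = c.o
  · have h1 : c.σ j ((b - a) ^ p) = 0 := by
      rw [hbpa, c.σ_sub hb (K.pow_mem haK p), hjo, c.σ_o_pow haK, ← ha, sub_self]
    rw [h1, norm_zero, zero_pow hp.ne_zero, zero_mul] at hj
    exact hne (pow_eq_zero_iff hp.ne_zero |>.1 (norm_eq_zero.1 hj))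
  · have h2 : (b - a - f) ^ p = (b - a) ^ p - f ^ p := sub_pow_char (b - a) f
    have h3 : c.σ j ((b - a - f) ^ p) = c.σ j ((b - a) ^ p) := by
      rw [h2, c.σ_sub hmemp (K.pow_mem hf p), c.σ_ne_pow hf hjo, sub_zero]
    have h4 : (b - a - f) ^ p ∈ K := by
      rw [h2]
      exact K.sub_mem hmemp (K.pow_mem hf p)
    have h5 := c.norm_σ h4 j
    rw [h3, ← hj] at h5
    linarith

theorem am (hk : IsAlgClosed k) (h : HCl p k L K) {b : W} (hb : IsAlgebraic K b)
    (hI : MP1a953e.Imm K (adj K b)) : b ∈ K := by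
  have hp : p.Prime := Fact.out
  have : CharP K p := inferInstance
  obtain ⟨n, g, hg, hgf⟩ := exists_separable_of_irreducible p
    (minpoly.irreducible hb.isIntegral) hp.ne_zero
  have hroot : aeval (b ^ p ^ n) g = 0 := by
    have h1 := minpoly.aeval K b
    rw [← hgf, expand_aeval] at h1
    exact h1
  have hsep : IsSeparable K (b ^ p ^ n) := hg.of_dvd (minpoly.dvd K _ hroot)
  have hmono : ∀ m, MP1a953e.Imm K (adj K (b ^ p ^ m)) := fun m =>
    hI.mono (le_adj K _) (adj_le (le_adj K b) ((adj K b).pow_mem (mem_adj_self K b) _))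
  have key : ∀ m, b ^ p ^ m ∈ K → b ∈ K := by
    intro m
    induction m with
    | zero => intro h0; simpa using h0
    | succ m ih =>
      intro h0
      refine ih (am_insep h ?_ (hmono m))
      rw [← pow_mul, ← pow_succ]
      exact h0
  exact key n (am_sep hk h hsep (hmono n))

omit [IsAlgClosed W] in
private theorem ama_norm_sub_eq_left {x y : W} (h : ‖y‖ < ‖x‖) : ‖x - y‖ = ‖x‖ := by
  have h1 : ‖x‖ ≠ ‖-y‖ := by rw [norm_neg]; exact ne_of_gt h
  rw [sub_eq_add_neg, IsUltrametricDist.norm_add_eq_max_of_norm_ne_norm h1, norm_neg]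
  exact max_eq_left h.le

omit [IsAlgClosed W] in
private theorem ama_norm_shift {α b β : W} (h : ‖α - b‖ < ‖α - β‖) : ‖b - β‖ = ‖α - β‖ := by
  have h1 := ama_norm_sub_eq_left h
  have h2 : α - β - (α - b) = b - β := by ring
  rw [h2] at h1
  exact h1

omit [IsUltrametricDist W] [IsAlgClosed W] in
private theorem ama_gap {ι : Type*} (s : Multiset ι) (f : ι → ℝ) (r : ℝ) (h : ∀ x ∈ s, r < f x) :
    ∃ ρ > r, ∀ x ∈ s, ρ ≤ f x := by
  induction s using Multiset.induction with
  | empty => exact ⟨r + 1, by simp, by simp⟩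
  | cons c s ih =>
    obtain ⟨ρ, hρ, h1⟩ := ih fun x hx => h x (Multiset.mem_cons_of_mem hx)
    refine ⟨min ρ (f c), lt_min hρ (h c (Multiset.mem_cons_self c s)), ?_⟩
    intro x hx
    rcases Multiset.mem_cons.1 hx with rfl | hx
    · exact min_le_right _ _
    · exact (min_le_left _ _).trans (h1 x hx)

omit [IsAlgClosed W] in
private theorem ama_prod_strict {T a : W} (s : Multiset W) (hs : ∀ β ∈ s, ‖T - a‖ < ‖T - β‖) :
    ‖(s.map fun β => T - β).prod - (s.map fun β => a - β).prod‖ <
      ‖(s.map fun β => T - β).prod‖ := by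
  induction s using Multiset.induction with
  | empty => simp
  | cons c s ih =>
    have ih' := ih fun x hx => hs x (Multiset.mem_cons_of_mem hx)
    have hc : ‖T - a‖ < ‖T - c‖ := hs c (Multiset.mem_cons_self c s)
    have hac : ‖a - c‖ = ‖T - c‖ := ama_norm_shift hc
    simp only [Multiset.map_cons, Multiset.prod_cons]
    set P := (s.map fun β => T - β).prod
    set Q := (s.map fun β => a - β).prod
    have hP : 0 < ‖P‖ := lt_of_le_of_lt (norm_nonneg _) ih'
    have e : (T - c) * P - (a - c) * Q = (a - c) * (P - Q) + (T - a) * P := by ring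
    rw [e]
    refine lt_of_le_of_lt (IsUltrametricDist.norm_add_le_max _ _) (max_lt ?_ ?_)
    · rw [norm_mul, norm_mul, hac]
      exact mul_lt_mul_of_pos_left ih' (lt_of_le_of_lt (norm_nonneg _) hc)
    · rw [norm_mul, norm_mul]
      exact mul_lt_mul_of_pos_right hc hP

omit [Fact p.Prime] [CharP W p] in
theorem tt_of_am {F H : Subfield W} (hF : IsComplete (F : Set W))
    (ham : ∀ b : W, IsAlgebraic F b → MP1a953e.Imm F (adj F b) → b ∈ F) (hI : MP1a953e.Imm F H) {T : W}
    (hT : T ∈ H) (hTF : T ∉ F) : TT F T := by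
  have hne : (F : Set W).Nonempty := ⟨0, F.zero_mem⟩
  have hcl : IsClosed (F : Set W) := hF.isClosed
  have hpos : 0 < Metric.infDist T (F : Set W) := (hcl.notMem_iff_infDist_pos hne).1 hTF
  -- points of `F` have distance bigger than `r`
  have hFd : ∀ b ∈ F, Metric.infDist T (F : Set W) < ‖T - b‖ := by
    intro b hb
    by_contra hcon
    push Not at hcon
    have hTb : T - b ≠ 0 := by
      intro h
      exact hTF (by rw [sub_eq_zero.1 h]; exact hb)
    obtain ⟨f, hf, h1⟩ := hI.2 (T - b) (H.sub_mem hT (hI.1 hb)) hTb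
    have h2 : Metric.infDist T (F : Set W) ≤ dist T (b + f) :=
      Metric.infDist_le_dist_of_mem (F.add_mem hb hf)
    rw [dist_eq_norm, ← sub_sub] at h2
    linarith
  refine ⟨hpos, ?_⟩
  have key : ∀ n : ℕ, ∀ b : W, IsAlgebraic F b → (minpoly F b).natDegree = n →
      Metric.infDist T (F : Set W) < ‖T - b‖ := by
    intro n
    induction n using Nat.strong_induction_on with
    | _ n ih =>
    intro b hb hn
    by_contra hcon
    push Not at hcon
    have himm : MP1a953e.Imm F (adj F b) := by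
      refine ⟨le_adj F b, fun x hx hx0 => ?_⟩
      rw [mem_adj_iff, ← IntermediateField.mem_toSubalgebra,
        IntermediateField.adjoin_simple_toSubalgebra_of_isAlgebraic hb,
        Algebra.adjoin_singleton_eq_range_aeval] at hx
      obtain ⟨q, hq⟩ := hx
      have hq' : aeval b (q %ₘ minpoly F b) = x := by
        rw [aeval_modByMonic_eq_self_of_root (minpoly.aeval F b)]
        exact hq
      set h : Polynomial F := q %ₘ minpoly F b with hh
      have hh0 : h ≠ 0 := by
        intro h0
        rw [h0, map_zero] at hq'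
        exact hx0 hq'.symm
      have hdeg : h.natDegree < n := by
        rw [← hn]
        refine natDegree_lt_natDegree hh0 ?_
        exact degree_modByMonic_lt q (minpoly.monic hb.isIntegral)
      set G : Polynomial W := h.map (algebraMap F W) with hG
      have hG0 : G ≠ 0 := (Polynomial.map_ne_zero_iff (algebraMap F W).injective).2 hh0
      have hroots : ∀ β ∈ G.roots, Metric.infDist T (F : Set W) < ‖T - β‖ := by
        intro β hβ
        have h1 : aeval β h = 0 := by
          have := (mem_roots hG0).1 hβ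
          rwa [IsRoot.def, hG, eval_map_algebraMap] at this
        have h2 : IsAlgebraic F β := ⟨h, hh0, h1⟩
        have h3 : (minpoly F β).natDegree ≤ h.natDegree :=
          natDegree_le_of_dvd (minpoly.dvd F β h1) hh0
        exact ih _ (lt_of_le_of_lt h3 hdeg) β h2 rfl
      obtain ⟨ρ, hρ, hρ1⟩ := ama_gap G.roots (fun β => ‖T - β‖) _ hroots
      obtain ⟨a, ha, h1⟩ := (Metric.infDist_lt_iff hne).1 hρ
      rw [dist_eq_norm] at h1
      have h2 : ‖T - b‖ < ‖T - a‖ := lt_of_le_of_lt hcon (hFd a ha)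
      have h3 : ‖b - a‖ = ‖T - a‖ := ama_norm_shift h2
      have h4 : ∀ β ∈ G.roots, ‖b - a‖ < ‖b - β‖ := by
        intro β hβ
        have h5 : ‖T - b‖ < ‖T - β‖ := h2.trans (lt_of_lt_of_le h1 (hρ1 β hβ))
        rw [ama_norm_shift h5, h3]
        exact lt_of_lt_of_le h1 (hρ1 β hβ)
      have hev : ∀ c : W, G.eval c = G.leadingCoeff * (G.roots.map fun β => c - β).prod := by
        intro c
        conv_lhs => rw [(IsAlgClosed.splits G).eq_prod_roots]
        rw [eval_mul, eval_C, eval_multiset_prod, Multiset.map_map]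
        congr 2
        refine Multiset.map_congr rfl fun β _ => ?_
        simp
      have h6 : ‖G.eval b - G.eval a‖ < ‖G.eval b‖ := by
        rw [hev b, hev a, ← mul_sub, norm_mul, norm_mul]
        refine mul_lt_mul_of_pos_left (ama_prod_strict _ h4) ?_
        rw [norm_pos_iff]
        exact leadingCoeff_ne_zero.2 hG0
      have h7 : G.eval b = x := by rw [hG, eval_map_algebraMap]; exact hq'
      rw [h7] at h6
      refine ⟨G.eval a, ?_, h6⟩
      have h8 : G.eval a = algebraMap F W (h.eval ⟨a, ha⟩) := by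
        rw [hG]
        exact eval_map_apply (algebraMap F W) (⟨a, ha⟩ : F)
      rw [h8]
      exact (h.eval ⟨a, ha⟩).2
    have hbF := ham b hb himm
    exact absurd (hFd b hbF) (not_lt.2 hcon)
  intro b hb
  exact key _ b hb rfl


theorem tt_of_hcl (hk : IsAlgClosed k) (h : HCl p k L K) {H : Subfield W} (hI : MP1a953e.Imm K H) {T : W}
    (hT : T ∈ H) (hTF : T ∉ K) : TT K T :=
  tt_of_am h.complete (fun _ hb hI' => am hk h hb hI') hI hT hTF

end HR
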