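import Pool.Agent.Lib.HR.FS
import Pool.Agent.Lib.MP_1a953e_ag.Lin1
import Pool.Agent.Lib.MP_1a953e_ag.Lin3
import Pool.Agent.Lib.MP_1a953e_ag.GP1

/-!
# Conj: conjugate generators

`NormalIn K G`: `G` contains all roots of the minimal polynomials over `K` of its elements.
`exists_normal`: `K₁ = adj K y` (`FSep.prim`); `G` = field generated over `K` by all roots of
`minpoly K y` (splitting field inside `W`), finite separable and normal.

`conj_gen`: `G / K` finite separable normal, `K₁ ≤ G`, `N = H ⊔ G` as an intermediate field of `W / H` is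
finite separable and normal over `H` (generated by elements all of whose conjugates over `H` are in `G`).
An embedding `τ : HK → W` over `H` (`HK = H ⊔ K₁ ≤ N`) extends to an `H`-automorphism `σ` of `N`
(`AlgHom.liftNormal` / `IsAlgClosed.lift` and `AlgHom.restrictNormal`).  `σ` is isometric: `x` and `σ x` have the
same minimal polynomial over the complete field `H` (`norm_eq_of_minpoly_eq`).  `σ` maps `G` onto `G`: for
`x ∈ G`, `σ x` is a root of `minpoly K x`, so in `G`; same for `σ⁻¹`.  So: `τ x = σ x ∈ G` for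
`x ∈ HK`, `x ∈ G`; `τ Y = σ Y ∈ N`; if `adj G Y` is dense in `H ⊔ G` then `adj G (σ Y)` is dense in
`σ (H ⊔ G) = H ⊔ G`; `infDist (σ Y) G = infDist Y G`.
-/

namespace HR

open Polynomial MP1a953e

variable {W : Type*} [NormedField W] [IsAlgClosed W] {K K₁ G H : Subfield W}

/-- `G` is normal over `K` in `W` -/
def NormalIn (K G : Subfield W) : Prop := ∀ x ∈ G, ∀ β : W, aeval β (minpoly K x) = 0 → β ∈ G

theorem exists_normal (h : FSep K K₁) : ∃ G, K₁ ≤ G ∧ FSep K G ∧ NormalIn K G := by
  obtain ⟨y, -, hys, hK₁⟩ := h.prim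
  have hint : IsIntegral K y := hys.isIntegral
  have hsplW : ∀ q : Polynomial K, (q.map (algebraMap K W)).Splits := fun q => IsAlgClosed.splits _
  have hne : minpoly K y ≠ 0 := minpoly.ne_zero hint
  have hroot : ∀ x ∈ (minpoly K y).rootSet W, minpoly K y = minpoly K x := by
    intro x hx
    exact minpoly.eq_of_irreducible_of_monic (minpoly.irreducible hint)
      (mem_rootSet.1 hx).2 (minpoly.monic hint)
  obtain ⟨E, hE⟩ : ∃ E : IntermediateField K W,
      E = IntermediateField.adjoin K ((minpoly K y).rootSet W) := ⟨_, rfl⟩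
  have hfd : FiniteDimensional K E := by
    rw [hE]
    refine IntermediateField.finiteDimensional_adjoin fun x hx => ?_
    have h1 : minpoly K x ≠ 0 := by
      rw [← hroot x hx]
      exact hne
    exact minpoly.ne_zero_iff.1 h1
  have hsep : Algebra.IsSeparable K E := by
    rw [hE]
    rw [IntermediateField.isSeparable_adjoin_iff_isSeparable]
    intro x hx
    have h1 : (minpoly K x).Separable := by
      rw [← hroot x hx]
      exact hys
    exact h1
  have hspl : IsSplittingField K E (minpoly K y) := by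
    rw [hE]
    exact IntermediateField.adjoin_rootSet_isSplittingField (hsplW _)
  have hnorm : Normal K E := Normal.of_isSplittingField (minpoly K y)
  refine ⟨E.toSubfield, ?_, FSep.ofIF E, ?_⟩
  · rw [hK₁]
    refine adj_le ?_ ?_
    · intro x hx
      exact E.algebraMap_mem ⟨x, hx⟩
    · have h1 : y ∈ (minpoly K y).rootSet W := mem_rootSet.2 ⟨hne, minpoly.aeval K y⟩
      have h2 : y ∈ E := by
        rw [hE]
        exact IntermediateField.subset_adjoin K _ h1
      exact h2
  · intro x hx β hβ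
    have hx' : x ∈ E := hx
    have h1 : minpoly K (⟨x, hx'⟩ : E) = minpoly K x :=
      (minpoly.algebraMap_eq (algebraMap E W).injective (⟨x, hx'⟩ : E)).symm
    have h2 := hnorm.splits (⟨x, hx'⟩ : E)
    rw [h1] at h2
    have h3 := (IntermediateField.splits_iff_mem (hsplW (minpoly K x))).1 h2
    have h4 : minpoly K x ≠ 0 := by
      rw [← h1]
      exact minpoly.ne_zero (Algebra.IsIntegral.isIntegral (R := K) (⟨x, hx'⟩ : E))
    exact h3 β (mem_rootSet.2 ⟨h4, hβ⟩)

private theorem conj_alg {K H : Subfield W} (hKH : K ≤ H) {x : W} (h : IsAlgebraic K x) :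
    IsAlgebraic H x := by
  obtain ⟨q, hq0, hq⟩ := h
  refine ⟨q.map (Subfield.inclusion hKH), ?_, ?_⟩
  · exact (Polynomial.map_ne_zero_iff (Subfield.inclusion hKH).injective).2 hq0
  · rw [aeval_def, eval₂_map]
    rw [aeval_def] at hq
    exact hq

/-- an `H`-algebra map sends roots of a polynomial over `K ≤ H` to roots -/
private theorem conj_root (hKH : K ≤ H) {N : IntermediateField H W} (σ : N →ₐ[H] W) (q : Polynomial K)
    (x : N) : aeval (σ x) q = σ (∑ i ∈ Finset.range (q.natDegree + 1),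
      (algebraMap H N ⟨(q.coeff i : W), hKH (q.coeff i).2⟩) * x ^ i) := by
  rw [aeval_eq_sum_range, map_sum]
  refine Finset.sum_congr rfl fun i _ => ?_
  rw [map_mul, map_pow, AlgHom.commutes]
  rfl

theorem conj_gen [IsUltrametricDist W] (hH : IsComplete (H : Set W)) (hnt : ∃ x ∈ H, 1 < ‖x‖)
    (hKH : K ≤ H) (hG : FSep K G) (hn : NormalIn K G) (hK₁ : K₁ ≤ G)
    (HK : IntermediateField H W) (hHK : HK.toSubfield = H ⊔ K₁) (τ : HK →ₐ[H] W) (Y : HK)
    (hd : DenseIn (adj G (Y : W)) (H ⊔ G)) :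
    (∀ x : HK, (x : W) ∈ G → τ x ∈ G) ∧ (∀ x : HK, ‖τ x‖ = ‖(x : W)‖) ∧ τ Y ∈ H ⊔ G ∧
      DenseIn (adj G (τ Y)) (H ⊔ G) ∧
      Metric.infDist (τ Y) (G : Set W) = Metric.infDist (Y : W) (G : Set W) := by
  obtain ⟨N, hN⟩ : ∃ N : IntermediateField H W, N = IntermediateField.adjoin H (G : Set W) :=
    ⟨_, rfl⟩
  have hNs : ∀ x, x ∈ N ↔ x ∈ H ⊔ G := by
    intro x
    have h1 : x ∈ N ↔ x ∈ N.toSubfield := Iff.rfl
    rw [h1, hN, IntermediateField.adjoin_toSubfield]
    have h2 : Subfield.closure (Set.range (algebraMap H W) ∪ (G : Set W)) = H ⊔ G := by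
      apply le_antisymm
      · rw [Subfield.closure_le]
        rintro z (⟨w, rfl⟩ | hz)
        · exact (le_sup_left : H ≤ H ⊔ G) w.2
        · exact (le_sup_right : G ≤ H ⊔ G) hz
      · refine sup_le ?_ ?_
        · intro z hz
          exact Subfield.subset_closure (Or.inl ⟨⟨z, hz⟩, rfl⟩)
        · intro z hz
          exact Subfield.subset_closure (Or.inr hz)
    rw [h2]
  have hGN : ∀ x ∈ G, x ∈ N := fun x hx => (hNs x).2 ((le_sup_right : G ≤ H ⊔ G) hx)
  have hHN : ∀ x ∈ H, x ∈ N := fun x hx => (hNs x).2 ((le_sup_left : H ≤ H ⊔ G) hx)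
  have halgG : ∀ x ∈ G, IsAlgebraic H x := fun x hx =>
    conj_alg hKH (hG.sep x hx).isIntegral.isAlgebraic
  have halgN : Algebra.IsAlgebraic H N := by
    rw [hN]
    exact IntermediateField.isAlgebraic_adjoin fun x hx => (halgG x hx).isIntegral
  have hle : HK ≤ IntermediateField.adjoin H (G : Set W) := by
    rw [← hN]
    intro x hx
    have h1 : x ∈ HK.toSubfield := hx
    rw [hHK] at h1
    exact (hNs x).2 (sup_le_sup_left hK₁ H h1)
  obtain ⟨φ, hφ⟩ := IntermediateField.exists_algHom_adjoin_of_splits (F := H) (E := W) (K := W)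
    (S := (G : Set W)) (fun s hs => ⟨(halgG s hs).isIntegral, IsAlgClosed.splits _⟩) τ hle
  have hφ' : ∀ x : HK, φ ⟨(x : W), hle x.2⟩ = τ x := fun x => by
    rw [← hφ]
    rfl
  obtain ⟨σ, hσ⟩ : ∃ σ : N →ₐ[H] W, ∀ (x : HK) (hx : (x : W) ∈ N), σ ⟨(x : W), hx⟩ = τ x := by
    subst hN
    exact ⟨φ, fun x _ => hφ' x⟩
  have hYN : (Y : W) ∈ N := by
    rw [hN]
    exact hle Y.2
  have hσY : σ ⟨(Y : W), hYN⟩ = τ Y := hσ Y hYN
  have hinj : Function.Injective σ := σ.injective
  -- norms
  have hnorm : ∀ x : N, ‖σ x‖ = ‖(x : W)‖ := by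
    intro x
    have h1 : minpoly H (σ x) = minpoly H x := minpoly.algHom_eq σ hinj x
    have h2 : minpoly H (x : W) = minpoly H x :=
      minpoly.algebraMap_eq (algebraMap N W).injective x
    have h3 : IsAlgebraic H (x : W) := by
      have h4 := (halgN.isAlgebraic x)
      exact h4.algebraMap
    exact (norm_eq_of_minpoly_eq hH hnt h3 (by rw [h1, h2])).symm
  -- the image of `G`
  have hσG : ∀ (x : W) (hx : x ∈ G), σ ⟨x, hGN x hx⟩ ∈ G := by
    intro x hx
    apply hn x hx
    rw [conj_root hKH σ (minpoly K x) ⟨x, hGN x hx⟩]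
    have h1 : (∑ i ∈ Finset.range ((minpoly K x).natDegree + 1),
        (algebraMap H N ⟨((minpoly K x).coeff i : W), hKH ((minpoly K x).coeff i).2⟩) *
          (⟨x, hGN x hx⟩ : N) ^ i) = 0 := by
      apply (algebraMap N W).injective
      rw [map_sum, map_zero]
      have h2 := minpoly.aeval K x
      rw [aeval_eq_sum_range] at h2
      rw [← h2]
      refine Finset.sum_congr rfl fun i _ => ?_
      rw [map_mul, map_pow]
      rfl
    rw [h1, map_zero]
  have hσN : ∀ x : N, σ x ∈ N := by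
    have h0 : ∀ (x : W) (hx : x ∈ IntermediateField.adjoin H (G : Set W)) (hx' : x ∈ N),
        σ ⟨x, hx'⟩ ∈ N := by
      intro x hx
      refine IntermediateField.adjoin_induction H
        (p := fun x _ => ∀ hx' : x ∈ N, σ ⟨x, hx'⟩ ∈ N) ?_ ?_ ?_ ?_ ?_ hx
      · intro z hz hz'
        exact hGN _ (hσG z hz)
      · intro z hz'
        have h1 : (⟨algebraMap H W z, hz'⟩ : N) = algebraMap H N z := rfl
        rw [h1, AlgHom.commutes]
        exact hHN _ z.2
      · intro a b ha hb iha ihb hab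
        have ha' : a ∈ N := by rw [hN]; exact ha
        have hb' : b ∈ N := by rw [hN]; exact hb
        have h1 : (⟨a + b, hab⟩ : N) = ⟨a, ha'⟩ + ⟨b, hb'⟩ := rfl
        rw [h1, map_add]
        exact N.add_mem (iha ha') (ihb hb')
      · intro a ha iha ha2
        have ha' : a ∈ N := by rw [hN]; exact ha
        have h1 : (⟨a⁻¹, ha2⟩ : N) = (⟨a, ha'⟩ : N)⁻¹ := rfl
        rw [h1, map_inv₀]
        exact N.inv_mem (iha ha')
      · intro a b ha hb iha ihb hab
        have ha' : a ∈ N := by rw [hN]; exact ha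
        have hb' : b ∈ N := by rw [hN]; exact hb
        have h1 : (⟨a * b, hab⟩ : N) = ⟨a, ha'⟩ * ⟨b, hb'⟩ := rfl
        rw [h1, map_mul]
        exact N.mul_mem (iha ha') (ihb hb')
    intro x
    have h1 : (x : W) ∈ IntermediateField.adjoin H (G : Set W) := by
      rw [← hN]
      exact x.2
    exact h0 x h1 x.2
  -- surjectivity
  have hsurj : ∀ x : W, x ∈ N → ∃ x' : N, σ x' = x := by
    intro x hx
    let σ' : N →ₐ[H] N := AlgHom.codRestrict σ N.toSubalgebra hσN
    obtain ⟨x', hx'⟩ := (Algebra.IsAlgebraic.algHom_bijective σ').2 ⟨x, hx⟩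
    refine ⟨x', ?_⟩
    have h1 := congrArg (fun z : N => (z : W)) hx'
    exact h1
  have hsurjG : ∀ x ∈ G, ∃ x', ∃ hx' : x' ∈ G, σ ⟨x', hGN x' hx'⟩ = x := by
    intro x hx
    obtain ⟨x', hx'⟩ := hsurj x (hGN x hx)
    have h1 : (x' : W) ∈ G := by
      apply hn x hx
      have h2 := conj_root hKH σ (minpoly K x) x'
      rw [hx', minpoly.aeval] at h2
      have h3 : (∑ i ∈ Finset.range ((minpoly K x).natDegree + 1),
          (algebraMap H N ⟨((minpoly K x).coeff i : W), hKH ((minpoly K x).coeff i).2⟩) *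
            x' ^ i) = 0 := by
        apply hinj
        rw [← h2, map_zero]
      have h4 := congrArg (algebraMap N W) h3
      rw [map_sum, map_zero] at h4
      rw [aeval_eq_sum_range, ← h4]
      refine Finset.sum_congr rfl fun i _ => ?_
      rw [map_mul, map_pow]
      rfl
    exact ⟨x', h1, hx'⟩
  refine ⟨?_, ?_, ?_, ⟨?_, ?_⟩, ?_⟩
  · intro x hx
    rw [← hσ x (hGN _ hx)]
    exact hσG _ hx
  · intro x
    have hx : (x : W) ∈ N := by
      rw [hN]
      exact hle x.2
    rw [← hσ x hx]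
    exact hnorm _
  · rw [← hσY]
    exact (hNs _).1 (hσN _)
  · refine adj_le le_sup_right ?_
    rw [← hσY]
    exact (hNs _).1 (hσN _)
  · intro x hx ε hε
    obtain ⟨x', hx'⟩ := hsurj x ((hNs x).2 hx)
    obtain ⟨a, ha, hax⟩ := hd.2 (x' : W) ((hNs _).1 x'.2) ε hε
    -- `a` is mapped to `adj G (τ Y)`
    have h1 : ∀ a ∈ adj G (Y : W), ∃ ha : a ∈ N, σ ⟨a, ha⟩ ∈ adj G (τ Y) := by
      have h2 : adj G (Y : W) ≤
          ((adj G (τ Y)).comap (σ : N →+* W)).map (algebraMap N W) := by
        refine adj_le ?_ ?_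
        · intro g hg
          refine Subfield.mem_map.2 ⟨⟨g, hGN g hg⟩, ?_, rfl⟩
          exact Subfield.mem_comap.2 (le_adj G _ (hσG g hg))
        · refine Subfield.mem_map.2 ⟨⟨(Y : W), hYN⟩, ?_, rfl⟩
          refine Subfield.mem_comap.2 ?_
          have h3 : (σ : N →+* W) ⟨(Y : W), hYN⟩ = τ Y := hσY
          rw [h3]
          exact mem_adj_self G _
      intro a ha
      obtain ⟨b, hb, hba⟩ := Subfield.mem_map.1 (h2 ha)
      have hba' : (b : W) = a := hba
      subst hba'
      exact ⟨b.2, Subfield.mem_comap.1 hb⟩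
    obtain ⟨haN, ha'⟩ := h1 a ha
    refine ⟨σ ⟨a, haN⟩, ha', ?_⟩
    rw [← hx', ← map_sub, hnorm]
    exact hax
  · rw [← hσY]
    have hGne : (G : Set W).Nonempty := ⟨0, G.zero_mem⟩
    have key : ∀ (g : W) (hg : g ∈ G), dist (σ ⟨(Y : W), hYN⟩) (σ ⟨g, hGN g hg⟩) =
        dist (Y : W) g := by
      intro g hg
      rw [dist_eq_norm, dist_eq_norm, ← map_sub, hnorm]
      rfl
    apply le_antisymm
    · rw [Metric.le_infDist hGne]
      intro g hg
      rw [← key g hg]
      exact Metric.infDist_le_dist_of_mem (hσG g hg)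
    · rw [Metric.le_infDist hGne]
      intro g hg
      obtain ⟨g', hg', rfl⟩ := hsurjG g hg
      rw [key g' hg']
      exact Metric.infDist_le_dist_of_mem hg'

end HR
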