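import Pool.Agent.Lib.HR.Top

/-!
# CC: the normal form at the centre `b`

`cc σ p f b = NF σ p (taylor b f - C (f.eval b))`, so
`taylor b f = C (f.eval b) + cc σ p f b + wp p G` with `G = - Gop ...`?  (sign: `NF h = h + G - G^p`,
so `h = NF h + G^p - G = NF h + wp p G` with `G = Gop σ p h`.)
`cc_recenter`: `taylor b' f - C (f.eval b')` and `taylor e c - C (c.eval e)` (`e = b' - b`,
`c = cc σ p f b`) differ by `wp p (taylor e G - C (G.eval e))` (`taylor_taylor`, additivity of `wp`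
in characteristic `p`), so `NF_add_wp` applies.  `cc_wp`: same with `taylor b g - C (g.eval b)`.
-/

namespace HR

open Polynomial

variable {W : Type*} [NormedField W] [IsUltrametricDist W] {p : ℕ} [Fact p.Prime] [CharP W p]
  {L : Subfield W} {σ : W → W}

omit [IsUltrametricDist W] in
theorem wp_add (a b : W) : wp p (a + b) = wp p a + wp p b := by
  rw [wp, wp, wp, add_pow_char]
  ring

omit [IsUltrametricDist W] in
theorem wp_sub (a b : W) : wp p (a - b) = wp p a - wp p b := by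
  rw [wp, wp, wp, sub_pow_char]
  ring

omit [IsUltrametricDist W] in
theorem wp_poly_add (a b : W[X]) : wp p (a + b) = wp p a + wp p b := by
  rw [wp, wp, wp, add_pow_char]
  ring

omit [IsUltrametricDist W] in
theorem wp_poly_sub (a b : W[X]) : wp p (a - b) = wp p a - wp p b := by
  rw [wp, wp, wp, sub_pow_char]
  ring

omit [IsUltrametricDist W] [Fact p.Prime] [CharP W p] in
theorem wp_eval (g : W[X]) (b : W) : (wp p g).eval b = wp p (g.eval b) := by
  rw [wp, wp, eval_sub, eval_pow]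

omit [IsUltrametricDist W] [Fact p.Prime] [CharP W p] in
theorem wp_taylor (g : W[X]) (b : W) : taylor b (wp p g) = wp p (taylor b g) := by
  rw [wp, wp, taylor_apply, taylor_apply, sub_comp, pow_comp]

omit [IsUltrametricDist W] in
theorem norm_natCast_of_not_dvd {n : ℕ} (hn : ¬ p ∣ n) : ‖(n : W)‖ = 1 := by
  have hp : p.Prime := Fact.out
  have h1 : (n : ZMod p) ≠ 0 := by
    rw [Ne, ZMod.natCast_eq_zero_iff]
    exact hn
  have h2 : (n : ZMod p) ^ (p - 1) = 1 := ZMod.pow_card_sub_one_eq_one h1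
  have h3 : (n : W) ^ (p - 1) = 1 := by
    have h4 := congrArg (ZMod.castHom (dvd_refl p) W) h2
    rw [map_pow, map_natCast, map_one] at h4
    exact h4
  have h5 : ‖(n : W)‖ ^ (p - 1) = 1 := by rw [← norm_pow, h3, norm_one]
  exact (pow_eq_one_iff_of_nonneg (norm_nonneg _) (by have := hp.two_le; omega)).1 h5

/-- `‖wp a‖ ≤ N` if `N ≥ 1` and `‖a‖ ^ p ≤ N`. -/
theorem norm_wp_le {a : W} {N : ℝ} (hN : 1 ≤ N) (ha : ‖a‖ ^ p ≤ N) : ‖wp p a‖ ≤ N := by
  have hp : p.Prime := Fact.out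
  have h1 : ‖a‖ ≤ N := by
    by_cases h : ‖a‖ ≤ 1
    · linarith
    · exact (le_self_pow₀ (le_of_not_ge h) hp.ne_zero).trans ha
  rw [wp, sub_eq_add_neg]
  refine (IsUltrametricDist.norm_add_le_max _ _).trans (max_le ?_ ?_)
  · rw [norm_pow]; exact ha
  · rw [norm_neg]; exact h1

/-- `‖wp a‖ = ‖a‖ ^ p` if `‖a‖ > 1`. -/
theorem norm_wp_of_gt {a : W} (ha : 1 < ‖a‖) : ‖wp p a‖ = ‖a‖ ^ p := by
  have hp : p.Prime := Fact.out
  have h1 : ‖a‖ < ‖a‖ ^ p := by
    calc ‖a‖ = ‖a‖ ^ 1 := (pow_one _).symm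
      _ < ‖a‖ ^ p := pow_lt_pow_right₀ ha hp.one_lt
  rw [wp, sub_eq_add_neg, IsUltrametricDist.norm_add_eq_max_of_norm_ne_norm, norm_neg, norm_pow]
  · exact max_eq_left h1.le
  · rw [norm_neg, norm_pow]; exact h1.ne'

theorem norm_wp_of_lt {a : W} (ha : ‖a‖ < 1) : ‖wp p a‖ = ‖a‖ := by
  have hp : p.Prime := Fact.out
  by_cases h0 : a = 0
  · rw [h0, wp, zero_pow hp.ne_zero, sub_zero]
  have h1 : ‖a‖ ^ p < ‖a‖ := by
    calc ‖a‖ ^ p < ‖a‖ ^ 1 := pow_lt_pow_right_of_lt_one₀ (norm_pos_iff.2 h0) ha hp.one_lt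
      _ = ‖a‖ := pow_one _
  rw [wp, sub_eq_add_neg, IsUltrametricDist.norm_add_eq_max_of_norm_ne_norm, norm_neg, norm_pow]
  · exact max_eq_right h1.le
  · rw [norm_neg, norm_pow]; exact h1.ne

omit [IsUltrametricDist W] [Fact p.Prime] [CharP W p] in
private theorem cc_polyIn {f : W[X]} (hf : PolyIn L f) {b : W} (hb : b ∈ L) :
    PolyIn L (taylor b f - C (f.eval b)) :=
  polyIn_sub (polyIn_taylor hf hb) (polyIn_C (eval_mem hf hb))

omit [IsUltrametricDist W] in
theorem polyIn_cc (hσ : Cart p L σ) {f : W[X]} (hf : PolyIn L f) {b : W} (hb : b ∈ L) :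
    PolyIn L (cc σ p f b) := by
  exact polyIn_NF hσ (cc_polyIn hf hb)

omit [IsUltrametricDist W] in
theorem cc_coeff_zero (hσ : Cart p L σ) {f : W[X]} (hf : PolyIn L f) {b : W} (hb : b ∈ L) :
    (cc σ p f b).coeff 0 = 0 := by
  rw [cc, NF_coeff_zero hσ (cc_polyIn hf hb), coeff_sub, taylor_coeff_zero, coeff_C_zero, sub_self]

omit [IsUltrametricDist W] in
theorem Sop_cc (hσ : Cart p L σ) {f : W[X]} (hf : PolyIn L f) {b : W} (hb : b ∈ L) :
    Sop σ p (cc σ p f b) = 0 := by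
  exact Sop_NF hσ (cc_polyIn hf hb)

/-- Decomposition of `f` at `b`, with norm control of the Artin-Schreier part. -/
theorem cc_decomp (hσ : Cart p L σ) {f : W[X]} (hf : PolyIn L f) {b : W} (hb : b ∈ L) :
    ∃ G : W[X], PolyIn L G ∧ G.coeff 0 = 0 ∧
      taylor b f = C (f.eval b) + cc σ p f b + wp p G ∧
      ∀ s N : ℝ, 0 < s → 1 ≤ N → (∀ n, 1 ≤ n → ‖(taylor b f).coeff n‖ * s ^ n ≤ N) →
        ∀ n, (‖G.coeff n‖ * s ^ n) ^ p ≤ N := by
  have hh := cc_polyIn hf hb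
  refine ⟨Gop σ p (taylor b f - C (f.eval b)), polyIn_Gop hσ hh, Gop_coeff_zero hσ _, ?_, ?_⟩
  · rw [cc, NF, wp]
    ring
  · intro s N hs hN hbd n
    refine norm_Gop hσ hh hs hN (fun m hm => ?_) n
    rw [coeff_sub, coeff_C_of_ne_zero (by omega), sub_zero]
    exact hbd m hm

omit [IsUltrametricDist W] in
/-- Evaluation form: at `y = b + e`. -/
theorem cc_eval (hσ : Cart p L σ) {f : W[X]} (hf : PolyIn L f) {b : W} (hb : b ∈ L) :
    ∃ G : W[X], PolyIn L G ∧ G.coeff 0 = 0 ∧ ∀ y : W,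
      f.eval y = f.eval b + (cc σ p f b).eval (y - b) + wp p (G.eval (y - b)) := by
  have hh := cc_polyIn hf hb
  refine ⟨Gop σ p (taylor b f - C (f.eval b)), polyIn_Gop hσ hh, Gop_coeff_zero hσ _, fun y => ?_⟩
  have h1 : taylor b f = C (f.eval b) + cc σ p f b +
      wp p (Gop σ p (taylor b f - C (f.eval b))) := by
    rw [cc, NF, wp]
    ring
  have h2 : (taylor b f).eval (y - b) = f.eval y := by
    rw [taylor_eval, sub_add_cancel]
  rw [← h2]
  have h3 := congrArg (eval (y - b)) h1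
  rw [eval_add, eval_add, eval_C, wp_eval] at h3
  exact h3

omit [IsUltrametricDist W] in
theorem cc_recenter (hσ : Cart p L σ) {f : W[X]} (hf : PolyIn L f) {b b' : W} (hb : b ∈ L)
    (hb' : b' ∈ L) :
    cc σ p f b' = NF σ p (taylor (b' - b) (cc σ p f b) - C ((cc σ p f b).eval (b' - b))) := by
  have hh := cc_polyIn hf hb
  obtain ⟨e, he⟩ : ∃ e, e = b' - b := ⟨_, rfl⟩
  have heL : e ∈ L := by rw [he]; exact sub_mem hb' hb
  obtain ⟨G, hGd⟩ : ∃ G, G = Gop σ p (taylor b f - C (f.eval b)) := ⟨_, rfl⟩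
  have hG : PolyIn L G := by rw [hGd]; exact polyIn_Gop hσ hh
  obtain ⟨c, hcd⟩ : ∃ c, c = cc σ p f b := ⟨_, rfl⟩
  have hc : PolyIn L c := by rw [hcd]; exact polyIn_NF hσ hh
  have h1 : taylor b f = C (f.eval b) + c + wp p G := by
    rw [hcd, hGd, cc, NF, wp]
    ring
  have hb'e : b' = e + b := by rw [he, sub_add_cancel]
  have h2 : taylor b' f = C (f.eval b) + taylor e c + wp p (taylor e G) := by
    rw [hb'e, ← taylor_taylor, h1, map_add, map_add, taylor_C, wp_taylor]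
  have h3 : f.eval b' = f.eval b + c.eval e + wp p (G.eval e) := by
    have h4 := congrArg (eval e) h1
    rw [taylor_eval, ← hb'e, eval_add, eval_add, eval_C, wp_eval] at h4
    exact h4
  have h5 : taylor b' f - C (f.eval b') = (taylor e c - C (c.eval e)) +
      wp p (taylor e G - C (G.eval e)) := by
    have h6 : wp p (C (G.eval e)) = C (wp p (G.eval e)) := by
      rw [wp, wp, map_sub, map_pow]
    rw [wp_poly_sub, h2, h3, h6, C_add, C_add]
    ring
  rw [← he, ← hcd, cc, h5]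
  refine NF_add_wp hσ (polyIn_sub (polyIn_taylor hc heL) (polyIn_C (eval_mem hc heL)))
    (polyIn_sub (polyIn_taylor hG heL) (polyIn_C (eval_mem hG heL))) ?_
  rw [coeff_sub, taylor_coeff_zero, coeff_C_zero, sub_self]

omit [IsUltrametricDist W] in
theorem cc_add_wp (hσ : Cart p L σ) {f g : W[X]} (hf : PolyIn L f) (hg : PolyIn L g) {b : W}
    (hb : b ∈ L) : cc σ p (f + wp p g) b = cc σ p f b := by
  have h5 : taylor b (f + wp p g) - C ((f + wp p g).eval b) = (taylor b f - C (f.eval b)) +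
      wp p (taylor b g - C (g.eval b)) := by
    have h6 : wp p (C (g.eval b)) = C (wp p (g.eval b)) := by
      rw [wp, wp, map_sub, map_pow]
    rw [wp_poly_sub, map_add, wp_taylor, eval_add, wp_eval, h6, C_add]
    ring
  rw [cc, h5]
  refine NF_add_wp hσ (cc_polyIn hf hb) (cc_polyIn hg hb) ?_
  rw [coeff_sub, taylor_coeff_zero, coeff_C_zero, sub_self]

omit [IsUltrametricDist W] in
theorem cc_sub_wp (hσ : Cart p L σ) {f g : W[X]} (hf : PolyIn L f) (hg : PolyIn L g) {b : W}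
    (hb : b ∈ L) : cc σ p (f - wp p g) b = cc σ p f b := by
  have h1 : f - wp p g = f + wp p (-g) := by
    have h2 := wp_poly_sub (p := p) (0 : W[X]) g
    have h3 : wp p (0 : W[X]) = 0 := by
      rw [wp, zero_pow (Fact.out : p.Prime).ne_zero, sub_zero]
    rw [zero_sub, h3, zero_sub] at h2
    rw [h2, sub_eq_add_neg]
  rw [h1]
  exact cc_add_wp hσ hf (polyIn_neg hg) hb

/-- If `f - wp g` has nonconstant coefficients `< t` at the centre `b` (`t > 1`) then so has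
`cc σ p f b`. -/
theorem norm_cc_lt (hσ : Cart p L σ) {f g : W[X]} (hf : PolyIn L f) (hg : PolyIn L g) {b : W}
    (hb : b ∈ L) {s t : ℝ} (hs : 0 < s) (ht : 1 < t)
    (h : ∀ n, 1 ≤ n → ‖(taylor b (f - wp p g)).coeff n‖ * s ^ n < t) {n : ℕ} (hn : 1 ≤ n) :
    ‖(cc σ p f b).coeff n‖ * s ^ n < t := by
  have hfg : PolyIn L (f - wp p g) := polyIn_sub hf (polyIn_sub (polyIn_pow hg p) hg)
  rw [← cc_sub_wp hσ hf hg hb, cc]
  refine norm_NF_lt hσ (cc_polyIn hfg hb) hs ht (fun m hm => ?_) hn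
  rw [coeff_sub, coeff_C_of_ne_zero (by omega), sub_zero]
  exact h m hm

/-- evaluation bound: `‖h.eval y‖ ≤ N` if `h` has no constant term, `‖y‖ ≤ s` and
`‖h_n‖ s ^ n ≤ N`. -/
theorem norm_eval_le {h : W[X]} {s N : ℝ} (hs : 0 < s) (hN : 0 ≤ N) (h0 : h.coeff 0 = 0) {y : W}
    (hy : ‖y‖ ≤ s) (hb : ∀ n, 1 ≤ n → ‖h.coeff n‖ * s ^ n ≤ N) : ‖h.eval y‖ ≤ N := by
  rw [eval_eq_sum_range]
  refine IsUltrametricDist.norm_sum_le_of_forall_le_of_nonneg hN fun n _ => ?_
  rw [norm_mul, norm_pow]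
  by_cases hn : 1 ≤ n
  · exact (mul_le_mul_of_nonneg_left (pow_le_pow_left₀ (norm_nonneg _) hy n)
      (norm_nonneg _)).trans (hb n hn)
  · have : n = 0 := by omega
    rw [this, h0, norm_zero, zero_mul]
    exact hN

theorem norm_eval_lt {h : W[X]} {s N : ℝ} (hs : 0 < s) (hN : 0 < N) (h0 : h.coeff 0 = 0) {y : W}
    (hy : ‖y‖ ≤ s) (hb : ∀ n, 1 ≤ n → ‖h.coeff n‖ * s ^ n < N) : ‖h.eval y‖ < N := by
  rw [eval_eq_sum_range]
  have hne : (Finset.range (h.natDegree + 1)).Nonempty := ⟨0, by simp⟩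
  obtain ⟨n, _, hle⟩ := IsUltrametricDist.exists_norm_finsetSum_le_of_nonempty hne
    (fun n => h.coeff n * y ^ n)
  refine lt_of_le_of_lt hle ?_
  rw [norm_mul, norm_pow]
  by_cases hn : 1 ≤ n
  · exact lt_of_le_of_lt (mul_le_mul_of_nonneg_left (pow_le_pow_left₀ (norm_nonneg _) hy n)
      (norm_nonneg _)) (hb n hn)
  · have : n = 0 := by omega
    rw [this, h0, norm_zero, zero_mul]
    exact hN

end HR
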