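import Pool.Agent.Lib.HR.FS
import Pool.Agent.Lib.HR.CC
import Pool.Agent.Lib.MP_1a953e_ag.Lin1
import Pool.Agent.Lib.MP_1a953e_ag.GP1

/-!
# Dual: the dual basis with respect to the trace

`K₁ / K` finite separable of degree `n` prime to `p`, `θ` an orthogonal basis, `H` immediate over `K`,
`HK` the field `H ⊔ K₁` as an intermediate field of `W / H`.

Let `c i ∈ K₁` be the dual basis of `θ` for the trace form of `K₁ / K` (nondegenerate since `K₁ / K` is separable,
`traceForm_nondegenerate`; `BilinForm.dualBasis`): `Tr_{K₁/K} (c i θ j) = δ_ij`.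
Norms: for `x ∈ K₁`, `x = ∑ Tr(c i x) θ i`, so by orthogonality `‖Tr(c i x)‖ ‖θ i‖ ≤ ‖x‖`; with
`x = (c i)⁻¹` (`c i ≠ 0`): `Tr(1) = n`, `‖n‖ = 1`, so `‖θ i‖ ≤ ‖c i‖⁻¹`.
`θ` is also a basis of `HK` over `H` (`OrthBasis.sup`, Lin1), and for `x ∈ K₁` the matrix of the
multiplication by `x` in the basis `θ` is the same over `K` and over `H`, so
`Tr_{HK/H} x = Tr_{K₁/K} x`.  Hence for `Y = ∑ y j θ j`, `y j ∈ H`:
`∑_τ τ(c i) τ(Y) = Tr_{HK/H}(c i Y) = ∑ y j Tr(c i θ j) = y i` (`trace_eq_sum_embeddings`,
`W` algebraically closed).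
-/

namespace HR

open Polynomial MP1a953e

variable {W : Type*} [NormedField W] [IsUltrametricDist W] [IsAlgClosed W] {p : ℕ}
  [Fact p.Prime] [CharP W p] {K K₁ H : Subfield W}

omit [IsUltrametricDist W] [IsAlgClosed W] in
private theorem dual_coe_sum {F : Subfield W} {E : IntermediateField F W} {ι : Type*}
    (s : Finset ι) (g : ι → F) (t : ι → E) :
    ((∑ i ∈ s, g i • t i : E) : W) = ∑ i ∈ s, (g i : W) * (t i : W) := by
  classical
  induction s using Finset.induction_on with
  | empty => simp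
  | insert a s ha ih =>
    rw [Finset.sum_insert ha, Finset.sum_insert ha, ← ih]
    rfl

omit [IsUltrametricDist W] [IsAlgClosed W] in
private theorem dual_basis {F F' : Subfield W} {E : IntermediateField F W}
    (hE : E.toSubfield = F') {d : ℕ} {θ : Fin (d + 1) → W} (h : OrthBasis F F' θ) :
    ∃ b : Module.Basis (Fin (d + 1)) F E, ∀ i, ((b i : E) : W) = θ i := by
  have hm : ∀ i, θ i ∈ E := by
    intro i
    have h1 : θ i ∈ E.toSubfield := by rw [hE]; exact h.mem i
    exact h1
  have hli : LinearIndependent F (fun i => (⟨θ i, hm i⟩ : E)) := by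
    rw [Fintype.linearIndependent_iff]
    intro g hg i
    have h1 := congrArg (fun z : E => (z : W)) hg
    rw [dual_coe_sum] at h1
    have h2 := h.orth (fun i => (g i : W)) (fun i => (g i).2) i
    rw [show (∑ j, (g j : W) * θ j) = 0 from h1, norm_zero] at h2
    have h3 : (g i : W) * θ i = 0 := norm_le_zero_iff.1 h2
    have h4 : (g i : W) = 0 := (mul_eq_zero.1 h3).resolve_right (h.ne i)
    exact Subtype.ext h4
  have hsp : ⊤ ≤ Submodule.span F (Set.range fun i => (⟨θ i, hm i⟩ : E)) := by
    intro x _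
    have hx : (x : W) ∈ F' := by
      rw [← hE]
      exact x.2
    obtain ⟨c, hc, hxc⟩ := h.span _ hx
    have h1 : x = ∑ i, (⟨c i, hc i⟩ : F) • (⟨θ i, hm i⟩ : E) := by
      apply Subtype.ext
      rw [dual_coe_sum]
      exact hxc
    rw [h1]
    exact Submodule.sum_mem _ fun i _ => Submodule.smul_mem _ _ (Submodule.subset_span ⟨i, rfl⟩)
  refine ⟨Module.Basis.mk hli hsp, fun i => ?_⟩
  rw [Module.Basis.mk_apply]

omit [IsUltrametricDist W] [IsAlgClosed W] in
private theorem dual_trace {F : Subfield W} {E : IntermediateField F W} {d : ℕ}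
    (b : Module.Basis (Fin (d + 1)) F E) (x : E) (m : Fin (d + 1) → Fin (d + 1) → F)
    (hm : ∀ j, x * b j = ∑ k, m k j • b k) : Algebra.trace F E x = ∑ j, m j j := by
  rw [Algebra.trace_eq_matrix_trace b, Matrix.trace]
  refine Finset.sum_congr rfl fun j _ => ?_
  rw [Matrix.diag_apply, Algebra.leftMulMatrix_eq_repr_mul, hm j, map_sum, Finsupp.finsetSum_apply]
  rw [Finset.sum_eq_single j]
  · rw [map_smul, Module.Basis.repr_self, Finsupp.smul_apply, Finsupp.single_eq_same, smul_eq_mul,
      mul_one]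
  · intro k _ hk
    rw [map_smul, Module.Basis.repr_self, Finsupp.smul_apply, Finsupp.single_apply, if_neg hk,
      smul_zero]
  · intro h
    exact absurd (Finset.mem_univ j) h

theorem exists_dual (hE : FSep K K₁) (hp : ¬ p ∣ K.relfinrank K₁) {d : ℕ}
    {θ : Fin (d + 1) → W} (hθ : OrthBasis K K₁ θ) (hI : MP1a953e.Imm K H) :
    ∃ c : Fin (d + 1) → W, (∀ i, c i ∈ K₁) ∧ (∀ i, ‖c i‖ * ‖θ i‖ ≤ 1) ∧
      ∀ (HK : IntermediateField H W) [FiniteDimensional H HK],
        HK.toSubfield = H ⊔ K₁ → ∀ (y : Fin (d + 1) → W), (∀ i, y i ∈ H) →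
        ∀ (Y : HK), (Y : W) = ∑ i, y i * θ i → ∀ (c' : Fin (d + 1) → HK),
        (∀ i, (c' i : W) = c i) → ∀ i, ∑ τ : HK →ₐ[H] W, τ (c' i) * τ Y = y i := by
  obtain ⟨E, hfd, hsep, hEK⟩ := hE.toIF
  obtain ⟨b, hb⟩ := dual_basis hEK hθ
  -- the dual basis
  obtain ⟨cd, hcd⟩ : ∃ cd : Module.Basis (Fin (d + 1)) K E,
      ∀ i j, Algebra.trace K E (cd i * b j) = if j = i then 1 else 0 := by
    refine ⟨LinearMap.BilinForm.dualBasis (Algebra.traceForm K E) (traceForm_nondegenerate K E) b,
      fun i j => ?_⟩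
    have h1 := LinearMap.BilinForm.apply_dualBasis_left (traceForm_nondegenerate K E) b i j
    exact h1
  -- coordinates are traces
  have hrepr : ∀ (x : E) (i : Fin (d + 1)), b.repr x i = Algebra.trace K E (cd i * x) := by
    intro x i
    have h1 : x = ∑ j, b.repr x j • b j := (b.sum_repr x).symm
    conv_rhs => rw [h1, Finset.mul_sum, map_sum]
    rw [Finset.sum_eq_single i]
    · rw [mul_smul_comm, map_smul, hcd, if_pos rfl, smul_eq_mul, mul_one]
    · intro j _ hj
      rw [mul_smul_comm, map_smul, hcd, if_neg hj, smul_zero]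
    · intro h
      exact absurd (Finset.mem_univ i) h
  have hnorm : ∀ (x : E) (i : Fin (d + 1)),
      ‖((Algebra.trace K E (cd i * x) : K) : W)‖ * ‖θ i‖ ≤ ‖(x : W)‖ := by
    intro x i
    have h1 : (x : W) = ∑ j, ((b.repr x j : K) : W) * θ j := by
      have h2 := congrArg (fun z : E => (z : W)) (b.sum_repr x)
      rw [dual_coe_sum] at h2
      rw [← h2]
      exact Finset.sum_congr rfl fun j _ => by rw [hb j]
    rw [← hrepr, ← norm_mul, h1]
    exact hθ.orth (fun j => ((b.repr x j : K) : W)) (fun j => (b.repr x j).2) i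
  have hrank : Module.finrank K E = K.relfinrank K₁ := by
    rw [Subfield.relfinrank_eq_finrank_of_le hE.le]
    have h1 : E = Subfield.extendScalars hE.le := by
      apply IntermediateField.toSubfield_injective
      rw [hEK]
      rfl
    rw [h1]
  have hone : ‖((Algebra.trace K E (1 : E) : K) : W)‖ = 1 := by
    have h1 : Algebra.trace K E (1 : E) = (Module.finrank K E : K) := by
      have h2 := Algebra.trace_algebraMap_of_basis b (1 : K)
      rw [map_one] at h2
      rw [h2, Module.finrank_eq_card_basis b]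
      simp
    rw [h1, hrank]
    have h3 : (((K.relfinrank K₁ : ℕ) : K) : W) = ((K.relfinrank K₁ : ℕ) : W) := by
      norm_cast
    rw [h3]
    exact norm_natCast_of_not_dvd hp
  refine ⟨fun i => (cd i : W), ?_, ?_, ?_⟩
  · intro i
    have h1 : (cd i : W) ∈ E.toSubfield := (cd i).2
    rw [hEK] at h1
    exact h1
  · intro i
    have hne : cd i ≠ 0 := cd.ne_zero i
    have hne' : ((cd i : E) : W) ≠ 0 := fun h => hne (Subtype.ext h)
    have h1 := hnorm (cd i)⁻¹ i
    rw [mul_inv_cancel₀ hne, hone, one_mul] at h1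
    have h2 : (((cd i)⁻¹ : E) : W) = ((cd i : E) : W)⁻¹ := rfl
    rw [h2, norm_inv] at h1
    have h3 : 0 < ‖((cd i : E) : W)‖ := norm_pos_iff.2 hne'
    calc ‖((cd i : E) : W)‖ * ‖θ i‖ ≤ ‖((cd i : E) : W)‖ * ‖((cd i : E) : W)‖⁻¹ :=
          mul_le_mul_of_nonneg_left h1 h3.le
      _ = 1 := mul_inv_cancel₀ h3.ne'
  · intro HK _ hHK y hy Y hY c' hc' i
    have hθ' : OrthBasis H (H ⊔ K₁) θ := OrthBasis.sup hI hθ
    obtain ⟨bH, hbH⟩ := dual_basis hHK hθ'
    have hsepH : Algebra.IsSeparable H HK := by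
      refine ⟨fun x => ?_⟩
      have h1 : (x : W) ∈ H ⊔ K₁ := by
        rw [← hHK]
        exact x.2
      have h2 : IsSeparable H (x : W) := (hE.sup_base hI.1).sep _ h1
      have h3 : minpoly H (algebraMap HK W x) = minpoly H x :=
        minpoly.algebraMap_eq (algebraMap HK W).injective x
      have h4 : (minpoly H (algebraMap HK W x)).Separable := h2
      rw [h3] at h4
      exact h4
    have h1 : ∑ τ : HK →ₐ[H] W, τ (c' i) * τ Y =
        algebraMap H W (Algebra.trace H HK (c' i * Y)) := by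
      rw [trace_eq_sum_embeddings W]
      exact Finset.sum_congr rfl fun τ _ => (map_mul τ _ _).symm
    rw [h1]
    -- the trace of `c i * θ j` over `H`
    have h2 : ∀ j, Algebra.trace H HK (c' i * bH j) = if j = i then 1 else 0 := by
      intro j
      -- matrix of the multiplication over `K`
      let m : Fin (d + 1) → Fin (d + 1) → K := fun k l => b.repr ((cd i * b j) * b l) k
      have hm : ∀ l, (cd i * b j) * b l = ∑ k, m k l • b k := fun l => (b.sum_repr _).symm
      have hK := dual_trace b (cd i * b j) m hm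
      have hH := dual_trace bH (c' i * bH j) (fun k l => (⟨(m k l : W), hI.1 (m k l).2⟩ : H)) (by
        intro l
        apply Subtype.ext
        rw [dual_coe_sum]
        have h3 := congrArg (fun z : E => (z : W)) (hm l)
        rw [dual_coe_sum] at h3
        have h4 : (((cd i * b j) * b l : E) : W) = (cd i : W) * θ j * θ l := by
          rw [← hb j, ← hb l]
          rfl
        have h5 : (((c' i * bH j) * bH l : HK) : W) = (cd i : W) * θ j * θ l := by
          have h6 : ((cd i : E) : W) = (c' i : W) := (hc' i).symm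
          rw [← hbH j, ← hbH l, h6]
          rfl
        rw [h5, ← h4, h3]
        exact Finset.sum_congr rfl fun k _ => by rw [hb k, hbH k])
      rw [hH]
      rw [hcd i j] at hK
      apply Subtype.ext
      have h6 : ((∑ l, (⟨(m l l : W), hI.1 (m l l).2⟩ : H) : H) : W) =
          ((∑ l, m l l : K) : W) := by
        rw [← Subfield.subtype_apply, ← Subfield.subtype_apply, map_sum, map_sum]
        rfl
      rw [h6, ← hK]
      split_ifs <;> rfl
    have h3 : Y = ∑ j, (⟨y j, hy j⟩ : H) • bH j := by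
      apply Subtype.ext
      rw [dual_coe_sum, hY]
      exact Finset.sum_congr rfl fun j _ => by rw [hbH j]
    have h4 : Algebra.trace H HK (c' i * Y) = ⟨y i, hy i⟩ := by
      rw [h3, Finset.mul_sum, map_sum, Finset.sum_eq_single i]
      · rw [mul_smul_comm, map_smul, h2, if_pos rfl, smul_eq_mul, mul_one]
      · intro j _ hj
        rw [mul_smul_comm, map_smul, h2, if_neg hj, smul_zero]
      · intro h
        exact absurd (Finset.mem_univ i) h
    rw [h4]
    rfl

end HR
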