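import Pool.Agent.Lib.HR.GDefs
import Pool.Agent.Lib.MP_1a953e_ag.Calc3
import Pool.Agent.Lib.MP_1a953e_ag.Calc5

/-!
# GenL: two generators with the same distance are linearly related

`r = infDist T F = infDist Y F`.  By `TT.kl` (module Calc5) for `Y` in terms of `T` and for `T` in terms of `Y`:
`Y = e + A(T) + small`, `T = e' + B(Y) + small` (`small`: norm `< r`), with additive polynomials
`A = ∑ a h X^(p^h)`, `B = ∑ b h X^(p^h)` over `F`, `‖a h‖ r^(p^h) ≤ r`, `‖b h‖ r^(p^h) ≤ r`.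
`B` maps elements of norm `< r` to elements of norm `< r` (`‖b h‖ ‖x‖^(p^h) < ‖b h‖ r^(p^h) ≤ r` or `b h = 0`), so
`‖T - e'' - B(A(T))‖ < r` with `e'' = e' + B(e) ∈ F`.  Put `g = B.comp A - X` (a polynomial over `F`): by
`TT.dist_le` (Calc3), for `i ≥ 1`, `‖(hasseDeriv i g)(T)‖ r^i ≤ ‖g(T) + e''‖ < r`; for the additive polynomial
`B ∘ A`, `(hasseDeriv (p^m) (B ∘ A))(T)` is the coefficient `∑_{i+j=m} b i (a j)^(p^i)` of `X^(p^m)`
(the Hasse derivatives of index `p^m` of `c X^(p^h)` vanish for `h ≠ m` because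
`(p^h choose p^m)` is divisible by `p` for `m < h`, and it is `c` for `h = m`).
Let `α` be the largest `h` with `‖a h‖ r^(p^h) = r` and `β` the same for `B`.  They exist: if all
`‖a h‖ r^(p^h) < r` then `A(T) = A(s) + A(T - s)` for `s ∈ F` close to `T` has distance `< r` from `F`, so has
`Y`, contradiction with `infDist Y F = r` (choose `s` with `‖a h‖ ‖T - s‖^(p^h) < r` for the finitely many `h`).
For `m = α + β` the coefficient has the term `b β (a α)^(p^β)` with `‖·‖ r^(p^m) = r` exactly and all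
other terms (`i > β` or `j > α`) are smaller, so the coefficient has norm `r / r^(p^m)`.  If `m ≥ 1`
this contradicts `‖coefficient‖ r^(p^m) < r`.  So `α = 0`: all `a h`, `h ≥ 1`, have
`‖a h‖ r^(p^h) < r`; choose `s ∈ F` with `‖a h‖ ‖T - s‖^(p^h) < r` for all `1 ≤ h`;
`Y = (e + ∑_{h ≥ 1} a h s^(p^h)) + a 0 T + small`, and `‖a 0‖ r = r`, `‖a 0‖ = 1`.
-/

namespace HR

open Polynomial MP1a953e

variable {W : Type*} [NormedField W] [IsUltrametricDist W] [IsAlgClosed W] {p : ℕ}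
  [Fact p.Prime] [CharP W p] {F H : Subfield W} {T Y : W}

omit [IsAlgClosed W] in
private lemma gl_sum_lt {ι : Type*} (s : Finset ι) (f : ι → W) {C : ℝ} (hC : 0 < C)
    (h : ∀ i ∈ s, ‖f i‖ < C) : ‖∑ i ∈ s, f i‖ < C := by
  classical
  induction s using Finset.induction_on with
  | empty => simpa using hC
  | insert a s ha ih =>
    rw [Finset.sum_insert ha]
    refine (IsUltrametricDist.norm_add_le_max _ _).trans_lt (max_lt ?_ ?_)
    · exact h a (Finset.mem_insert_self _ _)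
    · exact ih (fun i hi => h i (Finset.mem_insert_of_mem hi))

omit [IsAlgClosed W] [Fact p.Prime] [CharP W p] in
private lemma gl_near (hT : TT F T) (N : ℕ) (a : ℕ → W) (P : ℕ → Prop)
    (h : ∀ i < N, P i → ‖a i‖ * Metric.infDist T (F : Set W) ^ p ^ i <
      Metric.infDist T (F : Set W)) :
    ∃ s ∈ F, ∀ i < N, P i → ‖a i‖ * ‖T - s‖ ^ p ^ i < Metric.infDist T (F : Set W) := by
  obtain ⟨r, hr⟩ : ∃ r, r = Metric.infDist T (F : Set W) := ⟨_, rfl⟩
  have hev : ∀ᶠ σ in nhds r, ∀ i ∈ Finset.range N, P i → ‖a i‖ * σ ^ p ^ i < r := by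
    rw [Filter.eventually_all_finset]
    intro i hi
    by_cases hP : P i
    · have h1 : Filter.Tendsto (fun σ : ℝ => ‖a i‖ * σ ^ p ^ i) (nhds r)
          (nhds (‖a i‖ * r ^ p ^ i)) := by
        apply Continuous.tendsto
        fun_prop
      have h2 := h i (Finset.mem_range.1 hi) hP
      rw [← hr] at h2
      exact (h1.eventually (gt_mem_nhds h2)).mono fun σ hσ _ => hσ
    · exact Filter.Eventually.of_forall fun σ hP' => absurd hP' hP
  rw [Metric.eventually_nhds_iff] at hev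
  obtain ⟨ε, hε, h3⟩ := hev
  obtain ⟨s, hs, h4, h5⟩ := hT.exists_near (ρ := r + ε) (by rw [← hr]; linarith)
  refine ⟨s, hs, fun i hi hP => ?_⟩
  rw [← hr] at h5 ⊢
  refine h3 ?_ i (Finset.mem_range.2 hi) hP
  rw [Real.dist_eq, abs_of_pos (by linarith)]
  linarith

omit [IsUltrametricDist W] [IsAlgClosed W] in
/-- Additivity of additive polynomials. -/
private lemma gl_add (N : ℕ) (a : ℕ → W) (x y : W) :
    ∑ i ∈ Finset.range N, a i * (x + y) ^ p ^ i =
      ∑ i ∈ Finset.range N, a i * x ^ p ^ i + ∑ i ∈ Finset.range N, a i * y ^ p ^ i := by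
  rw [← Finset.sum_add_distrib]
  refine Finset.sum_congr rfl fun i _ => ?_
  rw [add_pow_char_pow, mul_add]

omit [IsAlgClosed W] in
private lemma gl_ex (hT : TT F T) (N : ℕ) {a : ℕ → W} (haF : ∀ i, a i ∈ F) {e : W} (he : e ∈ F)
    (h1 : ‖Y - e - ∑ i ∈ Finset.range N, a i * T ^ p ^ i‖ < Metric.infDist T (F : Set W))
    (hr : Metric.infDist Y (F : Set W) = Metric.infDist T (F : Set W))
    (hle : ∀ i, ‖a i‖ * Metric.infDist T (F : Set W) ^ p ^ i ≤ Metric.infDist T (F : Set W)) :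
    ∃ α < N, ‖a α‖ * Metric.infDist T (F : Set W) ^ p ^ α = Metric.infDist T (F : Set W) ∧
      ∀ i < N, α < i →
        ‖a i‖ * Metric.infDist T (F : Set W) ^ p ^ i < Metric.infDist T (F : Set W) := by
  classical
  by_cases hex : ∃ i < N, ‖a i‖ * Metric.infDist T (F : Set W) ^ p ^ i =
      Metric.infDist T (F : Set W)
  · obtain ⟨i₀, hi₀, h2⟩ := hex
    have hne : ((Finset.range N).filter fun i => ‖a i‖ * Metric.infDist T (F : Set W) ^ p ^ i =
      Metric.infDist T (F : Set W)).Nonempty :=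
      ⟨i₀, Finset.mem_filter.2 ⟨Finset.mem_range.2 hi₀, h2⟩⟩
    have hmem := Finset.max'_mem _ hne
    rw [Finset.mem_filter, Finset.mem_range] at hmem
    refine ⟨_, hmem.1, hmem.2, fun i hi hlt => lt_of_le_of_ne (hle i) fun heq => ?_⟩
    have h3 : i ∈ (Finset.range N).filter fun i => ‖a i‖ *
        Metric.infDist T (F : Set W) ^ p ^ i = Metric.infDist T (F : Set W) :=
      Finset.mem_filter.2 ⟨Finset.mem_range.2 hi, heq⟩
    exact absurd (Finset.le_max' _ i h3) (not_le.2 hlt)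
  · exfalso
    push Not at hex
    have hr0 : 0 < Metric.infDist T (F : Set W) := hT.pos
    obtain ⟨s, hs, h2⟩ := gl_near (p := p) hT N a (fun _ => True)
      fun i hi _ => lt_of_le_of_ne (hle i) (hex i hi)
    have hb : e + ∑ i ∈ Finset.range N, a i * s ^ p ^ i ∈ (F : Set W) :=
      F.add_mem he (F.sum_mem fun i _ => F.mul_mem (haF i) (F.pow_mem hs _))
    have h3 := Metric.infDist_le_dist_of_mem (x := Y) hb
    rw [hr, dist_eq_norm] at h3
    have h4 : Y - (e + ∑ i ∈ Finset.range N, a i * s ^ p ^ i) =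
        (Y - e - ∑ i ∈ Finset.range N, a i * T ^ p ^ i) +
          ∑ i ∈ Finset.range N, a i * (T - s) ^ p ^ i := by
      have h5 := gl_add (p := p) N a (T - s) s
      rw [sub_add_cancel] at h5
      rw [h5]
      ring
    rw [h4] at h3
    refine absurd h3 (not_le.2 ((IsUltrametricDist.norm_add_le_max _ _).trans_lt
      (max_lt h1 (gl_sum_lt _ _ hr0 fun i hi => ?_))))
    rw [norm_mul, norm_pow]
    exact h2 i (Finset.mem_range.1 hi) trivial

omit [IsAlgClosed W] [Fact p.Prime] [CharP W p] in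
/-- The coefficient of the composition. -/
private lemma gl_coeff (N : ℕ) {a b : ℕ → W} {r : ℝ} (hr0 : 0 < r)
    (ha : ∀ i, ‖a i‖ * r ^ p ^ i ≤ r) (hb : ∀ i, ‖b i‖ * r ^ p ^ i ≤ r) {α β : ℕ}
    (hα : α < N) (hβ : β < N) (ha1 : ‖a α‖ * r ^ p ^ α = r) (hb1 : ‖b β‖ * r ^ p ^ β = r)
    (ha2 : ∀ i < N, α < i → ‖a i‖ * r ^ p ^ i < r)
    (hb2 : ∀ i < N, β < i → ‖b i‖ * r ^ p ^ i < r) (hp : p ≠ 0) :
    ‖∑ i ∈ Finset.range N, ∑ j ∈ Finset.range N,
      (if i + j = β + α then b i * a j ^ p ^ i else 0)‖ * r ^ p ^ (β + α) = r := by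
  classical
  have hterm : ∀ i j, ‖b i * a j ^ p ^ i‖ * r ^ p ^ (i + j) =
      ‖b i‖ * (‖a j‖ * r ^ p ^ j) ^ p ^ i := by
    intro i j
    rw [norm_mul, norm_pow, mul_pow, ← pow_mul, mul_assoc, pow_add, mul_comm (p ^ i)]
  have hpp : ∀ i, p ^ i ≠ 0 := fun i => pow_ne_zero _ hp
  have hmain : ‖b β * a α ^ p ^ β‖ * r ^ p ^ (β + α) = r := by
    rw [hterm, ha1, hb1]
  have hoth : ∀ i < N, ∀ j < N, i + j = β + α → (i, j) ≠ (β, α) →
      ‖b i * a j ^ p ^ i‖ < ‖b β * a α ^ p ^ β‖ := by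
    intro i hi j hj hij hne
    refine lt_of_mul_lt_mul_right (a := r ^ p ^ (β + α)) ?_ (pow_nonneg hr0.le _)
    rw [hmain, ← hij, hterm]
    rcases lt_trichotomy i β with h | h | h
    · have hj' : α < j := by omega
      by_cases hbi : b i = 0
      · rw [hbi, norm_zero, zero_mul]; exact hr0
      · refine lt_of_lt_of_le ?_ (hb i)
        refine mul_lt_mul_of_pos_left ?_ (norm_pos_iff.2 hbi)
        exact pow_lt_pow_left₀ (ha2 j hj hj') (by positivity) (hpp i)
    · exact absurd (Prod.ext h (by subst h; exact Nat.add_left_cancel hij)) hne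
    · refine lt_of_le_of_lt ?_ (hb2 i hi h)
      refine mul_le_mul_of_nonneg_left ?_ (norm_nonneg _)
      exact pow_le_pow_left₀ (by positivity) (ha j) _
  have hpos : 0 < ‖b β * a α ^ p ^ β‖ := by
    by_contra h
    have h0 : ‖b β * a α ^ p ^ β‖ = 0 := le_antisymm (not_lt.1 h) (norm_nonneg _)
    rw [h0, zero_mul] at hmain
    exact hr0.ne hmain
  rw [← Finset.sum_product', ← Finset.sum_filter (s := Finset.range N ×ˢ Finset.range N)
    (fun x : ℕ × ℕ => x.1 + x.2 = β + α) (fun x => b x.1 * a x.2 ^ p ^ x.1)]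
  have hmem : (β, α) ∈ (Finset.range N ×ˢ Finset.range N).filter
      (fun x : ℕ × ℕ => x.1 + x.2 = β + α) := by
    rw [Finset.mem_filter, Finset.mem_product, Finset.mem_range, Finset.mem_range]
    exact ⟨⟨hβ, hα⟩, rfl⟩
  rw [← Finset.add_sum_erase _ _ hmem]
  have hrest : ‖∑ x ∈ ((Finset.range N ×ˢ Finset.range N).filter
      (fun x : ℕ × ℕ => x.1 + x.2 = β + α)).erase (β, α), b x.1 * a x.2 ^ p ^ x.1‖ <
      ‖b β * a α ^ p ^ β‖ := by
    refine gl_sum_lt _ _ hpos ?_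
    rintro ⟨i, j⟩ hx
    rw [Finset.mem_erase, Finset.mem_filter, Finset.mem_product, Finset.mem_range,
      Finset.mem_range] at hx
    exact hoth i hx.2.1.1 j hx.2.1.2 hx.2.2 hx.1
  rw [IsUltrametricDist.norm_add_eq_max_of_norm_ne_norm hrest.ne', max_eq_left hrest.le]
  exact hmain

/-- No common top index other than `0`. -/
private lemma gl_zero (hT : TT F T) (N : ℕ) {a b : ℕ → W} (haF : ∀ i, a i ∈ F)
    (hbF : ∀ i, b i ∈ F) {e'' : W} (he : e'' ∈ F)
    (h1 : ‖T - e'' - ∑ i ∈ Finset.range N, b i *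
      (∑ j ∈ Finset.range N, a j * T ^ p ^ j) ^ p ^ i‖ < Metric.infDist T (F : Set W))
    {α β : ℕ} (hc : ‖∑ i ∈ Finset.range N, ∑ j ∈ Finset.range N,
      (if i + j = β + α then b i * a j ^ p ^ i else 0)‖ *
        Metric.infDist T (F : Set W) ^ p ^ (β + α) = Metric.infDist T (F : Set W)) :
    β + α = 0 := by
  have hp : p.Prime := Fact.out
  by_contra hne
  obtain ⟨g, hg⟩ : ∃ g : W[X], g = ∑ i ∈ Finset.range N, ∑ j ∈ Finset.range N,
      monomial (p ^ (i + j)) (b i * a j ^ p ^ i) - X := ⟨_, rfl⟩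
  have hgF : Coeffs F g := by
    intro n
    rw [hg, coeff_sub, finsetSum_coeff]
    refine F.sub_mem (F.sum_mem fun i _ => ?_) ?_
    · rw [finsetSum_coeff]
      refine F.sum_mem fun j _ => ?_
      rw [coeff_monomial]
      split_ifs
      · exact F.mul_mem (hbF i) (F.pow_mem (haF j) _)
      · exact F.zero_mem
    · rw [coeff_X]
      split_ifs
      · exact F.one_mem
      · exact F.zero_mem
  have hgT : g.eval T = ∑ i ∈ Finset.range N, b i *
      (∑ j ∈ Finset.range N, a j * T ^ p ^ j) ^ p ^ i - T := by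
    rw [hg, eval_sub, eval_X, eval_finsetSum]
    congr 1
    refine Finset.sum_congr rfl fun i _ => ?_
    rw [eval_finsetSum, sum_pow_char_pow, Finset.mul_sum]
    refine Finset.sum_congr rfl fun j _ => ?_
    rw [eval_monomial, mul_pow, ← pow_mul, mul_assoc, pow_add, mul_comm (p ^ i)]
  have hgm : (hasseDeriv (p ^ (β + α)) g).eval T = ∑ i ∈ Finset.range N,
      ∑ j ∈ Finset.range N, (if i + j = β + α then b i * a j ^ p ^ i else 0) := by
    rw [hg, map_sub, map_sum, eval_sub, eval_finsetSum]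
    have hX : hasseDeriv (p ^ (β + α)) (X : W[X]) = 0 := by
      refine hasseDeriv_eq_zero_of_lt_natDegree _ _ ?_
      rw [natDegree_X]
      exact Nat.one_lt_pow hne hp.one_lt
    rw [hX, eval_zero, sub_zero]
    refine Finset.sum_congr rfl fun i _ => ?_
    rw [map_sum, eval_finsetSum]
    refine Finset.sum_congr rfl fun j _ => ?_
    rw [hasseDeriv_monomial, eval_monomial]
    split_ifs with hij
    · rw [hij, Nat.choose_self, Nat.cast_one, one_mul, Nat.sub_self, pow_zero, mul_one]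
    · have hd : p ∣ (p ^ (i + j)).choose (p ^ (β + α)) :=
        hp.dvd_choose_pow (pow_ne_zero _ hp.ne_zero)
          (fun h => hij (Nat.pow_right_injective hp.two_le h).symm)
      rw [(CharP.cast_eq_zero_iff W p _).2 hd, zero_mul, zero_mul]
  have h2 := hT.dist_le hgF (F.neg_mem he) (i := p ^ (β + α)) (Nat.one_le_pow _ _ hp.pos)
  rw [hgm, hc, hgT] at h2
  have h3 : ∑ i ∈ Finset.range N, b i * (∑ j ∈ Finset.range N, a j * T ^ p ^ j) ^ p ^ i - T -
      -e'' = -(T - e'' - ∑ i ∈ Finset.range N, b i *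
        (∑ j ∈ Finset.range N, a j * T ^ p ^ j) ^ p ^ i) := by ring
  rw [h3, norm_neg] at h2
  exact absurd h2 (not_le.2 h1)

include p in
theorem gen_linear (hT : TT F T) (hY : TT F Y) (hTH : T ∈ H) (hYH : Y ∈ H)
    (hTd : DenseIn (adj F T) H) (hYd : DenseIn (adj F Y) H)
    (hr : Metric.infDist Y (F : Set W) = Metric.infDist T (F : Set W)) :
    ∃ e ∈ F, ∃ c ∈ F, ‖c‖ ≤ 1 ∧ ‖Y - e - c * T‖ < Metric.infDist T (F : Set W) := by
  classical
  have hp : p.Prime := Fact.out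
  have hr0 : 0 < Metric.infDist T (F : Set W) := hT.pos
  obtain ⟨e, he, M, a', haF', ha', h1'⟩ := hT.kl (p := p) hTd hYH hr.le
  obtain ⟨e', he', M', b', hbF', hb', h2'⟩ := hY.kl (p := p) hYd hTH hr.ge
  -- a common range
  obtain ⟨N, hN⟩ : ∃ N, N = max (M + 1) (M' + 1) := ⟨_, rfl⟩
  have hMN : M + 1 ≤ N := by rw [hN]; exact le_max_left _ _
  have hMN' : M' + 1 ≤ N := by rw [hN]; exact le_max_right _ _
  have hext : ∀ (c : ℕ → W) (K : ℕ) (x : W), K ≤ N →
      ∑ i ∈ Finset.range N, (if i < K then c i else 0) * x ^ p ^ i =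
        ∑ i ∈ Finset.range K, c i * x ^ p ^ i := by
    intro c K x hK
    rw [← Finset.sum_subset (Finset.range_mono hK)]
    · refine Finset.sum_congr rfl fun i hi => ?_
      rw [if_pos (Finset.mem_range.1 hi)]
    · intro i _ hi
      rw [if_neg (fun h => hi (Finset.mem_range.2 h)), zero_mul]
  obtain ⟨a, haq⟩ : ∃ a : ℕ → W, a = fun i => if i < M + 1 then a' i else 0 := ⟨_, rfl⟩
  obtain ⟨b, hbq⟩ : ∃ b : ℕ → W, b = fun i => if i < M' + 1 then b' i else 0 := ⟨_, rfl⟩
  have haF : ∀ i, a i ∈ F := by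
    intro i
    rw [haq]
    dsimp only
    split_ifs
    · exact haF' i
    · exact F.zero_mem
  have hbF : ∀ i, b i ∈ F := by
    intro i
    rw [hbq]
    dsimp only
    split_ifs
    · exact hbF' i
    · exact F.zero_mem
  have ha : ∀ i, ‖a i‖ * Metric.infDist T (F : Set W) ^ p ^ i ≤
      Metric.infDist T (F : Set W) := by
    intro i
    rw [haq]
    dsimp only
    split_ifs
    · exact ha' i
    · rw [norm_zero, zero_mul]; exact hr0.le
  have hb : ∀ i, ‖b i‖ * Metric.infDist T (F : Set W) ^ p ^ i ≤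
      Metric.infDist T (F : Set W) := by
    intro i
    rw [hbq]
    dsimp only
    split_ifs
    · rw [← hr]; exact hb' i
    · rw [norm_zero, zero_mul]; exact hr0.le
  have h1 : ‖Y - e - ∑ i ∈ Finset.range N, a i * T ^ p ^ i‖ < Metric.infDist T (F : Set W) := by
    rw [haq, hext a' (M + 1) T hMN]
    exact h1'
  have h2 : ‖T - e' - ∑ i ∈ Finset.range N, b i * Y ^ p ^ i‖ < Metric.infDist T (F : Set W) := by
    rw [hbq, hext b' (M' + 1) Y hMN', ← hr]
    exact h2'
  -- the composition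
  have h3 : ‖T - (e' + ∑ i ∈ Finset.range N, b i * e ^ p ^ i) - ∑ i ∈ Finset.range N, b i *
      (∑ j ∈ Finset.range N, a j * T ^ p ^ j) ^ p ^ i‖ < Metric.infDist T (F : Set W) := by
    obtain ⟨A, hA⟩ : ∃ A, A = ∑ j ∈ Finset.range N, a j * T ^ p ^ j := ⟨_, rfl⟩
    rw [← hA] at h1 ⊢
    have e1 := gl_add (p := p) N b e (A + (Y - e - A))
    have e2 := gl_add (p := p) N b A (Y - e - A)
    have e3 : e + (A + (Y - e - A)) = Y := by ring
    rw [e3, e2] at e1
    have e4 : T - (e' + ∑ i ∈ Finset.range N, b i * e ^ p ^ i) -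
        ∑ i ∈ Finset.range N, b i * A ^ p ^ i = (T - e' - ∑ i ∈ Finset.range N, b i * Y ^ p ^ i) +
          ∑ i ∈ Finset.range N, b i * (Y - e - A) ^ p ^ i := by
      rw [e1]; ring
    rw [e4]
    refine (IsUltrametricDist.norm_add_le_max _ _).trans_lt
      (max_lt h2 (gl_sum_lt _ _ hr0 fun i _ => ?_))
    rw [norm_mul, norm_pow]
    by_cases hbi : b i = 0
    · rw [hbi, norm_zero, zero_mul]; exact hr0
    · refine lt_of_lt_of_le (mul_lt_mul_of_pos_left ?_ (norm_pos_iff.2 hbi)) (hb i)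
      exact pow_lt_pow_left₀ h1 (norm_nonneg _) (pow_ne_zero _ hp.ne_zero)
  obtain ⟨α, hα, ha1, ha2⟩ := gl_ex (p := p) hT N haF he h1 hr ha
  obtain ⟨β, hβ, hb1, hb2⟩ := gl_ex (p := p) (T := Y) (Y := T) hY N hbF he' (by rwa [hr]) hr.symm
    (by rwa [hr])
  rw [hr] at hb1 hb2
  have hcoef := gl_coeff (p := p) N hr0 ha hb hα hβ ha1 hb1 ha2 hb2 hp.ne_zero
  have hz := gl_zero (p := p) hT N haF hbF (F.add_mem he' (F.sum_mem fun i _ =>
    F.mul_mem (hbF i) (F.pow_mem he _))) h3 hcoef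
  have hα0 : α = 0 := by omega
  subst hα0
  rw [pow_zero, pow_one] at ha1
  have hnorm : ‖a 0‖ = 1 := by
    have h4 : ‖a 0‖ * Metric.infDist T (F : Set W) = 1 * Metric.infDist T (F : Set W) := by
      rw [ha1, one_mul]
    exact mul_right_cancel₀ hr0.ne' h4
  obtain ⟨s, hs, h4⟩ := gl_near (p := p) hT N a (fun i => 0 < i) ha2
  refine ⟨e + ∑ i ∈ (Finset.range N).erase 0, a i * s ^ p ^ i,
    F.add_mem he (F.sum_mem fun i _ => F.mul_mem (haF i) (F.pow_mem hs _)), a 0, haF 0,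
    hnorm.le, ?_⟩
  have h5 : Y - (e + ∑ i ∈ (Finset.range N).erase 0, a i * s ^ p ^ i) - a 0 * T =
      (Y - e - ∑ i ∈ Finset.range N, a i * T ^ p ^ i) +
        ∑ i ∈ (Finset.range N).erase 0, a i * (T - s) ^ p ^ i := by
    rw [← Finset.add_sum_erase _ _ (Finset.mem_range.2 hα), pow_zero, pow_one]
    have h6 : ∑ i ∈ (Finset.range N).erase 0, a i * T ^ p ^ i =
        ∑ i ∈ (Finset.range N).erase 0, a i * (T - s) ^ p ^ i +
          ∑ i ∈ (Finset.range N).erase 0, a i * s ^ p ^ i := by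
      rw [← Finset.sum_add_distrib]
      refine Finset.sum_congr rfl fun i _ => ?_
      rw [← mul_add, ← add_pow_char_pow, sub_add_cancel]
    rw [h6]
    ring
  rw [h5]
  refine (IsUltrametricDist.norm_add_le_max _ _).trans_lt
    (max_lt h1 (gl_sum_lt _ _ hr0 fun i hi => ?_))
  rw [Finset.mem_erase, Finset.mem_range] at hi
  rw [norm_mul, norm_pow]
  exact h4 i hi.2 (Nat.pos_of_ne_zero hi.1)

end HR
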