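import Pool.Agent.Lib.HR.FS
import Pool.Agent.Lib.MP_1a953e_ag.GP1

/-!
# APX: finite separable extensions of a complete field come from a dense subfield

`E = K(y)`, `f` the minimal polynomial of `y` over `K`, of degree `n`, separable.  `δ` = minimum of the
distances of `y` to the other roots of `f`.  For monic `g ∈ L[X]` of degree `n` close to `f`
coefficientwise (`L` is dense in `K`): `‖g(y)‖ = ‖g(y) - f(y)‖` is small, `g(y) = ∏ (y - β)` over the roots
`β` of `g` in `W`, so some root `y'` has `‖y - y'‖ < δ` (and `< ε`).  Krasner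
(`IsKrasner.krasner`, instance `IsKrasner.of_completeSpace` applied to the field `adj K {y, y'}` or to
the algebraic closure of `K` in `W`; the complete field `K` is a `NontriviallyNormedField`, as in the
proof of GP1): `y ∈ K(y')`.  So `n ≤ [K(y') : K] ≤ deg g = n`, `K(y') = K(y)`, `g` is the minimal
polynomial of `y'` over `K`, and over `L`.  It is separable: `y' ∈ K(y)` is separable over `K`.
`DenseIn (adj L y') E`: elements of `E` are `∑_{i<n} a i y'^i`, `a i ∈ K`, approximate the `a i`.
-/

namespace HR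

open Polynomial MP1a953e

variable {W : Type*} [NormedField W] [IsUltrametricDist W] [IsAlgClosed W]

omit [IsAlgClosed W] in
/-- Krasner's lemma for subfields. -/
theorem krasner {K : Subfield W} (hK : IsComplete (K : Set W)) (hnt : ∃ x ∈ K, 1 < ‖x‖)
    {y y' : W} (hy : IsSeparable K y) (hy' : IsAlgebraic K y')
    (hs : ((minpoly K y).map (algebraMap K W)).Splits)
    (h : ∀ β : W, aeval β (minpoly K y) = 0 → β ≠ y → ‖y - y'‖ < ‖y - β‖) : y ∈ adj K y' := by
  by_contra hcon
  have hcomp : IsComplete (adj K y' : Set W) := complete_adj hK hnt hy'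
  have hnt' : ∃ x ∈ adj K y', 1 < ‖x‖ := by
    obtain ⟨x, hx, hx1⟩ := hnt
    exact ⟨x, le_adj K y' hx, hx1⟩
  have hKle : K ≤ adj K y' := le_adj K y'
  have hmem : y' ∈ adj K y' := mem_adj_self K y'
  generalize adj K y' = K' at *
  let _ : Algebra K K' := (Subfield.inclusion hKle).toAlgebra
  have : IsScalarTower K K' W := IsScalarTower.of_algebraMap_eq' rfl
  have hyint : IsIntegral K y := hy.isIntegral
  have hyint' : IsIntegral K' y := hyint.tower_top
  have hdvd := minpoly.dvd_map_of_isScalarTower K K' y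
  have hdvdW : (minpoly K' y).map (algebraMap K' W) ∣ (minpoly K y).map (algebraMap K W) := by
    have h1 := Polynomial.map_dvd (algebraMap K' W) hdvd
    rwa [Polynomial.map_map, ← IsScalarTower.algebraMap_eq] at h1
  have hne : (minpoly K y).map (algebraMap K W) ≠ 0 :=
    (Polynomial.map_ne_zero_iff (algebraMap K W).injective).2 (minpoly.ne_zero hyint)
  have hspl := hs.of_dvd hne hdvdW
  have hsep : ((minpoly K' y).map (algebraMap K' W)).Separable :=
    (Polynomial.Separable.map (f := algebraMap K W) hy).of_dvd hdvdW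
  have hdeg : 2 ≤ (minpoly K' y).natDegree := by
    refine (minpoly.two_le_natDegree_iff hyint').2 ?_
    rintro ⟨z, hz⟩
    refine hcon ?_
    rw [← hz]
    exact z.2
  obtain ⟨β, hβ, hβy⟩ : ∃ β ∈ ((minpoly K' y).map (algebraMap K' W)).roots, β ≠ y := by
    by_contra hno
    push Not at hno
    have hcard := hspl.natDegree_eq_card_roots
    have hle : ((minpoly K' y).map (algebraMap K' W)).roots ≤ {y} :=
      (Multiset.le_iff_subset (nodup_roots hsep)).2 fun β hβ => by
        rw [hno β hβ]
        exact Multiset.mem_singleton_self y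
    have h2 := Multiset.card_le_card hle
    rw [← hcard, natDegree_map, Multiset.card_singleton] at h2
    omega
  have hroot : (minpoly K' y).aeval β = 0 := by
    have h3 := isRoot_of_mem_roots hβ
    rwa [IsRoot.def, eval_map_algebraMap] at h3
  have hmin : minpoly K' y = minpoly K' β :=
    minpoly.eq_of_irreducible_of_monic (minpoly.irreducible hyint') hroot (minpoly.monic hyint')
  have hrootK : aeval β (minpoly K y) = 0 := by
    have h3 : eval β ((minpoly K y).map (algebraMap K W)) = 0 :=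
      eval_eq_zero_of_dvd_of_eval_eq_zero hdvdW (by rw [eval_map_algebraMap]; exact hroot)
    rwa [eval_map_algebraMap] at h3
  have hlt := h β hrootK hβy
  have e1 : minpoly K' (y - y') = minpoly K' (β - y') := by
    have a1 := minpoly.sub_algebraMap (A := K') y ⟨y', hmem⟩
    have a2 := minpoly.sub_algebraMap (A := K') β ⟨y', hmem⟩
    rw [hmin] at a1
    exact a1.trans a2.symm
  have halg : IsAlgebraic K' (y - y') :=
    (hyint'.sub (isIntegral_algebraMap (x := (⟨y', hmem⟩ : K')))).isAlgebraic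
  have e2 := norm_eq_of_minpoly_eq hcomp hnt' halg e1
  have e3 : ‖y - β‖ ≤ ‖y - y'‖ := by
    have e4 : y - β = (y - y') + -(β - y') := by ring
    rw [e4]
    refine (IsUltrametricDist.norm_add_le_max _ _).trans ?_
    rw [norm_neg, ← e2, max_self]
  exact absurd hlt (not_lt.2 e3)

omit [IsUltrametricDist W] [IsAlgClosed W] in
private lemma apx_prod {y : W} {ε : ℝ} (hε : 0 < ε) (s : Multiset W)
    (h : ∀ β ∈ s, ε ≤ ‖y - β‖) : ε ^ Multiset.card s ≤ ‖(s.map fun β => y - β).prod‖ := by
  induction s using Multiset.induction_on with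
  | empty => simp
  | cons a s ih =>
    rw [Multiset.card_cons, pow_succ', Multiset.map_cons, Multiset.prod_cons, norm_mul]
    exact mul_le_mul (h a (Multiset.mem_cons_self a s))
      (ih fun β hβ => h β (Multiset.mem_cons_of_mem hβ)) (by positivity) (norm_nonneg _)

omit [IsUltrametricDist W] in
/-- Continuity of roots. -/
theorem exists_close_root {f g : W[X]} (hf : f.Monic) (hg : g.Monic)
    (hdeg : g.natDegree = f.natDegree) (hpos : 0 < f.natDegree) {y : W} (hy : f.eval y = 0) {ε : ℝ}
    (hε : 0 < ε) (hc : ∀ i, ‖g.coeff i - f.coeff i‖ * ((f.natDegree + 1 : ℕ) : ℝ) * max 1 ‖y‖ ^ i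
      < ε ^ f.natDegree) :
    ∃ β, g.eval β = 0 ∧ ‖y - β‖ < ε := by
  by_contra hcon
  push Not at hcon
  have h1 : ‖g.eval y‖ < ε ^ f.natDegree := by
    have e : g.eval y = ∑ i ∈ Finset.range (f.natDegree + 1), (g.coeff i - f.coeff i) * y ^ i := by
      have e1 := eval_eq_sum_range (p := f) y
      have e2 := eval_eq_sum_range (p := g) y
      rw [hdeg] at e2
      rw [hy] at e1
      simp only [sub_mul, Finset.sum_sub_distrib]
      rw [← e2, ← e1, sub_zero]
    have hn : (0 : ℝ) < ((f.natDegree + 1 : ℕ) : ℝ) := by positivity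
    rw [e]
    calc ‖∑ i ∈ Finset.range (f.natDegree + 1), (g.coeff i - f.coeff i) * y ^ i‖
        ≤ ∑ i ∈ Finset.range (f.natDegree + 1), ‖(g.coeff i - f.coeff i) * y ^ i‖ :=
          norm_sum_le _ _
      _ < ∑ _i ∈ Finset.range (f.natDegree + 1),
          ε ^ f.natDegree / ((f.natDegree + 1 : ℕ) : ℝ) := by
          refine Finset.sum_lt_sum_of_nonempty ⟨0, Finset.mem_range.2 (Nat.succ_pos _)⟩
            fun i _ => ?_
          rw [lt_div_iff₀ hn, norm_mul, norm_pow]
          refine lt_of_le_of_lt ?_ (hc i)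
          calc ‖g.coeff i - f.coeff i‖ * ‖y‖ ^ i * ((f.natDegree + 1 : ℕ) : ℝ)
              = ‖g.coeff i - f.coeff i‖ * ((f.natDegree + 1 : ℕ) : ℝ) * ‖y‖ ^ i := by ring
            _ ≤ _ := by
              refine mul_le_mul_of_nonneg_left ?_ (by positivity)
              exact pow_le_pow_left₀ (norm_nonneg _) (le_max_right _ _) _
      _ = ε ^ f.natDegree := by
          rw [Finset.sum_const, Finset.card_range, nsmul_eq_mul, mul_div_cancel₀ _ hn.ne']
  have h2 : ε ^ f.natDegree ≤ ‖g.eval y‖ := by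
    have hs := IsAlgClosed.splits g
    rw [hs.eval_eq_prod_roots_of_monic hg, ← hdeg, hs.natDegree_eq_card_roots]
    exact apx_prod hε _ fun β hβ => hcon β (isRoot_of_mem_roots hβ)
  exact absurd h1 (not_lt.2 h2)

omit [IsUltrametricDist W] [IsAlgClosed W] in
/-- Approximation of a monic polynomial. -/
private lemma apx_monic {L K : Subfield W} (hd : DenseIn L K) (f : K[X]) (hf : f.Monic)
    (η : ℝ) (hη : 0 < η) : ∃ g : L[X], g.Monic ∧ g.natDegree = f.natDegree ∧
      ∀ i, ‖((g.coeff i : L) : W) - ((f.coeff i : K) : W)‖ < η := by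
  have hex : ∀ i, ∃ b : L, ‖(b : W) - ((f.coeff i : K) : W)‖ < η := by
    intro i
    obtain ⟨a, ha, h⟩ := hd.2 _ (f.coeff i).2 η hη
    exact ⟨⟨a, ha⟩, by rw [norm_sub_rev]; exact h⟩
  choose b hb using hex
  have hdeg : (∑ i ∈ Finset.range f.natDegree, monomial i (b i)).degree < (f.natDegree : WithBot ℕ) := by
    refine lt_of_le_of_lt (degree_sum_le _ _) ?_
    rw [Finset.sup_lt_iff (by exact WithBot.bot_lt_coe _)]
    intro i hi
    exact lt_of_le_of_lt (degree_monomial_le _ _) (by exact_mod_cast Finset.mem_range.1 hi)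
  have hmon := monic_X_pow_add hdeg
  have hnat : (X ^ f.natDegree + ∑ i ∈ Finset.range f.natDegree, monomial i (b i)).natDegree =
      f.natDegree := by
    have h1 : (X ^ f.natDegree + ∑ i ∈ Finset.range f.natDegree, monomial i (b i)).degree =
        (f.natDegree : WithBot ℕ) := by
      rw [degree_add_eq_left_of_degree_lt (by rwa [degree_X_pow]), degree_X_pow]
    exact natDegree_eq_of_degree_eq_some h1
  refine ⟨_, hmon, hnat, fun i => ?_⟩
  rcases lt_trichotomy i f.natDegree with h | h | h
  · rw [coeff_add, coeff_X_pow, if_neg h.ne, zero_add, finsetSum_coeff,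
      Finset.sum_eq_single i]
    · rw [coeff_monomial, if_pos rfl]
      exact hb i
    · intro j _ hj
      rw [coeff_monomial, if_neg hj]
    · intro hi
      exact absurd (Finset.mem_range.2 h) hi
  · rw [h]
    have h2 := hmon.coeff_natDegree
    rw [hnat] at h2
    rw [h2, hf.coeff_natDegree]
    simpa using hη
  · rw [coeff_eq_zero_of_natDegree_lt (by rw [hnat]; exact h), coeff_eq_zero_of_natDegree_lt h]
    simpa using hη

omit [IsAlgClosed W] in
private lemma apx_sum_lt {ι : Type*} (s : Finset ι) (f : ι → W) {C : ℝ} (hC : 0 < C)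
    (h : ∀ i ∈ s, ‖f i‖ < C) : ‖∑ i ∈ s, f i‖ < C := by
  classical
  induction s using Finset.induction_on with
  | empty => simpa using hC
  | insert a s ha ih =>
    rw [Finset.sum_insert ha]
    refine (IsUltrametricDist.norm_add_le_max _ _).trans_lt (max_lt ?_ ?_)
    · exact h a (Finset.mem_insert_self _ _)
    · exact ih (fun i hi => h i (Finset.mem_insert_of_mem hi))

theorem exists_dense_prim {L K E : Subfield W} (hd : DenseIn L K) (hK : IsComplete (K : Set W))
    (hnt : ∃ x ∈ K, 1 < ‖x‖) (hE : FSep K E) :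
    ∃ y ∈ E, E = adj K y ∧ IsSeparable L y ∧
      (minpoly L y).natDegree = (minpoly K y).natDegree ∧ DenseIn (adj L y) E := by
  classical
  obtain ⟨y₀, hy₀E, hsep₀, hEq⟩ := hE.prim
  have hint₀ : IsIntegral K y₀ := hsep₀.isIntegral
  obtain ⟨f, hf⟩ : ∃ f, f = minpoly K y₀ := ⟨_, rfl⟩
  have hfm : f.Monic := by rw [hf]; exact minpoly.monic hint₀
  have hn : 0 < f.natDegree := by rw [hf]; exact minpoly.natDegree_pos hint₀
  have hfne : f.map (algebraMap K W) ≠ 0 := (hfm.map _).ne_zero
  -- the distance to the other roots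
  obtain ⟨ε, hε, hεr⟩ : ∃ ε : ℝ, 0 < ε ∧ ∀ β : W, aeval β f = 0 → β ≠ y₀ → ε ≤ ‖y₀ - β‖ := by
    have hmem : ∀ β : W, aeval β f = 0 → β ≠ y₀ →
        β ∈ (f.map (algebraMap K W)).roots.toFinset.erase y₀ := by
      intro β hβ hne
      rw [Finset.mem_erase, Multiset.mem_toFinset, mem_roots hfne, IsRoot.def,
        eval_map_algebraMap]
      exact ⟨hne, hβ⟩
    by_cases hs : ((f.map (algebraMap K W)).roots.toFinset.erase y₀).Nonempty
    · refine ⟨((f.map (algebraMap K W)).roots.toFinset.erase y₀).inf' hs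
        (fun β => ‖y₀ - β‖), ?_, fun β hβ hne => Finset.inf'_le _ (hmem β hβ hne)⟩
      rw [Finset.lt_inf'_iff]
      intro β hβ
      exact norm_pos_iff.2 (sub_ne_zero.2 (Finset.ne_of_mem_erase hβ).symm)
    · refine ⟨1, one_pos, fun β hβ hne => absurd ⟨β, hmem β hβ hne⟩ hs⟩
  -- the polynomial over `L`
  have hMpos : (0 : ℝ) < max 1 ‖y₀‖ := lt_of_lt_of_le one_pos (le_max_left _ _)
  have hM1 : (1 : ℝ) ≤ max 1 ‖y₀‖ := le_max_left _ _
  have hNpos : (0 : ℝ) < ((f.natDegree + 1 : ℕ) : ℝ) := by positivity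
  obtain ⟨η, hη, hηε⟩ : ∃ η : ℝ, 0 < η ∧
      η * ((f.natDegree + 1 : ℕ) : ℝ) * max 1 ‖y₀‖ ^ f.natDegree ≤ ε ^ f.natDegree := by
    refine ⟨ε ^ f.natDegree / (((f.natDegree + 1 : ℕ) : ℝ) * max 1 ‖y₀‖ ^ f.natDegree),
      by positivity, le_of_eq ?_⟩
    rw [mul_assoc, div_mul_cancel₀]
    positivity
  obtain ⟨g, hgm, hgn, hgc⟩ := apx_monic hd f hfm η hη
  obtain ⟨y, hy, hyε⟩ := exists_close_root (f := f.map (algebraMap K W))
    (g := g.map (algebraMap L W)) (hfm.map _) (hgm.map _)
    (by rw [natDegree_map, natDegree_map, hgn]) (by rwa [natDegree_map]) (y := y₀)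
    (by rw [eval_map_algebraMap, hf]; exact minpoly.aeval K y₀) hε (by
      intro i
      rw [natDegree_map, coeff_map, coeff_map]
      by_cases hi : i ≤ f.natDegree
      · refine lt_of_lt_of_le ?_ hηε
        have h1 : ‖algebraMap L W (g.coeff i) - algebraMap K W (f.coeff i)‖ < η := hgc i
        have h2 : max 1 ‖y₀‖ ^ i ≤ max 1 ‖y₀‖ ^ f.natDegree := pow_le_pow_right₀ hM1 hi
        calc ‖algebraMap L W (g.coeff i) - algebraMap K W (f.coeff i)‖ *
              ((f.natDegree + 1 : ℕ) : ℝ) * max 1 ‖y₀‖ ^ i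
            < η * ((f.natDegree + 1 : ℕ) : ℝ) * max 1 ‖y₀‖ ^ i := by gcongr
          _ ≤ _ := by gcongr
      · rw [coeff_eq_zero_of_natDegree_lt (by omega), coeff_eq_zero_of_natDegree_lt (by omega),
          map_zero, map_zero, sub_zero, norm_zero, zero_mul, zero_mul]
        positivity)
  -- the tower `L ≤ K`
  let _ : Algebra L K := (Subfield.inclusion hd.1).toAlgebra
  have : IsScalarTower L K W := IsScalarTower.of_algebraMap_eq' rfl
  have hyL : aeval y g = 0 := by rwa [eval_map_algebraMap] at hy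
  have hyK : aeval y (g.map (algebraMap L K)) = 0 := by rwa [aeval_map_algebraMap]
  have hintL : IsIntegral L y := ⟨g, hgm, hyL⟩
  have hintK : IsIntegral K y := ⟨g.map (algebraMap L K), hgm.map _, hyK⟩
  have hdegK : (minpoly K y).natDegree ≤ f.natDegree := by
    have h1 := natDegree_le_natDegree (minpoly.min K y (hgm.map (algebraMap L K)) hyK)
    rwa [natDegree_map, hgn] at h1
  have hdegL : (minpoly L y).natDegree ≤ f.natDegree := by
    have h1 := natDegree_le_natDegree (minpoly.min L y hgm hyL)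
    rwa [hgn] at h1
  have hIn : y₀ ∈ adj K y := krasner hK hnt hsep₀ hintK.isAlgebraic (IsAlgClosed.splits _)
    (fun β hβ hne => hyε.trans_le (hεr β (by rw [hf]; exact hβ) hne))
  have hle : IntermediateField.adjoin K ({y₀} : Set W) ≤
      IntermediateField.adjoin K ({y} : Set W) := by
    rw [IntermediateField.adjoin_simple_le_iff]
    exact (mem_adj_iff K y y₀).1 hIn
  have hfd : FiniteDimensional K (IntermediateField.adjoin K ({y} : Set W)) :=
    IntermediateField.adjoin.finiteDimensional hintK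
  have hfr : Module.finrank K (IntermediateField.adjoin K ({y₀} : Set W)) = f.natDegree := by
    rw [hf]; exact IntermediateField.adjoin.finrank hint₀
  have hfr' : Module.finrank K (IntermediateField.adjoin K ({y} : Set W)) =
      (minpoly K y).natDegree := IntermediateField.adjoin.finrank hintK
  have heq := IntermediateField.eq_of_le_of_finrank_le hle (by rw [hfr, hfr']; exact hdegK)
  have hdegK' : (minpoly K y).natDegree = f.natDegree := by
    rw [← hfr, ← hfr', heq]
  have hyE : y ∈ E := by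
    rw [hEq, mem_adj_iff, heq]
    exact IntermediateField.mem_adjoin_simple_self K y
  have hEq' : E = adj K y := by
    refine le_antisymm ?_ (adj_le hE.le hyE)
    rw [hEq]
    exact adj_le (le_adj K y) hIn
  have hdvd := minpoly.dvd_map_of_isScalarTower L K y
  have hLm : (minpoly L y).Monic := minpoly.monic hintL
  have hdegL' : (minpoly L y).natDegree = f.natDegree := by
    refine le_antisymm hdegL ?_
    have h1 := natDegree_le_of_dvd hdvd (hLm.map _).ne_zero
    rwa [natDegree_map, hdegK'] at h1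
  have hmap : (minpoly L y).map (algebraMap L K) = minpoly K y :=
    eq_of_monic_of_dvd_of_natDegree_le (minpoly.monic hintK) (hLm.map _) hdvd
      (by rw [natDegree_map, hdegL', hdegK'])
  have hsepL : IsSeparable L y := by
    have h1 : (minpoly K y).Separable := hE.sep y hyE
    rw [← hmap, separable_map] at h1
    exact h1
  refine ⟨y, hyE, hEq', hsepL, by rw [hdegL', hdegK'], adj_le (hd.1.trans hE.le) hyE, ?_⟩
  -- density
  intro x hx δ hδ
  rw [hEq'] at hx
  obtain ⟨h, hhK, -, hhx⟩ := exists_poly_of_mem_adj hintK.isAlgebraic hx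
  have hY : (0 : ℝ) < max 1 ‖y‖ ^ h.natDegree :=
    pow_pos (lt_of_lt_of_le one_pos (le_max_left _ _)) _
  have hex : ∀ i, ∃ a ∈ L, ‖h.coeff i - a‖ < δ / max 1 ‖y‖ ^ h.natDegree :=
    fun i => hd.2 _ (hhK i) _ (div_pos hδ hY)
  choose a haL ha using hex
  refine ⟨∑ i ∈ Finset.range (h.natDegree + 1), a i * y ^ i, Subfield.sum_mem _ fun i _ =>
    mul_mem (le_adj L y (haL i)) (pow_mem (mem_adj_self L y) i), ?_⟩
  rw [← hhx, eval_eq_sum_range, ← Finset.sum_sub_distrib]
  refine apx_sum_lt _ _ hδ fun i hi => ?_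
  rw [← sub_mul, norm_mul, norm_pow]
  have h1 : ‖y‖ ^ i ≤ max 1 ‖y‖ ^ h.natDegree := by
    refine (pow_le_pow_left₀ (norm_nonneg _) (le_max_right 1 ‖y‖) i).trans ?_
    exact pow_le_pow_right₀ (le_max_left _ _) (by have := Finset.mem_range.1 hi; omega)
  calc ‖h.coeff i - a i‖ * ‖y‖ ^ i ≤ ‖h.coeff i - a i‖ * max 1 ‖y‖ ^ h.natDegree :=
        mul_le_mul_of_nonneg_left h1 (norm_nonneg _)
    _ < δ / max 1 ‖y‖ ^ h.natDegree * max 1 ‖y‖ ^ h.natDegree := by
        exact mul_lt_mul_of_pos_right (ha i) hY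
    _ = δ := div_mul_cancel₀ _ hY.ne'

end HR
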