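import Pool.Agent.Lib.HR.PCD
import Pool.Agent.Lib.HR.APX
import Pool.Agent.Lib.MP_1a953e_ag.Lin2

/-!
# HExt: extension of the pair `(L, K)` to a finite separable extension with orthogonal basis

`exists_dense_prim` gives `y`, put `L₁ = adj L y`; `orthBasis_dense` gives the common orthogonal basis
(`Ext L K L₁ E`); `pcoord_ext` the coordinates; `OrthBasis.complete` (Lin2) the completeness of `E`.
-/

namespace HR

open Polynomial MP1a953e

variable {W : Type*} [NormedField W] [IsUltrametricDist W] [IsAlgClosed W] {p : ℕ}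
  [Fact p.Prime] [CharP W p] {k L K : Subfield W}

omit [IsUltrametricDist W] [IsAlgClosed W] [Fact p.Prime] [CharP W p] in
theorem HCl.le (h : HCl p k L K) : L ≤ K := h.dense.1

omit [IsUltrametricDist W] [IsAlgClosed W] [Fact p.Prime] [CharP W p] in
theorem HCl.nontrivK (h : HCl p k L K) : ∃ x ∈ K, 1 < ‖x‖ :=
  h.nontriv.imp fun _ hx => ⟨h.dense.1 hx.1, hx.2⟩

theorem HCl.ext (h : HCl p k L K) {E : Subfield W} (hE : FF K E) :
    ∃ L₁, HCl p k L₁ E ∧ Ext L K L₁ E ∧ FSep L L₁ := by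
  classical
  obtain ⟨y, _, hEy, hys, hdeg, hd⟩ := exists_dense_prim h.dense h.complete h.nontrivK hE.fsep
  obtain ⟨d, θ, h1, h2⟩ := orthBasis_dense h.dense hys hEy hdeg hE.ob
  obtain ⟨s, hs⟩ := h.fg
  refine ⟨adj L y, ⟨h.k_le.trans (le_adj L y), ⟨insert y s, ?_⟩, pcoord_ext h1 h.pc, hd,
    h2.complete h.complete, ?_⟩, ⟨d, θ, h1, h2⟩, FSep.adj hys⟩
  · have h3 : ((insert y s : Finset W) : Set W) = (s : Set W) ∪ {y} := by
      rw [Finset.coe_insert, Set.union_comm]; rfl
    rw [h3, Subfield.closure_union, ← sup_assoc, ← hs]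
    rfl
  · exact h.nontriv.imp fun _ hx => ⟨le_adj L y hx.1, hx.2⟩

end HR
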