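import Pool.Agent.Lib.HR.Am
import Pool.Agent.Lib.HR.GenL
import Pool.Agent.Lib.HR.Dual
import Pool.Agent.Lib.HR.Conj
import Pool.Agent.Lib.HR.HExt
import Pool.Agent.Lib.MP_1a953e_ag.Calc4

/-!
# DescH: descent of a generator along a finite extension of degree prime to `p`

Given `Y ∈ H ⊔ K₁` with `adj K₁ Y` dense in `H ⊔ K₁`, `Y ∉ K₁`.
Let `G` be a finite normal extension of `K` containing `K₁` (`exists_normal`); all fields `K₁, G` have
orthogonal bases over `K` (`stable`, `HCl.ext`): `(L₁, K₁)`, `(L_G, G)` are `HCl` pairs; let `θ` be an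
orthogonal basis of `K₁ / K`, and one of `G / K₁`, `G / K`.  `H` is complete, immediate over `K`; so `H ⊔ K₁` is
immediate over `K₁`, `H ⊔ G` immediate over `G` (`Imm.sup`), and `adj G Y` is dense in `H ⊔ G`
(`DenseIn.sup` for `G / K₁` and the field `H ⊔ K₁`; `(H ⊔ K₁) ⊔ G = H ⊔ G`); `Y ∉ G` (`mem_of_sup`).
Let `r = infDist Y G > 0`; `TT G Y` (`tt_of_hcl`).  Write `Y = ∑ y i θ i`, `y i ∈ H` (`mem_sup_iff`).
`exists_dual` gives `c i ∈ K₁`.  For every embedding `τ` of `HK = H ⊔ K₁` over `H`, `conj_gen` and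
`gen_linear` (with `F = G`, field `H ⊔ G`, `T = Y`, and `τ Y` in place of `Y`; `τ Y ∉ G` since its distance to
`G` is `r > 0`) give `e τ, q τ ∈ G`, `‖q τ‖ ≤ 1`, `‖τ Y - e τ - q τ Y‖ < r`.  So
`y i θ i = ∑_τ θ i τ(c i) τ(Y)`, `‖θ i τ(c i)‖ ≤ 1`, and `‖y i θ i - E i - Q i Y‖ < r` with
`E i = ∑ θ i τ(c i) e τ ∈ G`, `Q i = ∑ θ i τ(c i) q τ ∈ G`, `‖Q i‖ ≤ 1`.  Sum over `i`:
`‖(1 - ∑ Q i) Y - ∑ E i‖ < r`; if all `‖Q i‖ < 1` then `u = 1 - ∑ Q i` has norm `1` and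
`‖Y - u⁻¹ ∑ E i‖ < r`, a contradiction.  So `‖Q i‖ = 1` for some `i`;
`q = (y i θ i - E i) / Q i ∈ adj G (y i)` has `‖Y - q‖ < r`; `TT.gc` (Calc4): `adj G q`, hence `adj G (y i)`,
is dense in `H ⊔ G`; `dense_descend` (Lin3, basis of `G / K`) gives `DenseIn (adj K (y i)) H`.
-/

namespace HR

open Polynomial MP1a953e

variable {W : Type*} [NormedField W] [IsUltrametricDist W] [IsAlgClosed W] {p : ℕ}
  [Fact p.Prime] [CharP W p] {k L K L₁ K₁ H : Subfield W}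

omit [IsAlgClosed W] [Fact p.Prime] [CharP W p] in
private theorem descH_norm_sum_lt {ι : Type*} (s : Finset ι) (f : ι → W) {r : ℝ} (hr : 0 < r)
    (h : ∀ i ∈ s, ‖f i‖ < r) : ‖∑ i ∈ s, f i‖ < r := by
  classical
  induction s using Finset.induction_on with
  | empty => simpa using hr
  | insert a s ha ih =>
    rw [Finset.sum_insert ha]
    refine (IsUltrametricDist.norm_add_le_max _ _).trans_lt (max_lt ?_ ?_)
    · exact h a (Finset.mem_insert_self _ _)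
    · exact ih fun i hi => h i (Finset.mem_insert_of_mem hi)

omit [IsAlgClosed W] [Fact p.Prime] [CharP W p] in
private theorem descH_norm_sum_le {ι : Type*} (s : Finset ι) (f : ι → W) {r : ℝ} (hr : 0 ≤ r)
    (h : ∀ i ∈ s, ‖f i‖ ≤ r) : ‖∑ i ∈ s, f i‖ ≤ r := by
  classical
  induction s using Finset.induction_on with
  | empty => simpa using hr
  | insert a s ha ih =>
    rw [Finset.sum_insert ha]
    refine (IsUltrametricDist.norm_add_le_max _ _).trans (max_le ?_ ?_)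
    · exact h a (Finset.mem_insert_self _ _)
    · exact ih fun i hi => h i (Finset.mem_insert_of_mem hi)

theorem descend (hk : IsAlgClosed k) (h : HCl p k L K) (hI : MP1a953e.Imm K H)
    (hH : IsComplete (H : Set W)) (hE : FSep K K₁) (hp : ¬ p ∣ K.relfinrank K₁) {Y : W}
    (hY : Y ∈ H ⊔ K₁) (hYK : Y ∉ K₁) (hd : DenseIn (adj K₁ Y) (H ⊔ K₁)) :
    ∃ y ∈ H, DenseIn (adj K y) H := by
  classical
  have hKH : K ≤ H := hI.1
  obtain ⟨G, hK₁G, hG, hn⟩ := exists_normal hE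
  have hE1 : FSep K₁ G := hG.top hE.le hK₁G
  -- orthogonal bases
  obtain ⟨L₁, h₁, ⟨d, θ, -, hθ⟩, -⟩ := h.ext (stable hk h hE)
  obtain ⟨LG, hGcl, ⟨dη, η, -, hη⟩, -⟩ := h.ext (stable hk h hG)
  obtain ⟨LG', -, ⟨dζ, ζ, -, hζ⟩, -⟩ := h₁.ext (stable hk h₁ hE1)
  have hI₁ : MP1a953e.Imm K₁ (H ⊔ K₁) := MP1a953e.Imm.sup hI hθ
  have hIG : MP1a953e.Imm G (H ⊔ G) := MP1a953e.Imm.sup hI hη
  have hsup : (H ⊔ K₁) ⊔ G = H ⊔ G := by rw [sup_assoc, sup_eq_right.2 hK₁G]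
  have hdG : DenseIn (adj G Y) (H ⊔ G) := by
    have h2 := DenseIn.sup hd hζ
    rwa [hsup] at h2
  have hYHG : Y ∈ H ⊔ G := by
    rw [← hsup]; exact (le_sup_left : H ⊔ K₁ ≤ (H ⊔ K₁) ⊔ G) hY
  have hYG : Y ∉ G := fun hc => hYK (mem_of_sup hI₁ hζ hY hc)
  have hTT : TT G Y := tt_of_hcl hk hGcl hIG hYHG hYG
  set r := Metric.infDist Y (G : Set W) with hr
  have hr0 : 0 < r := hTT.pos
  have hdist : ∀ b ∈ G, r ≤ ‖Y - b‖ := by
    intro b hb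
    rw [← dist_eq_norm]
    exact Metric.infDist_le_dist_of_mem hb
  -- coordinates
  obtain ⟨y, hy, hYy⟩ := (mem_sup_iff hKH hθ Y).1 hY
  obtain ⟨c, hc, hcn, hdual⟩ := exists_dual (p := p) hE hp hθ hI
  obtain ⟨HK, hfd, -, hHK⟩ := (hE.sup_base hKH).toIF
  have hmemHK : ∀ x : W, x ∈ H ⊔ K₁ → x ∈ HK := by
    intro x hx
    rw [← hHK] at hx
    exact hx
  have hcHK : ∀ i, c i ∈ HK := fun i => hmemHK _ ((le_sup_right : K₁ ≤ H ⊔ K₁) (hc i))
  have hsum := hdual HK hHK y hy ⟨Y, hmemHK Y hY⟩ hYy (fun i => ⟨c i, hcHK i⟩) (fun _ => rfl)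
  have hntH : ∃ x ∈ H, 1 < ‖x‖ := h.nontrivK.imp fun _ hx => ⟨hKH hx.1, hx.2⟩
  have hconj := fun τ : HK →ₐ[H] W => conj_gen hH hntH hKH hG hn hK₁G HK hHK τ
    (⟨Y, hmemHK Y hY⟩ : HK) hdG
  have hgen : ∀ τ : HK →ₐ[H] W, ∃ e ∈ G, ∃ q ∈ G, ‖q‖ ≤ 1 ∧
      ‖τ (⟨Y, hmemHK Y hY⟩ : HK) - e - q * Y‖ < r := by
    intro τ
    obtain ⟨-, -, h3, h4, h5⟩ := hconj τ
    have h6 : τ (⟨Y, hmemHK Y hY⟩ : HK) ∉ G := by
      intro hc6
      have h7 : Metric.infDist (τ (⟨Y, hmemHK Y hY⟩ : HK)) (G : Set W) = 0 :=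
        Metric.infDist_zero_of_mem hc6
      rw [h5] at h7
      exact hr0.ne' h7
    have h8 : TT G (τ (⟨Y, hmemHK Y hY⟩ : HK)) :=
      tt_of_hcl hk hGcl hIG h3 h6
    exact gen_linear (p := p) hTT h8 hYHG h3 hdG h4 h5
  choose e he q hq hqn hlt using hgen
  -- the elements `E i`, `Q i`
  set w : Fin (d + 1) → (HK →ₐ[H] W) → W := fun i τ => θ i * τ (⟨c i, hcHK i⟩ : HK) with hw
  have hwG : ∀ i τ, w i τ ∈ G := by
    intro i τ
    exact G.mul_mem (hK₁G (hθ.mem i)) ((hconj τ).1 ⟨c i, hcHK i⟩ (hK₁G (hc i)))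
  have hwn : ∀ i τ, ‖w i τ‖ ≤ 1 := by
    intro i τ
    have h9 : ‖τ (⟨c i, hcHK i⟩ : HK)‖ = ‖c i‖ := (hconj τ).2.1 ⟨c i, hcHK i⟩
    rw [hw]
    simp only
    rw [norm_mul, h9, mul_comm]
    exact hcn i
  set E : Fin (d + 1) → W := fun i => ∑ τ, w i τ * e τ with hEdef
  set Q : Fin (d + 1) → W := fun i => ∑ τ, w i τ * q τ with hQdef
  have hEG : ∀ i, E i ∈ G := fun i => G.sum_mem fun τ _ => G.mul_mem (hwG i τ) (he τ)
  have hQG : ∀ i, Q i ∈ G := fun i => G.sum_mem fun τ _ => G.mul_mem (hwG i τ) (hq τ)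
  have hQn : ∀ i, ‖Q i‖ ≤ 1 := by
    intro i
    refine descH_norm_sum_le _ _ zero_le_one fun τ _ => ?_
    rw [norm_mul]
    exact mul_le_one₀ (hwn i τ) (norm_nonneg _) (hqn τ)
  have hkey : ∀ i, ‖y i * θ i - E i - Q i * Y‖ < r := by
    intro i
    have h10 : y i * θ i - E i - Q i * Y = ∑ τ, w i τ *
        (τ (⟨Y, hmemHK Y hY⟩ : HK) - e τ - q τ * Y) := by
      rw [← hsum i, hEdef, hQdef, hw]
      simp only
      rw [Finset.sum_mul, Finset.sum_mul, ← Finset.sum_sub_distrib, ← Finset.sum_sub_distrib]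
      refine Finset.sum_congr rfl fun τ _ => ?_
      ring
    rw [h10]
    refine descH_norm_sum_lt _ _ hr0 fun τ _ => ?_
    rw [norm_mul]
    calc ‖w i τ‖ * ‖τ (⟨Y, hmemHK Y hY⟩ : HK) - e τ - q τ * Y‖
        ≤ 1 * ‖τ (⟨Y, hmemHK Y hY⟩ : HK) - e τ - q τ * Y‖ :=
          mul_le_mul_of_nonneg_right (hwn i τ) (norm_nonneg _)
      _ < r := by rw [one_mul]; exact hlt τ
  -- some `Q i` has norm one
  have hex : ∃ i, ‖Q i‖ = 1 := by
    by_contra hcon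
    push Not at hcon
    have h11 : ∀ i, ‖Q i‖ < 1 := fun i => lt_of_le_of_ne (hQn i) (hcon i)
    have h12 : ‖∑ i, Q i‖ < 1 := descH_norm_sum_lt _ _ zero_lt_one fun i _ => h11 i
    have h13 : ‖(1 - ∑ i, Q i) * Y - ∑ i, E i‖ < r := by
      have h14 : (1 - ∑ i, Q i) * Y - ∑ i, E i = ∑ i, (y i * θ i - E i - Q i * Y) := by
        rw [Finset.sum_sub_distrib, Finset.sum_sub_distrib, ← Finset.sum_mul, ← hYy]
        ring
      rw [h14]
      exact descH_norm_sum_lt _ _ hr0 fun i _ => hkey i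
    have hu : ‖1 - ∑ i, Q i‖ = 1 := by
      have h15 : ‖(1 : W)‖ = 1 := norm_one
      have h16 : ‖∑ i, Q i‖ ≠ ‖(1 : W)‖ := by rw [h15]; exact h12.ne
      have h17 := IsUltrametricDist.norm_add_eq_max_of_norm_ne_norm
        (x := (1 : W)) (y := -∑ i, Q i) (by rw [norm_neg]; exact h16.symm)
      rw [norm_neg, h15, max_eq_left h12.le] at h17
      rw [sub_eq_add_neg]
      exact h17
    have hu0 : (1 - ∑ i, Q i) ≠ 0 := by
      rw [← norm_ne_zero_iff, hu]; exact one_ne_zero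
    have h18 := hdist ((1 - ∑ i, Q i)⁻¹ * ∑ i, E i)
      (G.mul_mem (G.inv_mem (G.sub_mem G.one_mem (G.sum_mem fun i _ => hQG i)))
        (G.sum_mem fun i _ => hEG i))
    have h19 : ‖Y - (1 - ∑ i, Q i)⁻¹ * ∑ i, E i‖ = ‖(1 - ∑ i, Q i) * Y - ∑ i, E i‖ := by
      have h20 : (1 - ∑ i, Q i) * Y - ∑ i, E i =
          (1 - ∑ i, Q i) * (Y - (1 - ∑ i, Q i)⁻¹ * ∑ i, E i) := by
        rw [mul_sub, ← mul_assoc, mul_inv_cancel₀ hu0, one_mul]
      rw [h20, norm_mul, hu, one_mul]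
    rw [h19] at h18
    exact absurd h13 (not_lt.2 h18)
  obtain ⟨i, hi⟩ := hex
  have hQ0 : Q i ≠ 0 := by
    rw [← norm_ne_zero_iff, hi]; exact one_ne_zero
  have hyG : y i ∈ adj G (y i) := mem_adj_self G (y i)
  have hqadj : (y i * θ i - E i) * (Q i)⁻¹ ∈ adj G (y i) := by
    refine (adj G (y i)).mul_mem ((adj G (y i)).sub_mem ((adj G (y i)).mul_mem hyG ?_) ?_) ?_
    · exact le_adj G (y i) (hK₁G (hθ.mem i))
    · exact le_adj G (y i) (hEG i)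
    · exact (adj G (y i)).inv_mem (le_adj G (y i) (hQG i))
  have hadjle : adj G (y i) ≤ H ⊔ G := adj_le le_sup_right ((le_sup_left : H ≤ H ⊔ G) (hy i))
  have hnear : ‖Y - (y i * θ i - E i) * (Q i)⁻¹‖ < r := by
    have h21 : Q i * (Y - (y i * θ i - E i) * (Q i)⁻¹) = -(y i * θ i - E i - Q i * Y) := by
      rw [mul_sub, mul_comm (y i * θ i - E i) (Q i)⁻¹, ← mul_assoc, mul_inv_cancel₀ hQ0, one_mul]
      ring
    have h22 : ‖Q i * (Y - (y i * θ i - E i) * (Q i)⁻¹)‖ < r := by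
      rw [h21, norm_neg]; exact hkey i
    rwa [norm_mul, hi, one_mul] at h22
  have hdq : DenseIn (adj G ((y i * θ i - E i) * (Q i)⁻¹)) (H ⊔ G) :=
    hTT.gc hdG (hadjle hqadj) hnear
  have hdy : DenseIn (adj G (y i)) (H ⊔ G) := by
    refine ⟨hadjle, fun x hx ε hε => ?_⟩
    obtain ⟨a, ha, hxa⟩ := hdq.2 x hx ε hε
    exact ⟨a, adj_le (le_adj G (y i)) hqadj ha, hxa⟩
  exact ⟨y i, hy i, dense_descend hI hη (hy i) hdy⟩

end HR
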