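import Pool.Agent.Lib.HR.Tower
import Pool.Agent.Lib.HR.DescH

/-!
# HRat: henselian rationality

`henselian_rationality`: `tower` (with `Q = M`) gives `K₁` and a generator `Y` of `H ⊔ K₁`; `H` is complete
(`FSep.complete` over `M`); `descend` gives `y ∈ H` with `adj K y` dense in `H`.  `y ∉ K`: otherwise
`adj K y = K` is dense in `H ∋ v`, but `K` is closed and `v ∉ K`.

`hr_dense`: `y` can be chosen in any dense subfield (subset) `F` of `H`, and `adj L y` is dense in `H`: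
`TT K y` (`tt_of_hcl`); choose `y' ∈ F` with `‖y - y'‖ < infDist y K`; `TT.gc`: `adj K y'` is dense in `H`;
`y' ∉ K` because `‖y - y'‖ < infDist y K`.  `DenseIn (adj L y') H`: by `poly_dense_dense` (for `TT K y'`,
`tt_of_hcl`) the elements of `adj K y'` are approximated by polynomials over `L` in `y'`.
-/

namespace HR

open Polynomial MP1a953e

variable {W : Type*} [NormedField W] [IsUltrametricDist W] [IsAlgClosed W] {p : ℕ}
  [Fact p.Prime] [CharP W p] {k L K M H : Subfield W}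

/-- HENSELIAN RATIONALITY. -/
theorem henselian_rationality (hk : IsAlgClosed k) (h : HCl p k L K) (hI : MP1a953e.Imm K H) {v : W}
    (hv : v ∈ M) (hvK : v ∉ K) (hM : IsComplete (M : Set W)) (hMd : DenseIn (adj K v) M)
    (hH : FSep M H) : ∃ y ∈ H, y ∉ K ∧ DenseIn (adj K y) H := by
  obtain ⟨L₁, K₁, hL₁, hK₁, hExt, hdeg, Y, hY, hYK, hYd⟩ := tower hk h hI hv hvK hM hMd hH
  have hKM : K ≤ M := (le_adj K v).trans hMd.1
  obtain ⟨x, hx, hx1⟩ := h.nontrivK
  have hHc : IsComplete (H : Set W) := hH.complete hM ⟨x, hKM hx, hx1⟩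
  obtain ⟨y, hy, hyd⟩ := descend hk h hI hHc hK₁ hdeg hY hYK hYd
  refine ⟨y, hy, fun hyK => ?_, hyd⟩
  have h1 : adj K y = K := le_antisymm (adj_le le_rfl hyK) (le_adj K y)
  rw [h1] at hyd
  apply hvK
  have hcl : IsClosed (K : Set W) := h.complete.isClosed
  have h2 : v ∈ closure (K : Set W) := by
    rw [Metric.mem_closure_iff]
    intro ε hε
    obtain ⟨a, ha, hlt⟩ := hyd.2 v (hH.le hv) ε hε
    exact ⟨a, ha, by rwa [dist_eq_norm]⟩
  rwa [hcl.closure_eq] at h2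

theorem hr_dense (hk : IsAlgClosed k) (h : HCl p k L K) (hI : MP1a953e.Imm K H) {v : W}
    (hv : v ∈ M) (hvK : v ∉ K) (hM : IsComplete (M : Set W)) (hMd : DenseIn (adj K v) M)
    (hH : FSep M H) {F : Set W} (hF : F ⊆ H) (hFd : ∀ x ∈ H, ∀ ε : ℝ, 0 < ε → ∃ a ∈ F, ‖x - a‖ < ε) :
    ∃ y ∈ F, y ∉ K ∧ TT K y ∧ DenseIn (adj K y) H ∧ DenseIn (adj L y) H := by
  obtain ⟨y, hy, hyK, hyd⟩ := henselian_rationality hk h hI hv hvK hM hMd hH
  have hTT : TT K y := tt_of_hcl hk h hI hy hyK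
  obtain ⟨y', hy'F, hlt⟩ := hFd y hy _ hTT.pos
  have hy'H : y' ∈ H := hF hy'F
  have hy'K : y' ∉ K := by
    intro hy'K
    have h1 := Metric.infDist_le_dist_of_mem (x := y) (s := (K : Set W)) hy'K
    rw [dist_eq_norm] at h1
    exact absurd hlt (not_lt.2 h1)
  have hd' : DenseIn (adj K y') H := hTT.gc hyd hy'H hlt
  have hTT' : TT K y' := tt_of_hcl hk h hI hy'H hy'K
  have hKH : K ≤ H := (le_adj K y').trans hd'.1
  refine ⟨y', hy'F, hy'K, hTT', hd', adj_le (h.le.trans hKH) hy'H, fun x hx ε hε => ?_⟩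
  obtain ⟨a, ha, hxa⟩ := hd'.2 x hx ε hε
  obtain ⟨g, hg, hga⟩ := poly_dense_dense h.dense hTT' ha hε
  refine ⟨g.eval y', ?_, ?_⟩
  · exact eval_mem (fun n => le_adj L y' (hg n)) (mem_adj_self L y')
  · have h3 : x - g.eval y' = (x - a) + (a - g.eval y') := by ring
    rw [h3]
    exact lt_of_le_of_lt (IsUltrametricDist.norm_add_le_max _ _) (max_lt hxa hga)

end HR
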