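import Pool.Agent.Lib.HR.GDefs

/-!
# OL: finite orthogonal bases and subspaces

`K` a subfield, `X` a finite dimensional `K`-subspace of `W` with orthogonal basis `e`.

Exchange: let `0 ≠ w ∈ X`, `w = ∑ a i * e i`, choose `i` with `‖a i * e i‖ = ‖w‖` (maximal; the norm of the sum
is the maximum by orthogonality and the ultrametric inequality).  Then `w` together with the `e j`,
`j ≠ i`, is again an orthogonal basis.
Subspace `Y ∋ w`: `Y = K w ⊕ (Y ∩ span (e j, j ≠ i))`; induction on the number of vectors gives an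
orthogonal basis `f` of `Y` starting with `w` which extends to an orthogonal basis of `X`; if
`Y ≠ X` any further basis vector `y` satisfies `max ‖b‖ ‖y‖ ≤ ‖b + y‖` for all `b ∈ Y`.
-/

namespace HR

open Polynomial MP1a953e

variable {W : Type*} [NormedField W] [IsUltrametricDist W] {K : Subfield W}

theorem IsOB.exists_norm_eq {ι : Type*} [Fintype ι] {e : ι → W} {X : Set W} (h : IsOB K e X)
    (a : ι → W) (ha : ∀ i, a i ∈ K) (h0 : ∑ i, a i * e i ≠ 0) :
    ∃ i, ‖∑ j, a j * e j‖ = ‖a i * e i‖ := by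
  have hne : Nonempty ι := by
    by_contra hc
    rw [not_nonempty_iff] at hc
    exact h0 (by simp)
  obtain ⟨i, -, hi⟩ := IsUltrametricDist.exists_norm_finsetSum_le (Finset.univ : Finset ι)
    (fun j => a j * e j)
  refine ⟨i, le_antisymm hi ?_⟩
  rw [norm_mul]
  exact h.orth a ha i

omit [IsUltrametricDist W] in
private theorem IsOB.kSub {ι : Type*} [Fintype ι] {e : ι → W} {X : Set W}
    (h : IsOB K e X) : KSub K X := by
  refine ⟨(h.span 0).2 ⟨fun _ => 0, fun _ => zero_mem K, by simp⟩, ?_, ?_⟩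
  · intro x hx y hy
    obtain ⟨a, ha, rfl⟩ := (h.span x).1 hx
    obtain ⟨b, hb, rfl⟩ := (h.span y).1 hy
    refine (h.span _).2 ⟨fun i => a i + b i, fun i => add_mem (ha i) (hb i), ?_⟩
    simp only [add_mul, Finset.sum_add_distrib]
  · intro c hc x hx
    obtain ⟨a, ha, rfl⟩ := (h.span x).1 hx
    refine (h.span _).2 ⟨fun i => c * a i, fun i => mul_mem hc (ha i), ?_⟩
    rw [Finset.mul_sum]
    exact Finset.sum_congr rfl fun i _ => by ring

omit [IsUltrametricDist W] in
private theorem IsOB.mem {ι : Type*} [Fintype ι] {e : ι → W} {X : Set W}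
    (h : IsOB K e X) (i : ι) : e i ∈ X := by
  classical
  refine (h.span _).2 ⟨fun j => if j = i then 1 else 0, fun j => ?_, ?_⟩
  · show (if j = i then (1 : W) else 0) ∈ K
    split_ifs
    · exact one_mem K
    · exact zero_mem K
  · simp

omit [IsUltrametricDist W] in
private theorem KSub.neg {Y : Set W} (h : KSub K Y) {a : W} (ha : a ∈ Y) : -a ∈ Y := by
  have := h.smul (-1) (neg_mem (one_mem K)) a ha
  simpa using this

omit [IsUltrametricDist W] in
private theorem KSub.sub {Y : Set W} (h : KSub K Y) {a b : W} (ha : a ∈ Y) (hb : b ∈ Y) :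
    a - b ∈ Y := by
  rw [sub_eq_add_neg]
  exact h.add a ha _ (h.neg hb)

/-- the span of the `e j`, `j ≠ i` -/
private def Xr (K : Subfield W) {n : ℕ} (e : Fin (n + 1) → W) (i : Fin (n + 1)) : Set W :=
  {y | ∃ a : Fin n → W, (∀ j, a j ∈ K) ∧ y = ∑ j, a j * e (i.succAbove j)}

omit [IsUltrametricDist W] in
private theorem isOB_Xr {n : ℕ} {e : Fin (n + 1) → W} {X : Set W} (h : IsOB K e X)
    (i : Fin (n + 1)) : IsOB K (fun j => e (i.succAbove j)) (Xr K e i) := by
  refine ⟨fun j => h.ne _, fun y => Iff.rfl, fun a ha j => ?_⟩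
  have h1 := h.orth (i.insertNth 0 a) ?_ (i.succAbove j)
  · rw [Fin.sum_univ_succAbove _ i] at h1
    simpa using h1
  · intro l
    rcases Fin.eq_self_or_eq_succAbove i l with rfl | ⟨l', rfl⟩
    · simp
    · simpa using ha l'

omit [IsUltrametricDist W] in
private theorem Xr_sub {n : ℕ} {e : Fin (n + 1) → W} {X : Set W} (h : IsOB K e X)
    (i : Fin (n + 1)) : Xr K e i ⊆ X := by
  rintro y ⟨a, ha, rfl⟩
  refine (h.span _).2 ⟨i.insertNth 0 a, ?_, ?_⟩
  · intro l
    rcases Fin.eq_self_or_eq_succAbove i l with rfl | ⟨l', rfl⟩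
    · simp
    · simpa using ha l'
  · rw [Fin.sum_univ_succAbove _ i]
    simp

private theorem perp_Xr {n : ℕ} {e : Fin (n + 1) → W} {X : Set W} (h : IsOB K e X)
    {i : Fin (n + 1)} {a : Fin (n + 1) → W} (ha : ∀ j, a j ∈ K)
    (hi : ‖∑ j, a j * e j‖ = ‖a i * e i‖) {c : W} (hc : c ∈ K) {x : W} (hx : x ∈ Xr K e i) :
    max ‖c * ∑ j, a j * e j‖ ‖x‖ ≤ ‖c * (∑ j, a j * e j) + x‖ := by
  obtain ⟨b, hb, hxb⟩ := hx
  have h1 : c * (∑ j, a j * e j) + x =
      ∑ j, (c * a j + (i.insertNth 0 b : Fin (n + 1) → W) j) * e j := by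
    have h2 : x = ∑ j, (i.insertNth 0 b : Fin (n + 1) → W) j * e j := by
      rw [Fin.sum_univ_succAbove _ i, hxb]
      simp
    rw [h2, Finset.mul_sum, ← Finset.sum_add_distrib]
    exact Finset.sum_congr rfl fun j _ => by ring
  have h3 : ‖c * ∑ j, a j * e j‖ ≤ ‖c * (∑ j, a j * e j) + x‖ := by
    have h4 := h.orth (fun j => c * a j + (i.insertNth 0 b : Fin (n + 1) → W) j) ?_ i
    · rw [h1]
      refine le_trans (le_of_eq ?_) h4
      rw [norm_mul, hi]
      simp [mul_assoc]
    · intro l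
      rcases Fin.eq_self_or_eq_succAbove i l with rfl | ⟨l', rfl⟩
      · simpa using mul_mem hc (ha _)
      · simpa using add_mem (mul_mem hc (ha _)) (hb l')
  refine max_le h3 ?_
  have h5 : x = (c * (∑ j, a j * e j) + x) - c * (∑ j, a j * e j) := by ring
  calc ‖x‖ = ‖(c * (∑ j, a j * e j) + x) - c * (∑ j, a j * e j)‖ := by rw [← h5]
    _ ≤ max ‖c * (∑ j, a j * e j) + x‖ ‖c * (∑ j, a j * e j)‖ :=
        by
          rw [sub_eq_add_neg]
          refine (IsUltrametricDist.norm_add_le_max _ _).trans ?_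
          rw [norm_neg]
    _ ≤ _ := max_le le_rfl h3

omit [IsUltrametricDist W] in
private theorem decomp_Xr {n : ℕ} {e : Fin (n + 1) → W} {X : Set W} (h : IsOB K e X)
    {i : Fin (n + 1)} {a : Fin (n + 1) → W} (ha : ∀ j, a j ∈ K) (hi : a i ≠ 0)
    {x : W} (hx : x ∈ X) : ∃ c ∈ K, x - c * (∑ j, a j * e j) ∈ Xr K e i := by
  obtain ⟨b, hb, rfl⟩ := (h.span x).1 hx
  refine ⟨b i / a i, div_mem (hb i) (ha i), fun j => b (i.succAbove j) -
    b i / a i * a (i.succAbove j), fun j => sub_mem (hb _) (mul_mem (div_mem (hb i) (ha i)) (ha _)),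
    ?_⟩
  rw [Fin.sum_univ_succAbove _ i, Fin.sum_univ_succAbove (fun j => a j * e j) i, mul_add,
    Finset.mul_sum]
  have h1 : b i / a i * (a i * e i) = b i * e i := by field_simp
  rw [h1]
  simp only [sub_mul, Finset.sum_sub_distrib]
  have h2 : ∑ j, b i / a i * (a (i.succAbove j) * e (i.succAbove j)) =
      ∑ j, b i / a i * a (i.succAbove j) * e (i.succAbove j) :=
    Finset.sum_congr rfl fun j _ => by ring
  rw [h2]
  ring

/-- orthogonal bases of subspaces, starting with a given vector, and vectors orthogonal to a proper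
subspace -/
theorem ob_sub {n : ℕ} {e : Fin n → W} {X Y : Set W} (h : IsOB K e X) (hY : KSub K Y)
    (hYX : Y ⊆ X) {w : W} (hw : w ∈ Y) (hw0 : w ≠ 0) :
    ∃ (m : ℕ) (f : Fin (m + 1) → W), m + 1 ≤ n ∧ f 0 = w ∧ IsOB K f Y ∧
      (Y ≠ X → ∃ y ∈ X, y ≠ 0 ∧ ∀ b ∈ Y, max ‖b‖ ‖y‖ ≤ ‖b + y‖) := by
  induction n generalizing X Y w with
  | zero =>
    obtain ⟨a, ha, hwa⟩ := (h.span w).1 (hYX hw)
    exact absurd (by simpa using hwa) hw0
  | succ n ih =>
    obtain ⟨a, ha, hwa⟩ := (h.span w).1 (hYX hw)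
    obtain ⟨i, hi⟩ := h.exists_norm_eq a ha (by rw [← hwa]; exact hw0)
    have hai : a i ≠ 0 := by
      intro h0
      rw [h0, zero_mul, norm_zero, norm_eq_zero, ← hwa] at hi
      exact hw0 hi
    have hperp : ∀ c ∈ K, ∀ x ∈ Xr K e i, max ‖c * w‖ ‖x‖ ≤ ‖c * w + x‖ := by
      intro c hc x hx
      have := perp_Xr h ha hi hc hx
      rwa [← hwa] at this
    have hdec : ∀ x ∈ X, ∃ c ∈ K, x - c * w ∈ Xr K e i := by
      intro x hx
      have := decomp_Xr h ha hai hx
      rwa [← hwa] at this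
    have hXr := isOB_Xr h i
    have hXrX := Xr_sub h i
    have hwX : ∀ c ∈ K, c * w ∈ Y := fun c hc => hY.smul c hc w hw
    by_cases hY' : ∃ w' ∈ Y ∩ Xr K e i, w' ≠ 0
    · obtain ⟨w', hw', hw'0⟩ := hY'
      have hK' : KSub K (Y ∩ Xr K e i) := by
        have hk := hXr.kSub
        exact ⟨⟨hY.zero, hk.zero⟩, fun a ha b hb => ⟨hY.add a ha.1 b hb.1, hk.add a ha.2 b hb.2⟩,
          fun c hc a ha => ⟨hY.smul c hc a ha.1, hk.smul c hc a ha.2⟩⟩
      obtain ⟨m, f, hm, hf0, hf, hfX⟩ := ih hXr hK' Set.inter_subset_right hw' hw'0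
      refine ⟨m + 1, Fin.cons w f, by omega, rfl, ⟨?_, ?_, ?_⟩, ?_⟩
      · intro j
        refine Fin.cases ?_ (fun j => ?_) j
        · simpa using hw0
        · simpa using hf.ne j
      · intro y
        constructor
        · intro hy
          obtain ⟨c, hc, hyc⟩ := hdec y (hYX hy)
          have h1 : y - c * w ∈ Y ∩ Xr K e i := ⟨hY.sub hy (hwX c hc), hyc⟩
          obtain ⟨b, hb, hyb⟩ := (hf.span _).1 h1
          refine ⟨Fin.cons c b, ?_, ?_⟩
          · intro j
            refine Fin.cases ?_ (fun j => ?_) j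
            · simpa using hc
            · simpa using hb j
          · rw [Fin.sum_univ_succ]
            simp only [Fin.cons_zero, Fin.cons_succ]
            rw [← hyb]
            ring
        · rintro ⟨b, hb, rfl⟩
          rw [Fin.sum_univ_succ]
          simp only [Fin.cons_zero, Fin.cons_succ]
          refine hY.add _ (hwX _ (hb 0)) _ ?_
          exact ((hf.span _).2 ⟨fun j => b j.succ, fun j => hb _, rfl⟩).1
      · intro b hb j
        rw [Fin.sum_univ_succ]
        simp only [Fin.cons_zero, Fin.cons_succ]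
        have h2 : (∑ j, b j.succ * f j) ∈ Y ∩ Xr K e i :=
          (hf.span _).2 ⟨fun j => b j.succ, fun j => hb _, rfl⟩
        have h3 := hperp (b 0) (hb 0) _ h2.2
        refine Fin.cases ?_ (fun j => ?_) j
        · simp only [Fin.cons_zero]
          rw [← norm_mul]
          exact (le_max_left _ _).trans h3
        · simp only [Fin.cons_succ]
          exact (hf.orth (fun j => b j.succ) (fun j => hb _) j).trans ((le_max_right _ _).trans h3)
      · intro hne
        have hne' : Y ∩ Xr K e i ≠ Xr K e i := by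
          intro heq
          apply hne
          refine hYX.antisymm ?_
          intro x hx
          obtain ⟨c, hc, hxc⟩ := hdec x hx
          have h1 : x - c * w ∈ Y := by
            rw [← heq] at hxc
            exact hxc.1
          have h2 : x = c * w + (x - c * w) := by ring
          rw [h2]
          exact hY.add _ (hwX c hc) _ h1
        obtain ⟨y, hy, hy0, hyb⟩ := hfX hne'
        refine ⟨y, hXrX hy, hy0, ?_⟩
        intro b hb
        obtain ⟨c, hc, hbc⟩ := hdec b (hYX hb)
        have h1 : b - c * w ∈ Y ∩ Xr K e i := ⟨hY.sub hb (hwX c hc), hbc⟩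
        have h2 := hyb _ h1
        have h3 := hperp c hc (b - c * w + y) (hXr.kSub.add _ hbc _ hy)
        have h4 : c * w + (b - c * w + y) = b + y := by ring
        rw [h4] at h3
        have h5 : ‖b‖ ≤ max ‖c * w‖ ‖b - c * w‖ := by
          have h6 : b = c * w + (b - c * w) := by ring
          calc ‖b‖ = ‖c * w + (b - c * w)‖ := by rw [← h6]
            _ ≤ _ := IsUltrametricDist.norm_add_le_max _ _
        have h7 : ‖b - c * w + y‖ ≤ ‖b + y‖ := (le_max_right _ _).trans h3
        have h8 : ‖c * w‖ ≤ ‖b + y‖ := (le_max_left _ _).trans h3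
        refine max_le (h5.trans (max_le h8 ?_)) ?_
        · exact ((le_max_left _ _).trans h2).trans h7
        · exact ((le_max_right _ _).trans h2).trans h7
    · push Not at hY'
      have hYw : ∀ y ∈ Y, ∃ c ∈ K, y = c * w := by
        intro y hy
        obtain ⟨c, hc, hyc⟩ := hdec y (hYX hy)
        exact ⟨c, hc, sub_eq_zero.1 (hY' _ ⟨hY.sub hy (hwX c hc), hyc⟩)⟩
      refine ⟨0, fun _ => w, by omega, rfl, ⟨fun _ => hw0, ?_, ?_⟩, ?_⟩
      · intro y
        constructor
        · intro hy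
          obtain ⟨c, hc, rfl⟩ := hYw y hy
          exact ⟨fun _ => c, fun _ => hc, by simp⟩
        · rintro ⟨b, hb, rfl⟩
          simpa using hwX _ (hb 0)
      · intro b hb j
        have hj : j = 0 := Subsingleton.elim (α := Fin 1) _ _
        subst hj
        simp
      · intro hne
        have h1 : ∃ y ∈ Xr K e i, y ≠ 0 := by
          by_contra hc
          push Not at hc
          apply hne
          refine hYX.antisymm ?_
          intro x hx
          obtain ⟨c, hcK, hxc⟩ := hdec x hx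
          have h2 := sub_eq_zero.1 (hc _ hxc)
          rw [h2]
          exact hwX c hcK
        obtain ⟨y, hy, hy0⟩ := h1
        refine ⟨y, hXrX hy, hy0, ?_⟩
        intro b hb
        obtain ⟨c, hc, rfl⟩ := hYw b hb
        exact hperp c hc y hy

omit [IsUltrametricDist W] in
theorem kSub_subfield {E : Subfield W} (h : K ≤ E) : KSub K (E : Set W) :=
  ⟨zero_mem E, fun _ ha _ hb => add_mem ha hb, fun _ hc _ ha => mul_mem (h hc) ha⟩

/-- a subfield with a finite orthogonal basis has one with `θ 0 = 1` -/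
theorem orthBasis_of_hasOB {E : Subfield W} (h : K ≤ E) (hE : HasOB K (E : Set W)) :
    ∃ (d : ℕ) (θ : Fin (d + 1) → W), OrthBasis K E θ := by
  obtain ⟨n, e, he⟩ := hE
  obtain ⟨m, f, -, hf0, hf, -⟩ := ob_sub he (kSub_subfield h) (le_refl _) (one_mem E) one_ne_zero
  refine ⟨m, f, h, hf0, fun i => hf.mem i, hf.ne, fun x hx => (hf.span x).1 hx, ?_⟩
  intro c hc i
  rw [norm_mul]
  exact hf.orth c hc i

omit [IsUltrametricDist W] in
theorem hasOB_of_orthBasis {E : Subfield W} {d : ℕ} {θ : Fin (d + 1) → W}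
    (h : OrthBasis K E θ) : HasOB K (E : Set W) := by
  refine ⟨d + 1, θ, h.ne, ?_, ?_⟩
  · intro y
    constructor
    · intro hy
      exact h.span y hy
    · rintro ⟨a, ha, rfl⟩
      exact sum_mem fun i _ => mul_mem (h.le (ha i)) (h.mem i)
  · intro a ha i
    rw [← norm_mul]
    exact h.orth a ha i

/-- intermediate fields -/
theorem hasOB_bot {E F : Subfield W} (h1 : K ≤ E) (h2 : E ≤ F) (h : HasOB K (F : Set W)) :
    HasOB K (E : Set W) := by
  obtain ⟨n, e, he⟩ := h
  obtain ⟨m, f, -, -, hf, -⟩ := ob_sub he (kSub_subfield h1) (fun x hx => h2 hx) (one_mem E)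
    one_ne_zero
  exact ⟨m + 1, f, hf⟩

omit [IsUltrametricDist W] in
/-- towers: products of orthogonal bases -/
theorem hasOB_trans {E F : Subfield W} (h1 : K ≤ E) (h2 : E ≤ F) (h : HasOB K (E : Set W))
    (h' : HasOB E (F : Set W)) : HasOB K (F : Set W) := by
  obtain ⟨n, e, he⟩ := h
  obtain ⟨m, f, hf⟩ := h'
  have hsum : ∀ a : Fin (n * m) → W, ∑ l, a l * (e (finProdFinEquiv.symm l).1 *
      f (finProdFinEquiv.symm l).2) =
      ∑ j, (∑ i, a (finProdFinEquiv (i, j)) * e i) * f j := by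
    intro a
    rw [← Equiv.sum_comp finProdFinEquiv, Fintype.sum_prod_type, Finset.sum_comm]
    refine Finset.sum_congr rfl fun j _ => ?_
    rw [Finset.sum_mul]
    refine Finset.sum_congr rfl fun i _ => ?_
    rw [Equiv.symm_apply_apply]
    ring
  refine ⟨n * m, fun l => e (finProdFinEquiv.symm l).1 * f (finProdFinEquiv.symm l).2,
    fun l => mul_ne_zero (he.ne _) (hf.ne _), ?_, ?_⟩
  · intro y
    constructor
    · intro hy
      obtain ⟨b, hb, hyb⟩ := (hf.span y).1 hy
      have h3 : ∀ j, ∃ a : Fin n → W, (∀ i, a i ∈ K) ∧ b j = ∑ i, a i * e i := fun j =>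
        (he.span (b j)).1 (hb j)
      choose a ha hba using h3
      refine ⟨fun l => a (finProdFinEquiv.symm l).2 (finProdFinEquiv.symm l).1,
        fun l => ha _ _, ?_⟩
      rw [hsum, hyb]
      refine Finset.sum_congr rfl fun j _ => ?_
      rw [hba j]
      simp only [Equiv.symm_apply_apply]
    · rintro ⟨a, ha, rfl⟩
      rw [hsum]
      refine (hf.span _).2 ⟨fun j => ∑ i, a (finProdFinEquiv (i, j)) * e i, ?_, rfl⟩
      intro j
      exact (he.span _).2 ⟨fun i => a (finProdFinEquiv (i, j)), fun i => ha _, rfl⟩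
  · intro a ha l
    rw [hsum]
    obtain ⟨⟨i, j⟩, rfl⟩ := finProdFinEquiv.surjective l
    simp only [Equiv.symm_apply_apply]
    have h3 := hf.orth (fun j => ∑ i, a (finProdFinEquiv (i, j)) * e i) (fun j =>
      (he.span _).2 ⟨fun i => a (finProdFinEquiv (i, j)), fun i => ha _, rfl⟩) j
    have h4 := he.orth (fun i => a (finProdFinEquiv (i, j))) (fun i => ha _) i
    calc ‖a (finProdFinEquiv (i, j))‖ * ‖e i * f j‖
        = ‖a (finProdFinEquiv (i, j))‖ * ‖e i‖ * ‖f j‖ := by rw [norm_mul, mul_assoc]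
      _ ≤ ‖∑ i, a (finProdFinEquiv (i, j)) * e i‖ * ‖f j‖ :=
          mul_le_mul_of_nonneg_right h4 (norm_nonneg _)
      _ ≤ _ := h3

end HR
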