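import Pool.Agent.Lib.HR.FFa

/-!
# Stab1: a maximal locally good algebraic extension has no bad elements

`exists_max_LFF`: Zorn (`zorn_le_nonempty₀` or similar) for the set of `E` with `LFF K E`; `K` is a member
(`FF.refl`), unions of nonempty chains are members (`sSup` of a directed set of subfields,
`Subfield.mem_sSup_of_directedOn`).

`exists_sep_perturb`: `f` the minimal polynomial of `y` over `E`, monic irreducible of degree `n`,
`f(0) ≠ 0` since `y ≠ 0`.  For `t ∈ E` put `g = f + t X` if `n ≥ 2` (for `n = 1`, `y ∈ E` is separable).  A multiple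
root `x` of `g` satisfies `f(x) + t x = 0`, `f'(x) + t = 0`, so `f(x) - x f'(x) = 0`; the polynomial
`f - X f'` is not zero (value `f(0) ≠ 0` at `0`), so there are finitely many such `x` and finitely many
values `t = - f'(x)` to avoid.  `E` contains infinitely many elements `t` of norm as small as we want.
`‖g(y)‖ = ‖t y‖ = ∏ ‖y - β‖` over the `n` roots `β` of `g`, so one of them has `‖y - β‖ < ε`; it is
separable over `E` (its minimal polynomial divides `g`, which has no multiple roots), of degree `≤ n`.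

`not_bad_of_max`: suppose there is an element `y ≠ 0`, algebraic over `E` and `Bad`; take one of minimal
degree `n` over `E`.  Apply `exists_sep_perturb` with `ε = ‖y‖`: `y₁` separable over `E`, of degree
`≤ n`, `‖y - y₁‖ < ‖y‖ = ‖y₁‖`; `y₁` is `Bad` (if `‖y₁ - c‖ < ‖y₁‖` then `‖y - c‖ < ‖y‖`), so it also has
minimal degree `n` and by `powOrth_of_min` `PowOrth E y₁ n`.  `y₁ ∉ E` (`Bad`, `y₁ ≠ 0`).  Claim
`LFF K (adj E y₁)`, contradicting maximality: given a finite subset `s` of `adj E y₁`, write its elements as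
polynomials in `y₁` over `E` (`exists_poly_of_mem_adj`); take `E' ∈ FF K`, `E' ≤ E`, containing all
these coefficients and those of `minpoly E y₁`.  Then `minpoly E' y₁` has the same degree `n`
(same polynomial), `y₁` is separable over `E'`, `PowOrth E' y₁ n`, so `FF K (adj E' y₁)` (`FF.adj`),
and `s ⊆ adj E' y₁ ≤ adj E y₁`.
-/

namespace HR

open Polynomial MP1a953e

variable {W : Type*} [NormedField W] [IsUltrametricDist W] [IsAlgClosed W] {K E : Subfield W}

omit [IsUltrametricDist W] [IsAlgClosed W] in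
theorem exists_max_LFF (K : Subfield W) :
    ∃ E, LFF K E ∧ ∀ E', LFF K E' → E ≤ E' → E' = E := by
  have hK : LFF K K := ⟨le_rfl, fun s hs => ⟨K, FF.refl K, le_rfl, hs⟩⟩
  obtain ⟨m, -, hm⟩ := zorn_le_nonempty₀ {E : Subfield W | LFF K E} (by
    intro c hc hchain y hy
    have hdir : DirectedOn (· ≤ ·) c := hchain.directedOn
    refine ⟨sSup c, ⟨(hc hy).le.trans (le_sSup hy), fun s hs => ?_⟩, fun z hz => le_sSup hz⟩
    rw [Subfield.coe_sSup_of_directedOn ⟨y, hy⟩ hdir] at hs
    obtain ⟨E, hE, hsE⟩ := DirectedOn.exists_mem_subset_of_finset_subset_biUnion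
      (f := fun E : Subfield W => (E : Set W)) ⟨y, hy⟩ hdir hs
    obtain ⟨E', h1, h2, h3⟩ := (hc hE).loc s hsE
    exact ⟨E', h1, h2.trans (le_sSup hE), h3⟩) K hK
  exact ⟨m, hm.prop, fun E' hE' hle => (hm.eq_of_le hE' hle).symm⟩

omit [IsUltrametricDist W] [IsAlgClosed W] in
private lemma st_prod {y : W} {ε : ℝ} (hε : 0 ≤ ε) (s : Multiset W) (hs : ∀ β ∈ s, ε ≤ ‖y - β‖) :
    ε ^ s.card ≤ ‖(s.map (fun β => y - β)).prod‖ := by
  induction s using Multiset.induction_on with
  | empty => simp
  | cons β s ih =>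
    rw [Multiset.map_cons, Multiset.prod_cons, norm_mul, Multiset.card_cons, pow_succ, mul_comm]
    exact mul_le_mul (hs β (Multiset.mem_cons_self β s))
      (ih fun γ hγ => hs γ (Multiset.mem_cons_of_mem hγ)) (by positivity) (norm_nonneg _)

omit [IsUltrametricDist W] in
theorem exists_sep_perturb (hnt : ∃ x ∈ E, 1 < ‖x‖) {y : W} (hy : IsAlgebraic E y) (hy0 : y ≠ 0)
    {ε : ℝ} (hε : 0 < ε) :
    ∃ y₁ : W, IsSeparable E y₁ ∧ (minpoly E y₁).natDegree ≤ (minpoly E y).natDegree ∧
      ‖y - y₁‖ < ε := by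
  classical
  have hyi := hy.isIntegral
  set f := minpoly E y with hf
  set n := f.natDegree with hn
  have hn1 : 0 < n := minpoly.natDegree_pos hyi
  have hfm : f.Monic := minpoly.monic hyi
  rcases Nat.lt_or_ge 1 n with hn2 | hn2
  · have hf0 : f.coeff 0 ≠ 0 := minpoly.coeff_zero_ne_zero hyi hy0
    set q : E[X] := f - X * derivative f with hq
    have hq0 : q ≠ 0 := by
      intro h
      have h1 : q.coeff 0 = 0 := by rw [h, coeff_zero]
      rw [hq, coeff_sub, coeff_X_mul_zero, sub_zero] at h1
      exact hf0 h1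
    set T : Finset W := (q.map (algebraMap E W)).roots.toFinset.image
      (fun x => - aeval x (derivative f)) with hT
    obtain ⟨x0, hx0, hx1⟩ := hnt
    have hx00 : x0 ≠ 0 := by
      rintro rfl
      rw [norm_zero] at hx1
      linarith
    have hx0i : ‖x0⁻¹‖ < 1 := by rw [norm_inv]; exact inv_lt_one_of_one_lt₀ hx1
    have hy0' : 0 < ‖y‖ := norm_pos_iff.2 hy0
    obtain ⟨M, hM⟩ := exists_pow_lt_of_lt_one (show 0 < ε ^ n / ‖y‖ by positivity) hx0i
    have hinj : Function.Injective (fun m : ℕ => x0⁻¹ ^ (M + m)) := by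
      intro a b hab
      have h1 := congrArg norm hab
      simp only [norm_pow] at h1
      have hpos : 0 < ‖x0⁻¹‖ := norm_pos_iff.2 (inv_ne_zero hx00)
      have h2 := pow_right_injective₀ hpos hx0i.ne h1
      exact Nat.add_left_cancel h2
    obtain ⟨t, ⟨m, hm⟩, htT⟩ := (Set.infinite_range_of_injective hinj).exists_notMem_finset T
    have htE : t ∈ E := by
      rw [← hm]; exact E.pow_mem (E.inv_mem hx0) _
    have htn : ‖t‖ < ε ^ n / ‖y‖ := by
      rw [← hm]
      simp only [norm_pow]
      refine lt_of_le_of_lt ?_ hM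
      rw [norm_inv] at hx0i ⊢
      exact pow_le_pow_of_le_one (by positivity) hx0i.le (Nat.le_add_right _ _)
    set g : E[X] := f + C ⟨t, htE⟩ * X with hg
    have hdl : (C (⟨t, htE⟩ : E) * X).degree < f.degree := by
      refine (degree_C_mul_X_le _).trans_lt ?_
      rw [degree_eq_natDegree hfm.ne_zero]
      exact_mod_cast hn2
    have hgm : g.Monic := hfm.add_of_left hdl
    have hgd : g.natDegree = n := by
      rw [hg, hn]
      exact natDegree_add_eq_left_of_degree_lt hdl
    have hga : ∀ x : W, aeval x g = aeval x f + t * x := by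
      intro x
      rw [hg, map_add, map_mul, aeval_C, aeval_X]
      rfl
    have hgs : g.Separable := by
      rw [Polynomial.Separable]
      refine (isCoprime_iff_aeval_ne_zero_of_isAlgClosed (k := E) W g (derivative g)).2 ?_
      intro x
      by_contra hcon
      push Not at hcon
      obtain ⟨h1, h2⟩ := hcon
      rw [hga] at h1
      have h3 : aeval x (derivative g) = aeval x (derivative f) + t := by
        rw [hg, derivative_add, derivative_C_mul, derivative_X, mul_one, map_add, aeval_C]
        rfl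
      rw [h3] at h2
      have ht : t = - aeval x (derivative f) := by linear_combination h2
      apply htT
      rw [hT, Finset.mem_image]
      refine ⟨x, ?_, ht.symm⟩
      rw [Multiset.mem_toFinset, mem_roots (Polynomial.map_ne_zero hq0), IsRoot.def, eval_map,
        ← aeval_def, hq, map_sub, map_mul, aeval_X]
      linear_combination h1 - x * h2
    have hgy : ‖(g.map (algebraMap E W)).eval y‖ < ε ^ n := by
      rw [eval_map, ← aeval_def, hga, hf, minpoly.aeval, zero_add, norm_mul]
      rwa [lt_div_iff₀ hy0'] at htn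
    have hgW : (g.map (algebraMap E W)).Monic := hgm.map _
    have hspl : (g.map (algebraMap E W)).Splits := IsAlgClosed.splits _
    have hcard : (g.map (algebraMap E W)).roots.card = n := by
      rw [splits_iff_card_roots.1 hspl, natDegree_map, hgd]
    rw [hspl.eval_eq_prod_roots_of_monic hgW] at hgy
    have hex : ∃ β ∈ (g.map (algebraMap E W)).roots, ‖y - β‖ < ε := by
      by_contra hcon
      push Not at hcon
      have h1 := st_prod hε.le _ hcon
      rw [hcard] at h1
      linarith
    obtain ⟨β, hβ, hβε⟩ := hex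
    rw [mem_roots hgW.ne_zero, IsRoot.def, eval_map, ← aeval_def] at hβ
    have hdvd := minpoly.dvd E β hβ
    refine ⟨β, hgs.of_dvd hdvd, ?_, hβε⟩
    rw [← hgd]
    exact natDegree_le_of_dvd hdvd hgm.ne_zero
  · have h1 : f.natDegree = 1 := by omega
    obtain ⟨x, hx⟩ := minpoly.natDegree_eq_one_iff.1 h1
    refine ⟨y, ?_, le_rfl, by rw [sub_self, norm_zero]; exact hε⟩
    rw [← hx]
    exact isSeparable_algebraMap x

omit [IsUltrametricDist W] [IsAlgClosed W] in
private lemma st_eval_mem {F : Subfield W} {h : W[X]} (hh : PolyIn F h) {y : W} :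
    h.eval y ∈ MP1a953e.adj F y := by
  rw [eval_eq_sum_range]
  refine Subfield.sum_mem _ fun i _ => ?_
  exact Subfield.mul_mem _ (le_adj F y (hh i)) (Subfield.pow_mem _ (mem_adj_self F y) _)

omit [IsUltrametricDist W] [IsAlgClosed W] in
/-- descent of the minimal polynomial -/
private lemma st_descend {E E' : Subfield W} (hle : E' ≤ E) {y : W} (hy : IsSeparable E y)
    (hc : ∀ i, (((minpoly E y).coeff i : E) : W) ∈ E') :
    IsSeparable E' y ∧ (minpoly E' y).natDegree = (minpoly E y).natDegree := by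
  have hyi : IsIntegral E y := hy.isIntegral
  have hl : (minpoly E y).map (algebraMap E W) ∈ lifts (algebraMap E' W) := by
    rw [lifts_iff_coeff_lifts]
    intro i
    rw [coeff_map]
    exact ⟨⟨_, hc i⟩, rfl⟩
  obtain ⟨P', hP'⟩ := hl
  have hP'eq : P'.map (algebraMap E' W) = (minpoly E y).map (algebraMap E W) := hP'
  have hmonW : ((minpoly E y).map (algebraMap E W)).Monic := (minpoly.monic hyi).map _
  have hP'm : P'.Monic := by
    rw [← hP'eq] at hmonW
    exact monic_of_injective (algebraMap E' W).injective hmonW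
  have hP'0 : aeval y P' = 0 := by
    rw [aeval_def, ← eval_map, hP'eq, eval_map, ← aeval_def, minpoly.aeval]
  have hP'd : P'.natDegree = (minpoly E y).natDegree := by
    rw [← natDegree_map (algebraMap E' W), hP'eq, natDegree_map]
  have hyi' : IsIntegral E' y := ⟨P', hP'm, hP'0⟩
  have hdvd : minpoly E' y ∣ P' := minpoly.dvd E' y hP'0
  have hge : (minpoly E y).natDegree ≤ (minpoly E' y).natDegree := by
    set Q : E[X] := (minpoly E' y).map (Subfield.inclusion hle) with hQ
    have hQ0 : aeval y Q = 0 := by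
      rw [hQ, aeval_def, eval₂_map]
      have : (algebraMap E W).comp (Subfield.inclusion hle) = algebraMap E' W := rfl
      rw [this, ← aeval_def, minpoly.aeval]
    have hQm : Q.Monic := (minpoly.monic hyi').map _
    have h1 := natDegree_le_of_dvd (minpoly.dvd E y hQ0) hQm.ne_zero
    rw [hQ, (minpoly.monic hyi').natDegree_map] at h1
    exact h1
  have hle' : (minpoly E' y).natDegree ≤ (minpoly E y).natDegree := by
    rw [← hP'd]; exact natDegree_le_of_dvd hdvd hP'm.ne_zero
  refine ⟨?_, le_antisymm hle' hge⟩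
  have hsep : (P'.map (algebraMap E' W)).Separable := by
    rw [hP'eq, separable_map]; exact hy
  rw [separable_map] at hsep
  exact hsep.of_dvd hdvd

theorem not_bad_of_max (hnt : ∃ x ∈ K, 1 < ‖x‖) (hE : LFF K E)
    (hmax : ∀ E', LFF K E' → E ≤ E' → E' = E) {y : W} (hy : IsAlgebraic E y) (hy0 : y ≠ 0) :
    ¬ Bad E y := by
  classical
  intro hbad
  have hex : ∃ n : ℕ, ∃ x : W, (IsAlgebraic E x ∧ x ≠ 0 ∧ Bad E x) ∧
      (minpoly E x).natDegree = n := ⟨_, y, ⟨hy, hy0, hbad⟩, rfl⟩
  obtain ⟨x, ⟨hx, hx0, hxb⟩, hxn⟩ := Nat.find_spec hex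
  have hmin : ∀ β : W, IsAlgebraic E β → β ≠ 0 → Bad E β →
      (minpoly E x).natDegree ≤ (minpoly E β).natDegree := by
    intro β h1 h2 h3
    rw [hxn]
    exact Nat.find_min' hex ⟨β, ⟨h1, h2, h3⟩, rfl⟩
  have hntE : ∃ x ∈ E, 1 < ‖x‖ := hnt.imp fun _ h => ⟨hE.le h.1, h.2⟩
  obtain ⟨y₁, hsep, hdeg, hclose⟩ := exists_sep_perturb hntE hx hx0 (norm_pos_iff.2 hx0)
  have hnorm : ‖y₁‖ = ‖x‖ := by
    by_contra hne
    have h2 := IsUltrametricDist.norm_add_eq_max_of_norm_ne_norm (x := x) (y := -y₁)
      (by rw [norm_neg]; exact fun h => hne h.symm)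
    rw [norm_neg, ← sub_eq_add_neg] at h2
    have h3 := le_max_left ‖x‖ ‖y₁‖
    linarith
  have hy₁0 : y₁ ≠ 0 := by
    rw [← norm_pos_iff, hnorm]; exact norm_pos_iff.2 hx0
  have hb₁ : Bad E y₁ := by
    intro c hc
    by_contra hcon
    have h1 := IsUltrametricDist.norm_add_le_max (x - y₁) (y₁ - c)
    rw [sub_add_sub_cancel] at h1
    have h2 : ‖x - c‖ < ‖x‖ := h1.trans_lt (max_lt hclose (by rw [← hnorm]; exact not_le.1 hcon))
    exact absurd (hxb c hc) (not_le.2 h2)
  have hy₁a : IsAlgebraic E y₁ := hsep.isIntegral.isAlgebraic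
  have hpo := powOrth_of_min hy₁a hb₁ (fun β h1 h2 h3 => hdeg.trans (hmin β h1 h2 h3))
  have hy₁E : y₁ ∉ E := by
    intro h1
    have h2 := hb₁ y₁ h1
    rw [sub_self, norm_zero] at h2
    exact hy₁0 (norm_le_zero_iff.1 h2)
  have hLFF : LFF K (MP1a953e.adj E y₁) := by
    refine ⟨hE.le.trans (le_adj E y₁), fun s hs => ?_⟩
    have hpoly : ∀ x : W, ∃ h : W[X], PolyIn E h ∧ (x ∈ s → h.eval y₁ = x) := by
      intro x
      by_cases hxs : x ∈ s
      · obtain ⟨h, h1, -, h3⟩ := exists_poly_of_mem_adj hy₁a (hs hxs)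
        exact ⟨h, h1, fun _ => h3⟩
      · refine ⟨0, fun i => ?_, fun h => absurd h hxs⟩
        rw [coeff_zero]; exact E.zero_mem
    choose H hH1 hH2 using hpoly
    set T : Finset W := (s.biUnion fun x => (Finset.range ((H x).natDegree + 1)).image
        (fun i => (H x).coeff i)) ∪
      (Finset.range ((minpoly E y₁).natDegree + 1)).image
        (fun i => (((minpoly E y₁).coeff i : E) : W)) with hT
    have hTE : (T : Set W) ⊆ E := by
      intro w hw
      rw [hT, Finset.coe_union, Set.mem_union, Finset.mem_coe, Finset.mem_coe, Finset.mem_biUnion,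
        Finset.mem_image] at hw
      rcases hw with ⟨x, -, hx⟩ | ⟨i, -, rfl⟩
      · rw [Finset.mem_image] at hx
        obtain ⟨i, -, rfl⟩ := hx
        exact hH1 x i
      · exact ((minpoly E y₁).coeff i).2
    obtain ⟨E', hE'FF, hE'E, hTE'⟩ := hE.loc T hTE
    have hc : ∀ i, (((minpoly E y₁).coeff i : E) : W) ∈ E' := by
      intro i
      by_cases hi : i ≤ (minpoly E y₁).natDegree
      · apply hTE'
        rw [hT, Finset.coe_union]
        right
        rw [Finset.mem_coe, Finset.mem_image]
        exact ⟨i, Finset.mem_range.2 (by omega), rfl⟩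
      · rw [coeff_eq_zero_of_natDegree_lt (by omega)]
        exact E'.zero_mem
    have hHc : ∀ x ∈ s, PolyIn E' (H x) := by
      intro x hx i
      by_cases hi : i ≤ (H x).natDegree
      · apply hTE'
        rw [hT, Finset.coe_union]
        left
        rw [Finset.mem_coe, Finset.mem_biUnion]
        exact ⟨x, hx, Finset.mem_image.2 ⟨i, Finset.mem_range.2 (by omega), rfl⟩⟩
      · rw [coeff_eq_zero_of_natDegree_lt (by omega)]
        exact E'.zero_mem
    obtain ⟨hsep', hdeg'⟩ := st_descend hE'E hsep hc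
    refine ⟨MP1a953e.adj E' y₁, hE'FF.adj hsep' ?_, ?_, ?_⟩
    · rw [hdeg']
      intro h hh hd i
      exact hpo h (fun j => hE'E (hh j)) hd i
    · exact adj_le (hE'E.trans (le_adj E y₁)) (mem_adj_self E y₁)
    · intro x hx
      have h1 := st_eval_mem (hHc x hx) (y := y₁)
      rw [hH2 x hx] at h1
      exact h1
  have h1 := hmax _ hLFF (le_adj E y₁)
  apply hy₁E
  rw [← h1]
  exact mem_adj_self E y₁

end HR
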