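import Pool.Agent.Lib.HR.FS
import Pool.Agent.Lib.HR.CC
import Pool.Agent.Lib.MP_1a953e_ag.GP1

/-!
# TrL: the trace argument for degrees prime to `p`

`M'` is an algebraic extension of the complete field `Q`, `y` separable over `M'` of degree `n` prime to
`p`, so `‖(n : W)‖ = 1`.

`exists_trace_zero`: `y' = y - t/n`, `t` the sum of the roots of `minpoly M' y` (`t ∈ M'`).

`conj_norm`: if `y, y'` have the same minimal polynomial over `M'` they have the same one over `Q`
(`minpoly Q y` vanishes at `y'` and is irreducible), so `norm_eq_of_minpoly_eq` applies.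

`trace_lemma`: let `y i` be the `n` roots of `f = minpoly M' y` (distinct, `f` separable), `∑ y i = 0`
(`nextCoeff = 0`).  `y i - c` and `y - c` are conjugate over `M'`
(`minpoly.add_algebraMap` / `minpoly_sub`...), so `‖y i - c‖ = ‖y - c‖ < ‖y‖ = ‖c‖`; the sum of the
`y i - c` is `- n c`, of norm `‖c‖`: contradiction.
-/

namespace HR

open Polynomial MP1a953e

variable {W : Type*} [NormedField W] [IsUltrametricDist W] [IsAlgClosed W] {p : ℕ}
  [Fact p.Prime] [CharP W p] {Q M' : Subfield W}

private theorem trl_taylor_coeff {R : Type*} [CommRing R] {f : R[X]} (hf : f.Monic)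
    (hn : 1 ≤ f.natDegree) (r : R) :
    (taylor r f).coeff (f.natDegree - 1) = f.nextCoeff + (f.natDegree : R) * r := by
  have h0 : f.natDegree ≠ 0 := by omega
  rw [taylor_coeff, nextCoeff_of_natDegree_pos (by omega)]
  have h1 : (hasseDeriv (f.natDegree - 1) f).natDegree < 2 := by
    have h := natDegree_hasseDeriv_le f (f.natDegree - 1)
    omega
  rw [eval_eq_sum_range' h1, Finset.sum_range_succ, Finset.sum_range_one, hasseDeriv_coeff,
    hasseDeriv_coeff, zero_add, Nat.choose_self, Nat.cast_one, one_mul, pow_zero, mul_one,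
    pow_one]
  have h2 : 1 + (f.natDegree - 1) = f.natDegree := by omega
  have h3 : f.natDegree.choose (f.natDegree - 1) = f.natDegree := by
    rw [Nat.choose_symm_of_eq_add (n := f.natDegree) (a := f.natDegree - 1) (b := 1) (by omega),
      Nat.choose_one_right]
  rw [h2, h3, hf.coeff_natDegree, mul_one]

omit [IsUltrametricDist W] [IsAlgClosed W] in
theorem exists_trace_zero {y : W} (hy : IsSeparable M' y)
    (hp : ¬ p ∣ (minpoly M' y).natDegree) :
    ∃ y' : W, IsSeparable M' y' ∧ adj M' y' = adj M' y ∧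
      (minpoly M' y').natDegree = (minpoly M' y).natDegree ∧ (minpoly M' y').nextCoeff = 0 := by
  have hint : IsIntegral M' y := hy.isIntegral
  set f := minpoly M' y with hf
  have hmon : f.Monic := minpoly.monic hint
  have hn : 0 < f.natDegree := minpoly.natDegree_pos hint
  have hn0 : ((f.natDegree : M') : W) ≠ 0 := by
    intro h
    apply hp
    have h1 : ((f.natDegree : ℕ) : W) = 0 := by
      rw [← h]; push_cast; rfl
    exact (CharP.cast_eq_zero_iff W p _).1 h1
  have hn1 : (f.natDegree : M') ≠ 0 := by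
    intro h
    apply hn0
    rw [h]; rfl
  set a : M' := f.nextCoeff / (f.natDegree : M') with ha
  have hmin : minpoly M' (y + algebraMap M' W a) = f.comp (X - C a) :=
    minpoly.add_algebraMap y a
  have htay : f.comp (X - C a) = taylor (-a) f := by
    rw [taylor_apply, C_neg, sub_eq_add_neg]
  refine ⟨y + algebraMap M' W a, Field.isSeparable_add hy (isSeparable_algebraMap a), ?_, ?_, ?_⟩
  · refine le_antisymm (adj_le (le_adj M' y) ?_) (adj_le (le_adj _ _) ?_)
    · exact (adj M' y).add_mem (mem_adj_self M' y) (le_adj M' y a.2)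
    · have h1 := (adj M' (y + algebraMap M' W a)).sub_mem
        (mem_adj_self M' (y + algebraMap M' W a)) (le_adj M' (y + algebraMap M' W a) a.2)
      have h2 : y + algebraMap M' W a - (a : W) = y := by
        change y + (a : W) - (a : W) = y
        ring
      rwa [h2] at h1
  · rw [hmin, htay, natDegree_taylor]
  · rw [hmin, htay, nextCoeff_of_natDegree_pos (by rw [natDegree_taylor]; exact hn),
      natDegree_taylor, trl_taylor_coeff hmon hn, ha]
    field_simp
    ring

omit [IsAlgClosed W] [Fact p.Prime] [CharP W p] in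
theorem conj_norm (hQ : IsComplete (Q : Set W)) (hnt : ∃ x ∈ Q, 1 < ‖x‖) (hQM : Q ≤ M')
    (halg : ∀ x ∈ M', IsAlgebraic Q x) {y y' : W} (hy : IsAlgebraic M' y)
    (h : minpoly M' y = minpoly M' y') {c : W} (hc : c ∈ M') : ‖y - c‖ = ‖y' - c‖ := by
  letI : Algebra Q M' := (Subfield.inclusion hQM).toAlgebra
  haveI : IsScalarTower Q M' W := IsScalarTower.of_algebraMap_eq fun x => rfl
  haveI hAlg : Algebra.IsAlgebraic Q M' := ⟨fun x => by
    have h1 := halg x.1 x.2
    exact (isAlgebraic_algebraMap_iff (algebraMap M' W).injective).1 h1⟩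
  set z := y - c with hz
  set z' := y' - c with hz'
  have hyint : IsIntegral M' y := hy.isIntegral
  have hmin : minpoly M' z = minpoly M' z' := by
    have h1 := minpoly.sub_algebraMap y (⟨c, hc⟩ : M')
    have h2 := minpoly.sub_algebraMap y' (⟨c, hc⟩ : M')
    have h3 : y - algebraMap M' W (⟨c, hc⟩ : M') = z := rfl
    have h4 : y' - algebraMap M' W (⟨c, hc⟩ : M') = z' := rfl
    rw [h3] at h1
    rw [h4] at h2
    rw [h1, h2, h]
  have hzint : IsIntegral M' z := by
    have h3 : y - algebraMap M' W (⟨c, hc⟩ : M') = z := rfl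
    rw [← h3]
    exact hyint.sub isIntegral_algebraMap
  have hzQ : IsAlgebraic Q z := by
    exact (isAlgebraic_iff_isIntegral.2 (isIntegral_trans (R := Q) (A := M') z hzint))
  have hz'Q : aeval z' (minpoly Q z) = 0 := by
    have h1 : minpoly M' z ∣ (minpoly Q z).map (algebraMap Q M') :=
      minpoly.dvd_map_of_isScalarTower Q M' z
    rw [hmin] at h1
    have h2 : aeval z' ((minpoly Q z).map (algebraMap Q M')) = 0 := by
      obtain ⟨g, hg⟩ := h1
      rw [hg, map_mul, minpoly.aeval, zero_mul]
    rwa [aeval_map_algebraMap] at h2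
  have hQmin : minpoly Q z = minpoly Q z' :=
    minpoly.eq_of_irreducible_of_monic (minpoly.irreducible hzQ.isIntegral) hz'Q
      (minpoly.monic hzQ.isIntegral)
  exact norm_eq_of_minpoly_eq hQ hnt hzQ hQmin

theorem trace_lemma (hQ : IsComplete (Q : Set W)) (hnt : ∃ x ∈ Q, 1 < ‖x‖) (hQM : Q ≤ M')
    (halg : ∀ x ∈ M', IsAlgebraic Q x) {y : W} (hy : IsSeparable M' y)
    (hp : ¬ p ∣ (minpoly M' y).natDegree) (h0 : (minpoly M' y).nextCoeff = 0) {c : W}
    (hc : c ∈ M') : ¬ ‖y - c‖ < ‖y‖ := by
  intro hlt
  have hint : IsIntegral M' y := hy.isIntegral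
  have hyc : ‖c‖ = ‖y‖ := by
    have h1 : ‖y‖ ≠ ‖-(y - c)‖ := by rw [norm_neg]; exact ne_of_gt hlt
    have h2 : y + -(y - c) = c := by ring
    have h3 := IsUltrametricDist.norm_add_eq_max_of_norm_ne_norm h1
    rw [h2, norm_neg] at h3
    rw [h3]
    exact max_eq_left hlt.le
  set f := minpoly M' y with hf
  have hmon : f.Monic := minpoly.monic hint
  set F := f.map (algebraMap M' W) with hF
  have hFmon : F.Monic := hmon.map _
  have hF0 : F ≠ 0 := hFmon.ne_zero
  have hcard : F.roots.card = f.natDegree := by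
    rw [← hmon.natDegree_map (algebraMap M' W)]
    exact (IsAlgClosed.splits F).natDegree_eq_card_roots.symm
  have hsum : F.roots.sum = 0 := by
    have h1 := (IsAlgClosed.splits F).nextCoeff_eq_neg_sum_roots_of_monic hFmon
    have h2 : F.nextCoeff = algebraMap M' W f.nextCoeff :=
      nextCoeff_map (algebraMap M' W).injective f
    rw [h2, h0, map_zero] at h1
    exact neg_eq_zero.1 h1.symm
  have hroot : ∀ r ∈ F.roots, ‖r - c‖ < ‖c‖ := by
    intro r hr
    have h1 : aeval r f = 0 := by
      have h2 := (mem_roots hF0).1 hr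
      rwa [IsRoot.def, hF, eval_map_algebraMap] at h2
    have h2 : minpoly M' y = minpoly M' r :=
      minpoly.eq_of_irreducible_of_monic (minpoly.irreducible hint) h1 hmon
    have h3 := conj_norm hQ hnt hQM halg hint.isAlgebraic h2 hc
    rw [← h3, hyc]
    exact hlt
  have hc0 : 0 < ‖c‖ := by rw [hyc]; exact lt_of_le_of_lt (norm_nonneg _) hlt
  have h1 : ∀ s : Multiset W, (∀ r ∈ s, ‖r - c‖ < ‖c‖) → ‖(s.map fun r => r - c).sum‖ < ‖c‖ := by
    intro s hs
    induction s using Multiset.induction with
    | empty => simpa using hc0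
    | cons a s ih =>
      rw [Multiset.map_cons, Multiset.sum_cons]
      refine lt_of_le_of_lt (IsUltrametricDist.norm_add_le_max _ _) (max_lt ?_ ?_)
      · exact hs a (Multiset.mem_cons_self a s)
      · exact ih fun r hr => hs r (Multiset.mem_cons_of_mem hr)
  have h2 := h1 F.roots hroot
  rw [Multiset.sum_map_sub, Multiset.map_id', hsum, Multiset.map_const', Multiset.sum_replicate,
    hcard, zero_sub, norm_neg, nsmul_eq_mul, norm_mul, norm_natCast_of_not_dvd (p := p) hp,
    one_mul] at h2
  exact lt_irrefl _ h2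

end HR
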