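import Pool.Agent.Lib.HR.Stab1
import Pool.Agent.Lib.HR.TrL
import Pool.Agent.Lib.MP_1a953e_ag.Gal2

/-!
# Stab2: the stability theorem

Let `E` be maximal with `LFF K E` (`exists_max_LFF`).  All elements of `E` are separable algebraic over
the complete field `K`.

`prime_of_max`: `y` separable over `E` of degree `n` prime to `p`: then `y ∈ E`.  Take `y'` of trace zero
(`exists_trace_zero`, `M' = E`, `Q = K`); if `y' ≠ 0`, `not_bad_of_max` gives `c ∈ E` with `‖y' - c‖ < ‖y'‖`,
contradicting `trace_lemma`.  So `y' = 0`, `adj E y = E`.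

`as_of_max`: `z ^ p - z ∈ E` implies `z ∈ E`: otherwise `adj E z ≠ E`; `LFF K (adj E z)`: a finite
subset `s` of `adj E z` consists of polynomials in `z` (`exists_poly_of_mem_adj`); take `E' ∈ FF K`,
`E' ≤ E` containing the coefficients and `z ^ p - z`; `FF K (adj E' z)` by `FF.as`.

`stable`: let `E₀ / K` be finite separable, `E₀ = adj K y` (`FSep.prim`).  Apply `galois_devissage` to the
base `E` and the field `E(y)` (`IntermediateField.adjoin E {y}`): the field `E0` has degree prime to `p`
over `E` and is separable, so `E0 = E` by `prime_of_max` (primitive element); with the property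
`P F : F ≤ E`, `as_of_max` gives `E(y) ≤ E`.  So `y ∈ E`; `LFF.loc` for `{y}` gives `E' ∈ FF K` with `y ∈ E'`,
and `FF.bot`.
-/

namespace HR

open Polynomial MP1a953e

variable {W : Type*} [NormedField W] [IsUltrametricDist W] [IsAlgClosed W] {p : ℕ}
  [Fact p.Prime] [CharP W p] {k L K E : Subfield W}

private lemma hcl_le (h : HCl p k L K) : L ≤ K := h.dense.1

private lemma hcl_nt (h : HCl p k L K) : ∃ x ∈ K, 1 < ‖x‖ := by
  obtain ⟨x, hx, hx1⟩ := h.nontriv
  exact ⟨x, h.dense.1 hx, hx1⟩

private lemma lff_sep (hE : LFF K E) : ∀ x ∈ E, IsSeparable K x := by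
  intro x hx
  obtain ⟨E', hE', -, hs⟩ := hE.loc {x} (by simpa using hx)
  exact hE'.fsep.sep x (hs (by simp))

private lemma lff_alg (hE : LFF K E) : ∀ x ∈ E, IsAlgebraic K x :=
  fun x hx => (lff_sep hE x hx).isIntegral.isAlgebraic

theorem prime_of_max (h : HCl p k L K) (hE : LFF K E)
    (hmax : ∀ E', LFF K E' → E ≤ E' → E' = E) {y : W} (hy : IsSeparable E y)
    (hp : ¬ p ∣ (minpoly E y).natDegree) : y ∈ E := by
  obtain ⟨y', h1, h2, h3, h4⟩ := exists_trace_zero hy hp
  have hadj : adj E y = E := by
    rw [← h2]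
    by_cases h0 : y' = 0
    · rw [h0]
      exact le_antisymm (adj_le le_rfl E.zero_mem) (le_adj E 0)
    · exfalso
      apply not_bad_of_max (hcl_nt h) hE hmax h1.isIntegral.isAlgebraic h0
      intro c hc
      by_contra hlt
      push Not at hlt
      exact trace_lemma h.complete (hcl_nt h) hE.le (lff_alg hE) h1 (by rw [h3]; exact hp) h4 hc hlt
  have h5 := mem_adj_self E y
  rwa [hadj] at h5

theorem as_of_max (hk : IsAlgClosed k) (h : HCl p k L K) (hE : LFF K E)
    (hmax : ∀ E', LFF K E' → E ≤ E' → E' = E) {z : W} (hz : z ^ p - z ∈ E) : z ∈ E := by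
  classical
  have hL : LFF K (adj E z) := by
    refine ⟨hE.le.trans (le_adj E z), ?_⟩
    intro s hs
    have halg : IsAlgebraic E z := (isSeparable_of_wp (K := E) hz).isIntegral.isAlgebraic
    have hpoly : ∀ x : W, ∃ g : W[X], x ∈ adj E z → (PolyIn E g ∧ g.eval z = x) := by
      intro x
      by_cases hx : x ∈ adj E z
      · obtain ⟨g, hg1, -, hg3⟩ := exists_poly_of_mem_adj halg hx
        exact ⟨g, fun _ => ⟨hg1, hg3⟩⟩
      · exact ⟨0, fun h => absurd h hx⟩
    choose g hg using hpoly
    let t : Finset W := insert (z ^ p - z)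
      (s.biUnion (fun x => (Finset.range ((g x).natDegree + 1)).image (g x).coeff))
    have ht : (t : Set W) ⊆ E := by
      intro w hw
      have hw' : w ∈ t := hw
      rw [Finset.mem_insert, Finset.mem_biUnion] at hw'
      rcases hw' with hw' | ⟨x, hx, hw'⟩
      · rw [hw']
        exact hz
      · rw [Finset.mem_image] at hw'
        obtain ⟨i, -, rfl⟩ := hw'
        exact (hg x (hs hx)).1 i
    obtain ⟨E', hE', hle, hts⟩ := hE.loc t ht
    have hz' : z ^ p - z ∈ E' := hts (by
      have : z ^ p - z ∈ t := Finset.mem_insert_self _ _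
      exact this)
    refine ⟨adj E' z, FF.as hk h hE' hz', adj_le (hle.trans (le_adj E z)) (mem_adj_self E z), ?_⟩
    intro x hx
    have hx' := hg x (hs hx)
    rw [← hx'.2, eval_eq_sum_range]
    refine sum_mem (fun i hi => mul_mem ?_ (pow_mem (mem_adj_self E' z) i))
    apply le_adj E' z
    apply hts
    have : (g x).coeff i ∈ t := by
      rw [Finset.mem_insert, Finset.mem_biUnion]
      exact Or.inr ⟨x, hx, Finset.mem_image_of_mem _ hi⟩
    exact this
  have h5 := hmax _ hL (le_adj E z)
  have h6 := mem_adj_self E z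
  rwa [h5] at h6

private lemma finrank_if (E0 : IntermediateField E W) :
    E.relfinrank E0.toSubfield = Module.finrank E E0 := by
  have hle : E ≤ E0.toSubfield := by
    intro x hx
    exact E0.algebraMap_mem ⟨x, hx⟩
  have h1 : Subfield.extendScalars hle = E0 := by
    ext x
    rfl
  rw [Subfield.relfinrank_eq_finrank_of_le hle, h1]

/-- STABILITY: every finite separable extension has an orthogonal basis. -/
theorem stable (hk : IsAlgClosed k) (h : HCl p k L K) {E₀ : Subfield W} (hE : FSep K E₀) :
    FF K E₀ := by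
  obtain ⟨E, hLE, hmax⟩ := exists_max_LFF K
  obtain ⟨y, hyE, hys, hadj⟩ := hE.prim
  have hy : y ∈ E := by
    have hys' : IsSeparable E y := by
      let : Algebra K E := (Subfield.inclusion hLE.le).toAlgebra
      have : IsScalarTower K E W := IsScalarTower.of_algebraMap_eq (fun _ => rfl)
      exact hys.tower_top E
    have : FiniteDimensional E (IntermediateField.adjoin E {y}) :=
      IntermediateField.adjoin.finiteDimensional hys'.isIntegral
    have : Algebra.IsSeparable E (IntermediateField.adjoin E {y}) :=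
      (IntermediateField.isSeparable_adjoin_simple_iff_isSeparable E W).2 hys'
    obtain ⟨E0, hfd, hsep, hpd, hP⟩ := galois_devissage (p := p) E (IntermediateField.adjoin E {y})
    have hbase : E0.toSubfield ≤ E := by
      have := hfd
      have := hsep
      obtain ⟨x, hx, hxs, hx2⟩ := (FSep.ofIF E0).prim
      have hdeg : (minpoly E x).natDegree = Module.finrank E E0 := by
        rw [← relfinrank_adj hxs, ← hx2, finrank_if]
      have hxE : x ∈ E := prime_of_max h hLE hmax hxs (by rw [hdeg]; exact hpd)
      rw [hx2]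
      exact adj_le le_rfl hxE
    have hfin := hP (fun F => F ≤ E) hbase (fun E' z _ _ _ hz hE' =>
      sup_le hE' (Subfield.closure_le.2 (by simpa using as_of_max hk h hLE hmax (hE' hz))))
    apply hfin
    have h7 : y ∈ IntermediateField.adjoin E {y} := IntermediateField.mem_adjoin_simple_self E y
    exact (le_sup_left : IntermediateField.adjoin E {y} ≤ _ ⊔ E0) h7
  obtain ⟨E', hE', -, hyE'⟩ := hLE.loc {y} (by simpa using hy)
  refine hE'.bot hE.le ?_
  rw [hadj]
  exact adj_le hE'.fsep.le (hyE' (by simp))

end HR
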