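import Pool.Agent.Lib.HR.GDefs
import Pool.Agent.Lib.MP_1a953e_ag.Lin4

/-!
# FS: finite separable extensions inside `W`

Routine translations between subfields `K ≤ E` of `W` and `IntermediateField K W`.
-/

namespace HR

open Polynomial MP1a953e

section alg

variable {W : Type*} [NormedField W] {K E M F : Subfield W} {y : W}

private theorem sup_closure_eq (K : Subfield W) (s : Set W) :
    K ⊔ Subfield.closure s = (IntermediateField.adjoin K s).toSubfield := by
  rw [IntermediateField.adjoin_toSubfield, Subfield.closure_union]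
  congr 1
  rw [show Set.range (algebraMap K W) = (K : Set W) from by
    ext x
    constructor
    · rintro ⟨a, rfl⟩
      exact a.2
    · intro hx
      exact ⟨⟨x, hx⟩, rfl⟩]
  exact (Subfield.closure_eq K).symm

private theorem sep_iff {x : W} : IsSeparable K x ↔
    ∃ P : W[X], P.Separable ∧ PolyIn K P ∧ P.eval x = 0 := by
  constructor
  · intro h
    refine ⟨(minpoly K x).map (algebraMap K W), ?_, ?_, ?_⟩
    · exact Polynomial.Separable.map h
    · intro n
      rw [coeff_map]
      exact ((minpoly K x).coeff n).2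
    · have := minpoly.aeval K x
      rw [aeval_def, ← eval_map] at this
      exact this
  · rintro ⟨P, hP, hPK, hx⟩
    have hl : P ∈ Polynomial.lifts (algebraMap K W) := by
      rw [Polynomial.lifts_iff_coeff_lifts]
      intro n
      exact ⟨⟨P.coeff n, hPK n⟩, rfl⟩
    obtain ⟨Q, hQ⟩ := hl
    have hQ' : Q.map (algebraMap K W) = P := hQ
    have hQs : Q.Separable := by
      rw [← hQ'] at hP
      exact (Polynomial.separable_map _).1 hP
    have hd : minpoly K x ∣ Q := by
      apply minpoly.dvd
      rw [aeval_def, ← eval_map, hQ', hx]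
    exact hQs.of_dvd hd

private theorem sep_mono (h : K ≤ M) {x : W} (hx : IsSeparable K x) : IsSeparable M x := by
  rw [sep_iff] at hx ⊢
  obtain ⟨P, h1, h2, h3⟩ := hx
  exact ⟨P, h1, fun n => h (h2 n), h3⟩

private theorem ext_eq {E' : IntermediateField K W} (h : K ≤ E) (h' : E'.toSubfield = E) :
    Subfield.extendScalars h = E' := by
  subst h'
  ext x
  rfl

theorem FSep.toIF (h : FSep K E) : ∃ E' : IntermediateField K W, FiniteDimensional K E' ∧
    Algebra.IsSeparable K E' ∧ E'.toSubfield = E := by
  obtain ⟨s, hs⟩ := h.fg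
  have h1 : ∀ x ∈ (s : Set W), IsSeparable K x := by
    intro x hx
    apply h.sep
    rw [hs]
    exact (le_sup_right : Subfield.closure (s : Set W) ≤ _) (Subfield.subset_closure hx)
  refine ⟨IntermediateField.adjoin K (s : Set W), ?_, ?_, ?_⟩
  · exact IntermediateField.finiteDimensional_adjoin fun x hx => (h1 x hx).isIntegral
  · exact (IntermediateField.isSeparable_adjoin_iff_isSeparable K W).2 h1
  · rw [← sup_closure_eq, hs]

private theorem FSep.ext' (h : FSep K E) : FiniteDimensional K (Subfield.extendScalars h.le) ∧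
    Algebra.IsSeparable K (Subfield.extendScalars h.le) := by
  obtain ⟨E', h1, h2, h3⟩ := h.toIF
  rw [ext_eq h.le h3]
  exact ⟨h1, h2⟩

theorem FSep.ofIF (E' : IntermediateField K W) [FiniteDimensional K E']
    [Algebra.IsSeparable K E'] : FSep K E'.toSubfield := by
  obtain ⟨s, hs⟩ : E'.FG := by
    apply IntermediateField.fg_of_fg_toSubalgebra
    rw [← Subalgebra.fg_top]
    have h0 : Module.Finite K E'.toSubalgebra := inferInstanceAs (Module.Finite K E')
    have h1 : Algebra.FiniteType K E'.toSubalgebra := inferInstance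
    exact h1.out
  refine ⟨?_, ?_, ⟨s, ?_⟩⟩
  · intro x hx
    exact E'.algebraMap_mem ⟨x, hx⟩
  · intro x hx
    have h1 : IsSeparable K (⟨x, hx⟩ : E') := Algebra.IsSeparable.isSeparable K _
    have h2 : IsSeparable K (algebraMap E' W ⟨x, hx⟩) := by
      exact IsSeparable.map E'.val Subtype.val_injective h1
    exact h2
  · rw [sup_closure_eq, hs]

theorem FSep.refl (K : Subfield W) : FSep K K := by
  refine ⟨le_rfl, ?_, ⟨∅, by simp⟩⟩
  intro x hx
  exact isSeparable_algebraMap (⟨x, hx⟩ : K)

theorem FSep.trans (h : FSep K E) (h' : FSep E F) : FSep K F := by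
  refine ⟨h.le.trans h'.le, ?_, ?_⟩
  · intro x hx
    have h1 : IsSeparable E x := h'.sep x hx
    have h2 : IsSeparable (Subfield.extendScalars h.le) x := h1
    have := h.ext'.2
    exact IsSeparable.of_algebra_isSeparable_of_isSeparable K h2
  · classical
    obtain ⟨s, hs⟩ := h.fg
    obtain ⟨t, ht⟩ := h'.fg
    refine ⟨s ∪ t, ?_⟩
    rw [ht, hs, Finset.coe_union, Subfield.closure_union, sup_assoc]

theorem FSep.bot (h : FSep K F) (h1 : K ≤ E) (h2 : E ≤ F) : FSep K E := by
  obtain ⟨i1, i2⟩ := h.ext'
  have hle : Subfield.extendScalars h1 ≤ Subfield.extendScalars h.le := h2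
  have h3 : FiniteDimensional K (Subfield.extendScalars h1) := by
    have h4 : (Subfield.extendScalars h1).toSubalgebra.toSubmodule ≤
      (Subfield.extendScalars h.le).toSubalgebra.toSubmodule := hle
    have : FiniteDimensional K (Subfield.extendScalars h.le).toSubalgebra.toSubmodule := i1
    exact Submodule.finiteDimensional_of_le h4
  have h5 : Algebra.IsSeparable K (Subfield.extendScalars h1) := by
    refine ⟨fun x => ?_⟩
    have h6 : IsSeparable K (x : W) := h.sep x (h2 x.2)
    exact (isSeparable_map_iff (Subfield.extendScalars h1).val (Subtype.val_injective)).1 h6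
  exact FSep.ofIF (Subfield.extendScalars h1)

theorem FSep.top (h : FSep K F) (h1 : K ≤ E) (h2 : E ≤ F) : FSep E F := by
  refine ⟨h2, fun x hx => sep_mono h1 (h.sep x hx), ?_⟩
  obtain ⟨s, hs⟩ := h.fg
  refine ⟨s, le_antisymm ?_ ?_⟩
  · rw [hs]
    exact sup_le_sup_right h1 _
  · refine sup_le h2 ?_
    rw [hs]
    exact le_sup_right

private theorem fsep_closure {s : Finset W} (h : ∀ x ∈ s, IsSeparable K x) :
    FSep K (K ⊔ Subfield.closure (s : Set W)) := by
  rw [sup_closure_eq]
  have h1 : FiniteDimensional K (IntermediateField.adjoin K (s : Set W)) :=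
    IntermediateField.finiteDimensional_adjoin fun x hx => (h x hx).isIntegral
  have h2 : Algebra.IsSeparable K (IntermediateField.adjoin K (s : Set W)) :=
    (IntermediateField.isSeparable_adjoin_iff_isSeparable K W).2 h
  exact FSep.ofIF _

theorem FSep.sup_base (h : FSep K E) (hM : K ≤ M) : FSep M (M ⊔ E) := by
  obtain ⟨s, hs⟩ := h.fg
  have h1 : M ⊔ E = M ⊔ Subfield.closure (s : Set W) := by
    rw [hs, ← sup_assoc, sup_eq_left.2 hM]
  rw [h1]
  apply fsep_closure
  intro x hx
  apply sep_mono hM
  apply h.sep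
  rw [hs]
  exact (le_sup_right : Subfield.closure (s : Set W) ≤ _) (Subfield.subset_closure hx)

theorem FSep.sup (h : FSep K E) (h' : FSep K F) : FSep K (E ⊔ F) :=
  h.trans (h'.sup_base h.le)

theorem FSep.adj (h : IsSeparable K y) : FSep K (MP1a953e.adj K y) := by
  have := fsep_closure (K := K) (s := {y}) (by simpa using h)
  simpa [MP1a953e.adj] using this

theorem FSep.prim (h : FSep K E) : ∃ y ∈ E, IsSeparable K y ∧ E = MP1a953e.adj K y := by
  obtain ⟨i1, i2⟩ := h.ext'
  obtain ⟨α, hα⟩ := Field.exists_primitive_element K (Subfield.extendScalars h.le)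
  refine ⟨α, α.2, h.sep α α.2, le_antisymm ?_ ?_⟩
  · intro x hx
    rw [mem_adj_iff]
    have h1 : (⟨x, hx⟩ : Subfield.extendScalars h.le) ∈ IntermediateField.adjoin K {α} := by
      rw [hα]
      trivial
    have h2 : (IntermediateField.adjoin K {α}).map (Subfield.extendScalars h.le).val =
        IntermediateField.adjoin K {(α : W)} := by
      rw [IntermediateField.adjoin_map, Set.image_singleton]
      rfl
    rw [← h2]
    exact ⟨⟨x, hx⟩, h1, rfl⟩
  · exact adj_le h.le α.2

theorem FSep.finset (s : Finset W) (h : ∀ x ∈ s, IsSeparable K x) :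
    FSep K (K ⊔ Subfield.closure (s : Set W)) := fsep_closure h

theorem relfinrank_adj (h : IsSeparable K y) :
    K.relfinrank (MP1a953e.adj K y) = (minpoly K y).natDegree := by
  rw [Subfield.relfinrank_eq_finrank_of_le (le_adj K y),
    ext_eq (E' := IntermediateField.adjoin K {y}) (le_adj K y)
      (by rw [← sup_closure_eq]; rfl)]
  exact IntermediateField.adjoin.finrank h.isIntegral

theorem FSep.relfinrank_pos (h : FSep K E) : 0 < K.relfinrank E := by
  obtain ⟨i1, i2⟩ := h.ext'
  rw [Subfield.relfinrank_eq_finrank_of_le h.le]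
  exact Module.finrank_pos

theorem FSep.eq_of_relfinrank (h : FSep K E) (h1 : K.relfinrank E = 1) : E = K :=
  le_antisymm (Subfield.relfinrank_eq_one_iff.1 h1) h.le

theorem exists_finset_of_mem_sup {Q K' : Subfield W} {x : W} (hx : x ∈ Q ⊔ K') :
    ∃ s : Finset W, (s : Set W) ⊆ K' ∧ x ∈ Q ⊔ Subfield.closure (s : Set W) := by
  classical
  have h0 : Q ⊔ K' = Subfield.closure ((Q : Set W) ∪ K') := by
    rw [Subfield.closure_union, Subfield.closure_eq, Subfield.closure_eq]
  rw [h0] at hx
  have key : ∀ s t : Finset W, Q ⊔ Subfield.closure (s : Set W) ≤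
      Q ⊔ Subfield.closure ((s ∪ t : Finset W) : Set W) := fun s t =>
    sup_le_sup_left (Subfield.closure_mono (by simp)) Q
  have key' : ∀ s t : Finset W, Q ⊔ Subfield.closure (t : Set W) ≤
      Q ⊔ Subfield.closure ((s ∪ t : Finset W) : Set W) := fun s t =>
    sup_le_sup_left (Subfield.closure_mono (by simp)) Q
  induction hx using Subfield.closure_induction with
  | mem x hx =>
    rcases hx with hx | hx
    · exact ⟨∅, by simp, (le_sup_left : Q ≤ _) hx⟩
    · exact ⟨{x}, by simpa using hx, (le_sup_right : Subfield.closure _ ≤ _)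
        (Subfield.subset_closure (by simp))⟩
  | one => exact ⟨∅, by simp, one_mem _⟩
  | add x y _ _ h1 h2 =>
    obtain ⟨s, hs, hs'⟩ := h1
    obtain ⟨t, ht, ht'⟩ := h2
    exact ⟨s ∪ t, by simp [hs, ht], add_mem (key s t hs') (key' s t ht')⟩
  | neg x _ h1 =>
    obtain ⟨s, hs, hs'⟩ := h1
    exact ⟨s, hs, neg_mem hs'⟩
  | inv x _ h1 =>
    obtain ⟨s, hs, hs'⟩ := h1
    exact ⟨s, hs, inv_mem hs'⟩
  | mul x y _ _ h1 h2 =>
    obtain ⟨s, hs, hs'⟩ := h1
    obtain ⟨t, ht, ht'⟩ := h2
    exact ⟨s ∪ t, by simp [hs, ht], mul_mem (key s t hs') (key' s t ht')⟩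

/-- An element of `adj K y`, `y` algebraic of degree `n`, is a polynomial of degree `< n` in `y`. -/
theorem exists_poly_of_mem_adj (hy : IsAlgebraic K y) {x : W} (hx : x ∈ MP1a953e.adj K y) :
    ∃ h : W[X], PolyIn K h ∧ h.natDegree < (minpoly K y).natDegree ∧ h.eval y = x := by
  have hi : IsIntegral K y := hy.isIntegral
  rw [mem_adj_iff] at hx
  have h1 : x ∈ (IntermediateField.adjoin K ({y} : Set W)).toSubalgebra := hx
  rw [IntermediateField.adjoin_simple_toSubalgebra_of_isAlgebraic hy,
    Algebra.adjoin_singleton_eq_range_aeval] at h1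
  obtain ⟨g, hg⟩ := h1
  have hm := minpoly.monic hi
  refine ⟨(g %ₘ minpoly K y).map (algebraMap K W), ?_, ?_, ?_⟩
  · intro n
    rw [coeff_map]
    exact (coeff (g %ₘ minpoly K y) n).2
  · rw [natDegree_map]
    exact natDegree_modByMonic_lt g hm (minpoly.ne_one K y)
  · have h2 : aeval y (g %ₘ minpoly K y) = aeval y g :=
      Polynomial.aeval_modByMonic_eq_self_of_root (minpoly.aeval K y)
    rw [eval_map, ← aeval_def, h2]
    exact hg

/-- Artin-Schreier elements are separable. -/
theorem isSeparable_of_wp {p : ℕ} [Fact p.Prime] [CharP W p] {z : W} (hz : z ^ p - z ∈ K) :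
    IsSeparable K z := by
  rw [sep_iff]
  refine ⟨X ^ p - X - C (z ^ p - z), ?_, ?_, by simp⟩
  · have hd : derivative (X ^ p - X - C (z ^ p - z) : W[X]) = -1 := by
      rw [derivative_sub, derivative_sub, derivative_X_pow, derivative_X, derivative_C,
        CharP.cast_eq_zero]
      simp
    rw [Polynomial.Separable, hd]
    exact isCoprime_one_right.neg_right
  · intro n
    simp only [coeff_sub, coeff_X_pow, coeff_X, coeff_C]
    refine sub_mem (sub_mem ?_ ?_) ?_ <;> split_ifs <;>
      first | exact one_mem K | exact zero_mem K | exact hz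

end alg

theorem FSep.complete {W : Type*} [NormedField W] [IsUltrametricDist W] {K E : Subfield W}
    (hK : IsComplete (K : Set W)) (hnt : ∃ x ∈ K, 1 < ‖x‖) (h : FSep K E) :
    IsComplete (E : Set W) := by
  obtain ⟨y, _, hy, hE⟩ := h.prim
  rw [hE]
  exact complete_adj hK hnt hy.isIntegral.isAlgebraic

end HR
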