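import Pool.Agent.Lib.HR.OL
import Pool.Agent.Lib.HR.FS

/-!
# OL2: orthogonal bases over an intermediate field; perturbation; dense subfields

`orthBasis_top`: `A ≤ B ≤ V`, `V` has a finite orthogonal `A`-basis.  Consider families
`y 0 = 1, y 1, ..., y m` in `V` which are orthogonal over `B` (`‖b i y i‖ ≤ ‖∑ b j y j‖`); such a family
is linearly independent over `B`, hence over `A`, so `m + 1 ≤ n = dim_A V` and there is a longest one.
`Y = ∑ B y i` is an `A`-subspace; if `Y ≠ V`, `ob_sub` gives `y ∈ V`, `y ≠ 0`, with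
`max ‖b‖ ‖y‖ ≤ ‖b + y‖` for all `b ∈ Y`; then `y 0, ..., y m, y` is orthogonal over `B`
(`‖v + b y‖ = ‖b‖ ‖v / b + y‖` for `v ∈ Y`, `0 ≠ b ∈ B`), contradiction.

`isOB_perturb`: `∑ a i e' i = ∑ a i e i - ∑ a i (e i - e' i)`, the second sum is smaller than
`max ‖a i e i‖ = ‖∑ a i e i‖` (unless all `a i = 0`), and `‖e' i‖ = ‖e i‖`; the `e' i` are linearly
independent, as many as the dimension of `X`, so they span `X`.

`orthBasis_dense`: `L₁ = ∑ L y^i`, `E = ∑ K y^i` (`i < n`) with `1, ..., y^(n-1)` independent over `K`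
(hypotheses: `y` separable over `L`, same degree over `L` and `K`), `L` dense in `K`, hence `L₁` dense
in `E`.  Take an orthogonal `K`-basis of `E` with `θ 0 = 1` (`orthBasis_of_hasOB`), approximate
`θ i` (`i > 0`) by `θ' i ∈ L₁`, `‖θ i - θ' i‖ < ‖θ i‖`, use `isOB_perturb`; `d + 1 = n` and the `θ' i` are
independent over `K`, hence over `L`, in the `n`-dimensional `L`-space `L₁`, so they span it.
-/

namespace HR

open Polynomial MP1a953e

variable {W : Type*} [NormedField W] [IsUltrametricDist W]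

private theorem norm_sub_eq' {x d : W} (h : ‖d‖ < ‖x‖) : ‖x - d‖ = ‖x‖ := by
  rw [sub_eq_add_neg, IsUltrametricDist.norm_add_eq_max_of_norm_ne_norm (by
    rw [norm_neg]; exact h.ne'), norm_neg, max_eq_left h.le]

private theorem norm_sum_lt' {ι : Type*} (s : Finset ι) (f : ι → W) {r : ℝ} (hr : 0 < r)
    (h : ∀ i ∈ s, ‖f i‖ < r) : ‖∑ i ∈ s, f i‖ < r := by
  classical
  induction s using Finset.induction_on with
  | empty => simpa using hr
  | insert i s hi ih =>
    rw [Finset.sum_insert hi]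
    refine (IsUltrametricDist.norm_add_le_max _ _).trans_lt (max_lt ?_ ?_)
    · exact h i (Finset.mem_insert_self _ _)
    · exact ih fun j hj => h j (Finset.mem_insert_of_mem hj)

omit [IsUltrametricDist W] in
private theorem linInd_of_orth {K : Subfield W} {ι : Type*} [Fintype ι] {e : ι → W}
    (hne : ∀ i, e i ≠ 0)
    (ho : ∀ a : ι → W, (∀ i, a i ∈ K) → ∀ i, ‖a i‖ * ‖e i‖ ≤ ‖∑ j, a j * e j‖) :
    LinearIndependent K e := by
  rw [Fintype.linearIndependent_iff]
  intro g hg i
  have h1 := ho (fun i => (g i : W)) (fun i => (g i).2) i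
  have h2 : ∑ j, (g j : W) * e j = 0 := by
    rw [← hg]
    refine Finset.sum_congr rfl fun j _ => ?_
    rw [Subfield.smul_def, smul_eq_mul]
  rw [h2, norm_zero, ← norm_mul] at h1
  have h3 : (g i : W) * e i = 0 := norm_le_zero_iff.1 h1
  rcases mul_eq_zero.1 h3 with h4 | h4
  · exact Subtype.ext h4
  · exact absurd h4 (hne i)

omit [IsUltrametricDist W] in
private theorem span_of_mem {K : Subfield W} {ι : Type*} [Fintype ι] {e : ι → W} {x : W}
    (h : ∃ a : ι → W, (∀ i, a i ∈ K) ∧ x = ∑ i, a i * e i) :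
    x ∈ Submodule.span K (Set.range e) := by
  obtain ⟨a, ha, rfl⟩ := h
  refine Submodule.sum_mem _ fun i _ => ?_
  have h1 := Submodule.smul_mem (Submodule.span K (Set.range e)) (⟨a i, ha i⟩ : K)
    (Submodule.subset_span (Set.mem_range_self i))
  rwa [Subfield.smul_def, smul_eq_mul] at h1

omit [IsUltrametricDist W] in
private theorem mem_of_span {K : Subfield W} {ι : Type*} [Fintype ι] {e : ι → W} {x : W}
    (h : x ∈ Submodule.span K (Set.range e)) :
    ∃ a : ι → W, (∀ i, a i ∈ K) ∧ x = ∑ i, a i * e i := by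
  rw [Submodule.mem_span_range_iff_exists_fun] at h
  obtain ⟨c, hc⟩ := h
  refine ⟨fun i => (c i : W), fun i => (c i).2, ?_⟩
  rw [← hc]
  refine Finset.sum_congr rfl fun j _ => ?_
  rw [Subfield.smul_def, smul_eq_mul]

omit [IsUltrametricDist W] in
/-- an independent family in the span of `n` vectors has at most `n` elements, and spans if it has
exactly `n` -/
private theorem card_le_of_span {K : Subfield W} {ι κ : Type*} [Fintype ι] [Fintype κ]
    {e : ι → W} {f : κ → W} (hf : LinearIndependent K f)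
    (hfe : ∀ i, f i ∈ Submodule.span K (Set.range e)) : Fintype.card κ ≤ Fintype.card ι := by
  have hfin : FiniteDimensional K (Submodule.span K (Set.range e)) :=
    FiniteDimensional.span_of_finite K (Set.finite_range e)
  have h1 : Submodule.span K (Set.range f) ≤ Submodule.span K (Set.range e) := by
    rw [Submodule.span_le]
    rintro _ ⟨i, rfl⟩
    exact hfe i
  have h2 := Submodule.finrank_mono h1
  rw [finrank_span_eq_card hf] at h2
  exact h2.trans (finrank_range_le_card e)

omit [IsUltrametricDist W] in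
private theorem span_eq_of_card {K : Subfield W} {ι κ : Type*} [Fintype ι] [Fintype κ]
    {e : ι → W} {f : κ → W} (hf : LinearIndependent K f)
    (hfe : ∀ i, f i ∈ Submodule.span K (Set.range e)) (hc : Fintype.card ι ≤ Fintype.card κ) :
    Submodule.span K (Set.range f) = Submodule.span K (Set.range e) := by
  have hfin : FiniteDimensional K (Submodule.span K (Set.range e)) :=
    FiniteDimensional.span_of_finite K (Set.finite_range e)
  have h1 : Submodule.span K (Set.range f) ≤ Submodule.span K (Set.range e) := by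
    rw [Submodule.span_le]
    rintro _ ⟨i, rfl⟩
    exact hfe i
  refine Submodule.eq_of_le_of_finrank_le h1 ?_
  rw [finrank_span_eq_card hf]
  exact (finrank_range_le_card e).trans hc

theorem orthBasis_top {A B V : Subfield W} (hAB : A ≤ B) (hBV : B ≤ V)
    (hV : HasOB A (V : Set W)) : ∃ (d : ℕ) (θ : Fin (d + 1) → W), OrthBasis B V θ := by
  classical
  obtain ⟨n, e, he⟩ := hV
  let Fam : (m : ℕ) → (Fin (m + 1) → W) → Prop := fun m y =>
    y 0 = 1 ∧ (∀ i, y i ∈ V) ∧ (∀ i, y i ≠ 0) ∧
      ∀ b : Fin (m + 1) → W, (∀ i, b i ∈ B) → ∀ i, ‖b i‖ * ‖y i‖ ≤ ‖∑ j, b j * y j‖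
  let P : ℕ → Prop := fun m => ∃ y, Fam m y
  have hbound : ∀ m, P m → m ≤ n := by
    rintro m ⟨y, -, hyV, hyne, hyo⟩
    have h1 : LinearIndependent A y :=
      linInd_of_orth hyne (fun a ha i => hyo a (fun i => hAB (ha i)) i)
    have h2 := card_le_of_span h1 (e := e) (fun i => span_of_mem ((he.span _).1 (hyV i)))
    rw [Fintype.card_fin, Fintype.card_fin] at h2
    omega
  have hP0 : P 0 := by
    refine ⟨fun _ => 1, rfl, fun _ => one_mem _, fun _ => one_ne_zero, ?_⟩
    intro b hb i
    rw [Fin.sum_univ_one, norm_mul]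
    have : i = 0 := Fin.ext (by omega)
    rw [this]
  set m := Nat.findGreatest P n with hm
  have hPm : P m := Nat.findGreatest_spec (Nat.zero_le n) hP0
  have hmax : ∀ m', P m' → m' ≤ m := fun m' h' => Nat.le_findGreatest (hbound m' h') h'
  obtain ⟨y, hy0, hyV, hyne, hyo⟩ := hPm
  refine ⟨m, y, hBV, hy0, hyV, hyne, ?_, fun c hc i => by rw [norm_mul]; exact hyo c hc i⟩
  let Y : Set W := {x | ∃ b : Fin (m + 1) → W, (∀ i, b i ∈ B) ∧ x = ∑ i, b i * y i}
  have hY : KSub A Y := by
    refine ⟨⟨fun _ => 0, fun _ => zero_mem _, by simp⟩, ?_, ?_⟩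
    · rintro _ ⟨b, hb, rfl⟩ _ ⟨b', hb', rfl⟩
      refine ⟨fun i => b i + b' i, fun i => add_mem (hb i) (hb' i), ?_⟩
      rw [← Finset.sum_add_distrib]
      exact Finset.sum_congr rfl fun i _ => by ring
    · rintro c hc _ ⟨b, hb, rfl⟩
      refine ⟨fun i => c * b i, fun i => mul_mem (hAB hc) (hb i), ?_⟩
      rw [Finset.mul_sum]
      exact Finset.sum_congr rfl fun i _ => by ring
  have hYV : Y ⊆ (V : Set W) := by
    rintro _ ⟨b, hb, rfl⟩
    exact sum_mem fun i _ => mul_mem (hBV (hb i)) (hyV i)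
  have h1Y : (1 : W) ∈ Y := by
    refine ⟨fun i => if i = 0 then 1 else 0, fun i => ?_, ?_⟩
    · dsimp only
      split_ifs
      · exact one_mem _
      · exact zero_mem _
    · simp [hy0]
  obtain ⟨-, -, -, -, -, hex⟩ := ob_sub he hY hYV h1Y one_ne_zero
  by_contra hcon
  push Not at hcon
  obtain ⟨x, hxV, hx⟩ := hcon
  have hne : Y ≠ (V : Set W) := by
    intro h
    have hx' : x ∈ Y := by rw [h]; exact hxV
    obtain ⟨b, hb, hxb⟩ := hx'
    exact hx b hb hxb
  obtain ⟨z, hzV, hz0, hz⟩ := hex hne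
  have hP' : P (m + 1) := by
    refine ⟨Fin.snoc (α := fun _ => W) y z, ?_, ?_, ?_, ?_⟩
    · have h0 : (0 : Fin (m + 1 + 1)) = Fin.castSucc 0 := rfl
      rw [h0, Fin.snoc_castSucc, hy0]
    · intro i
      refine Fin.lastCases ?_ (fun i => ?_) i
      · rw [Fin.snoc_last]; exact hzV
      · rw [Fin.snoc_castSucc]; exact hyV i
    · intro i
      refine Fin.lastCases ?_ (fun i => ?_) i
      · rw [Fin.snoc_last]; exact hz0
      · rw [Fin.snoc_castSucc]; exact hyne i
    · intro b hb
      have hsum : ∑ j, b j * (Fin.snoc (α := fun _ => W) y z : Fin (m + 1 + 1) → W) j =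
          ∑ j : Fin (m + 1), b j.castSucc * y j + b (Fin.last (m + 1)) * z := by
        rw [Fin.sum_univ_castSucc, Fin.snoc_last]
        congr 1
        exact Finset.sum_congr rfl fun j _ => by rw [Fin.snoc_castSucc]
      rw [hsum]
      set v := ∑ j : Fin (m + 1), b j.castSucc * y j with hv
      have hvo := hyo (fun j => b j.castSucc) (fun j => hb _)
      have hkey : ‖v‖ ≤ ‖v + b (Fin.last (m + 1)) * z‖ ∧
          ‖b (Fin.last (m + 1))‖ * ‖z‖ ≤ ‖v + b (Fin.last (m + 1)) * z‖ := by
        by_cases h0 : b (Fin.last (m + 1)) = 0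
        · rw [h0]; simp
        · have hvY : v / b (Fin.last (m + 1)) ∈ Y := by
            refine ⟨fun j => b j.castSucc / b (Fin.last (m + 1)),
              fun j => div_mem (hb _) (hb _), ?_⟩
            rw [hv, Finset.sum_div]
            exact Finset.sum_congr rfl fun j _ => by ring
          have h1 := hz _ hvY
          have h2 : v + b (Fin.last (m + 1)) * z =
              b (Fin.last (m + 1)) * (v / b (Fin.last (m + 1)) + z) := by
            field_simp
          have h3 : 0 < ‖b (Fin.last (m + 1))‖ := norm_pos_iff.2 h0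
          rw [h2, norm_mul]
          constructor
          · have h4 := (le_max_left _ _).trans h1
            rw [norm_div, div_le_iff₀ h3] at h4
            linarith
          · exact mul_le_mul_of_nonneg_left ((le_max_right _ _).trans h1) h3.le
      intro i
      refine Fin.lastCases ?_ (fun i => ?_) i
      · rw [Fin.snoc_last]; exact hkey.2
      · rw [Fin.snoc_castSucc]; exact (hvo i).trans hkey.1
  have := hmax _ hP'
  omega

theorem isOB_perturb {K : Subfield W} {ι : Type*} [Fintype ι] {e e' : ι → W} {X : Set W}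
    (h : IsOB K e X) (hX : KSub K X) (he' : ∀ i, e' i ∈ X) (hlt : ∀ i, ‖e i - e' i‖ < ‖e i‖) :
    IsOB K e' X := by
  classical
  have hnorm : ∀ i, ‖e' i‖ = ‖e i‖ := by
    intro i
    have h1 := hlt i
    have h2 : e' i = e i - (e i - e' i) := by ring
    rw [h2]
    exact norm_sub_eq' h1
  have hne : ∀ i, e' i ≠ 0 := by
    intro i h0
    have h1 := hnorm i
    rw [h0, norm_zero] at h1
    exact h.ne i (norm_eq_zero.1 h1.symm)
  have hS : ∀ a : ι → W, (∀ i, a i ∈ K) → ‖∑ j, a j * e' j‖ = ‖∑ j, a j * e j‖ := by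
    intro a ha
    by_cases h0 : ∀ i, a i = 0
    · simp [h0]
    · push Not at h0
      obtain ⟨i0, hi0⟩ := h0
      have hpos : 0 < ‖∑ j, a j * e j‖ := by
        refine lt_of_lt_of_le ?_ (h.orth a ha i0)
        exact mul_pos (norm_pos_iff.2 hi0) (norm_pos_iff.2 (h.ne i0))
      have hD : ‖∑ j, a j * (e j - e' j)‖ < ‖∑ j, a j * e j‖ := by
        refine norm_sum_lt' _ _ hpos ?_
        intro j _
        rw [norm_mul]
        by_cases hj : a j = 0
        · rw [hj, norm_zero, zero_mul]; exact hpos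
        · refine lt_of_lt_of_le ?_ (h.orth a ha j)
          exact mul_lt_mul_of_pos_left (hlt j) (norm_pos_iff.2 hj)
      have h2 : ∑ j, a j * e' j = ∑ j, a j * e j - ∑ j, a j * (e j - e' j) := by
        rw [← Finset.sum_sub_distrib]
        exact Finset.sum_congr rfl fun j _ => by ring
      rw [h2]
      exact norm_sub_eq' hD
  have horth : ∀ a : ι → W, (∀ i, a i ∈ K) → ∀ i, ‖a i‖ * ‖e' i‖ ≤ ‖∑ j, a j * e' j‖ := by
    intro a ha i
    rw [hS a ha, hnorm i]
    exact h.orth a ha i
  have hli := linInd_of_orth hne horth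
  have hspan := span_eq_of_card hli (e := e)
    (fun i => span_of_mem ((h.span _).1 (he' i))) le_rfl
  refine ⟨hne, fun y => ⟨fun hy => ?_, ?_⟩, horth⟩
  · apply mem_of_span
    rw [hspan]
    exact span_of_mem ((h.span y).1 hy)
  · rintro ⟨a, ha, rfl⟩
    have : ∀ s : Finset ι, ∑ i ∈ s, a i * e' i ∈ X := by
      intro s
      induction s using Finset.induction_on with
      | empty => rw [Finset.sum_empty]; exact hX.zero
      | insert i s hi ih =>
        rw [Finset.sum_insert hi]
        exact hX.add _ (hX.smul _ (ha i) _ (he' i)) _ ih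
    exact this Finset.univ

omit [IsUltrametricDist W] in
private theorem linInd_mono {L K : Subfield W} (hLK : L ≤ K) {ι : Type*} [Fintype ι] {e : ι → W}
    (h : LinearIndependent K e) : LinearIndependent L e := by
  rw [Fintype.linearIndependent_iff] at h ⊢
  intro g hg i
  have h1 := h (fun i => ⟨g i, hLK (g i).2⟩) (by
    rw [← hg]
    refine Finset.sum_congr rfl fun j _ => ?_
    rw [Subfield.smul_def, Subfield.smul_def]) i
  have h2 := congrArg (Subtype.val) h1
  exact Subtype.ext h2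

omit [IsUltrametricDist W] in
/-- the powers of `y` span `adj K y` -/
private theorem adj_span {K : Subfield W} {y : W} (hy : IsAlgebraic K y) {x : W}
    (hx : x ∈ adj K y) :
    ∃ a : Fin (minpoly K y).natDegree → W, (∀ i, a i ∈ K) ∧ x = ∑ i, a i * y ^ (i : ℕ) := by
  obtain ⟨h, hK, hdeg, rfl⟩ := exists_poly_of_mem_adj hy hx
  refine ⟨fun i => h.coeff i, fun i => hK i, ?_⟩
  rw [eval_eq_sum_range' hdeg, Finset.sum_range]

omit [IsUltrametricDist W] in
private theorem pow_linInd {K : Subfield W} {y : W} (hy : IsIntegral K y) :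
    LinearIndependent K (fun i : Fin (minpoly K y).natDegree => y ^ (i : ℕ)) := by
  rw [Fintype.linearIndependent_iff]
  intro g hg
  by_contra hcon
  push Not at hcon
  obtain ⟨i0, hi0⟩ := hcon
  set P : K[X] := ∑ i : Fin (minpoly K y).natDegree, C (g i) * X ^ (i : ℕ) with hP
  have hcoeff : ∀ i : Fin (minpoly K y).natDegree, P.coeff i = g i := by
    intro i
    rw [hP, finsetSum_coeff]
    simp only [coeff_C_mul, coeff_X_pow]
    rw [Finset.sum_eq_single i]
    · simp
    · intro j _ hj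
      rw [if_neg]
      · simp
      · intro h
        exact hj (Fin.ext h.symm)
    · simp
  have hP0 : P ≠ 0 := by
    intro h0
    apply hi0
    rw [← hcoeff, h0, coeff_zero]
  have hev : aeval y P = 0 := by
    rw [hP, map_sum, ← hg]
    refine Finset.sum_congr rfl fun i _ => ?_
    rw [map_mul, aeval_C, map_pow, aeval_X, Algebra.smul_def]
  have h1 := minpoly.degree_le_of_ne_zero K y hP0 hev
  have h2 : P.degree < (minpoly K y).degree := by
    rw [degree_eq_natDegree (minpoly.ne_zero hy)]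
    exact degree_sum_fin_lt g
  exact absurd h1 (not_le.2 h2)

omit [IsUltrametricDist W] in
private theorem coe_adj_dense {L K : Subfield W} (hd : DenseIn L K) {y : W} (hy : IsAlgebraic K y)
    {x : W} (hx : x ∈ adj K y) {ε : ℝ} (hε : 0 < ε) : ∃ x' ∈ adj L y, ‖x - x'‖ < ε := by
  classical
  obtain ⟨a, ha, rfl⟩ := adj_span hy hx
  clear hx
  revert a
  generalize (minpoly K y).natDegree = n
  intro a ha
  have h1 : ∀ i : Fin n, ∃ b ∈ L, ‖a i - b‖ < ε / ((n + 1) * (‖y ^ (i : ℕ)‖ + 1)) := fun i =>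
    hd.2 _ (ha i) _ (by positivity)
  choose b hb hab using h1
  refine ⟨∑ i, b i * y ^ (i : ℕ), sum_mem fun i _ => mul_mem (le_adj _ _ (hb i))
    (pow_mem (mem_adj_self _ _) _), ?_⟩
  rw [← Finset.sum_sub_distrib]
  have h2 : ∀ i ∈ (Finset.univ : Finset (Fin n)),
      ‖a i * y ^ (i : ℕ) - b i * y ^ (i : ℕ)‖ ≤ ε / (n + 1) := by
    intro i _
    rw [← sub_mul, norm_mul]
    calc ‖a i - b i‖ * ‖y ^ (i : ℕ)‖
        ≤ (ε / ((n + 1) * (‖y ^ (i : ℕ)‖ + 1))) * (‖y ^ (i : ℕ)‖ + 1) :=
          mul_le_mul (hab i).le (by linarith) (norm_nonneg _) (by positivity)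
      _ = ε / (n + 1) := by field_simp
  calc ‖∑ i, (a i * y ^ (i : ℕ) - b i * y ^ (i : ℕ))‖
      ≤ ∑ i : Fin n, ‖a i * y ^ (i : ℕ) - b i * y ^ (i : ℕ)‖ := norm_sum_le _ _
    _ ≤ ∑ _i : Fin n, ε / (n + 1) := Finset.sum_le_sum h2
    _ = n * (ε / (n + 1)) := by simp
    _ < ε := by
      have : (n : ℝ) * (ε / (n + 1)) = ε * (n / (n + 1)) := by ring
      rw [this]
      have h3 : (n : ℝ) / (n + 1) < 1 := by rw [div_lt_one (by positivity)]; linarith
      nlinarith

theorem orthBasis_dense {L K E : Subfield W} (hd : DenseIn L K) {y : W} (hy : IsSeparable L y)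
    (hE : E = adj K y) (hdeg : (minpoly L y).natDegree = (minpoly K y).natDegree)
    (hob : HasOB K (E : Set W)) :
    ∃ (d : ℕ) (θ : Fin (d + 1) → W), OrthBasis L (adj L y) θ ∧ OrthBasis K E θ := by
  classical
  have hLK : L ≤ K := hd.1
  have hintL : IsIntegral L y := hy.isIntegral
  have hintK : IsIntegral K y := by
    obtain ⟨P, hP, hP0⟩ := hintL
    refine ⟨P.map (Subfield.inclusion hLK), hP.map _, ?_⟩
    rw [eval₂_map]
    exact hP0
  have hKE : K ≤ E := by rw [hE]; exact le_adj _ _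
  have hLE : adj L y ≤ E := by
    rw [hE]
    exact adj_le (hLK.trans (le_adj _ _)) (mem_adj_self _ _)
  obtain ⟨d, θ, hθ⟩ := orthBasis_of_hasOB hKE hob
  have h1 : ∀ i, ∃ x' ∈ adj L y, (i = 0 → x' = 1) ∧ ‖θ i - x'‖ < ‖θ i‖ := by
    intro i
    by_cases hi : i = 0
    · refine ⟨1, one_mem _, fun _ => rfl, ?_⟩
      rw [hi, hθ.zero, sub_self, norm_zero, norm_one]
      exact one_pos
    · have h2 : θ i ∈ adj K y := by rw [← hE]; exact hθ.mem i
      obtain ⟨x', hx', hx⟩ := coe_adj_dense hd hintK.isAlgebraic h2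
        (norm_pos_iff.2 (hθ.ne i))
      exact ⟨x', hx', fun h => absurd h hi, hx⟩
  choose θ' hθ'L hθ'0 hθ' using h1
  have hOB : IsOB K θ (E : Set W) := by
    refine ⟨hθ.ne, fun x => ⟨fun hx => ?_, ?_⟩, fun a ha i => ?_⟩
    · obtain ⟨c, hc, hx⟩ := hθ.span x hx
      exact ⟨c, hc, hx⟩
    · rintro ⟨a, ha, rfl⟩
      exact sum_mem fun i _ => mul_mem (hKE (ha i)) (hθ.mem i)
    · rw [← norm_mul]; exact hθ.orth a ha i
  have hOB' : IsOB K θ' (E : Set W) :=
    isOB_perturb hOB (kSub_subfield hKE) (fun i => hLE (hθ'L i)) hθ'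
  have hliK := linInd_of_orth hOB'.ne hOB'.orth
  have hliL : LinearIndependent L θ' := linInd_mono hLK hliK
  -- the powers of y
  have hcard : Fintype.card (Fin (minpoly L y).natDegree) ≤ Fintype.card (Fin (d + 1)) := by
    rw [hdeg]
    have h3 := pow_linInd (K := K) hintK
    refine card_le_of_span h3 (e := θ') fun i => span_of_mem ((hOB'.span _).1 ?_)
    show y ^ (i : ℕ) ∈ E
    rw [hE]
    exact pow_mem (mem_adj_self _ _) _
  have hsp := span_eq_of_card hliL (e := fun i : Fin (minpoly L y).natDegree => y ^ (i : ℕ))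
    (fun i => span_of_mem (adj_span hintL.isAlgebraic (hθ'L i))) hcard
  refine ⟨d, θ', ?_, ?_⟩
  · refine ⟨le_adj _ _, hθ'0 0 rfl, hθ'L, hOB'.ne, fun x hx => ?_, fun c hc i => ?_⟩
    · apply mem_of_span
      rw [hsp]
      exact span_of_mem (adj_span hintL.isAlgebraic hx)
    · rw [norm_mul]
      exact hOB'.orth c (fun j => hLK (hc j)) i
  · refine ⟨hKE, hθ'0 0 rfl, fun i => hLE (hθ'L i), hOB'.ne, fun x hx => ?_, fun c hc i => ?_⟩
    · exact (hOB'.span x).1 hx
    · rw [norm_mul]
      exact hOB'.orth c hc i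

end HR
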