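import Pool.Agent.Lib.HR.CC

/-!
# AddBigB (case `δ > 1`): the `p`-divisible part recentres as polynomials

`h` normal: `h = D + ∑_{J ≠ o} C (x_J) * (P_J) ^ p` where `P_J = Sop (c.σ J) p h` and `D` collects
the coefficients `h_n` with `n = 0` or `n` prime to `p` (compare coefficients: at `p n`, `n ≥ 1`, use
`PCoord.sum` and `σ_o (h_{pn}) = 0`).  Hence for `n ≥ 1`
`(taylor e h)_{pn} = (taylor e D)_{pn} + ∑_{J ≠ o} x_J ((taylor e P_J)_n) ^ p` and, for `J ≠ o`,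
`σ_J ((taylor e h)_{pn}) = σ_J ((taylor e D)_{pn}) + (taylor e P_J)_n` (`σ_mul_x`).
`NF` of `h' = taylor e h - C (h.eval e)`: `(NF h')_{pn} = (taylor e h)_{pn} + G_{pn} - G_n ^ p`,
`σ_J (G_n ^ p) = 0`.  So the difference in the statement is
`σ_J ((taylor e D)_{pn}) + σ_J (G_{pn})`; use `norm_σ`:
`‖σ_J ((taylor e D)_{pn})‖ ^ p ‖x_J‖ s ^ (pn) ≤ ‖(taylor e D)_{pn}‖ s ^ (pn) ≤ δ₂`
(`norm_taylor_coeff_le`, only indices `m ≥ pn ≥ 2` of `D`, those not divisible by `p`), and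
`‖σ_J (G_{pn})‖ ^ p ‖x_J‖ s ^ (pn) ≤ ‖G_{pn}‖ s ^ (pn) ≤ N₁` because
`(‖G_{pn}‖ s ^ (pn)) ^ p ≤ N ≤ N₁ ^ p` (`norm_Gop`).
-/

namespace HR

open Polynomial

variable {W : Type*} [NormedField W] [IsUltrametricDist W] {p : ℕ} [Fact p.Prime] [CharP W p]
  {L : Subfield W}

private theorem abB_coeff (c : PCoord p L) (h : W[X]) (J : c.J) {n : ℕ} (hn : 1 ≤ n) :
    (Sop (c.σ J) p h).coeff n = c.σ J (h.coeff (p * n)) := by
  rw [coeff_Sop (c.σ_zero J), if_pos hn]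

private theorem abB_polyIn (c : PCoord p L) {h : W[X]} (hh : PolyIn L h) (J : c.J) :
    PolyIn L (Sop (c.σ J) p h) := by
  intro n
  rw [coeff_Sop (c.σ_zero J)]
  split_ifs
  · exact c.σ_mem J _ (hh _)
  · exact L.zero_mem

/-- the part of `h` with indices prime to `p` -/
private noncomputable def abB_D (c : PCoord p L) (h : W[X]) : W[X] :=
  h - ∑ J, C (c.x J) * (Sop (c.σ J) p h) ^ p

private theorem abB_D_polyIn (c : PCoord p L) {h : W[X]} (hh : PolyIn L h) :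
    PolyIn L (abB_D c h) :=
  polyIn_sub hh (polyIn_sum _ _ (fun J _ =>
    polyIn_mul (polyIn_C (c.x_mem J)) (polyIn_pow (abB_polyIn c hh J) p)))

private theorem abB_D_coeff_of_dvd (c : PCoord p L) {h : W[X]} (hh : PolyIn L h) {n : ℕ}
    (hn : 1 ≤ n) : (abB_D c h).coeff (p * n) = 0 := by
  rw [abB_D, coeff_sub, finsetSum_coeff]
  have : ∀ J ∈ (Finset.univ : Finset c.J), (C (c.x J) * (Sop (c.σ J) p h) ^ p).coeff (p * n) =
      (c.σ J (h.coeff (p * n))) ^ p * c.x J := by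
    intro J _
    rw [coeff_C_mul, coeff_pow_mul, abB_coeff c h J hn, mul_comm]
  rw [Finset.sum_congr rfl this, c.sum _ (hh _), sub_self]

private theorem abB_D_coeff_of_not_dvd (c : PCoord p L) (h : W[X]) {m : ℕ}
    (hm : ¬ p ∣ m) : (abB_D c h).coeff m = h.coeff m := by
  rw [abB_D, coeff_sub, finsetSum_coeff]
  have : ∀ J ∈ (Finset.univ : Finset c.J), (C (c.x J) * (Sop (c.σ J) p h) ^ p).coeff m = 0 := by
    intro J _
    rw [coeff_C_mul, coeff_pow_of_not_dvd _ hm, mul_zero]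
  rw [Finset.sum_congr rfl this, Finset.sum_const_zero, sub_zero]

private theorem abB_taylor (c : PCoord p L) (h : W[X]) (e : W) (n : ℕ) :
    (taylor e h).coeff (p * n) = (taylor e (abB_D c h)).coeff (p * n) +
      ∑ J, ((taylor e (Sop (c.σ J) p h)).coeff n) ^ p * c.x J := by
  have h1 : h = abB_D c h + ∑ J, C (c.x J) * (Sop (c.σ J) p h) ^ p := by
    rw [abB_D, sub_add_cancel]
  conv_lhs => rw [h1]
  rw [map_add, coeff_add, map_sum, finsetSum_coeff]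
  congr 1
  refine Finset.sum_congr rfl (fun J _ => ?_)
  rw [taylor_mul, taylor_C, taylor_pow, coeff_C_mul, coeff_pow_mul, mul_comm]

theorem ppart_recenter (c : PCoord p L) {h : W[X]} (hh : PolyIn L h)
    (hn : Sop (c.σ c.o) p h = 0) {s N N₁ δ₂ : ℝ} (hs : 0 < s) (hN : 1 ≤ N)
    (hNb : ∀ n, 1 ≤ n → ‖h.coeff n‖ * s ^ n ≤ N) (hδ₂ : 0 ≤ δ₂)
    (h₂ : ∀ n, 2 ≤ n → ¬ p ∣ n → ‖h.coeff n‖ * s ^ n ≤ δ₂)
    (hN₁ : 0 ≤ N₁) (hN₁' : N ≤ N₁ ^ p) {e : W} (he : e ∈ L) (hes : ‖e‖ ≤ s)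
    {J : c.J} (hJ : J ≠ c.o) {n : ℕ} (hn1 : 1 ≤ n) :
    ‖(Sop (c.σ J) p (NF (c.σ c.o) p (taylor e h - C (h.eval e)))).coeff n
      - (taylor e (Sop (c.σ J) p h)).coeff n‖ ^ p * ‖c.x J‖ * s ^ (p * n) ≤ max δ₂ N₁ := by
  have hpp : p.Prime := Fact.out
  have hpn : 2 ≤ p * n := by nlinarith [hpp.two_le]
  obtain ⟨h', hh'⟩ : ∃ h' : W[X], h' = taylor e h - C (h.eval e) := ⟨_, rfl⟩
  have hTL : PolyIn L (taylor e h) := polyIn_taylor hh he
  have hh'L : PolyIn L h' := by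
    rw [hh']
    exact polyIn_sub hTL (polyIn_C (eval_mem hh he))
  have hh'c : ∀ m, 1 ≤ m → h'.coeff m = (taylor e h).coeff m := by
    intro m hm
    rw [hh', coeff_sub, coeff_C, if_neg (by omega), sub_zero]
  have hGL : PolyIn L (Gop (c.σ c.o) p h') := polyIn_Gop c.cart hh'L
  have hDL : PolyIn L (taylor e (abB_D c h)) := polyIn_taylor (abB_D_polyIn c hh) he
  have hPL : ∀ I : c.J, PolyIn L (taylor e (Sop (c.σ I) p h)) := fun I =>
    polyIn_taylor (abB_polyIn c hh I) he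
  have hsL : (∑ I, ((taylor e (Sop (c.σ I) p h)).coeff n) ^ p * c.x I) ∈ L :=
    sum_mem (fun I _ => mul_mem (pow_mem (hPL I n) p) (c.x_mem I))
  -- the difference
  have hdiff : (Sop (c.σ J) p (NF (c.σ c.o) p h')).coeff n
      - (taylor e (Sop (c.σ J) p h)).coeff n =
      c.σ J ((taylor e (abB_D c h)).coeff (p * n)) +
        c.σ J ((Gop (c.σ c.o) p h').coeff (p * n)) := by
    rw [abB_coeff c _ J hn1, NF, coeff_sub, coeff_add, coeff_pow_mul, hh'c _ (by omega),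
      c.σ_sub (add_mem (hTL _) (hGL _)) (pow_mem (hGL _) p), c.σ_ne_pow (hGL n) hJ,
      c.σ_add (hTL _) (hGL _), abB_taylor c h e n, c.σ_add (hDL _) hsL,
      c.σ_unique _ (fun I => hPL I n) J]
    ring
  rw [← hh', hdiff]
  have key : ∀ y ∈ L, ‖c.σ J y‖ ^ p * ‖c.x J‖ * s ^ (p * n) ≤ ‖y‖ * s ^ (p * n) := by
    intro y hy
    have := c.norm_σ hy J
    gcongr
  have h3 : ‖(taylor e (abB_D c h)).coeff (p * n)‖ * s ^ (p * n) ≤ δ₂ := by
    refine norm_taylor_coeff_le hs hes ?_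
    intro m hm
    by_cases hd : p ∣ m
    · obtain ⟨k, rfl⟩ := hd
      have hk : 1 ≤ k := by
        rcases Nat.eq_zero_or_pos k with h0 | h0
        · subst h0; omega
        · exact h0
      rw [abB_D_coeff_of_dvd c hh hk, norm_zero, zero_mul]
      exact hδ₂
    · rw [abB_D_coeff_of_not_dvd c h hd]
      exact h₂ m (by omega) hd
  have h4 : ‖(Gop (c.σ c.o) p h').coeff (p * n)‖ * s ^ (p * n) ≤ N₁ := by
    have h5 := norm_Gop c.cart hh'L hs hN (fun m hm => by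
      rw [hh'c m hm]
      exact norm_taylor_coeff_le hs hes (fun k hk => hNb k (by omega))) (p * n)
    exact le_of_pow_le_pow_left₀ hpp.ne_zero hN₁ (h5.trans hN₁')
  have h6 : ‖c.σ J ((taylor e (abB_D c h)).coeff (p * n)) +
        c.σ J ((Gop (c.σ c.o) p h').coeff (p * n))‖ ≤
      max ‖c.σ J ((taylor e (abB_D c h)).coeff (p * n))‖
        ‖c.σ J ((Gop (c.σ c.o) p h').coeff (p * n))‖ := IsUltrametricDist.norm_add_le_max _ _
  rcases le_max_iff.1 h6 with h7 | h7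
  · refine le_trans ?_ (le_max_left _ _)
    refine le_trans ?_ h3
    refine le_trans ?_ (key _ (hDL _))
    gcongr
  · refine le_trans ?_ (le_max_right _ _)
    refine le_trans ?_ h4
    refine le_trans ?_ (key _ (hGL _))
    gcongr

end HR
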