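import Pool.Agent.Lib.HR.DefA

/-!
# AddBigC (case `δ > 1`): stable norms of the `p`-part and the additive structure

Fix `b₄` and the polynomials `P_J = Sop (c.σ J) p (cc f b₄)`, `J ≠ o`.  For `n ≥ 1` the polynomial
`U_{J,n} = (hasseDeriv n P_J).comp (X - C b₄)` is in `L[X]` and `U_{J,n}(b') =
(taylor (b' - b₄) P_J)_n` (`taylor_coeff`).  If `U_{J,n} ≠ 0` then by `T4.stable` its norm at `b'` is
a constant `u_{J,n} = ‖U_{J,n}(v)‖` for `b'` close to `v`; if it is zero put `u = 0`.  Only finitely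
many `(J, n)` have `U ≠ 0` (`n ≤ natDegree P_J`).

(α) `u ^ p ‖x_J‖ ρ ^ (pn) ≤ δ`: for every `t > δ` and `b'` close, `‖c_{pn}(b')‖ ‖v-b'‖ ^ (pn) < t`
(`claimB`) so `‖σ_J (c_{pn}(b'))‖ ^ p ‖x_J‖ ‖v-b'‖ ^ (pn) < t` (`norm_σ`), and the error `herr` is
`≤ δ₄ < δ` (also with the smaller radius `‖v-b'‖` in place of `‖v - b₄‖`); the coefficient
`n` of `Sop (c.σ J) p (cc f b')` is `σ_J (c_{pn}(b'))`.  So
`u ^ p ‖x_J‖ ρ ^ (pn) ≤ u ^ p ‖x_J‖ ‖v-b'‖ ^ (pn) ≤ t` for all `t > δ`.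

(β) if `n` is not a power of `p` the inequality in (α) is strict.  Write `n = p ^ a m`, `m ≥ 2` prime
to `p`, `n'' = p ^ a < n`; `(n choose n'')` is not divisible by `p`.  Suppose
`u_{J,n} ^ p ‖x_J‖ ρ ^ (pn) = δ`, in particular `u_{J,n} > 0`, so `U_{J,n} ≠ 0` and `U_{J,n''} ≠ 0`
(because `hasseDeriv (n - n'') U_{J,n''} = (n choose n'') U_{J,n}`, `hasseDeriv_comp`).
`T4.stable` for `U_{J,n''}` at a close `b'`: its Taylor coefficient `n - n''` has norm `u_{J,n}`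
(`norm_natCast_of_not_dvd`), so `u_{J,n} ‖v-b'‖ ^ (n-n'') < u_{J,n''}`, hence
`u_{J,n} ρ ^ (n-n'') < u_{J,n''}`; if `ρ > 0` this gives
`u_{J,n''} ^ p ‖x_J‖ ρ ^ (p n'') > δ`, against (α) for `n''`.  (`ρ = 0` is impossible when
`u ^ p ‖x_J‖ ρ ^ (pn) = δ > 0`.)

(γ) conclusion: for `b'` close (finitely many conditions, `exists_mul_pow_lt`), all `J ≠ o`, `n` not a
power of `p`: `u_{J,n} ^ p ‖x_J‖ ‖v-b'‖ ^ (pn) < δ`, so with the error
`‖σ_J (c_{pn}(b'))‖ ^ p ‖x_J‖ ‖v-b'‖ ^ (pn) < δ`; also `σ_o (c_{pn}(b')) = 0` (`Sop_cc`), and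
`exists_norm` gives `‖c_{pn}(b')‖ ‖v-b'‖ ^ (pn) < δ`.  Similarly the second statement.
-/

namespace HR

open Polynomial

variable {W : Type*} [NormedField W] [IsUltrametricDist W] {p : ℕ} [Fact p.Prime] [CharP W p]
  {L : Subfield W} {v : W} {f : W[X]} {δ : ℝ}

/-- the polynomial with values the Taylor coefficients of `P` at `b - b₄` -/
private noncomputable def abC_U (P : W[X]) (b₄ : W) (n : ℕ) : W[X] :=
  taylor (-b₄) (hasseDeriv n P)

omit [IsUltrametricDist W] in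
private theorem abC_U_eval (P : W[X]) (b₄ b : W) (n : ℕ) :
    (abC_U P b₄ n).eval b = (taylor (b - b₄) P).coeff n := by
  rw [abC_U, taylor_eval, taylor_coeff, sub_eq_add_neg]

omit [IsUltrametricDist W] in
private theorem abC_U_polyIn {P : W[X]} (hP : PolyIn L P) {b₄ : W} (hb₄ : b₄ ∈ L) (n : ℕ) :
    PolyIn L (abC_U P b₄ n) := by
  refine polyIn_taylor ?_ (neg_mem hb₄)
  intro m
  rw [hasseDeriv_coeff]
  exact mul_mem (natCast_mem L _) (hP _)

omit [IsUltrametricDist W] in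
private theorem abC_U_taylor (P : W[X]) (b₄ b : W) (n k : ℕ) :
    (taylor b (abC_U P b₄ n)).coeff k = ((k + n).choose k : W) * (abC_U P b₄ (k + n)).eval b := by
  rw [abC_U, abC_U, taylor_taylor, taylor_coeff, taylor_eval]
  have h := LinearMap.congr_fun (hasseDeriv_comp (R := W) k n) P
  rw [LinearMap.comp_apply] at h
  rw [h, LinearMap.smul_apply, nsmul_eq_mul, eval_mul, eval_natCast]

omit [Fact p.Prime] in
private theorem abC_choose (hp : p.Prime) (a m : ℕ) :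
    (p ^ a * m).choose (p ^ a) ≡ m [MOD p] := by
  have : Fact p.Prime := ⟨hp⟩
  induction a with
  | zero => simp [Nat.ModEq.refl]
  | succ a ih =>
    have h := @Choose.choose_modEq_choose_mod_mul_choose_div_nat (p ^ (a + 1) * m) (p ^ (a + 1)) p _
    have h1 : p ^ (a + 1) * m % p = 0 := by
      rw [pow_succ, mul_assoc, mul_comm p m, ← mul_assoc]
      exact Nat.mul_mod_left _ _
    have h2 : p ^ (a + 1) % p = 0 := by rw [pow_succ]; exact Nat.mul_mod_left _ _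
    have h3 : p ^ (a + 1) * m / p = p ^ a * m := by
      rw [pow_succ, mul_assoc, mul_comm p m, ← mul_assoc]
      exact Nat.mul_div_cancel _ hp.pos
    have h4 : p ^ (a + 1) / p = p ^ a := by
      rw [pow_succ]; exact Nat.mul_div_cancel _ hp.pos
    rw [h1, h2, h3, h4, Nat.choose_self, one_mul] at h
    exact h.trans ih

/-- the values of a polynomial over `L` have stable norm -/
private theorem abC_stable (hv : T4 L v) {P : W[X]} (hP : PolyIn L P) :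
    ∃ b₀ ∈ L, ∀ b ∈ L, ‖v - b‖ ≤ ‖v - b₀‖ → ‖P.eval b‖ = ‖P.eval v‖ := by
  by_cases h0 : P = 0
  · exact ⟨0, zero_mem L, fun b _ _ => by rw [h0, eval_zero, eval_zero]⟩
  · obtain ⟨-, b₀, hb₀, h⟩ := hv.stable hP h0
    exact ⟨b₀, hb₀, fun b hb hbb => (h b hb hbb).1⟩

omit [IsUltrametricDist W] in
private theorem abC_eventually {ι : Type*} (s : Finset ι) (Q : ι → W → Prop)
    (hv : T4 L v) {b₄ : W} (hb₄ : b₄ ∈ L)
    (hQ : ∀ i ∈ s, ∃ b₀ ∈ L, ∀ b ∈ L, ‖v - b‖ ≤ ‖v - b₀‖ → Q i b) :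
    ∃ b₀ ∈ L, ‖v - b₀‖ ≤ ‖v - b₄‖ ∧ ∀ b ∈ L, ‖v - b‖ ≤ ‖v - b₀‖ → ∀ i ∈ s, Q i b := by
  classical
  induction s using Finset.induction_on with
  | empty => exact ⟨b₄, hb₄, le_rfl, by simp⟩
  | insert a s ha ih =>
    obtain ⟨b₀, hb₀, h0, h1⟩ := ih (fun i hi => hQ i (Finset.mem_insert_of_mem hi))
    obtain ⟨b₁, hb₁, h2⟩ := hQ a (Finset.mem_insert_self a s)
    obtain ⟨b, hb, h3, h4⟩ := exists_closer hv hb₀ hb₁
    refine ⟨b, hb, h3.trans h0, ?_⟩
    intro b' hb' hbb i hi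
    rcases Finset.mem_insert.1 hi with rfl | hi
    · exact h2 b' hb' (hbb.trans h4)
    · exact h1 b' hb' (hbb.trans h3) i hi

private theorem abC_polyIn (c : PCoord p L) {h : W[X]} (hh : PolyIn L h) (J : c.J) :
    PolyIn L (Sop (c.σ J) p h) := by
  intro n
  rw [coeff_Sop (c.σ_zero J)]
  split_ifs
  · exact c.σ_mem J _ (hh _)
  · exact L.zero_mem

private theorem abC_coeff (c : PCoord p L) (h : W[X]) (J : c.J) {n : ℕ} (hn : 1 ≤ n) :
    (Sop (c.σ J) p h).coeff n = c.σ J (h.coeff (p * n)) := by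
  rw [coeff_Sop (c.σ_zero J), if_pos hn]

omit [CharP W p] [Fact p.Prime] in
/-- ultrametric inequality for `x ^ p * a * b` -/
private theorem abC_max {x y : W} {a b r : ℝ} (ha : 0 ≤ a) (hb : 0 ≤ b)
    (hx : ‖x‖ ^ p * a * b ≤ r) (hy : ‖y‖ ^ p * a * b ≤ r) : ‖x + y‖ ^ p * a * b ≤ r := by
  rcases le_max_iff.1 (IsUltrametricDist.norm_add_le_max x y) with h | h
  · refine le_trans ?_ hx
    gcongr
  · refine le_trans ?_ hy
    gcongr

theorem ppart_bounds (c : PCoord p L) (hv : T4 L v) (hd : Dfd p L v f δ) {b₄ : W} (hb₄ : b₄ ∈ L)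
    {δ₄ : ℝ} (h0 : 0 ≤ δ₄) (hδ₄ : δ₄ < δ)
    (herr : ∀ b' ∈ L, ‖v - b'‖ ≤ ‖v - b₄‖ → ∀ J : c.J, J ≠ c.o → ∀ n, 1 ≤ n →
      ‖(Sop (c.σ J) p (cc (c.σ c.o) p f b')).coeff n
        - (taylor (b' - b₄) (Sop (c.σ J) p (cc (c.σ c.o) p f b₄))).coeff n‖ ^ p
        * ‖c.x J‖ * ‖v - b₄‖ ^ (p * n) ≤ δ₄) :
    ∃ b₅ ∈ L, ‖v - b₅‖ ≤ ‖v - b₄‖ ∧ ∀ b' ∈ L, ‖v - b'‖ ≤ ‖v - b₅‖ →
      (∀ n, 1 ≤ n → (∀ i, n ≠ p ^ i) →
        ‖(cc (c.σ c.o) p f b').coeff (p * n)‖ * ‖v - b'‖ ^ (p * n) < δ) ∧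
      (∀ i, ‖(cc (c.σ c.o) p f b').coeff (p ^ (i + 1))‖ * rho L v ^ (p ^ (i + 1)) ≤ δ) := by
  have hpp : p.Prime := Fact.out
  have hp0 : p ≠ 0 := hpp.ne_zero
  have hσ := c.cart
  have hδ0 : 0 < δ := lt_of_lt_of_le one_pos hd.one_le
  have hρ0 : 0 ≤ rho L v := rho_nonneg
  have hccL : ∀ b ∈ L, PolyIn L (cc (c.σ c.o) p f b) := fun b hb => polyIn_cc hσ hd.polyIn hb
  -- the polynomials
  obtain ⟨P, hP⟩ : ∃ P : c.J → W[X], ∀ J, P J = Sop (c.σ J) p (cc (c.σ c.o) p f b₄) :=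
    ⟨_, fun J => rfl⟩
  have hPL : ∀ J, PolyIn L (P J) := fun J => by rw [hP]; exact abC_polyIn c (hccL b₄ hb₄) J
  obtain ⟨U, hU⟩ : ∃ U : c.J → ℕ → W[X], ∀ J n, U J n = abC_U (P J) b₄ n := ⟨_, fun J n => rfl⟩
  have hUL : ∀ J n, PolyIn L (U J n) := fun J n => by rw [hU]; exact abC_U_polyIn (hPL J) hb₄ n
  obtain ⟨u, hu⟩ : ∃ u : c.J → ℕ → ℝ, ∀ J n, u J n = ‖(U J n).eval v‖ := ⟨_, fun J n => rfl⟩
  have hu0 : ∀ J n, 0 ≤ u J n := fun J n => by rw [hu]; exact norm_nonneg _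
  -- the error
  have hE : ∀ b ∈ L, ‖v - b‖ ≤ ‖v - b₄‖ → ∀ J, J ≠ c.o → ∀ n, 1 ≤ n → ∀ r, 0 ≤ r →
      r ≤ ‖v - b₄‖ →
      ‖c.σ J ((cc (c.σ c.o) p f b).coeff (p * n)) - (U J n).eval b‖ ^ p
        * ‖c.x J‖ * r ^ (p * n) ≤ δ₄ := by
    intro b hb hbb J hJ n hn r hr hr'
    have h1 := herr b hb hbb J hJ n hn
    rw [abC_coeff c _ J hn, ← hP, ← abC_U_eval, ← hU] at h1
    refine le_trans ?_ h1
    gcongr
  -- (α)
  have hα : ∀ J, J ≠ c.o → ∀ n, 1 ≤ n → u J n ^ p * ‖c.x J‖ * rho L v ^ (p * n) ≤ δ := by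
    intro J hJ n hn
    by_contra hcon
    rw [not_le] at hcon
    obtain ⟨t, ht1, ht2⟩ := exists_between hcon
    obtain ⟨b₀, hb₀, hB⟩ := claimB hσ hv hd ht1
    obtain ⟨b₁, hb₁, hst⟩ := abC_stable hv (hUL J n)
    obtain ⟨b₂, hb₂, h20, h21⟩ := exists_closer hv hb₀ hb₁
    obtain ⟨b, hb, h3, h4⟩ := exists_closer hv hb₂ hb₄
    have h5 := (hB b hb (h3.trans h20)).1 (p * n) (Nat.mul_pos hpp.pos hn)
    have h6 := hst b hb (h3.trans h21)
    have h7 := hE b hb h4 J hJ n hn ‖v - b‖ (norm_nonneg _) h4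
    have h8 : ‖c.σ J ((cc (c.σ c.o) p f b).coeff (p * n))‖ ^ p * ‖c.x J‖ * ‖v - b‖ ^ (p * n)
        ≤ t := by
      have := c.norm_σ (hccL b hb (p * n)) J
      refine le_trans ?_ h5.le
      gcongr
    have h9 : ‖(U J n).eval b‖ ^ p * ‖c.x J‖ * ‖v - b‖ ^ (p * n) ≤ t := by
      have h10 : (U J n).eval b = c.σ J ((cc (c.σ c.o) p f b).coeff (p * n)) +
          ((U J n).eval b - c.σ J ((cc (c.σ c.o) p f b).coeff (p * n))) := by ring
      rw [h10]
      refine abC_max (norm_nonneg _) (by positivity) h8 ?_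
      rw [norm_sub_rev]
      linarith
    rw [h6, ← hu] at h9
    have h11 : u J n ^ p * ‖c.x J‖ * rho L v ^ (p * n) ≤
        u J n ^ p * ‖c.x J‖ * ‖v - b‖ ^ (p * n) := by
      have := rho_le (L := L) (v := v) hb
      have := hu0 J n
      gcongr
    linarith
  -- (β)
  have hβ : ∀ J, J ≠ c.o → ∀ n, 1 ≤ n → (∀ i, n ≠ p ^ i) →
      u J n ^ p * ‖c.x J‖ * rho L v ^ (p * n) < δ := by
    intro J hJ n hn hni
    by_contra hcon
    rw [not_lt] at hcon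
    have heq := le_antisymm (hα J hJ n hn) hcon
    obtain ⟨a, m, hpm, hnm⟩ := Nat.exists_eq_pow_mul_and_not_dvd (n := n) (by omega) p hpp.ne_one
    have hm2 : 2 ≤ m := by
      rcases m with _ | _ | m
      · exact absurd (dvd_zero p) hpm
      · exact absurd (by rw [hnm, zero_add, mul_one]) (hni a)
      · omega
    have hpa : 1 ≤ p ^ a := Nat.one_le_pow _ _ hpp.pos
    obtain ⟨k, hk⟩ : ∃ k, k + p ^ a = n := by
      refine ⟨n - p ^ a, Nat.sub_add_cancel ?_⟩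
      rw [hnm]
      exact Nat.le_mul_of_pos_right _ (by omega)
    have hk1 : 1 ≤ k := by
      rcases Nat.eq_zero_or_pos k with h | h
      · subst h
        rw [zero_add] at hk
        exact absurd hk.symm (hni a)
      · exact h
    have hρpos : 0 < rho L v := by
      rcases hρ0.lt_or_eq with h | h
      · exact h
      · rw [← h, zero_pow (Nat.mul_ne_zero hp0 (by omega)), mul_zero] at heq
        linarith
    have hupos : 0 < u J n := by
      rcases (hu0 J n).lt_or_eq with h | h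
      · exact h
      · rw [← h, zero_pow hp0, zero_mul, zero_mul] at heq
        linarith
    have hch : ‖(((k + p ^ a).choose k : ℕ) : W)‖ = 1 := by
      apply norm_natCast_of_not_dvd
      rw [Nat.choose_symm_add, hk]
      intro hdvd
      have h1 := abC_choose (p := p) hpp a m
      rw [← hnm] at h1
      exact hpm ((Nat.modEq_zero_iff_dvd.1 (h1.symm.trans (Nat.modEq_zero_iff_dvd.2 hdvd))))
    have hUne : U J (p ^ a) ≠ 0 := by
      intro hz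
      have h1 := abC_U_taylor (P J) b₄ v (p ^ a) k
      rw [← hU, hz, map_zero, coeff_zero, hk, ← hU] at h1
      have h2 := congrArg norm h1
      rw [norm_zero, norm_mul, ← hu] at h2
      rw [hk] at hch
      rw [hch, one_mul] at h2
      linarith
    obtain ⟨-, b₁, hb₁, hst⟩ := hv.stable (hUL J (p ^ a)) hUne
    obtain ⟨b₂, hb₂, hst2⟩ := abC_stable hv (hUL J n)
    obtain ⟨b, hb, h3, h4⟩ := exists_closer hv hb₁ hb₂
    have h5 := (hst b hb h3).2 k hk1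
    have h6 := hst2 b hb h4
    rw [hU, abC_U_taylor, norm_mul, hch, one_mul, hk, ← hU, h6, ← hu, ← hU, ← hu] at h5
    have h7 : u J n * rho L v ^ k < u J (p ^ a) := by
      refine lt_of_le_of_lt ?_ h5
      have := rho_le (L := L) (v := v) hb
      gcongr
    have h8 := hα J hJ (p ^ a) hpa
    have hx : 0 < ‖c.x J‖ := norm_pos_iff.2 (c.x_ne J)
    have h9 : u J n ^ p * ‖c.x J‖ * rho L v ^ (p * n) <
        u J (p ^ a) ^ p * ‖c.x J‖ * rho L v ^ (p * p ^ a) := by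
      have h10 : u J n ^ p * ‖c.x J‖ * rho L v ^ (p * n) =
          (u J n * rho L v ^ k) ^ p * ‖c.x J‖ * rho L v ^ (p * p ^ a) := by
        rw [← hk, mul_add, pow_add, mul_pow, ← pow_mul, mul_comm k p]
        ring
      rw [h10]
      gcongr
    linarith
  -- closeness
  have hclose : ∀ J ∈ (Finset.univ : Finset c.J), ∃ b₀ ∈ L, ∀ b ∈ L, ‖v - b‖ ≤ ‖v - b₀‖ →
      (J ≠ c.o → ∀ n, 1 ≤ n → ‖(U J n).eval b‖ = u J n ∧ ((∀ i, n ≠ p ^ i) →
        u J n ^ p * ‖c.x J‖ * ‖v - b‖ ^ (p * n) < δ)) := by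
    intro J _
    by_cases hJ : J = c.o
    · exact ⟨0, zero_mem L, fun b _ _ hne => absurd hJ hne⟩
    obtain ⟨b₀, hb₀, -, h1⟩ := abC_eventually (L := L) (v := v)
      (Finset.range ((P J).natDegree + 1))
      (fun n b => 1 ≤ n → ‖(U J n).eval b‖ = u J n ∧ ((∀ i, n ≠ p ^ i) →
        u J n ^ p * ‖c.x J‖ * ‖v - b‖ ^ (p * n) < δ)) hv hb₄ (by
        intro n _
        by_cases hn : 1 ≤ n
        · obtain ⟨b₁, hb₁, h1⟩ := abC_stable hv (hUL J n)
          by_cases hni : ∀ i, n ≠ p ^ i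
          · obtain ⟨b₂, hb₂, h2⟩ := exists_mul_pow_lt (L := L) (v := v)
              (φ := u J n ^ p * ‖c.x J‖) (mul_nonneg (pow_nonneg (hu0 J n) p) (norm_nonneg _))
              (p * n) (hβ J hJ n hn hni)
            obtain ⟨b₃, hb₃, h3, h4⟩ := exists_closer hv hb₁ hb₂
            refine ⟨b₃, hb₃, fun b hb hbb _ => ⟨?_, fun _ => h2 b hb (hbb.trans h4)⟩⟩
            rw [h1 b hb (hbb.trans h3), ← hu]
          · refine ⟨b₁, hb₁, fun b hb hbb _ => ⟨?_, fun h => absurd h hni⟩⟩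
            rw [h1 b hb hbb, ← hu]
        · exact ⟨0, zero_mem L, fun b _ _ h => absurd h hn⟩)
    refine ⟨b₀, hb₀, fun b hb hbb _ n hn => ?_⟩
    by_cases hnd : n < (P J).natDegree + 1
    · exact h1 b hb hbb n (Finset.mem_range.2 hnd) hn
    · have hz : U J n = 0 := by
        rw [hU, abC_U, hasseDeriv_eq_zero_of_lt_natDegree _ _ (by omega), map_zero]
      have hz' : u J n = 0 := by rw [hu, hz, eval_zero, norm_zero]
      refine ⟨by rw [hz, eval_zero, norm_zero, hz'], fun _ => ?_⟩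
      rw [hz', zero_pow hp0, zero_mul, zero_mul]
      exact hδ0
  obtain ⟨b₅, hb₅, h54, hcl⟩ := abC_eventually (L := L) (v := v) Finset.univ
    (fun J b => (J ≠ c.o → ∀ n, 1 ≤ n → ‖(U J n).eval b‖ = u J n ∧ ((∀ i, n ≠ p ^ i) →
        u J n ^ p * ‖c.x J‖ * ‖v - b‖ ^ (p * n) < δ))) hv hb₄ hclose
  refine ⟨b₅, hb₅, h54, ?_⟩
  intro b hb hbb
  have hb4 : ‖v - b‖ ≤ ‖v - b₄‖ := hbb.trans h54
  have hzero : ∀ n, 1 ≤ n → c.σ c.o ((cc (c.σ c.o) p f b).coeff (p * n)) = 0 := by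
    intro n hn
    have h1 := congrArg (fun Q : W[X] => Q.coeff n) (Sop_cc hσ hd.polyIn hb)
    simp only [coeff_zero] at h1
    rwa [abC_coeff c _ c.o hn] at h1
  refine ⟨?_, ?_⟩
  · intro n hn hni
    obtain ⟨J, hJn⟩ := c.exists_norm (hccL b hb (p * n))
    by_cases hJ : J = c.o
    · rw [hJn, hJ, hzero n hn, norm_zero, zero_pow hp0, zero_mul, zero_mul]
      exact hδ0
    · rw [hJn]
      obtain ⟨h1, h2⟩ := hcl b hb hbb J (Finset.mem_univ J) hJ n hn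
      have h3 := h2 hni
      have h4 := hE b hb hb4 J hJ n hn ‖v - b‖ (norm_nonneg _) hb4
      have h5 : c.σ J ((cc (c.σ c.o) p f b).coeff (p * n)) =
          (c.σ J ((cc (c.σ c.o) p f b).coeff (p * n)) - (U J n).eval b) + (U J n).eval b := by
        ring
      rw [h5]
      refine lt_of_le_of_lt (abC_max (norm_nonneg _) (by positivity)
        (h4.trans (le_max_left _ _)) ?_)
        (max_lt hδ₄ h3)
      rw [h1]
      exact le_max_right _ _
  · intro i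
    have hpi : 1 ≤ p ^ i := Nat.one_le_pow _ _ hpp.pos
    rw [pow_succ', ]
    obtain ⟨J, hJn⟩ := c.exists_norm (hccL b hb (p * p ^ i))
    by_cases hJ : J = c.o
    · rw [hJn, hJ, hzero _ hpi, norm_zero, zero_pow hp0, zero_mul, zero_mul]
      exact hδ0.le
    · rw [hJn]
      obtain ⟨h1, -⟩ := hcl b hb hbb J (Finset.mem_univ J) hJ _ hpi
      have h4 := hE b hb hb4 J hJ _ hpi (rho L v) hρ0 ((rho_le hb).trans hb4)
      have h5 : c.σ J ((cc (c.σ c.o) p f b).coeff (p * p ^ i)) =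
          (c.σ J ((cc (c.σ c.o) p f b).coeff (p * p ^ i)) - (U J (p ^ i)).eval b) +
            (U J (p ^ i)).eval b := by
        ring
      rw [h5]
      refine abC_max (norm_nonneg _) (by positivity) (h4.trans hδ₄.le) ?_
      rw [h1]
      exact hα J hJ _ hpi

end HR
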