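import Pool.Agent.Lib.HR.AddBigA
import Pool.Agent.Lib.HR.AddBigB
import Pool.Agent.Lib.HR.AddBigC

/-!
# AddBig: the additive structure in the case `δ > 1`

Choose `g₀ ∈ L[X]` with `‖f v - wp (g₀ v)‖ < δ ^ p` (`δ < δ ^ p`) and put `f₁ = f - wp g₀`; `Dfd` holds
for `f₁` and `cc f₁ b = cc f b` (`cc_sub_wp`), so `prime_part` gives `δ₂ < δ`, `b₂`.  Choose `N₁` real
with `1 ≤ N₁ < δ` and `δ < N₁ ^ p` (`δ ^ (1/p) < δ`).  Let `b₄` be closer than `b₁` (of `Stab`), `b₂`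
and than the centre of `claimB` for `t = N₁ ^ p`.  `cc_recenter` + `ppart_recenter` (with
`s = ‖v - b₄‖`, `N = N₁ ^ p`, `h = cc f b₄`) give `herr` of `ppart_bounds` with `δ₄ = max δ₂ N₁ < δ`.
Take `b` closer than `b₅` and such that `(φ / ‖v-b₁‖) ‖v-b‖ ^ (q+1) < δ`
(`exists_mul_pow_lt`, since `φ ρ ^ q ρ / ‖v - b₁‖ = δ ρ/‖v-b₁‖ < δ`).
* `n > q`: `Stab.big` gives `‖c_n‖ ‖v-b‖ ^ n ≤ φ ‖v-b₁‖ ^ q (‖v-b‖/‖v-b₁‖) ^ n ≤
  (φ/‖v-b₁‖) ‖v-b‖ ^ (q+1) < δ`.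
* `n ≥ 1` not a power of `p`: if `p ∣ n`, `n = p n'` with `n'` not a power of `p`: `ppart_bounds`;
  otherwise `n ≥ 2` is prime to `p`: `≤ δ₂ < δ`.
* `bdd`: `i = 0` from `prime_part`, `i + 1` from `ppart_bounds`.
* `q` is a power of `p`: otherwise `‖c_q‖ ‖v-b‖ ^ q < δ`, but it is `φ ‖v-b‖ ^ q ≥ φ ρ ^ q = δ`;
  `q ≥ 2` gives the exponent `≥ 1`.
-/

namespace HR

open Polynomial

variable {W : Type*} [NormedField W] [IsUltrametricDist W] {p : ℕ} [Fact p.Prime] [CharP W p]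
  {L : Subfield W} {v : W} {f : W[X]} {δ : ℝ} {q : ℕ} {φ : ℝ} {b₁ : W}

theorem addData_of_gt (c : PCoord p L) (hv : T4 L v) (hd : Dfd p L v f δ) (hδ : 1 < δ)
    (hs : Stab (c.σ c.o) p L v f δ q φ b₁) (hq : 2 ≤ q) :
    ∃ b, ‖v - b‖ ≤ ‖v - b₁‖ ∧ AddData (c.σ c.o) p L v f δ q b := by
  have hp1 : 1 < p := (Fact.out : p.Prime).one_lt
  have hp0 : 0 < p := by omega
  have hcart : Cart p L (c.σ c.o) := c.cart
  -- a first approximation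
  obtain ⟨g₀, hg₀, hg₀n⟩ := hd.near _ (lt_self_pow₀ hδ hp1)
  have hf₁L : PolyIn L (f - wp p g₀) :=
    polyIn_sub hd.polyIn (polyIn_sub (polyIn_pow hg₀ p) hg₀)
  have hev : ∀ g : W[X], (f - wp p g₀).eval v - wp p (g.eval v) =
      f.eval v - wp p ((g₀ + g).eval v) := by
    intro g
    rw [eval_sub, wp_eval, eval_add, wp_add]
    ring
  have hd₁ : Dfd p L v (f - wp p g₀) δ := by
    refine ⟨hf₁L, hd.one_le, ?_, ?_⟩
    · intro g hg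
      rw [hev]
      exact hd.lt _ (polyIn_add hg₀ hg)
    · intro t ht
      obtain ⟨g, hg, hlt⟩ := hd.near t ht
      refine ⟨g - g₀, polyIn_sub hg hg₀, ?_⟩
      rw [hev, add_sub_cancel]
      exact hlt
  have hf₁ : ‖(f - wp p g₀).eval v‖ < δ ^ p := by
    rw [eval_sub, wp_eval]
    exact hg₀n
  obtain ⟨δ₂, hδ₂0, hδ₂, b₂, hb₂, hP⟩ := prime_part hcart hv hd₁ hδ hf₁
  have hcc : ∀ b ∈ L, cc (c.σ c.o) p (f - wp p g₀) b = cc (c.σ c.o) p f b := fun b hb =>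
    cc_sub_wp hcart hd.polyIn hg₀ hb
  -- the radius
  obtain ⟨N₁, hN₁1, hN₁δ, hN₁p⟩ : ∃ N₁ : ℝ, 1 ≤ N₁ ∧ N₁ < δ ∧ δ < N₁ ^ p := by
    have h1 : ∀ᶠ x in nhds δ, δ < x ^ p :=
      (continuous_pow p).continuousAt.eventually (lt_mem_nhds (lt_self_pow₀ hδ hp1))
    have h2 : ∀ᶠ x in nhds δ, 1 < x := lt_mem_nhds hδ
    have h3 : ∀ᶠ x in nhdsWithin δ (Set.Iio δ), (δ < x ^ p ∧ 1 < x) ∧ x < δ :=
      ((h1.and h2).filter_mono nhdsWithin_le_nhds).and self_mem_nhdsWithin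
    obtain ⟨x, ⟨hx1, hx2⟩, hx3⟩ := h3.exists
    exact ⟨x, hx2.le, hx3, hx1⟩
  obtain ⟨b₀, hb₀, hB⟩ := claimB hcart hv hd hN₁p
  obtain ⟨b₃, hb₃, h31, h32⟩ := exists_closer hv hs.mem hb₂
  obtain ⟨b₄, hb₄, h43, h40⟩ := exists_closer hv hb₃ hb₀
  have h41 : ‖v - b₄‖ ≤ ‖v - b₁‖ := h43.trans h31
  have h42 : ‖v - b₄‖ ≤ ‖v - b₂‖ := h43.trans h32
  have herr : ∀ b' ∈ L, ‖v - b'‖ ≤ ‖v - b₄‖ → ∀ J : c.J, J ≠ c.o → ∀ n, 1 ≤ n →
      ‖(Sop (c.σ J) p (cc (c.σ c.o) p f b')).coeff n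
        - (taylor (b' - b₄) (Sop (c.σ J) p (cc (c.σ c.o) p f b₄))).coeff n‖ ^ p
        * ‖c.x J‖ * ‖v - b₄‖ ^ (p * n) ≤ max δ₂ N₁ := by
    intro b' hb' hle J hJ n hn
    have h := ppart_recenter c (polyIn_cc hcart hd.polyIn hb₄) (Sop_cc hcart hd.polyIn hb₄)
      (hv.pos hb₄) (N := N₁ ^ p) (N₁ := N₁) (δ₂ := δ₂) (one_le_pow₀ hN₁1)
      (fun n hn => ((hB b₄ hb₄ h40).1 n hn).le) hδ₂0
      (fun n hn hpn => by
        have := (hP b₄ hb₄ h42).1 n hn hpn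
        rwa [hcc b₄ hb₄] at this)
      (by linarith) le_rfl (sub_mem hb' hb₄) (norm_sub_le_of_le hle) hJ hn
    rwa [← cc_recenter hcart hd.polyIn hb₄ hb'] at h
  obtain ⟨b₅, hb₅, h54, h5⟩ := ppart_bounds c hv hd hb₄
    (le_max_of_le_left hδ₂0) (max_lt hδ₂ hN₁δ) herr
  have hs1 : 0 < ‖v - b₁‖ := hv.pos hs.mem
  have hδ0 : 0 < δ := by linarith
  obtain ⟨b₆, hb₆, h6⟩ := exists_mul_pow_lt (L := L) (v := v) (φ := φ / ‖v - b₁‖) (t := δ)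
    (div_nonneg hs.pos.le hs1.le) (q + 1) (by
      have e1 : φ / ‖v - b₁‖ * rho L v ^ (q + 1) = δ * (rho L v / ‖v - b₁‖) := by
        rw [← hs.val]
        ring
      rw [e1]
      refine mul_lt_of_lt_one_right hδ0 ?_
      rw [div_lt_one hs1]
      exact rho_lt hv hs.mem)
  obtain ⟨b, hb, hb5, hb6⟩ := exists_closer hv hb₅ hb₆
  have hb4 : ‖v - b‖ ≤ ‖v - b₄‖ := hb5.trans h54
  have hb1 : ‖v - b‖ ≤ ‖v - b₁‖ := hb4.trans h41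
  have hb2 : ‖v - b‖ ≤ ‖v - b₂‖ := hb4.trans h42
  have hA : ∀ n, q < n → ‖(cc (c.σ c.o) p f b).coeff n‖ * ‖v - b‖ ^ n < δ := by
    intro n hn
    obtain ⟨m, rfl⟩ : ∃ m, n = q + 1 + m := ⟨n - (q + 1), by omega⟩
    have h1 := hs.big b hb hb1 _ hn
    have h2 : ‖(cc (c.σ c.o) p f b).coeff (q + 1 + m)‖ * ‖v - b₁‖ ^ m ≤ φ / ‖v - b₁‖ := by
      rw [le_div_iff₀ hs1]
      have h3 : (‖(cc (c.σ c.o) p f b).coeff (q + 1 + m)‖ * ‖v - b₁‖ ^ m * ‖v - b₁‖) *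
          ‖v - b₁‖ ^ q < φ * ‖v - b₁‖ ^ q := by
        refine lt_of_eq_of_lt ?_ h1
        ring
      exact (lt_of_mul_lt_mul_right h3 (pow_nonneg hs1.le _)).le
    calc ‖(cc (c.σ c.o) p f b).coeff (q + 1 + m)‖ * ‖v - b‖ ^ (q + 1 + m)
        = (‖(cc (c.σ c.o) p f b).coeff (q + 1 + m)‖ * ‖v - b‖ ^ m) * ‖v - b‖ ^ (q + 1) := by ring
      _ ≤ (‖(cc (c.σ c.o) p f b).coeff (q + 1 + m)‖ * ‖v - b₁‖ ^ m) * ‖v - b‖ ^ (q + 1) := by
          gcongr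
      _ ≤ φ / ‖v - b₁‖ * ‖v - b‖ ^ (q + 1) := by
          gcongr
      _ < δ := h6 b hb hb6
  have hBn : ∀ n, 1 ≤ n → (∀ i, n ≠ p ^ i) →
      ‖(cc (c.σ c.o) p f b).coeff n‖ * ‖v - b‖ ^ n < δ := by
    intro n hn hni
    by_cases hpn : p ∣ n
    · obtain ⟨m, rfl⟩ := hpn
      have hm : 1 ≤ m := by
        rcases Nat.eq_zero_or_pos m with h | h
        · rw [h, mul_zero] at hn
          omega
        · exact h
      refine (h5 b hb hb5).1 m hm fun i hi => hni (i + 1) ?_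
      rw [hi, pow_succ]
      ring
    · have hn1 : n ≠ 1 := by
        have := hni 0
        rwa [pow_zero] at this
      have h1 := (hP b hb hb2).1 n (by omega) hpn
      rw [hcc b hb] at h1
      exact h1.trans_lt hδ₂
  refine ⟨b, hb1, ⟨hb, ?_, ?_, ?_⟩⟩
  · by_contra hcon
    push Not at hcon
    have h1 : ∀ i, q ≠ p ^ i := by
      intro i
      rcases Nat.eq_zero_or_pos i with h | h
      · rw [h, pow_zero]
        omega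
      · exact hcon i h
    have h2 := hBn q (by omega) h1
    rw [hs.lead b hb hb1] at h2
    have h3 : φ * rho L v ^ q ≤ φ * ‖v - b‖ ^ q :=
      mul_le_mul_of_nonneg_left (pow_le_pow_left₀ rho_nonneg (rho_le hb) q) hs.pos.le
    rw [hs.val] at h3
    linarith
  · rintro n hn (h | h)
    · exact hBn n hn h
    · exact hA n h
  · intro i
    rcases Nat.eq_zero_or_pos i with h | h
    · have h1 := (hP b hb hb2).2
      rw [hcc b hb] at h1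
      rw [h, pow_zero, pow_one]
      exact h1
    · obtain ⟨j, rfl⟩ : ∃ j, i = j + 1 := ⟨i - 1, by omega⟩
      exact (h5 b hb hb5).2 j

end HR
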