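import Pool.Agent.Lib.HR.DefA

/-!
# AddBigA (case `δ > 1`): the coefficients of index prime to `p`

Let `δ₁ = ‖f v‖ ^ (1/p)`, so `δ₁ ^ p = ‖f v‖ < δ ^ p`, `δ₁ < δ` (and `δ < ‖f v‖` by `Dfd.lt` with
`g = 0`, so `‖f v‖ ≥ 1`, `f ≠ 0`).  For `b` close to `v` (`T4.stable` for `f`)
`‖(taylor b f)_n‖ ‖v-b‖ ^ n ≤ ‖f v‖` for `n ≥ 1`, so in `cc_decomp` `‖G_n‖ ‖v-b‖ ^ n ≤ δ₁`; for `n`
prime to `p` (and `n ≥ 1`): `c_n = (taylor b f)_n + G_n` (`coeff_pow_of_not_dvd`).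
If `derivative f = 0` then `(taylor b f)_n = 0` for such `n` and we are done with `δ₂ = δ₁`.
Otherwise let `β = ‖f'(v)‖` and `b₁` close such that (`T4.stable` for `f'`) `‖f'(b)‖ = β` and
`‖(taylor b f')_n‖ ‖v-b‖ ^ n < β`, `n ≥ 1`, for all `b` as close as `b₁`; `s₁ = ‖v - b₁‖`.  By
`norm_taylor_closer` `‖(taylor b f')_n‖ s₁ ^ n ≤ β` for all closer `b` and all `n`.  Since
`(taylor b f')_{n-1} = n (taylor b f)_n` and `‖(n : W)‖ = 1` for `n` prime to `p`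
(characteristic `p`), `‖(taylor b f)_n‖ ‖v-b‖ ^ n ≤ β ‖v-b‖ (‖v-b‖/s₁) ^ (n-1)`.
`β ρ ≤ δ`: otherwise put `t = β ρ > δ > δ₁`; for `b` close `‖c_1‖ ‖v-b‖ < t` (`claimB`), but
`‖(taylor b f)_1‖ ‖v-b‖ = β ‖v-b‖ ≥ t > ‖G_1‖ ‖v-b‖` gives `‖c_1‖ ‖v-b‖ ≥ t`.
For `n ≥ 2`: `β ‖v-b‖ (‖v-b‖/s₁) ^ (n-1) ≤ (β / s₁) ‖v-b‖ ^ 2`, and `(β/s₁) ρ ^ 2 ≤ δ ρ / s₁ < δ`
(`rho_lt`), so by `exists_mul_pow_lt` it is `≤ δ₂'` for some `δ₂' < δ` and all close `b`.
`‖c_1‖ ρ ≤ max (β ρ) (‖G_1‖ ‖v-b‖) ≤ δ`.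
-/

namespace HR

open Polynomial

variable {W : Type*} [NormedField W] [IsUltrametricDist W] {p : ℕ} [Fact p.Prime] [CharP W p]
  {L : Subfield W} {σ : W → W} {v : W} {f : W[X]} {δ : ℝ}

omit [Fact p.Prime] in
private theorem abA_root {F : ℝ} (hF : 0 ≤ F) (hp : p ≠ 0) : ∃ r : ℝ, 0 ≤ r ∧ r ^ p = F :=
  ⟨F ^ ((p : ℝ)⁻¹), Real.rpow_nonneg hF _, Real.rpow_inv_natCast_pow hF hp⟩

omit [IsUltrametricDist W] [Fact p.Prime] [CharP W p] in
private theorem abA_coeff (b : W) (f : W[X]) (n : ℕ) :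
    (taylor b (derivative f)).coeff n = (taylor b f).coeff (n + 1) * ((n : W) + 1) := by
  rw [← Polynomial.coeff_derivative]
  congr 1
  rw [taylor_apply, taylor_apply, derivative_comp]
  simp

/-- the basic relation at indices prime to `p` -/
private theorem abA_rel (hσ : Cart p L σ) (hv : T4 L v) (hd : Dfd p L v f δ) {b : W} (hb : b ∈ L)
    {F δ₁ : ℝ} (hF : 1 ≤ F) (h0 : 0 ≤ δ₁) (h1 : δ₁ ^ p = F)
    (hst : ∀ n, 1 ≤ n → ‖(taylor b f).coeff n‖ * ‖v - b‖ ^ n < F) :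
    ∃ G : W[X], (∀ n, 1 ≤ n → ¬ p ∣ n →
      (cc σ p f b).coeff n = (taylor b f).coeff n + G.coeff n) ∧
      ∀ n, ‖G.coeff n‖ * ‖v - b‖ ^ n ≤ δ₁ := by
  have hp : p ≠ 0 := (Fact.out : p.Prime).ne_zero
  obtain ⟨G, hG, hG0, hdec, hbd⟩ := cc_decomp hσ hd.polyIn hb
  refine ⟨G, ?_, ?_⟩
  · intro n hn hpn
    have h2 := congrArg (fun P : W[X] => P.coeff n) hdec
    simp only [wp, coeff_add, coeff_sub, coeff_C] at h2
    rw [if_neg (by omega), coeff_pow_of_not_dvd G hpn] at h2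
    rw [h2]; ring
  · intro n
    have h3 := hbd ‖v - b‖ F (hv.pos hb) hF (fun n hn => (hst n hn).le) n
    rw [← h1] at h3
    exact le_of_pow_le_pow_left₀ hp h0 h3

theorem prime_part (hσ : Cart p L σ) (hv : T4 L v) (hd : Dfd p L v f δ) (hδ : 1 < δ)
    (hf : ‖f.eval v‖ < δ ^ p) :
    ∃ δ₂, 0 ≤ δ₂ ∧ δ₂ < δ ∧ ∃ b₂ ∈ L, ∀ b ∈ L, ‖v - b‖ ≤ ‖v - b₂‖ →
      (∀ n, 2 ≤ n → ¬ p ∣ n → ‖(cc σ p f b).coeff n‖ * ‖v - b‖ ^ n ≤ δ₂) ∧
      ‖(cc σ p f b).coeff 1‖ * rho L v ≤ δ := by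
  have hp : p ≠ 0 := (Fact.out : p.Prime).ne_zero
  have hp1 : ¬ p ∣ 1 := (Fact.out : p.Prime).one_lt.ne' ∘ Nat.dvd_one.1
  have hδF : δ < ‖f.eval v‖ := by
    have := hd.lt 0 polyIn_zero
    simpa [wp, hp] using this
  obtain ⟨F, hF⟩ : ∃ F, F = ‖f.eval v‖ := ⟨_, rfl⟩
  rw [← hF] at hf hδF
  have hF1 : 1 ≤ F := by linarith
  have hf0 : f ≠ 0 := by
    rintro rfl
    rw [eval_zero, norm_zero] at hF
    linarith
  obtain ⟨δ₁, hδ₁0, hδ₁⟩ := abA_root (p := p) (show 0 ≤ F by linarith) hp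
  have hδ₁δ : δ₁ < δ := by
    rw [← hδ₁] at hf
    exact lt_of_pow_lt_pow_left₀ p (by linarith) hf
  obtain ⟨-, b₀, hb₀, hst⟩ := hv.stable hd.polyIn hf0
  rw [← hF] at hst
  have hrel : ∀ b ∈ L, ‖v - b‖ ≤ ‖v - b₀‖ → ∃ G : W[X], (∀ n, 1 ≤ n → ¬ p ∣ n →
      (cc σ p f b).coeff n = (taylor b f).coeff n + G.coeff n) ∧
      ∀ n, ‖G.coeff n‖ * ‖v - b‖ ^ n ≤ δ₁ := fun b hb hbb =>
    abA_rel hσ hv hd hb hF1 hδ₁0 hδ₁ (hst b hb hbb).2
  have hnat : ∀ n, 1 ≤ n → ¬ p ∣ n → ∀ b, ‖(taylor b f).coeff n‖ =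
      ‖(taylor b (derivative f)).coeff (n - 1)‖ := by
    intro n hn hpn b
    rw [abA_coeff, Nat.sub_add_cancel hn, norm_mul]
    have : ((n - 1 : ℕ) : W) + 1 = (n : W) := by
      rw [← Nat.cast_add_one, Nat.sub_add_cancel hn]
    rw [this, norm_natCast_of_not_dvd hpn, mul_one]
  have hρ0 : 0 ≤ rho L v := rho_nonneg
  by_cases hf' : derivative f = 0
  · refine ⟨δ₁, hδ₁0, hδ₁δ, b₀, hb₀, ?_⟩
    intro b hb hbb
    obtain ⟨G, hG1, hG2⟩ := hrel b hb hbb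
    have hz : ∀ n, 1 ≤ n → ¬ p ∣ n → (taylor b f).coeff n = 0 := by
      intro n hn hpn
      have := hnat n hn hpn b
      rw [hf', map_zero, coeff_zero, norm_zero] at this
      exact norm_eq_zero.1 this
    refine ⟨?_, ?_⟩
    · intro n hn hpn
      rw [hG1 n (by omega) hpn, hz n (by omega) hpn, zero_add]
      exact hG2 n
    · rw [hG1 1 le_rfl hp1, hz 1 le_rfl hp1, zero_add]
      have h1 := hG2 1
      rw [pow_one] at h1
      have h2 : ‖G.coeff 1‖ * rho L v ≤ ‖G.coeff 1‖ * ‖v - b‖ := by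
        gcongr
        exact rho_le hb
      linarith
  · have hf'L : PolyIn L (derivative f) := polyIn_derivative hd.polyIn
    obtain ⟨hne, b₁, hb₁, hst₁⟩ := hv.stable hf'L hf'
    obtain ⟨β, hβ⟩ : ∃ β, β = ‖(derivative f).eval v‖ := ⟨_, rfl⟩
    have hβ0 : 0 < β := by rw [hβ]; exact norm_pos_iff.2 hne
    rw [← hβ] at hst₁
    obtain ⟨s₁, hs₁⟩ : ∃ s₁, s₁ = ‖v - b₁‖ := ⟨_, rfl⟩
    have hs₁0 : 0 < s₁ := by rw [hs₁]; exact hv.pos hb₁
    have hcl : ∀ b ∈ L, ‖v - b‖ ≤ ‖v - b₁‖ → ∀ n,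
        ‖(taylor b (derivative f)).coeff n‖ * s₁ ^ n ≤ β := by
      intro b hb hbb n
      rw [hs₁]
      refine norm_taylor_closer (by rw [← hs₁]; exact hs₁0) hbb ?_
      intro m hm
      have h1 := hst₁ b₁ hb₁ le_rfl
      rcases Nat.eq_zero_or_pos m with h0 | h0
      · subst h0
        rw [pow_zero, mul_one, taylor_coeff_zero, h1.1]
      · exact (h1.2 m h0).le
    -- `β ρ ≤ δ`
    have hβρ : β * rho L v ≤ δ := by
      by_contra hcon
      rw [not_le] at hcon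
      obtain ⟨b₃, hb₃, hB⟩ := claimB hσ hv hd hcon
      obtain ⟨b₄, hb₄, h40, h41⟩ := exists_closer hv hb₀ hb₁
      obtain ⟨b, hb, h1, h2⟩ := exists_closer hv hb₃ hb₄
      obtain ⟨G, hG1, hG2⟩ := hrel b hb (h2.trans h40)
      have h3 := (hB b hb h1).1 1 le_rfl
      rw [pow_one, hG1 1 le_rfl hp1] at h3
      have h4 := hG2 1
      rw [pow_one] at h4
      have h5 : ‖(taylor b f).coeff 1‖ = β := by
        rw [hnat 1 le_rfl hp1, Nat.sub_self, taylor_coeff_zero]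
        exact (hst₁ b hb (h2.trans h41)).1
      have h6 : β * rho L v ≤ β * ‖v - b‖ := by
        gcongr
        exact rho_le hb
      have hpos := hv.pos hb
      have h7 : ‖G.coeff 1‖ < ‖(taylor b f).coeff 1‖ := by
        rw [h5]
        by_contra h8
        rw [not_lt] at h8
        have : β * ‖v - b‖ ≤ ‖G.coeff 1‖ * ‖v - b‖ := by gcongr
        linarith
      have h8 : ‖(taylor b f).coeff 1 + G.coeff 1‖ = ‖(taylor b f).coeff 1‖ := by
        rw [IsUltrametricDist.norm_add_eq_max_of_norm_ne_norm (ne_of_gt h7), max_eq_left h7.le]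
      rw [h8, h5] at h3
      linarith
    have hρs : rho L v < s₁ := by rw [hs₁]; exact rho_lt hv hb₁
    have hlt : β / s₁ * rho L v ^ 2 < δ := by
      have h1 : β / s₁ * rho L v ^ 2 = (β * rho L v) * (rho L v / s₁) := by
        field_simp
      rw [h1]
      have h2 : rho L v / s₁ < 1 := (div_lt_one hs₁0).2 hρs
      have h3 : 0 ≤ rho L v / s₁ := by positivity
      calc (β * rho L v) * (rho L v / s₁) ≤ δ * (rho L v / s₁) := by gcongr
        _ < δ * 1 := by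
          apply mul_lt_mul_of_pos_left h2
          linarith
        _ = δ := mul_one δ
    obtain ⟨t, ht1, ht2⟩ := exists_between hlt
    have hβs : 0 ≤ β / s₁ := by positivity
    have ht0 : 0 ≤ t := le_trans (by positivity) ht1.le
    obtain ⟨b₃, hb₃, hclose⟩ := exists_mul_pow_lt (L := L) (v := v) hβs 2 ht1
    obtain ⟨b₄, hb₄, h40, h41⟩ := exists_closer hv hb₀ hb₁
    obtain ⟨b₂, hb₂, h1, h2⟩ := exists_closer hv hb₃ hb₄
    refine ⟨max δ₁ t, le_max_of_le_left hδ₁0, max_lt hδ₁δ ht2, b₂, hb₂, ?_⟩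
    intro b hb hbb
    obtain ⟨G, hG1, hG2⟩ := hrel b hb (hbb.trans (h2.trans h40))
    have hb1 : ‖v - b‖ ≤ ‖v - b₁‖ := hbb.trans (h2.trans h41)
    have hpos := hv.pos hb
    refine ⟨?_, ?_⟩
    · intro n hn hpn
      rw [hG1 n (by omega) hpn]
      have h3 : ‖(taylor b f).coeff n‖ * ‖v - b‖ ^ n ≤ t := by
        rw [hnat n (by omega) hpn]
        have h4 := hcl b hb hb1 (n - 1)
        have h5 : ‖(taylor b (derivative f)).coeff (n - 1)‖ ≤ β / s₁ ^ (n - 1) := by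
          rw [le_div_iff₀ (by positivity)]
          exact h4
        have h6 : (‖v - b‖ / s₁) ^ (n - 1) ≤ ‖v - b‖ / s₁ := by
          apply pow_le_of_le_one (by positivity)
          · rw [div_le_one hs₁0, hs₁]; exact hb1
          · omega
        have h7 : ‖v - b‖ ^ n = ‖v - b‖ * ‖v - b‖ ^ (n - 1) := by
          rw [← pow_succ', Nat.sub_add_cancel (by omega)]
        calc ‖(taylor b (derivative f)).coeff (n - 1)‖ * ‖v - b‖ ^ n
            ≤ β / s₁ ^ (n - 1) * ‖v - b‖ ^ n := by gcongr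
          _ = β * ‖v - b‖ * (‖v - b‖ / s₁) ^ (n - 1) := by
            rw [h7, div_pow]; field_simp
          _ ≤ β * ‖v - b‖ * (‖v - b‖ / s₁) := by gcongr
          _ = β / s₁ * ‖v - b‖ ^ 2 := by field_simp
          _ ≤ t := (hclose b hb (hbb.trans h1)).le
      have h4 := hG2 n
      have h5 : ‖(taylor b f).coeff n + G.coeff n‖ * ‖v - b‖ ^ n ≤
          max (‖G.coeff n‖ * ‖v - b‖ ^ n) (‖(taylor b f).coeff n‖ * ‖v - b‖ ^ n) := by
        rw [← max_mul_of_nonneg _ _ (by positivity)]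
        gcongr
        rw [max_comm]
        exact IsUltrametricDist.norm_add_le_max _ _
      exact h5.trans (max_le_max h4 h3)
    · rw [hG1 1 le_rfl hp1]
      have h4 := hG2 1
      rw [pow_one] at h4
      have h5 : ‖(taylor b f).coeff 1‖ = β := by
        rw [hnat 1 le_rfl hp1, Nat.sub_self, taylor_coeff_zero]
        exact (hst₁ b hb hb1).1
      have h6 : ‖(taylor b f).coeff 1 + G.coeff 1‖ * rho L v ≤
          max (‖(taylor b f).coeff 1‖ * rho L v) (‖G.coeff 1‖ * rho L v) := by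
        rw [← max_mul_of_nonneg _ _ hρ0]
        gcongr
        exact IsUltrametricDist.norm_add_le_max _ _
      refine h6.trans (max_le ?_ ?_)
      · rw [h5]; exact hβρ
      · have h7 : ‖G.coeff 1‖ * rho L v ≤ ‖G.coeff 1‖ * ‖v - b‖ := by
          gcongr
          exact rho_le hb
        linarith

end HR
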