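import Pool.Agent.Lib.HR.HatB

/-!
# AddOne: the additive structure in the case `δ = 1`

By `hat_stab` and `qhat_eq_one`: `Stab σh p L v f 1 1 φh bh`, so `φh ρ = 1` and for `b` as close as
`bh`, `s = ‖v - bh‖`: `‖ch_1(b)‖ = φh`, `‖ch_m(b)‖ s ^ m < φh s` for `m ≥ 2`.  For `m ≥ 2`:
`‖ch_m‖ ‖v-b‖ ^ m ≤ φh s (‖v-b‖/s) ^ m ≤ (φh/s) ‖v-b‖ ^ 2`, and `(φh/s) ρ ^ 2 = ρ/s < 1`, so it is
`< 1` for `b` close (`exists_mul_pow_lt`).  By `cc_hat`, `hat_coeff` (with `h = cc (c.σ c.o) p f b`):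
for `n = m p^a`, `m ≥ 2` prime to `p` (i.e. `n ≥ 1` not a power of `p`):
`‖c_n‖ ‖v-b‖ ^ n ≤ (‖ch_m‖ ‖v-b‖ ^ m) ^ (p^a) < 1`; and `‖c_{p^i}‖ ρ ^ (p^i) ≤ (φh ρ) ^ (p^i) = 1`.
`n > q`: as in AddBig: `‖c_n‖ ‖v-b‖ ^ n ≤ (φ/‖v-b₁‖) ‖v-b‖ ^ (q+1) < 1` for `b` close.
`q` is a power of `p`: otherwise `‖c_q‖ ‖v-b‖ ^ q < 1 = φ ρ ^ q ≤ φ ‖v-b‖ ^ q`.
-/

namespace HR

open Polynomial

variable {W : Type*} [NormedField W] [IsUltrametricDist W] {p : ℕ} [Fact p.Prime] [CharP W p]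
  {L : Subfield W} {v : W} {f : W[X]} {q : ℕ} {φ : ℝ} {b₁ : W}

/-- scaling: `x s ^ m ≤ φ s ^ k` implies `x r ^ m ≤ (φ / s) r ^ (k + 1)` for `k < m`, `r ≤ s` -/
private theorem addOne_scale {x φ r s : ℝ} {k m : ℕ} (hx : 0 ≤ x) (hφ : 0 ≤ φ) (hr : 0 ≤ r)
    (hs : 0 < s) (hrs : r ≤ s) (hkm : k < m) (h : x * s ^ m ≤ φ * s ^ k) :
    x * r ^ m ≤ (φ / s) * r ^ (k + 1) := by
  obtain ⟨d, rfl⟩ := Nat.exists_eq_add_of_lt hkm
  have hr1 : r / s ≤ 1 := (div_le_one hs).2 hrs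
  have hr0 : 0 ≤ r / s := div_nonneg hr hs.le
  have e1 : r = s * (r / s) := by field_simp
  calc x * r ^ (k + d + 1) = (x * s ^ (k + d + 1)) * (r / s) ^ (k + d + 1) := by
        rw [mul_assoc, ← mul_pow, ← e1]
    _ ≤ (φ * s ^ k) * (r / s) ^ (k + d + 1) :=
        mul_le_mul_of_nonneg_right h (pow_nonneg hr0 _)
    _ ≤ (φ * s ^ k) * (r / s) ^ (k + 1) := by
        refine mul_le_mul_of_nonneg_left ?_ (mul_nonneg hφ (pow_nonneg hs.le _))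
        exact pow_le_pow_of_le_one hr0 hr1 (by omega)
    _ = (φ / s) * r ^ (k + 1) := by
        rw [div_pow]
        field_simp
        ring

theorem addData_of_one (hperf : ∀ y : W, ∃ z, z ^ p = y) (c : PCoord p L) (hF : FPP p L)
    (hv : T4 L v) (hd : Dfd p L v f 1)
    (hs : Stab (c.σ c.o) p L v f 1 q φ b₁) (hq : 2 ≤ q) :
    ∃ b, ‖v - b‖ ≤ ‖v - b₁‖ ∧ AddData (c.σ c.o) p L v f 1 q b := by
  have hp : p.Prime := Fact.out
  choose σh hr using hperf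
  obtain ⟨qh, φh, bh, hst⟩ := hat_stab hr c hF hv hd
  have hq1 : qh = 1 := qhat_eq_one hr hd.polyIn hv hst
  subst hq1
  have hρ0 : 0 ≤ rho L v := rho_nonneg
  have hval : φh * rho L v = 1 := by
    have h1 := hst.val
    rwa [pow_one] at h1
  have hsh : 0 < ‖v - bh‖ := hv.pos hst.mem
  have hs1 : 0 < ‖v - b₁‖ := hv.pos hs.mem
  -- first closeness condition
  obtain ⟨b₂, hb₂, hb₂c⟩ := exists_mul_pow_lt (L := L) (v := v) (φ := φh / ‖v - bh‖) (t := 1)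
    (div_nonneg hst.pos.le hsh.le) 2 (by
      have h1 : φh / ‖v - bh‖ * rho L v ^ 2 = (φh * rho L v) * (rho L v / ‖v - bh‖) := by
        field_simp
      rw [h1, hval, one_mul, div_lt_one hsh]
      exact rho_lt hv hst.mem)
  obtain ⟨b₃, hb₃, hb₃c⟩ := exists_mul_pow_lt (L := L) (v := v) (φ := φ / ‖v - b₁‖) (t := 1)
    (div_nonneg hs.pos.le hs1.le) (q + 1) (by
      have h1 : φ / ‖v - b₁‖ * rho L v ^ (q + 1) =
          (φ * rho L v ^ q) * (rho L v / ‖v - b₁‖) := by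
        rw [pow_succ]
        field_simp
      rw [h1, hs.val, one_mul, div_lt_one hs1]
      exact rho_lt hv hs.mem)
  obtain ⟨b₄, hb₄, h41, h4h⟩ := exists_closer hv hs.mem hst.mem
  obtain ⟨b₅, hb₅, h52, h53⟩ := exists_closer hv hb₂ hb₃
  obtain ⟨b, hb, hbb4, hbb5⟩ := exists_closer hv hb₄ hb₅
  have hbb₁ : ‖v - b‖ ≤ ‖v - b₁‖ := hbb4.trans h41
  have hbbh : ‖v - b‖ ≤ ‖v - bh‖ := hbb4.trans h4h
  have hc2 : φh / ‖v - bh‖ * ‖v - b‖ ^ 2 < 1 := hb₂c b hb (hbb5.trans h52)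
  have hc3 : φ / ‖v - b₁‖ * ‖v - b‖ ^ (q + 1) < 1 := hb₃c b hb (hbb5.trans h53)
  set h : W[X] := cc (c.σ c.o) p f b with hh
  have hhL : PolyIn L h := polyIn_cc c.cart hd.polyIn hb
  have hhS : Sop (c.σ c.o) p h = 0 := Sop_cc c.cart hd.polyIn hb
  have hhat : cc σh p f b = NF σh p h := cc_hat hr c.cart hd.polyIn hb
  -- coefficients
  have hsmall1 : ∀ n, 1 ≤ n → (∀ i, n ≠ p ^ i) → ‖h.coeff n‖ * ‖v - b‖ ^ n < 1 := by
    intro n hn1 hnp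
    obtain ⟨a, m, hm, hnm⟩ := Nat.exists_eq_pow_mul_and_not_dvd (Nat.one_le_iff_ne_zero.1 hn1) p
      hp.ne_one
    have hm0 : m ≠ 0 := by
      rintro rfl
      exact hm (dvd_zero p)
    have hm1 : m ≠ 1 := by
      rintro rfl
      exact hnp a (by rw [hnm, mul_one])
    have hm2 : 1 < m := by omega
    have hbig := hst.big b hb hbbh m hm2
    rw [pow_one] at hbig
    have hlt : ‖(cc σh p f b).coeff m‖ * ‖v - b‖ ^ m < 1 := by
      refine lt_of_le_of_lt ?_ hc2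
      exact addOne_scale (k := 1) (norm_nonneg _) hst.pos.le (norm_nonneg _) hsh hbbh hm2
        (by rw [pow_one]; exact hbig.le)
    have hco := (hat_coeff hr c hhL hhS hm).1 a
    rw [← hhat, mul_comm m, ← hnm] at hco
    calc ‖h.coeff n‖ * ‖v - b‖ ^ n
        ≤ ‖(cc σh p f b).coeff m‖ ^ (p ^ a) * ‖v - b‖ ^ n :=
          mul_le_mul_of_nonneg_right hco (pow_nonneg (norm_nonneg _) _)
      _ = (‖(cc σh p f b).coeff m‖ * ‖v - b‖ ^ m) ^ (p ^ a) := by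
          rw [mul_pow, ← pow_mul, mul_comm m, ← hnm]
      _ < 1 := pow_lt_one₀ (mul_nonneg (norm_nonneg _) (pow_nonneg (norm_nonneg _) _)) hlt
          (pow_ne_zero _ hp.ne_zero)
  have hsmall2 : ∀ n, q < n → ‖h.coeff n‖ * ‖v - b‖ ^ n < 1 := by
    intro n hn
    refine lt_of_le_of_lt ?_ hc3
    exact addOne_scale (norm_nonneg _) hs.pos.le (norm_nonneg _) hs1 hbb₁ hn
      (hs.big b hb hbb₁ n hn).le
  have hpow : ∃ i, q = p ^ i := by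
    by_contra hcon
    have hcon' : ∀ i, q ≠ p ^ i := fun i hi => hcon ⟨i, hi⟩
    have h1 := hsmall1 q hs.one_le hcon'
    rw [hh, hs.lead b hb hbb₁] at h1
    have h2 : φ * rho L v ^ q ≤ φ * ‖v - b‖ ^ q :=
      mul_le_mul_of_nonneg_left (pow_le_pow_left₀ hρ0 (rho_le hb) q) hs.pos.le
    rw [hs.val] at h2
    exact absurd h1 (not_lt.2 h2)
  refine ⟨b, hbb₁, hb, ?_, ?_, ?_⟩
  · obtain ⟨i, hi⟩ := hpow
    refine ⟨i, ?_, hi⟩
    rcases Nat.eq_zero_or_pos i with h0 | h0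
    · rw [h0, pow_zero] at hi
      omega
    · exact h0
  · intro n hn1 hor
    rcases hor with h1 | h1
    · exact hsmall1 n hn1 h1
    · exact hsmall2 n h1
  · intro i
    have hp1 : ¬ p ∣ 1 := hp.one_lt.ne' ∘ Nat.dvd_one.1
    have hco := (hat_coeff hr c hhL hhS hp1).1 i
    rw [← hhat, one_mul, hst.lead b hb hbbh] at hco
    calc ‖h.coeff (p ^ i)‖ * rho L v ^ p ^ i ≤ φh ^ p ^ i * rho L v ^ p ^ i :=
          mul_le_mul_of_nonneg_right hco (pow_nonneg hρ0 _)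
      _ = 1 := by rw [← mul_pow, hval, one_pow]
      _ ≤ 1 := le_rfl

end HR
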