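import Pool.Agent.Lib.HR.CC

/-!
# BLem: best Artin-Schreier approximation of constants

`fpp_one`: apply `FPP` with `ι = Unit` and `C X = fun _ => σ_o (X ())`, `A = σ_o a`: there is
`g ∈ L` with `g = σ_o (a + g)`.

`best_approx`: for this `g` put `A = a - wp g`; then `σ_o A = σ_o (a + g) - g = 0`.  For any `g' ∈ L`,
`D = g' - g`: `a - wp g' = A - D ^ p + D`.  If `‖D‖ ≤ 1`, `‖A‖ ≤ max ‖a - wp g'‖ 1`.  If `‖D‖ > 1`:
`σ_o (a - wp g') = - D + σ_o D`, `‖σ_o D‖ ^ p ≤ ‖D‖ < ‖D‖ ^ p`, so its norm is `‖D‖` and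
`‖a - wp g'‖ ≥ ‖D‖ ^ p ≥ ‖D ^ p - D‖`, so `‖A‖ ≤ ‖a - wp g'‖`.

`B_lemma`: if `δ ≥ 1` and `‖a - wp g'‖` gets `< t` for every `t > δ` then `‖a - wp g‖ ≤ δ`.
-/

namespace HR

open Polynomial

variable {W : Type*} [NormedField W] [IsUltrametricDist W] {p : ℕ} [Fact p.Prime] [CharP W p]
  {L : Subfield W}

theorem fpp_one (c : PCoord p L) (hF : FPP p L) {a : W} (ha : a ∈ L) :
    ∃ g ∈ L, g = c.σ c.o (a + g) := by
  obtain ⟨X, hX, hXe⟩ := hF Unit (fun X _ => c.σ c.o (X ()))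
    (fun X hX _ => c.σ_mem _ _ (hX ()))
    (fun X Y hX hY => by
      funext i
      simp only [Pi.add_apply]
      exact c.σ_add (hX ()) (hY ()) c.o)
    (fun a ha X hX => by
      funext i
      exact c.σ_pow_mul ha (hX ()) c.o)
    (fun _ => c.σ c.o a) (fun _ => c.σ_mem _ _ ha)
  refine ⟨X (), hX (), ?_⟩
  rw [c.σ_add ha (hX ())]
  have := congrFun hXe ()
  simpa using this

theorem best_approx (c : PCoord p L) (hF : FPP p L) {a : W} (ha : a ∈ L) :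
    ∃ g ∈ L, ∀ g' ∈ L, ‖a - wp p g‖ ≤ max ‖a - wp p g'‖ 1 := by
  obtain ⟨g, hg, hge⟩ := fpp_one c hF ha
  refine ⟨g, hg, fun g' hg' => ?_⟩
  set D := g' - g with hD
  have hDL : D ∈ L := sub_mem hg' hg
  have hcart := c.cart
  have hwpL : ∀ y ∈ L, wp p y ∈ L := fun y hy => sub_mem (pow_mem hy p) hy
  have hσwp : ∀ y ∈ L, c.σ c.o (wp p y) = y - c.σ c.o y := by
    intro y hy
    rw [wp, c.σ_sub (pow_mem hy p) hy, c.σ_o_pow hy]
  have e1 : a - wp p g = (a - wp p g') + wp p D := by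
    rw [hD, wp_sub]
    ring
  have hBL : a - wp p g' ∈ L := sub_mem ha (hwpL _ hg')
  rcases le_or_gt ‖D‖ 1 with h | h
  · have h1 : ‖wp p D‖ ≤ 1 := norm_wp_le le_rfl (pow_le_one₀ (norm_nonneg _) h)
    rw [e1]
    exact (IsUltrametricDist.norm_add_le_max _ _).trans (max_le_max le_rfl h1)
  · have hp1 : 1 < p := (Fact.out : p.Prime).one_lt
    have hσA : c.σ c.o (a - wp p g) = 0 := by
      rw [c.σ_sub ha (hwpL _ hg), hσwp g hg]
      have h2 : g = c.σ c.o a + c.σ c.o g := by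
        rw [← c.σ_add ha hg]
        exact hge
      linear_combination -h2
    have hσB : c.σ c.o (a - wp p g') = -D + c.σ c.o D := by
      have h2 : a - wp p g' = (a - wp p g) - wp p D := by rw [e1]; ring
      rw [h2, c.σ_sub (sub_mem ha (hwpL _ hg)) (hwpL _ hDL), hσA, hσwp D hDL]
      ring
    have h3 : ‖c.σ c.o D‖ ^ p ≤ ‖D‖ := hcart.norm D hDL
    have h4 : ‖c.σ c.o D‖ < ‖D‖ := by
      by_contra hcon
      push Not at hcon
      have h5 : ‖D‖ ^ p ≤ ‖c.σ c.o D‖ ^ p := pow_le_pow_left₀ (norm_nonneg _) hcon p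
      have h6 : ‖D‖ < ‖D‖ ^ p := lt_self_pow₀ h hp1
      linarith
    have h5 : ‖c.σ c.o (a - wp p g')‖ = ‖D‖ := by
      rw [hσB]
      have h6 : ‖c.σ c.o D‖ < ‖-D‖ := by rw [norm_neg]; exact h4
      rw [IsUltrametricDist.norm_add_eq_max_of_norm_ne_norm h6.ne', max_eq_left h6.le, norm_neg]
    have h6 : ‖D‖ ^ p ≤ ‖a - wp p g'‖ := by
      have := hcart.norm _ hBL
      rwa [h5] at this
    have h7 : ‖wp p D‖ = ‖D‖ ^ p := norm_wp_of_gt h
    rw [e1]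
    refine (IsUltrametricDist.norm_add_le_max _ _).trans (max_le (le_max_left _ _) ?_)
    rw [h7]
    exact h6.trans (le_max_left _ _)

theorem B_lemma (c : PCoord p L) (hF : FPP p L) {a : W} (ha : a ∈ L) {δ : ℝ} (hδ : 1 ≤ δ)
    (h : ∀ t, δ < t → ∃ g ∈ L, ‖a - wp p g‖ < t) : ∃ g ∈ L, ‖a - wp p g‖ ≤ δ := by
  obtain ⟨g, hg, hge⟩ := best_approx c hF ha
  refine ⟨g, hg, ?_⟩
  by_contra hcon
  push Not at hcon
  obtain ⟨g', hg', hlt⟩ := h _ hcon
  have h1 := hge g' hg'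
  have h2 : max ‖a - wp p g'‖ 1 < ‖a - wp p g‖ := max_lt hlt (by linarith)
  linarith

end HR
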