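import Mathlib

/-!
# FPa: `1 - C` is surjective for a `p⁻¹`-linear operator of a finite dimensional space

`k` algebraically closed of characteristic `p`, `C : V → V` additive with `C (a ^ p • x) = a • C x`.
Proof.  The vectors `A, C A, C² A, ...` are linearly dependent (finite dimension); let
`C^(m+1) A = ∑_{i≤m} γ_i C^i A`.
Try `X = ∑_{i≤m} ξ_i C^i A`.  It suffices that
`ξ_0 = 1 + τ γ_0`, `ξ_(i+1) = ξ_i^(1/p) + τ γ_(i+1)`, `ξ_m = τ ^ p`.
The elements `η_i = ξ_i ^ (p^i)` satisfy `η_i = 1 + ∑_{j ≤ i} (τ γ_j) ^ (p^j)`, so the last condition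
is the polynomial equation `τ ^ (p^(m+1)) = 1 + ∑_{j ≤ m} (τ γ_j) ^ (p^j)`.
-/

namespace HR

open Polynomial in
private theorem fp_root {p : ℕ} [Fact p.Prime] {k : Type*} [Field k] [IsAlgClosed k]
    (m : ℕ) (γ : ℕ → k) :
    ∃ τ : k, τ ^ p ^ (m + 1) = 1 + ∑ j ∈ Finset.range (m + 1), (τ * γ j) ^ p ^ j := by
  have hp : 1 < p := (Fact.out : p.Prime).one_lt
  set g : k[X] := 1 + ∑ j ∈ Finset.range (m + 1), C (γ j ^ p ^ j) * X ^ p ^ j with hg
  have hgd : g.degree < ((p ^ (m + 1) : ℕ) : WithBot ℕ) := by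
    rw [← Polynomial.mem_degreeLT, hg]
    refine Submodule.add_mem _ ?_ (Submodule.sum_mem _ fun j hj => ?_)
    · rw [Polynomial.mem_degreeLT, Polynomial.degree_one]
      exact_mod_cast (pow_pos (by omega) _ : 0 < p ^ (m + 1))
    · rw [Polynomial.mem_degreeLT]
      refine lt_of_le_of_lt (Polynomial.degree_C_mul_X_pow_le _ _) ?_
      exact_mod_cast Nat.pow_lt_pow_right hp (Finset.mem_range.1 hj)
  have hd : ((X : k[X]) ^ p ^ (m + 1) - g).degree = ((p ^ (m + 1) : ℕ) : WithBot ℕ) := by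
    rw [Polynomial.degree_sub_eq_left_of_degree_lt, Polynomial.degree_X_pow]
    rw [Polynomial.degree_X_pow]
    exact hgd
  obtain ⟨τ, hτ⟩ := IsAlgClosed.exists_root ((X : k[X]) ^ p ^ (m + 1) - g) (by
    rw [hd]
    have : 0 < p ^ (m + 1) := pow_pos (by omega) _
    exact_mod_cast this.ne')
  refine ⟨τ, ?_⟩
  have h1 : (X ^ p ^ (m + 1) - g).eval τ = 0 := hτ
  rw [Polynomial.eval_sub, Polynomial.eval_pow, Polynomial.eval_X, sub_eq_zero] at h1
  rw [h1, hg, Polynomial.eval_add, Polynomial.eval_one, Polynomial.eval_finsetSum]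
  congr 1
  refine Finset.sum_congr rfl fun j _ => ?_
  rw [Polynomial.eval_mul, Polynomial.eval_C, Polynomial.eval_pow, Polynomial.eval_X, mul_pow,
    mul_comm]

private theorem fp_pow_inj {p : ℕ} [Fact p.Prime] {k : Type*} [Field k] [CharP k p]
    (n : ℕ) {a b : k} (h : a ^ p ^ n = b ^ p ^ n) : a = b := by
  have h1 : (a - b) ^ p ^ n = 0 := by
    rw [sub_pow_char_pow, h, sub_self]
  exact sub_eq_zero.1 (pow_eq_zero_iff (pow_pos (Fact.out : p.Prime).pos n).ne' |>.1 h1)

theorem fp_findim {p : ℕ} [Fact p.Prime] {k V : Type*} [Field k] [IsAlgClosed k] [CharP k p]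
    [AddCommGroup V] [Module k V] [FiniteDimensional k V] (C : V →+ V)
    (hC : ∀ (a : k) (x : V), C (a ^ p • x) = a • C x) (A : V) : ∃ X, X = A + C X := by
  classical
  have hp0 : 0 < p := (Fact.out : p.Prime).pos
  -- p-th roots
  have hroot : ∀ a : k, ∃ b : k, b ^ p = a := fun a => IsAlgClosed.exists_pow_nat_eq a hp0
  choose r hr using hroot
  have hCr : ∀ (a : k) (x : V), C (a • x) = r a • C x := fun a x => by
    conv_lhs => rw [← hr a]
    exact hC _ _
  -- the chain of spans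
  let v : ℕ → V := fun i => C^[i] A
  have hv : ∀ i, C (v i) = v (i + 1) := fun i => (Function.iterate_succ_apply' C i A).symm
  let W : ℕ →o Submodule k V :=
    { toFun := fun n => Submodule.span k (v '' Set.Iio n)
      monotone' := fun m n h => Submodule.span_mono (Set.image_mono (Set.Iio_subset_Iio h)) }
  obtain ⟨n, hn⟩ := monotone_stabilizes_iff_noetherian.2 (inferInstance : IsNoetherian k V) W
  have hmem : v n ∈ Submodule.span k (v '' Set.Iio n) := by
    have h1 : W n = W (n + 1) := hn (n + 1) (Nat.le_succ n)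
    have h2 : v n ∈ W (n + 1) := Submodule.subset_span ⟨n, Set.mem_Iio.2 (Nat.lt_succ_self n), rfl⟩
    rw [← h1] at h2
    exact h2
  -- coefficients
  have hcoef : ∃ γ : ℕ → k, v n = ∑ i ∈ Finset.range n, γ i • v i := by
    have h1 : v '' Set.Iio n = Set.range (fun i : Fin n => v i) := by
      ext y
      constructor
      · rintro ⟨i, hi, rfl⟩
        exact ⟨⟨i, hi⟩, rfl⟩
      · rintro ⟨i, rfl⟩
        exact ⟨i, i.2, rfl⟩
    rw [h1, Submodule.mem_span_range_iff_exists_fun] at hmem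
    obtain ⟨c, hc⟩ := hmem
    refine ⟨fun i => if h : i < n then c ⟨i, h⟩ else 0, ?_⟩
    rw [← hc, ← Fin.sum_univ_eq_sum_range (fun i => (if h : i < n then c ⟨i, h⟩ else 0) • v i) n]
    refine Finset.sum_congr rfl fun i _ => ?_
    simp
  obtain ⟨γ, hγ⟩ := hcoef
  rcases n with _ | m
  · -- A = 0
    have hA : A = 0 := by
      have : v 0 = A := rfl
      rw [← this, hγ]
      simp
    exact ⟨0, by rw [hA, map_zero, add_zero]⟩
  obtain ⟨τ, hτ⟩ := fp_root (p := p) m γ
  let ξ : ℕ → k := fun i => Nat.rec (1 + τ * γ 0) (fun j x => r x + τ * γ (j + 1)) i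
  have hξ0 : ξ 0 = 1 + τ * γ 0 := rfl
  have hξs : ∀ i, ξ (i + 1) = r (ξ i) + τ * γ (i + 1) := fun i => rfl
  have hη : ∀ i, ξ i ^ p ^ i = 1 + ∑ j ∈ Finset.range (i + 1), (τ * γ j) ^ p ^ j := by
    intro i
    induction i with
    | zero => simp [hξ0]
    | succ i ih =>
      rw [hξs, add_pow_char_pow, Finset.sum_range_succ, ← add_assoc, ← ih, pow_succ' p i, pow_mul,
        hr]
  have hlast : ξ m = τ ^ p := by
    apply fp_pow_inj (p := p) m
    rw [hη m, ← hτ, ← pow_mul, pow_succ' p m]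
  have hrτ : r (ξ m) = τ := by
    apply fp_pow_inj (p := p) 1
    rw [pow_one, hr, hlast]
  refine ⟨∑ i ∈ Finset.range (m + 1), ξ i • v i, ?_⟩
  rw [map_sum]
  have h1 : ∑ i ∈ Finset.range (m + 1), C (ξ i • v i) =
      ∑ i ∈ Finset.range m, r (ξ i) • v (i + 1) + τ • v (m + 1) := by
    rw [Finset.sum_range_succ, hCr, hv, hrτ]
    congr 1
    refine Finset.sum_congr rfl fun i _ => ?_
    rw [hCr, hv]
  rw [h1, hγ, Finset.smul_sum, Finset.sum_range_succ' (fun i => ξ i • v i),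
    Finset.sum_range_succ' (fun i => τ • γ i • v i)]
  have h2 : v 0 = A := rfl
  have h3 : ∑ i ∈ Finset.range m, ξ (i + 1) • v (i + 1) =
      ∑ i ∈ Finset.range m, r (ξ i) • v (i + 1) +
        ∑ i ∈ Finset.range m, τ • γ (i + 1) • v (i + 1) := by
    rw [← Finset.sum_add_distrib]
    refine Finset.sum_congr rfl fun i _ => ?_
    rw [hξs, add_smul, mul_smul]
  rw [h3, hξ0, h2, add_smul, one_smul, mul_smul]
  abel

end HR
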