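import Pool.Agent.Lib.HR.Defs
import Pool.Agent.Lib.HR.FPa

/-!
# FPb: finitely generated fields over an algebraically closed field have the property `FPP`

`L = k(s)`, `s` finite.  `C : L^ι → L^ι` additive with `C (a^p X) = a C X` for `a ∈ L`, `A ∈ L^ι`.
Let `ε_i` be the standard vectors.  Every element of `L` is `b / h` with `b, h ∈ k[s]`, `h ≠ 0`.
Add to the generators `s` the inverses of the denominators of all coordinates of `A` and of all
`C (x^α ε_i)`, `α ∈ {0..p-1}^s`, `i ∈ ι`; this gives a finite family `t`.  Let `F D` be the span of the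
monomials of degree `≤ D` in `t`.  There is `K` with `C (t^α ε_i) ∈ (F K)^ι` for all
`α ∈ {0..p-1}`, `i`: write `h^(-a) = (h⁻¹)^p h^(p-a)` to reduce to `C (b ε_i)`, `b ∈ k[s]`.
Then `C` maps `(F D)^ι` to `(F (D/p + K))^ι`.  So `(F D)^ι` is stable under `C` for `D ≥ 2K`,
and contains `A` for `D` large.  Apply `fp_findim`.
-/

namespace HR

section aux

variable {W : Type*} [Field W] {k : Type*} [Field k] [Algebra k W]

/-- span of the monomials of degree at most `D` -/
private def FF (k : Type*) [Field k] [Algebra k W] {τ : Type*} [Fintype τ] (t : τ → W) (D : ℕ) :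
    Submodule k W :=
  Submodule.span k {w | ∃ γ : τ → ℕ, ∑ j, γ j ≤ D ∧ w = ∏ j, t j ^ γ j}

private theorem FF_mono {τ : Type*} [Fintype τ] (t : τ → W) {D E : ℕ} (h : D ≤ E) :
    FF k t D ≤ FF k t E := by
  refine Submodule.span_mono ?_
  rintro w ⟨γ, hγ, rfl⟩
  exact ⟨γ, hγ.trans h, rfl⟩

private theorem FF_fd {τ : Type*} [Fintype τ] (t : τ → W) (D : ℕ) :
    FiniteDimensional k (FF k t D) := by
  classical
  refine FiniteDimensional.span_of_finite k ?_
  refine Set.Finite.subset (Set.finite_range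
    (fun g : τ → Fin (D + 1) => ∏ j, t j ^ (g j : ℕ))) ?_
  rintro w ⟨γ, hγ, rfl⟩
  have h : ∀ j, γ j < D + 1 := fun j => Nat.lt_succ_of_le
    ((Finset.single_le_sum (f := γ) (fun _ _ => Nat.zero_le _) (Finset.mem_univ j)).trans hγ)
  exact ⟨fun j => ⟨γ j, h j⟩, rfl⟩

private theorem FF_mul {τ : Type*} [Fintype τ] (t : τ → W) {D E : ℕ} {a b : W}
    (ha : a ∈ FF k t D) (hb : b ∈ FF k t E) : a * b ∈ FF k t (D + E) := by
  have h := Submodule.mul_mem_mul ha hb
  unfold FF at h
  rw [Submodule.span_mul_span] at h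
  refine Submodule.span_mono ?_ h
  rintro w ⟨_, ⟨γ, hγ, rfl⟩, _, ⟨δ, hδ, rfl⟩, rfl⟩
  refine ⟨fun j => γ j + δ j, ?_, ?_⟩
  · rw [Finset.sum_add_distrib]
    omega
  · simp only [pow_add, Finset.prod_mul_distrib]

private theorem FF_one {τ : Type*} [Fintype τ] (t : τ → W) (D : ℕ) : (1 : W) ∈ FF k t D :=
  Submodule.subset_span ⟨fun _ => 0, by simp, by simp⟩

private theorem FF_adj {τ : Type*} [Fintype τ] (t : τ → W) {x : W}
    (hx : x ∈ Algebra.adjoin k (Set.range t)) : ∃ D, x ∈ FF k t D := by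
  classical
  induction hx using Algebra.adjoin_induction with
  | mem x hx =>
    obtain ⟨j, rfl⟩ := hx
    refine ⟨1, Submodule.subset_span ⟨Pi.single j 1, ?_, ?_⟩⟩
    · simp
    · rw [Finset.prod_eq_single j]
      · simp
      · intro i _ hi
        simp [Pi.single_eq_of_ne hi]
      · simp
  | algebraMap r =>
    refine ⟨0, ?_⟩
    rw [Algebra.algebraMap_eq_smul_one]
    exact Submodule.smul_mem _ _ (FF_one t 0)
  | add x y _ _ hx hy =>
    obtain ⟨D, hD⟩ := hx
    obtain ⟨E, hE⟩ := hy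
    exact ⟨max D E, Submodule.add_mem _ (FF_mono t (le_max_left _ _) hD)
      (FF_mono t (le_max_right _ _) hE)⟩
  | mul x y _ _ hx hy =>
    obtain ⟨D, hD⟩ := hx
    obtain ⟨E, hE⟩ := hy
    exact ⟨D + E, FF_mul t hD hE⟩

/-- the hypotheses on the operator -/
private structure Op (p : ℕ) (L : Subfield W) (ι : Type) [Fintype ι]
    (C : (ι → W) → (ι → W)) : Prop where
  mem : ∀ X : ι → W, (∀ i, X i ∈ L) → ∀ i, C X i ∈ L
  add : ∀ X Y : ι → W, (∀ i, X i ∈ L) → (∀ i, Y i ∈ L) → C (X + Y) = C X + C Y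
  smul : ∀ a ∈ L, ∀ X : ι → W, (∀ i, X i ∈ L) →
    C (fun i => a ^ p * X i) = fun i => a * C X i

private theorem Op.zero {p : ℕ} {L : Subfield W} {ι : Type} [Fintype ι]
    {C : (ι → W) → (ι → W)} (h : Op p L ι C) : C 0 = 0 := by
  have h1 := h.add 0 0 (fun _ => L.zero_mem) (fun _ => L.zero_mem)
  rw [add_zero] at h1
  exact left_eq_add.1 h1

private theorem single_mem {L : Subfield W} {ι : Type} [DecidableEq ι] {x : W} (hx : x ∈ L)
    (i l : ι) : (Pi.single i x : ι → W) l ∈ L := by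
  by_cases h : l = i
  · subst h
    rw [Pi.single_eq_same]
    exact hx
  · rw [Pi.single_eq_of_ne h]
    exact L.zero_mem

private theorem Op.smul_single {p : ℕ} {L : Subfield W} {ι : Type} [Fintype ι] [DecidableEq ι]
    {C : (ι → W) → (ι → W)} (h : Op p L ι C) {a x : W} (ha : a ∈ L) (hx : x ∈ L) (i l : ι) :
    C (Pi.single i (a ^ p * x)) l = a * C (Pi.single i x) l := by
  have h1 := h.smul a ha (Pi.single i x) (single_mem hx i)
  have h2 : (Pi.single i (a ^ p * x) : ι → W) = fun l => a ^ p * (Pi.single i x : ι → W) l := by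
    funext l
    by_cases hl : l = i
    · subst hl
      simp
    · simp [Pi.single_eq_of_ne hl]
  rw [h2, h1]

/-- The key lemma: the image of a polynomial of degree `≤ D`. -/
private theorem Op.key [IsAlgClosed k] {p : ℕ} [Fact p.Prime] {L : Subfield W}
    (hk : ∀ c : k, algebraMap k W c ∈ L) {ι : Type} [Fintype ι] [DecidableEq ι]
    {C : (ι → W) → (ι → W)} (h : Op p L ι C) {τ : Type*} [Fintype τ] (t : τ → W)
    (ht : ∀ j, t j ∈ L) (D : ℕ) (Y : Set W)
    (hY : ∀ α : τ → ℕ, (∀ j, α j < p) → ∀ i l, C (Pi.single i (∏ j, t j ^ α j)) l ∈ Y)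
    {x : W} (hx : x ∈ FF k t D) :
    x ∈ L ∧ ∀ i l, C (Pi.single i x) l ∈
      Submodule.span k {w | ∃ γ : τ → ℕ, ∑ j, γ j ≤ D / p ∧ ∃ y ∈ Y, w = (∏ j, t j ^ γ j) * y} := by
  have hp : 0 < p := (Fact.out : p.Prime).pos
  unfold FF at hx
  induction hx using Submodule.span_induction with
  | mem x hx =>
    obtain ⟨β, hβ, rfl⟩ := hx
    have hm : ∀ γ : τ → ℕ, ∏ j, t j ^ γ j ∈ L := fun γ =>
      L.toSubring.prod_mem fun j _ => L.toSubring.pow_mem (ht j) _
    refine ⟨hm β, fun i l => ?_⟩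
    have h1 : ∏ j, t j ^ β j = (∏ j, t j ^ (β j / p)) ^ p * ∏ j, t j ^ (β j % p) := by
      rw [← Finset.prod_pow, ← Finset.prod_mul_distrib]
      refine Finset.prod_congr rfl fun j _ => ?_
      rw [← pow_mul, ← pow_add, mul_comm (β j / p) p, Nat.div_add_mod]
    rw [h1, h.smul_single (hm _) (hm _)]
    refine Submodule.subset_span ⟨fun j => β j / p, ?_, _,
      hY (fun j => β j % p) (fun j => Nat.mod_lt _ hp) i l, rfl⟩
    rw [Nat.le_div_iff_mul_le hp, Finset.sum_mul]
    exact (Finset.sum_le_sum fun j _ => Nat.div_mul_le_self (β j) p).trans hβ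
  | zero =>
    refine ⟨L.zero_mem, fun i l => ?_⟩
    rw [Pi.single_zero, h.zero]
    exact Submodule.zero_mem _
  | add x y _ _ hx hy =>
    refine ⟨L.add_mem hx.1 hy.1, fun i l => ?_⟩
    rw [Pi.single_add, h.add _ _ (single_mem hx.1 i) (single_mem hy.1 i)]
    exact Submodule.add_mem _ (hx.2 i l) (hy.2 i l)
  | smul c x _ hx =>
    obtain ⟨r, hr⟩ := IsAlgClosed.exists_pow_nat_eq c hp
    have h1 : c • x = (algebraMap k W r) ^ p * x := by
      rw [← map_pow, hr, Algebra.smul_def]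
    rw [h1]
    refine ⟨L.mul_mem (L.toSubring.pow_mem (hk r) _) hx.1, fun i l => ?_⟩
    rw [h.smul_single (hk r) hx.1, ← Algebra.smul_def]
    exact Submodule.smul_mem _ _ (hx.2 i l)

private theorem Op.sum {p : ℕ} {L : Subfield W} {ι : Type} [Fintype ι] [DecidableEq ι]
    {C : (ι → W) → (ι → W)} (h : Op p L ι C) (X : ι → W) (hX : ∀ i, X i ∈ L) :
    C X = ∑ i, C (Pi.single i (X i)) := by
  have h1 : ∀ u : Finset ι, C (∑ i ∈ u, Pi.single i (X i)) = ∑ i ∈ u, C (Pi.single i (X i)) := by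
    intro u
    induction u using Finset.induction_on with
    | empty => rw [Finset.sum_empty, Finset.sum_empty, h.zero]
    | insert a u ha ih =>
      rw [Finset.sum_insert ha, Finset.sum_insert ha, h.add _ _ (single_mem (hX a) a), ih]
      intro l
      rw [Finset.sum_apply]
      exact L.toSubring.sum_mem fun i _ => single_mem (hX i) i l
  have h2 := h1 Finset.univ
  rwa [Finset.univ_sum_single] at h2

private theorem inv_pow_split {d : W} (hd : d ≠ 0) {a p : ℕ} (h : a ≤ p) :
    d⁻¹ ^ a = d⁻¹ ^ p * d ^ (p - a) := by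
  obtain ⟨b, rfl⟩ := Nat.exists_eq_add_of_le h
  rw [Nat.add_sub_cancel_left, pow_add, mul_assoc, ← mul_pow, inv_mul_cancel₀ hd, one_pow, mul_one]

private theorem exists_div {s : Set W} {x : W} (hx : x ∈ IntermediateField.adjoin k s) :
    ∃ n ∈ Algebra.adjoin k s, ∃ d ∈ Algebra.adjoin k s, d ≠ 0 ∧ x = n * d⁻¹ := by
  obtain ⟨n, hn, d, hd, h⟩ := IntermediateField.mem_adjoin_iff_div.1 hx
  by_cases hd0 : d = 0
  · refine ⟨0, Subalgebra.zero_mem _, 1, Subalgebra.one_mem _, one_ne_zero, ?_⟩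
    rw [h, hd0, div_zero, zero_mul]
  · exact ⟨n, hn, d, hd, hd0, by rw [h, div_eq_mul_inv]⟩

private theorem main_aux [IsAlgClosed k] {p : ℕ} [Fact p.Prime] [CharP W p] (s : Finset W)
    {ι : Type} [Fintype ι] {C : (ι → W) → (ι → W)}
    (h : Op p (IntermediateField.adjoin k (s : Set W)).toSubfield ι C)
    (A : ι → W) (hA : ∀ i, A i ∈ (IntermediateField.adjoin k (s : Set W)).toSubfield) :
    ∃ X : ι → W, (∀ i, X i ∈ (IntermediateField.adjoin k (s : Set W)).toSubfield) ∧
      X = A + C X := by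
  classical
  have hp : 0 < p := (Fact.out : p.Prime).pos
  have : CharP k p := (algebraMap k W).charP (algebraMap k W).injective p
  set L' := IntermediateField.adjoin k (s : Set W) with hL'
  set L := L'.toSubfield with hL
  have hk : ∀ c : k, algebraMap k W c ∈ L := fun c => L'.algebraMap_mem c
  have hsL : ∀ x : s, (x : W) ∈ L := fun x =>
    IntermediateField.subset_adjoin k (s : Set W) x.2
  have hB0L : ∀ x ∈ Algebra.adjoin k (s : Set W), x ∈ L := fun x hx =>
    IntermediateField.algebra_adjoin_le_adjoin k (s : Set W) hx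
  -- the family of elements whose denominators are needed
  let κ := ((s → Fin p) × ι × ι) ⊕ ι
  let e : κ → W := Sum.elim
    (fun q => C (Pi.single q.2.1 (∏ x : s, (x : W) ^ (q.1 x : ℕ))) q.2.2) A
  have heL : ∀ q, e q ∈ L' := by
    rintro (q | i)
    · refine h.mem _ (single_mem ?_ _) _
      exact L.toSubring.prod_mem fun x _ => L.toSubring.pow_mem (hsL x) _
    · exact hA i
  choose n hn d hd hd0 hnd using fun q => exists_div (heL q)
  let t : (s ⊕ κ) → W := Sum.elim (fun x => (x : W)) (fun q => (d q)⁻¹)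
  have htL : ∀ j, t j ∈ L := by
    rintro (x | q)
    · exact hsL x
    · exact L.inv_mem (hB0L _ (hd q))
  set B := Algebra.adjoin k (Set.range t) with hB
  have hsB : Algebra.adjoin k (s : Set W) ≤ B :=
    Algebra.adjoin_mono fun x hx => ⟨Sum.inl ⟨x, hx⟩, rfl⟩
  have hdB : ∀ q, (d q)⁻¹ ∈ B := fun q => Algebra.subset_adjoin ⟨Sum.inr q, rfl⟩
  have heB : ∀ q, e q ∈ B := fun q => by
    rw [hnd q]
    exact B.mul_mem (hsB (hn q)) (hdB q)
  -- elements of `k[s]`
  have hrange : Set.range (fun x : s => (x : W)) = (s : Set W) := Subtype.range_coe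
  have hL0 : ∀ b ∈ Algebra.adjoin k (s : Set W), ∀ i l, C (Pi.single i b) l ∈ B := by
    intro b hb i l
    rw [← hrange] at hb
    obtain ⟨D, hD⟩ := FF_adj (fun x : s => (x : W)) hb
    have h1 := (h.key hk (fun x : s => (x : W)) hsL D (B : Set W) (by
      intro α hα i l
      exact heB (Sum.inl (fun x => ⟨α x, hα x⟩, i, l))) hD).2 i l
    have h2 : Submodule.span k {w | ∃ γ : s → ℕ, ∑ j, γ j ≤ D / p ∧
        ∃ y ∈ (B : Set W), w = (∏ j : s, (j : W) ^ γ j) * y} ≤ Subalgebra.toSubmodule B := by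
      rw [Submodule.span_le]
      rintro w ⟨γ, _, y, hy, rfl⟩
      exact B.mul_mem (B.prod_mem fun j _ => B.pow_mem (hsB (Algebra.subset_adjoin j.2)) _) hy
    exact h2 h1
  -- small monomials in the family `t`
  have hsmall : ∀ α : (s ⊕ κ) → ℕ, (∀ j, α j < p) → ∀ i l,
      C (Pi.single i (∏ j, t j ^ α j)) l ∈ B := by
    intro α hα i l
    have h1 : ∏ j, t j ^ α j = (∏ q, (d q)⁻¹) ^ p *
        ((∏ x : s, (x : W) ^ α (Sum.inl x)) * ∏ q, d q ^ (p - α (Sum.inr q))) := by
      rw [Fintype.prod_sum_type]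
      have h2 : ∏ q, t (Sum.inr q) ^ α (Sum.inr q) =
          (∏ q, (d q)⁻¹) ^ p * ∏ q, d q ^ (p - α (Sum.inr q)) := by
        rw [← Finset.prod_pow, ← Finset.prod_mul_distrib]
        exact Finset.prod_congr rfl fun q _ => inv_pow_split (hd0 q) (hα _).le
      rw [h2]
      simp only [t, Sum.elim_inl]
      ring
    have h3 : (∏ x : s, (x : W) ^ α (Sum.inl x)) * ∏ q, d q ^ (p - α (Sum.inr q)) ∈
        Algebra.adjoin k (s : Set W) := by
      refine Subalgebra.mul_mem _ (Subalgebra.prod_mem _ fun x _ => Subalgebra.pow_mem _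
        (Algebra.subset_adjoin x.2) _) (Subalgebra.prod_mem _ fun q _ =>
        Subalgebra.pow_mem _ (hd q) _)
    rw [h1, h.smul_single (L.toSubring.prod_mem fun q _ => L.inv_mem (hB0L _ (hd q)))
      (hB0L _ h3)]
    exact B.mul_mem (B.prod_mem fun q _ => hdB q) (hL0 _ h3 i l)
  -- uniform degree bound
  have hK : ∃ K, ∀ α : (s ⊕ κ) → ℕ, (∀ j, α j < p) → ∀ i l,
      C (Pi.single i (∏ j, t j ^ α j)) l ∈ FF k t K := by
    have h1 : ∀ q : ((s ⊕ κ) → Fin p) × ι × ι, ∃ D,
        C (Pi.single q.2.1 (∏ j, t j ^ (q.1 j : ℕ))) q.2.2 ∈ FF k t D := fun q =>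
      FF_adj t (hsmall _ (fun j => (q.1 j).2) _ _)
    choose D hD using h1
    refine ⟨Finset.univ.sup D, fun α hα i l => ?_⟩
    exact FF_mono t (Finset.le_sup (f := D) (Finset.mem_univ
      ((fun j => ⟨α j, hα j⟩, i, l) : ((s ⊕ κ) → Fin p) × ι × ι)))
      (hD (fun j => ⟨α j, hα j⟩, i, l))
  obtain ⟨K, hK⟩ := hK
  have hA' : ∃ E, ∀ i, A i ∈ FF k t E := by
    choose D hD using fun i => FF_adj t (heB (Sum.inr i))
    exact ⟨Finset.univ.sup D, fun i => FF_mono t (Finset.le_sup (f := D) (Finset.mem_univ i))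
      (hD i)⟩
  obtain ⟨E, hE⟩ := hA'
  let D := max (2 * K) E
  have hFL : ∀ x ∈ FF k t D, x ∈ L := fun x hx =>
    (h.key hk t htL D (FF k t K : Set W) hK hx).1
  have hst : ∀ X : ι → W, (∀ i, X i ∈ FF k t D) → ∀ l, C X l ∈ FF k t D := by
    intro X hX l
    rw [h.sum X fun i => hFL _ (hX i), Finset.sum_apply]
    refine Submodule.sum_mem _ fun i _ => ?_
    have h1 := (h.key hk t htL D (FF k t K : Set W) hK (hX i)).2 i l
    have hle : D / p + K ≤ D := by
      have h2 : D / p ≤ D / 2 := Nat.div_le_div_left (Fact.out : p.Prime).two_le (by norm_num)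
      have h3 : 2 * K ≤ D := le_max_left _ _
      omega
    refine FF_mono t hle ?_
    refine (Submodule.span_le.2 ?_) h1
    rintro w ⟨γ, hγ, y, hy, rfl⟩
    exact FF_mul t (Submodule.subset_span ⟨γ, hγ, rfl⟩) hy
  have : FiniteDimensional k (FF k t D) := FF_fd t D
  let C' : (ι → FF k t D) →+ (ι → FF k t D) :=
    { toFun := fun X l => ⟨C (fun i => (X i : W)) l, hst _ (fun i => (X i).2) l⟩
      map_zero' := by
        funext l
        apply Subtype.ext
        have h1 : (fun i : ι => (((0 : ι → FF k t D) i : FF k t D) : W)) = 0 := rfl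
        simp only [h1, h.zero]
        rfl
      map_add' := fun X Y => by
        funext l
        apply Subtype.ext
        have h1 := h.add (fun i => (X i : W)) (fun i => (Y i : W)) (fun i => hFL _ (X i).2)
          (fun i => hFL _ (Y i).2)
        have h2 := congrFun h1 l
        exact h2 }
  obtain ⟨X, hX⟩ := fp_findim (p := p) (k := k) C' (by
    intro a X
    funext l
    apply Subtype.ext
    have h1 := congrFun (h.smul (algebraMap k W a) (hk a) (fun i => (X i : W))
      (fun i => hFL _ (X i).2)) l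
    have h2 : (fun i => (((a ^ p • X) i : FF k t D) : W)) =
        fun i => (algebraMap k W a) ^ p * (X i : W) := by
      funext i
      rw [← map_pow, ← Algebra.smul_def]
      rfl
    have h3 : ((C' (a ^ p • X) l : FF k t D) : W) =
        C (fun i => (((a ^ p • X) i : FF k t D) : W)) l := rfl
    have h4 : (((a • C' X) l : FF k t D) : W) = a • C (fun i => (X i : W)) l := rfl
    rw [h3, h4, h2, h1, Algebra.smul_def])
    (fun i => ⟨A i, FF_mono t (le_max_right _ _) (hE i)⟩)
  refine ⟨fun i => (X i : W), fun i => hFL _ (X i).2, ?_⟩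
  funext l
  have h1 := congrArg (fun Z : ι → FF k t D => ((Z l : FF k t D) : W)) hX
  exact h1

end aux

theorem fpp_of_fg {W : Type*} [NormedField W] {p : ℕ} [Fact p.Prime] [CharP W p]
    {k : Type*} [Field k] [IsAlgClosed k] [Algebra k W] (s : Finset W) (L : Subfield W)
    (hL : L = (IntermediateField.adjoin k (s : Set W)).toSubfield) : FPP p L := by
  subst hL
  intro ι _ C h1 h2 h3 A hA
  exact main_aux s ⟨h1, h2, h3⟩ A hA

end HR
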