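import Pool.Agent.Lib.HR.POrth
import Pool.Agent.Lib.HR.HExt
import Pool.Agent.Lib.HR.BLem
import Pool.Agent.Lib.HR.FPb
import Pool.Agent.Lib.MP_1a953e_ag.Frob1

/-!
# FFa: finite separable extensions with orthogonal bases

`FF.bot`: `FSep.bot`, `hasOB_bot`.  `FF.adj`: the powers of `y` are an orthogonal basis of
`adj E y` over `E` (`exists_poly_of_mem_adj`, `PowOrth`), then `hasOB_trans`, `FSep.trans`.

`HCl.fpp`: `fpp_of_fg` with the field `k` (`Subfield.closure` / `IntermediateField.adjoin` translation).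

`FF.as` (`z ^ p - z ∈ E`, `FF K E`): if `z ∈ E` then `adj E z = E`.  Let `z ∉ E`.  `HCl.ext` gives
`L₁` with `HCl p k L₁ E`; `E` is complete.  Choose `a' ∈ L₁` with `‖(z^p - z) - a'‖ < 1` and
`h ∈ E` with `h ^ p - h = (z^p - z) - a'` (`as_small`), and `g ∈ L₁` with
`‖a' - wp g‖ ≤ max ‖a' - wp g'‖ 1` for all `g' ∈ L₁` (`best_approx`, `fpp`).  Put
`z' = z - h - g`, `a'' = z' ^ p - z' = a' - wp g`, `N = ‖a''‖`; `adj E z' = adj E z`, `z' ∉ E`.
If `N < 1`: `a'' = wp h'` with `h' ∈ E`, so `wp (z' - h') = 0`, `z' - h'` is in the prime field, `z' ∈ E`: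
contradiction.  So `N ≥ 1`, and `‖z'‖ ^ p = N` (`norm_wp_of_gt`, `norm_wp_of_lt`, and `‖z'‖ = 1` if
`N = 1`).  `Bad E z'`: suppose `c ∈ E`, `‖z' - c‖ < ‖z'‖`; by density we may take `c ∈ L₁`.  If
`N > 1`: `a'' - wp c = wp (z' - c)` has norm `≤ max (‖z'-c‖^p) ‖z'-c‖ < N`, but
`a'' - wp c = a' - wp (g + c)` has norm `≥ N` or `N ≤ 1`: contradiction.  If `N = 1`:
`‖wp (z' - c)‖ < 1`, `wp (z' - c) ∈ E`, `= wp h''`, `h'' ∈ E`, so `z' ∈ E`: contradiction.  By
`powOrth_as` and `FF.adj` (the minimal polynomial of `z'` over `E` has degree `≤ p`; use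
`PowOrth` for smaller `n`) we are done.
-/

namespace HR

open Polynomial MP1a953e

variable {W : Type*} [NormedField W] [IsUltrametricDist W] [IsAlgClosed W] {p : ℕ}
  [Fact p.Prime] [CharP W p] {k L K : Subfield W}

omit [IsAlgClosed W] [Fact p.Prime] [CharP W p] in
theorem FF.bot {E F : Subfield W} (h : FF K F) (h1 : K ≤ E) (h2 : E ≤ F) : FF K E :=
  ⟨h.fsep.bot h1 h2, hasOB_bot h1 h2 h.ob⟩

omit [IsUltrametricDist W] [IsAlgClosed W] [Fact p.Prime] [CharP W p] in
theorem FF.refl (K : Subfield W) : FF K K := by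
  refine ⟨FSep.refl K, 1, fun _ => 1, ⟨fun _ => one_ne_zero, fun y => ?_, fun a _ i => ?_⟩⟩
  · constructor
    · intro hy
      exact ⟨fun _ => y, fun _ => hy, by simp⟩
    · rintro ⟨a, ha, rfl⟩
      simpa using ha 0
  · rw [Subsingleton.elim i 0]
    simp

omit [IsUltrametricDist W] [IsAlgClosed W] [Fact p.Prime] [CharP W p] in
private lemma ffa_pow_ne {E : Subfield W} {y : W} (i : Fin (minpoly E y).natDegree) :
    y ^ (i : ℕ) ≠ 0 := by
  by_cases h0 : y = 0
  · subst h0
    have h1 : (minpoly E (0 : W)).natDegree = 1 := by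
      rw [minpoly.zero, natDegree_X]
    have h2 : (i : ℕ) = 0 := by
      have := i.2
      omega
    rw [h2, pow_zero]
    exact one_ne_zero
  · exact pow_ne_zero _ h0

omit [IsUltrametricDist W] [IsAlgClosed W] [Fact p.Prime] [CharP W p] in
private lemma ffa_ob {E : Subfield W} {y : W} (hy : IsSeparable E y)
    (ho : PowOrth E y (minpoly E y).natDegree) : HasOB E ((MP1a953e.adj E y : Subfield W) : Set W) := by
  have hyi : IsIntegral E y := hy.isIntegral
  have hn : 0 < (minpoly E y).natDegree := minpoly.natDegree_pos hyi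
  refine ⟨(minpoly E y).natDegree, fun i => y ^ (i : ℕ), ⟨fun i => ffa_pow_ne i, fun x => ?_,
    fun a ha i => ?_⟩⟩
  · constructor
    · intro hx
      obtain ⟨h, h1, h2, h3⟩ := exists_poly_of_mem_adj hyi.isAlgebraic hx
      refine ⟨fun i => h.coeff i, fun i => h1 i, ?_⟩
      rw [← h3, eval_eq_sum_range' h2, Finset.sum_range]
    · rintro ⟨a, ha, rfl⟩
      refine (MP1a953e.adj E y).sum_mem fun i _ => ?_
      exact (MP1a953e.adj E y).mul_mem (le_adj E y (ha i))
        ((MP1a953e.adj E y).pow_mem (mem_adj_self E y) _)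
  · set h : W[X] := ∑ j : Fin (minpoly E y).natDegree, C (a j) * X ^ (j : ℕ) with hh
    have hcoeff : ∀ m : ℕ, h.coeff m = ∑ j : Fin (minpoly E y).natDegree,
        if m = (j : ℕ) then a j else 0 := by
      intro m
      rw [hh, finsetSum_coeff]
      refine Finset.sum_congr rfl fun j _ => ?_
      rw [coeff_C_mul_X_pow]
    have hE : PolyIn E h := by
      intro m
      rw [hcoeff m]
      refine E.sum_mem fun j _ => ?_
      split_ifs
      · exact ha j
      · exact E.zero_mem
    have hdeg : h.natDegree < (minpoly E y).natDegree := by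
      by_cases h0 : h = 0
      · rw [h0, natDegree_zero]; exact hn
      · rw [natDegree_lt_iff_degree_lt h0, hh]
        exact degree_sum_fin_lt _
    have h1 := ho h hE hdeg i
    have h2 : h.coeff i = a i := by
      rw [hcoeff]
      rw [Finset.sum_eq_single i]
      · rw [if_pos rfl]
      · intro j _ hji
        rw [if_neg]
        intro hcon
        exact hji (Fin.ext hcon.symm)
      · intro hcon
        exact absurd (Finset.mem_univ i) hcon
    have h3 : h.eval y = ∑ j : Fin (minpoly E y).natDegree, a j * y ^ (j : ℕ) := by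
      rw [hh, eval_finsetSum]
      refine Finset.sum_congr rfl fun j _ => ?_
      rw [eval_mul, eval_C, eval_pow, eval_X]
    rw [h2, h3] at h1
    rw [norm_pow]
    exact h1

omit [IsAlgClosed W] [Fact p.Prime] [CharP W p] in
theorem FF.adj {E : Subfield W} (h : FF K E) {y : W} (hy : IsSeparable E y)
    (ho : PowOrth E y (minpoly E y).natDegree) : FF K (MP1a953e.adj E y) :=
  ⟨h.fsep.trans (FSep.adj hy), hasOB_trans h.fsep.le (le_adj E y) h.ob (ffa_ob hy ho)⟩

omit [IsUltrametricDist W] [IsAlgClosed W] in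
theorem HCl.fpp (hk : IsAlgClosed k) (h : HCl p k L K) : FPP p L := by
  obtain ⟨s, hs⟩ := h.fg
  refine fpp_of_fg (k := k) s L ?_
  rw [IntermediateField.adjoin_toSubfield, Subfield.closure_union, hs]
  congr 1
  have h1 : Set.range (algebraMap k W) = (k : Set W) := by
    ext x
    constructor
    · rintro ⟨y, rfl⟩
      exact y.2
    · intro hx
      exact ⟨⟨x, hx⟩, rfl⟩
  rw [h1, Subfield.closure_eq]

omit [IsUltrametricDist W] [IsAlgClosed W] in
private lemma ffa_prime {E : Subfield W} {x : W} (hx : wp p x = 0) : x ∈ E := by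
  have h1 : x ^ p = x := sub_eq_zero.1 hx
  have h2 : x ∈ (⊥ : Subfield W) := (Subfield.mem_bot_iff_pow_eq_self (F := W) (p := p)).2 h1
  exact (bot_le : (⊥ : Subfield W) ≤ E) h2

omit [IsAlgClosed W] in
private lemma ffa_small {E : Subfield W} (hE : IsComplete (E : Set W)) {x : W}
    (hx : wp p x ∈ E) (hx1 : ‖wp p x‖ < 1) : x ∈ E := by
  obtain ⟨h', hh', -, h3⟩ := as_small (p := p) hE hx hx1
  have h4 : wp p (x - h') = 0 := by
    rw [wp_sub]
    have h5 : wp p h' = wp p x := h3
    rw [h5, sub_self]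
  have h5 := ffa_prime (E := E) h4
  have h6 := E.add_mem h5 hh'
  rwa [sub_add_cancel] at h6

theorem FF.as (hk : IsAlgClosed k) (h : HCl p k L K) {E : Subfield W} (hE : FF K E) {z : W}
    (hz : z ^ p - z ∈ E) : FF K (MP1a953e.adj E z) := by
  have hp : p.Prime := Fact.out
  by_cases hzE : z ∈ E
  · have h1 : MP1a953e.adj E z = E := le_antisymm (adj_le le_rfl hzE) (le_adj E z)
    rw [h1]; exact hE
  obtain ⟨L₁, hL₁, -, -⟩ := h.ext hE
  have hEc : IsComplete (E : Set W) := hL₁.complete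
  obtain ⟨c⟩ := hL₁.pc
  have hfpp := hL₁.fpp hk
  have hLE : L₁ ≤ E := hL₁.dense.1
  obtain ⟨a', ha', haa⟩ := hL₁.dense.2 (z ^ p - z) hz 1 one_pos
  obtain ⟨e, he, he1, he2⟩ := as_small (p := p) hEc (E.sub_mem hz (hLE ha')) haa
  obtain ⟨g, hg, hgb⟩ := best_approx c hfpp ha'
  set z' : W := z - e - g with hz'
  have hwz : wp p z' = a' - wp p g := by
    rw [hz', wp_sub, wp_sub]
    have h1 : wp p e = z ^ p - z - a' := he2
    have h2 : wp p z = z ^ p - z := rfl
    rw [h1, h2]; ring
  have hgE : g ∈ E := hLE hg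
  have haE : a' ∈ E := hLE ha'
  have hwgE : wp p g ∈ E := E.sub_mem (E.pow_mem hgE p) hgE
  have hwzE : wp p z' ∈ E := by rw [hwz]; exact E.sub_mem haE hwgE
  have hadj : MP1a953e.adj E z = MP1a953e.adj E z' := by
    apply le_antisymm
    · refine adj_le (le_adj E z') ?_
      have h1 : z = z' + e + g := by rw [hz']; ring
      rw [h1]
      exact Subfield.add_mem _ (Subfield.add_mem _ (mem_adj_self E z') (le_adj E z' he))
        (le_adj E z' hgE)
    · refine adj_le (le_adj E z) ?_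
      rw [hz']
      exact Subfield.sub_mem _ (Subfield.sub_mem _ (mem_adj_self E z) (le_adj E z he))
        (le_adj E z hgE)
  have hz'E : z' ∉ E := by
    intro h1
    apply hzE
    have h2 : z = z' + e + g := by rw [hz']; ring
    rw [h2]
    exact E.add_mem (E.add_mem h1 he) hgE
  have hN1 : 1 ≤ ‖wp p z'‖ := by
    by_contra hcon
    exact hz'E (ffa_small hEc hwzE (not_le.1 hcon))
  have hz1 : 1 ≤ ‖z'‖ := by
    by_contra hcon
    have h1 := norm_wp_of_lt (p := p) (not_le.1 hcon)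
    rw [h1] at hN1
    exact hcon hN1
  have hbad : Bad E z' := by
    intro b hb
    by_contra hcon
    have hcon' := not_le.1 hcon
    obtain ⟨b₁, hb₁, hbb⟩ := hL₁.dense.2 b hb ‖z'‖ (by linarith)
    have hd : ‖z' - b₁‖ < ‖z'‖ := by
      have h1 := IsUltrametricDist.norm_add_le_max (z' - b) (b - b₁)
      rw [sub_add_sub_cancel] at h1
      exact h1.trans_lt (max_lt hcon' hbb)
    have hwd : wp p (z' - b₁) = a' - wp p (g + b₁) := by
      rw [wp_sub, wp_add, hwz]; ring
    have hwdE : wp p (z' - b₁) ∈ E := by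
      rw [wp_sub]
      exact E.sub_mem hwzE (E.sub_mem (E.pow_mem (hLE hb₁) p) (hLE hb₁))
    rcases eq_or_lt_of_le hz1 with h1 | h1
    · -- norm one
      rw [← h1] at hd
      have h2 : ‖wp p (z' - b₁)‖ < 1 := by rw [norm_wp_of_lt hd]; exact hd
      have h3 := ffa_small hEc hwdE h2
      have h4 := E.add_mem h3 (hLE hb₁)
      rw [sub_add_cancel] at h4
      exact hz'E h4
    · have h2 : ‖wp p z'‖ = ‖z'‖ ^ p := norm_wp_of_gt h1
      have h3 : 1 < ‖z'‖ ^ p := one_lt_pow₀ h1 hp.ne_zero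
      have h4 := hgb (g + b₁) (L₁.add_mem hg hb₁)
      rw [← hwz, ← hwd, h2] at h4
      have h5 : ‖wp p (z' - b₁)‖ < ‖z'‖ ^ p := by
        have h6 : ‖wp p (z' - b₁)‖ ≤ max (‖(z' - b₁) ^ p‖) ‖z' - b₁‖ := by
          have h7 := IsUltrametricDist.norm_add_le_max ((z' - b₁) ^ p) (-(z' - b₁))
          rwa [norm_neg, ← sub_eq_add_neg] at h7
        refine h6.trans_lt (max_lt ?_ ?_)
        · rw [norm_pow]
          exact pow_lt_pow_left₀ hd (norm_nonneg _) hp.ne_zero
        · exact hd.trans_le (le_self_pow₀ hz1 hp.ne_zero)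
      have h6 := max_lt h5 h3
      linarith
  have hpo := powOrth_as hEc hL₁.nontrivK (θ := z') hwzE hbad
  rw [hadj]
  refine hE.adj (isSeparable_of_wp (p := p) hwzE) ?_
  have hdeg : (minpoly E z').natDegree ≤ p := by
    set Q : E[X] := X ^ p - X - C ⟨wp p z', hwzE⟩ with hQ
    have h1 : aeval z' Q = 0 := by
      rw [hQ, map_sub, map_sub, map_pow, aeval_X, aeval_C]
      show z' ^ p - z' - (z' ^ p - z') = 0
      ring
    have h2 : Q.natDegree = p := by
      rw [hQ, natDegree_sub_C]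
      exact FiniteField.X_pow_card_sub_X_natDegree_eq _ hp.one_lt
    have h3 : Q ≠ 0 := by
      intro h4
      rw [h4, natDegree_zero] at h2
      exact hp.ne_zero h2.symm
    rw [← h2]
    exact natDegree_le_of_dvd (minpoly.dvd E z' h1) h3
  intro f hf hfd i
  exact hpo f hf (hfd.trans_le hdeg) i

end HR
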