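import Pool.Agent.Lib.HR.T4L
import Pool.Agent.Lib.HR.GDefs
import Pool.Agent.Lib.MP_1a953e_ag.Calc1
import Pool.Agent.Lib.MP_1a953e_ag.Calc3

/-!
# T4T: from `TT K T` to `T4 L T`

`L` is dense in `K`.  `t4_of_tt`: `imm`: for `b ∈ L`, `infDist T K < ‖T - b‖` (`TT.nb`, `b` is algebraic over
`K`), so there is `b' ∈ K`, hence one in `L`, with `‖T - b'‖ < ‖T - b‖`.  `tt`: let `P ≠ 0` be over `L`; its
roots `β` are algebraic over `K`, so `infDist T K < ‖T - β‖`; choose `ρ` between `infDist T K` and the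
minimum of the `‖T - β‖` and `b₀ ∈ L` with `‖T - b₀‖ < ρ`; for `‖T - b‖ ≤ ‖T - b₀‖` use `taylor_lt` (module
Calc1; `(taylor b P).coeff n = (hasseDeriv n P).eval b`, `taylor_coeff`).
`rho_eq`: density.  `poly_dense_dense`: `TT.poly_dense` and density of `L` in `K` (finitely many
coefficients).
-/

namespace HR

open Polynomial MP1a953e

variable {W : Type*} [NormedField W] [IsUltrametricDist W] [IsAlgClosed W] {L K : Subfield W}
  {T : W}

omit [IsUltrametricDist W] [IsAlgClosed W] in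
private theorem t4t_near (hd : DenseIn L K) {t : ℝ} (ht : Metric.infDist T (K : Set W) < t) :
    ∃ b ∈ L, ‖T - b‖ < t := by
  have hne : (K : Set W).Nonempty := ⟨0, K.zero_mem⟩
  obtain ⟨a, ha, h1⟩ := (Metric.infDist_lt_iff hne).1 ht
  rw [dist_eq_norm] at h1
  obtain ⟨b, hb, h2⟩ := hd.2 a ha (t - ‖T - a‖) (by linarith)
  refine ⟨b, hb, ?_⟩
  have h3 : T - b = (T - a) + (a - b) := by ring
  rw [h3]
  exact (norm_add_le _ _).trans_lt (by linarith)

omit [IsUltrametricDist W] [IsAlgClosed W] in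
private theorem t4t_lt (hd : DenseIn L K) (hT : TT K T) {b : W} (hb : b ∈ L) :
    Metric.infDist T (K : Set W) < ‖T - b‖ :=
  hT.nb b (isAlgebraic_algebraMap (⟨b, hd.1 hb⟩ : K))

private theorem t4t_gap {ι : Type*} (s : Multiset ι) (f : ι → ℝ) (r : ℝ) (h : ∀ x ∈ s, r < f x) :
    ∃ ρ > r, ∀ x ∈ s, ρ ≤ f x := by
  induction s using Multiset.induction with
  | empty => exact ⟨r + 1, by simp, by simp⟩
  | cons c s ih =>
    obtain ⟨ρ, hρ, h1⟩ := ih fun x hx => h x (Multiset.mem_cons_of_mem hx)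
    refine ⟨min ρ (f c), lt_min hρ (h c (Multiset.mem_cons_self c s)), ?_⟩
    intro x hx
    rcases Multiset.mem_cons.1 hx with rfl | hx
    · exact min_le_right _ _
    · exact (min_le_left _ _).trans (h1 x hx)

omit [IsUltrametricDist W] [IsAlgClosed W] in
private theorem t4t_root {F : Subfield W} {g : Polynomial W} (hg : Coeffs F g) (hg0 : g ≠ 0)
    {β : W} (hβ : g.eval β = 0) : IsAlgebraic F β := by
  have hl : g ∈ lifts (algebraMap F W) := by
    rw [lifts_iff_coeff_lifts]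
    intro n
    exact ⟨⟨g.coeff n, hg n⟩, rfl⟩
  obtain ⟨q, hq⟩ := (mem_lifts g).1 hl
  refine ⟨q, ?_, ?_⟩
  · rintro rfl
    rw [Polynomial.map_zero] at hq
    exact hg0 hq.symm
  · rw [← eval_map_algebraMap, hq]
    exact hβ

theorem t4_of_tt (hd : DenseIn L K) (hT : TT K T) : T4 L T := by
  refine ⟨fun b hb => t4t_near hd (t4t_lt hd hT hb), fun P hP hP0 => ?_⟩
  have hPK : Coeffs K P := fun i => hd.1 (hP i)
  obtain ⟨ρ, hρ, h1⟩ := t4t_gap P.roots (fun β => ‖T - β‖) (Metric.infDist T (K : Set W))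
    (fun β hβ => hT.nb β (t4t_root hPK hP0 ((mem_roots hP0).1 hβ)))
  obtain ⟨b₀, hb₀, h2⟩ := t4t_near hd hρ
  refine ⟨b₀, hb₀, fun b hb hbb n hn => ?_⟩
  have h3 := taylor_lt hP0 (α := T) (b := b) h1 (hbb.trans_lt h2) n hn
  rw [taylor_coeff]
  exact h3

omit [IsUltrametricDist W] [IsAlgClosed W] in
theorem rho_eq (hd : DenseIn L K) : rho L T = Metric.infDist T (K : Set W) := by
  have hne : (K : Set W).Nonempty := ⟨0, K.zero_mem⟩
  refine le_antisymm ?_ ?_
  · refine le_of_forall_gt_imp_ge_of_dense fun t ht => ?_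
    obtain ⟨b, hb, h⟩ := t4t_near hd ht
    exact (rho_le hb).trans h.le
  · unfold rho
    refine le_csInf ⟨_, 0, L.zero_mem, rfl⟩ ?_
    rintro _ ⟨b, hb, rfl⟩
    rw [← dist_eq_norm]
    exact Metric.infDist_le_dist_of_mem (hd.1 hb)

omit [IsUltrametricDist W] [IsAlgClosed W] in
private theorem t4t_approx (hd : DenseIn L K) (g : W[X]) (hg : Coeffs K g) {ε : ℝ} (hε : 0 < ε) :
    ∃ h : W[X], PolyIn L h ∧ ‖g.eval T - h.eval T‖ < ε := by
  set n := g.natDegree with hn
  have hpos : ∀ i : ℕ, 0 < ε / ((n + 2) * (‖T‖ ^ i + 1)) := fun i => by positivity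
  choose a ha1 ha2 using fun i : ℕ => hd.2 (g.coeff i) (hg i) _ (hpos i)
  refine ⟨∑ i ∈ Finset.range (n + 1), monomial i (a i), ?_, ?_⟩
  · intro m
    rw [finsetSum_coeff]
    refine L.sum_mem fun i _ => ?_
    rw [coeff_monomial]
    split_ifs
    · exact ha1 i
    · exact L.zero_mem
  · have h1 : g.eval T - (∑ i ∈ Finset.range (n + 1), monomial i (a i)).eval T =
        ∑ i ∈ Finset.range (n + 1), (g.coeff i - a i) * T ^ i := by
      rw [eval_eq_sum_range, eval_finsetSum, ← hn, ← Finset.sum_sub_distrib]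
      refine Finset.sum_congr rfl fun i _ => ?_
      rw [eval_monomial, sub_mul]
    rw [h1]
    refine (norm_sum_le _ _).trans_lt ?_
    have h2 : ∀ i ∈ Finset.range (n + 1), ‖(g.coeff i - a i) * T ^ i‖ ≤ ε / (n + 2) := by
      intro i _
      rw [norm_mul, norm_pow]
      have h3 := ha2 i
      have h4 : 0 ≤ ‖T‖ ^ i := by positivity
      have h5 : ε / ((n + 2) * (‖T‖ ^ i + 1)) * (‖T‖ ^ i + 1) = ε / (n + 2) := by
        have : (‖T‖ ^ i + 1) ≠ 0 := by positivity
        have : (n + 2 : ℝ) ≠ 0 := by positivity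
        field_simp
      calc ‖g.coeff i - a i‖ * ‖T‖ ^ i ≤ ε / ((n + 2) * (‖T‖ ^ i + 1)) * ‖T‖ ^ i :=
            mul_le_mul_of_nonneg_right h3.le h4
        _ ≤ ε / ((n + 2) * (‖T‖ ^ i + 1)) * (‖T‖ ^ i + 1) :=
            mul_le_mul_of_nonneg_left (by linarith) (hpos i).le
        _ = ε / (n + 2) := h5
    calc ∑ i ∈ Finset.range (n + 1), ‖(g.coeff i - a i) * T ^ i‖
        ≤ ∑ i ∈ Finset.range (n + 1), ε / (n + 2) := Finset.sum_le_sum h2
      _ = (n + 1) * (ε / (n + 2)) := by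
        rw [Finset.sum_const, Finset.card_range, nsmul_eq_mul]
        push_cast
        ring
      _ < ε := by
        rw [← mul_div_assoc, div_lt_iff₀ (by positivity)]
        nlinarith

theorem poly_dense_dense (hd : DenseIn L K) (hT : TT K T) {x : W} (hx : x ∈ adj K T) {ε : ℝ}
    (hε : 0 < ε) : ∃ g : W[X], PolyIn L g ∧ ‖x - g.eval T‖ < ε := by
  obtain ⟨g, hg, h1⟩ := hT.poly_dense hx (half_pos hε)
  obtain ⟨h, hh, h2⟩ := t4t_approx (T := T) hd g hg (half_pos hε)
  refine ⟨h, hh, ?_⟩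
  have h3 : x - h.eval T = (x - g.eval T) + (g.eval T - h.eval T) := by ring
  rw [h3]
  exact (norm_add_le _ _).trans_lt (by linarith)

end HR
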