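import Pool.Agent.Lib.HR.Step
import Pool.Agent.Lib.HR.T4T
import Pool.Agent.Lib.HR.FFa
import Pool.Agent.Lib.MP_1a953e_ag.Calc4

/-!
# AsF: the Artin-Schreier step for fields

Given: `K(T)` dense in the complete field `K'`, `z ^ p - z ∈ K'`, `adj K' z` immediate over `K`.
If `z ∈ K'` take `Y = T` (`T ∉ K` because `infDist T K > 0`).  Let `z ∉ K'`.
Choose `f ∈ L[X]` with `‖(z ^ p - z) - f(T)‖ < 1` (density and `poly_dense_dense`), `h ∈ K'` with
`h ^ p - h = (z ^ p - z) - f(T)` (`as_small`), `z₁ = z - h ∉ K'`, so `z₁ ^ p - z₁ = f(T)`.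
Let `δ` be the infimum of `‖f(T) - wp (g(T))‖` over `g ∈ L[X]`.
`exists_dfd`: (1) no `g` has `‖f(T) - wp (g(T))‖ < 1`: otherwise it is `wp h'` with `h' ∈ K'` and
`z₁ - g(T) - h'` is in the prime field, so `z₁ ∈ K'`.  (2) The infimum is not attained: let `g` attain it,
`z₂ = z₁ - g(T)`, `wp z₂ = a`, `‖a‖ = δ ≥ 1`; then `‖z₂‖ ^ p = δ`, and by immediacy (`z₂ ∈ adj K' z`,
`z₂ ≠ 0`) and density there is `c ∈ L` with `‖z₂ - c‖ < ‖z₂‖`; `wp (z₂ - c) = f(T) - wp ((g + C c)(T))` has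
norm `< δ` if `δ > 1` (`≤ max (‖z₂-c‖^p) ‖z₂-c‖`), contradiction; if `δ = 1` it has norm `< 1`, against (1).
So `Dfd p L T f δ` (with `T4 L T`).
`as_step` gives `g ∈ L[X]`, `b ∈ L` with `LinDom T h b`, `h = f - wp g`; `z₃ = z₁ - g(T)`,
`wp z₃ = h(T)`.  `lin_close`: there is `b'' ∈ L` such that `q = (h(T) - h(b'')) / h'(b'') + b''` satisfies
`‖T - q‖ < infDist T K`, where `h'(b'') = (taylor b'' h).coeff 1`: with `s = ‖T - b‖`, for `b''` as close as
`b` the Taylor coefficients at `b''` satisfy `‖h_n(b'')‖ s ^ n < ‖h_1(b)‖ s` for `n ≥ 2` and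
`‖h_1(b'')‖ = ‖h_1(b)‖` (recentring, `norm_taylor_coeff_lt`), hence
`‖h_n(b'')‖ ‖T-b''‖ ^ n ≤ ‖h_1(b'')‖ s (‖T-b''‖/s) ^ 2`, and `‖T - b''‖ ^ 2 / s < infDist T K` for `b''` close
(`rho_lt`: `rho < s`).  Then `q ∈ adj K z₃` (as `h(T) = wp z₃`), `TT.gc` gives that
`adj K q` is dense in `K'`, so is `adj K z₃ ⊓ K'`...: every element of `adj K' z = adj K' z₃` is
`∑_{i<p} b i z₃ ^ i`, `b i ∈ K'`, approximate the `b i` by elements of `adj K q ≤ adj K z₃`.
`Y = z₃ ∉ K` because otherwise `q ∈ K`, `‖T - q‖ < infDist T K`.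
-/

namespace HR

open Polynomial MP1a953e

variable {W : Type*} [NormedField W] [IsUltrametricDist W] [IsAlgClosed W] {p : ℕ}
  [Fact p.Prime] [CharP W p] {k L K K' : Subfield W} {T z : W}

omit [IsUltrametricDist W] [IsAlgClosed W] in
private lemma asf_prime {E : Subfield W} {x : W} (hx : wp p x = 0) : x ∈ E := by
  have h1 : x ^ p = x := sub_eq_zero.1 hx
  have h2 : x ∈ (⊥ : Subfield W) := (Subfield.mem_bot_iff_pow_eq_self (F := W) (p := p)).2 h1
  exact (bot_le : (⊥ : Subfield W) ≤ E) h2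

omit [IsAlgClosed W] in
private lemma asf_small {E : Subfield W} (hE : IsComplete (E : Set W)) {x : W}
    (hx : wp p x ∈ E) (hx1 : ‖wp p x‖ < 1) : x ∈ E := by
  obtain ⟨h', hh', -, h3⟩ := as_small (p := p) hE hx hx1
  have h4 : wp p (x - h') = 0 := by
    rw [wp_sub]
    have h5 : wp p h' = wp p x := h3
    rw [h5, sub_self]
  have h5 := asf_prime (E := E) h4
  have h6 := E.add_mem h5 hh'
  rwa [sub_add_cancel] at h6

omit [IsAlgClosed W] in
theorem exists_dfd (hd : DenseIn L K) (hK' : IsComplete (K' : Set W)) (hT : TT K T)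
    (hTK : T ∈ K') (hKK' : K ≤ K') (hI : Imm K (adj K' z)) {f : W[X]} (hf : PolyIn L f)
    (hz : z ^ p - z = f.eval T) (hzK : z ∉ K') : ∃ δ, Dfd p L T f δ := by
  have hp : p.Prime := Fact.out
  have hLK' : L ≤ K' := hd.1.trans hKK'
  have hev : ∀ g : W[X], PolyIn L g → g.eval T ∈ K' := fun g hg =>
    eval_mem (fun n => hLK' (hg n)) hTK
  have hwz : ∀ g : W[X], wp p (z - g.eval T) = f.eval T - wp p (g.eval T) := by
    intro g
    rw [wp_sub]
    have : wp p z = f.eval T := hz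
    rw [this]
  have hnot : ∀ g : W[X], PolyIn L g → z - g.eval T ∉ K' := by
    intro g hg h1
    apply hzK
    have h2 := K'.add_mem h1 (hev g hg)
    rwa [sub_add_cancel] at h2
  have h1 : ∀ g : W[X], PolyIn L g → 1 ≤ ‖f.eval T - wp p (g.eval T)‖ := by
    intro g hg
    by_contra hcon
    refine hnot g hg (asf_small (p := p) hK' ?_ ?_)
    · rw [hwz]
      exact K'.sub_mem (hev f hf) (K'.sub_mem (K'.pow_mem (hev g hg) p) (hev g hg))
    · rw [hwz]
      exact not_le.1 hcon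
  have h2 : ∀ g : W[X], PolyIn L g → ∃ g' : W[X], PolyIn L g' ∧
      ‖f.eval T - wp p (g'.eval T)‖ < ‖f.eval T - wp p (g.eval T)‖ := by
    intro g hg
    have hn1 := h1 g hg
    rw [← hwz] at hn1
    have hz1 : 1 ≤ ‖z - g.eval T‖ := by
      by_contra hcon
      have h1 := norm_wp_of_lt (p := p) (not_le.1 hcon)
      rw [h1] at hn1
      exact hcon hn1
    have hz0 : z - g.eval T ≠ 0 := by
      intro h0
      rw [h0, norm_zero] at hz1
      linarith
    have hmem : z - g.eval T ∈ adj K' z :=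
      Subfield.sub_mem _ (mem_adj_self K' z) (le_adj K' z (hev g hg))
    obtain ⟨c₀, hc₀, hcl₀⟩ := hI _ hmem hz0
    obtain ⟨c, hc, hcc⟩ := hd.2 c₀ hc₀ ‖z - g.eval T‖ (by linarith)
    have hcl : ‖z - g.eval T - c‖ < ‖z - g.eval T‖ := by
      have h3 := IsUltrametricDist.norm_add_le_max (z - g.eval T - c₀) (c₀ - c)
      rw [sub_add_sub_cancel] at h3
      exact h3.trans_lt (max_lt hcl₀ hcc)
    refine ⟨g + C c, polyIn_add hg (polyIn_C hc), ?_⟩
    have h3 : z - (g + C c).eval T = z - g.eval T - c := by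
      rw [eval_add, eval_C]; ring
    have h4 := h1 (g + C c) (polyIn_add hg (polyIn_C hc))
    rw [← hwz, ← hwz, h3]
    rw [← hwz, h3] at h4
    rcases eq_or_lt_of_le hz1 with h5 | h5
    · rw [← h5] at hcl
      rw [norm_wp_of_lt hcl] at h4
      linarith
    · rw [norm_wp_of_gt h5]
      have h6 : ‖wp p (z - g.eval T - c)‖ ≤
          max (‖(z - g.eval T - c) ^ p‖) ‖z - g.eval T - c‖ := by
        have h7 := IsUltrametricDist.norm_add_le_max ((z - g.eval T - c) ^ p)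
          (-(z - g.eval T - c))
        rwa [norm_neg, ← sub_eq_add_neg] at h7
      refine h6.trans_lt (max_lt ?_ ?_)
      · rw [norm_pow]
        exact pow_lt_pow_left₀ hcl (norm_nonneg _) hp.ne_zero
      · exact hcl.trans_le (le_self_pow₀ hz1 hp.ne_zero)
  set S : Set ℝ := {r | ∃ g : W[X], PolyIn L g ∧ r = ‖f.eval T - wp p (g.eval T)‖} with hS
  have hSne : S.Nonempty := ⟨_, 0, polyIn_zero, rfl⟩
  have hSb : BddBelow S := by
    refine ⟨1, ?_⟩
    rintro _ ⟨g, hg, rfl⟩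
    exact h1 g hg
  refine ⟨sInf S, ⟨hf, ?_, ?_, ?_⟩⟩
  · refine le_csInf hSne ?_
    rintro _ ⟨g, hg, rfl⟩
    exact h1 g hg
  · intro g hg
    obtain ⟨g', hg', h3⟩ := h2 g hg
    exact (csInf_le hSb ⟨g', hg', rfl⟩).trans_lt h3
  · intro t ht
    obtain ⟨_, ⟨g, hg, rfl⟩, h⟩ := exists_lt_of_csInf_lt hSne ht
    exact ⟨g, hg, h⟩

theorem lin_close (hd : DenseIn L K) (hT : TT K T) {h : W[X]} (hh : PolyIn L h) {b : W}
    (hb : b ∈ L) (hl : LinDom T h b) :
    ∃ b'' ∈ L, (taylor b'' h).coeff 1 ≠ 0 ∧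
      ‖T - ((h.eval T - h.eval b'') / (taylor b'' h).coeff 1 + b'')‖
        < Metric.infDist T (K : Set W) := by
  have hv : T4 L T := t4_of_tt hd hT
  have hrho : rho L T = Metric.infDist T (K : Set W) := rho_eq hd
  have hpos : 0 < rho L T := by rw [hrho]; exact hT.pos
  have hs : rho L T < ‖T - b‖ := rho_lt hv hb
  set s := ‖T - b‖ with hsdef
  have hspos : 0 < s := hpos.trans hs
  -- the new centre
  have hlt : rho L T < min s (Real.sqrt (rho L T * s)) := by
    refine lt_min hs ?_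
    refine Real.lt_sqrt_of_sq_lt ?_
    nlinarith
  obtain ⟨c, hc, hct⟩ := exists_lt_of_rho_lt hlt
  have hc1 : ‖T - c‖ < s := hct.trans_le (min_le_left _ _)
  have hc2 : ‖T - c‖ ^ 2 < rho L T * s := by
    have h1 := hct.trans_le (min_le_right _ _)
    exact (Real.lt_sqrt (norm_nonneg _)).1 h1
  set H := taylor b h with hH
  have hcH : taylor c h = taylor (c - b) H := by
    rw [hH, taylor_taylor, sub_add_cancel]
  have hcb : ‖c - b‖ ≤ s := norm_sub_le_of_le hc1.le
  have hN0 : 0 < ‖H.coeff 1‖ * s := by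
    have := hl 2 le_rfl
    exact (by positivity : (0 : ℝ) ≤ ‖H.coeff 2‖ * s ^ 2).trans_lt this
  have hn2 : ∀ n, 2 ≤ n → ‖(taylor c h).coeff n‖ * s ^ n ≤ ‖H.coeff 1‖ * s := by
    intro n hn
    rw [hcH]
    exact norm_taylor_coeff_le hspos hcb fun m hm => (hl m (hn.trans hm)).le
  have hn1 : ‖(taylor c h).coeff 1‖ = ‖H.coeff 1‖ := by
    have h1 := norm_taylor_coeff_sub_lt (c := H) (n := 1) hspos hN0 hcb
      fun m hm => hl m (by omega)
    rw [← hcH, pow_one] at h1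
    have h2 : ‖(taylor c h).coeff 1 - H.coeff 1‖ < ‖H.coeff 1‖ := lt_of_mul_lt_mul_right h1 hspos.le
    have h3 : (taylor c h).coeff 1 = ((taylor c h).coeff 1 - H.coeff 1) + H.coeff 1 := by ring
    rw [h3, IsUltrametricDist.norm_add_eq_max_of_norm_ne_norm h2.ne, max_eq_right h2.le]
  have hH1 : 0 < ‖H.coeff 1‖ := pos_of_mul_pos_left hN0 hspos.le
  have hne : (taylor c h).coeff 1 ≠ 0 := by
    rw [← norm_pos_iff, hn1]; exact hH1
  refine ⟨c, hc, hne, ?_⟩
  rw [← hrho]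
  set P := taylor c h with hP
  set u := T - c with hu
  have hupos : 0 < ‖u‖ := hpos.trans_le (rho_le hc)
  have hPe : h.eval T = P.eval u := by
    rw [hP, taylor_eval, hu, sub_add_cancel]
  have hP0 : P.coeff 0 = h.eval c := by
    rw [hP, taylor_coeff_zero]
  have hsum : P.eval u = h.eval c + P.coeff 1 * u +
      ∑ i ∈ Finset.range P.natDegree, P.coeff (i + 2) * u ^ (i + 2) := by
    have h1 : P.eval u = ∑ i ∈ Finset.range (P.natDegree + 2), P.coeff i * u ^ i :=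
      eval_eq_sum_range' (by omega) u
    rw [h1, Finset.sum_range_succ', Finset.sum_range_succ', hP0]
    ring
  have hq : T - ((h.eval T - h.eval c) / P.coeff 1 + c) =
      -(∑ i ∈ Finset.range P.natDegree, P.coeff (i + 2) * u ^ (i + 2)) / P.coeff 1 := by
    have h1 : T = u + c := by rw [hu]; ring
    rw [hPe, hsum]
    field_simp
    rw [h1]
    ring
  rw [hq, norm_div, norm_neg, div_lt_iff₀ (norm_pos_iff.2 hne), hn1]
  have hfin : ‖H.coeff 1‖ * (‖u‖ ^ 2 / s) < rho L T * ‖H.coeff 1‖ := by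
    rw [mul_comm (rho L T)]
    refine mul_lt_mul_of_pos_left ?_ hH1
    rw [div_lt_iff₀ hspos]
    exact hc2
  refine lt_of_le_of_lt ?_ hfin
  refine IsUltrametricDist.norm_sum_le_of_forall_le_of_nonneg (by positivity) fun i _ => ?_
  rw [norm_mul, norm_pow]
  have h2 := hn2 (i + 2) (by omega)
  have h3 : ‖u‖ ^ (i + 2) ≤ s ^ i * ‖u‖ ^ 2 := by
    rw [pow_add]
    exact mul_le_mul_of_nonneg_right (pow_le_pow_left₀ (norm_nonneg _) hc1.le i) (by positivity)
  have h4 : ‖P.coeff (i + 2)‖ * s ^ (i + 1) ≤ ‖H.coeff 1‖ := by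
    have h5 : ‖P.coeff (i + 2)‖ * s ^ (i + 2) = ‖P.coeff (i + 2)‖ * s ^ (i + 1) * s := by ring
    rw [h5] at h2
    exact le_of_mul_le_mul_right h2 hspos
  calc ‖P.coeff (i + 2)‖ * ‖u‖ ^ (i + 2)
      ≤ ‖P.coeff (i + 2)‖ * (s ^ i * ‖u‖ ^ 2) := mul_le_mul_of_nonneg_left h3 (norm_nonneg _)
    _ = ‖P.coeff (i + 2)‖ * s ^ (i + 1) * (‖u‖ ^ 2 / s) := by
        field_simp
        ring
    _ ≤ ‖H.coeff 1‖ * (‖u‖ ^ 2 / s) := mul_le_mul_of_nonneg_right h4 (by positivity)

theorem as_field (hk : IsAlgClosed k) (h : HCl p k L K) (hK' : IsComplete (K' : Set W))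
    (hT : TT K T) (hd : DenseIn (adj K T) K') (hz : z ^ p - z ∈ K') (hI : Imm K (adj K' z)) :
    ∃ Y ∈ adj K' z, Y ∉ K ∧ DenseIn (adj K Y) (adj K' z) := by
  have hp : p.Prime := Fact.out
  have hKK' : K ≤ K' := (le_adj K T).trans hd.1
  have hTK' : T ∈ K' := hd.1 (mem_adj_self K T)
  have hTK : T ∉ K := by
    intro h1
    have h2 := hT.pos
    rw [Metric.infDist_zero_of_mem (show T ∈ (K : Set W) from h1)] at h2
    exact lt_irrefl _ h2
  by_cases hzK : z ∈ K'
  · have h1 : adj K' z = K' := le_antisymm (adj_le le_rfl hzK) (le_adj K' z)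
    rw [h1]
    exact ⟨T, hTK', hTK, hd⟩
  have hLK : L ≤ K := h.dense.1
  have hLK' : L ≤ K' := hLK.trans hKK'
  have hev : ∀ g : W[X], PolyIn L g → g.eval T ∈ K' := fun g hg =>
    eval_mem (fun n => hLK' (hg n)) hTK'
  obtain ⟨x, hx, hx1⟩ := hd.2 (z ^ p - z) hz 1 one_pos
  obtain ⟨f, hf, hf1⟩ := poly_dense_dense h.dense hT hx one_pos
  have hzf : ‖z ^ p - z - f.eval T‖ < 1 := by
    have h1 := IsUltrametricDist.norm_add_le_max (z ^ p - z - x) (x - f.eval T)
    rw [sub_add_sub_cancel] at h1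
    exact h1.trans_lt (max_lt hx1 hf1)
  obtain ⟨e, he, -, he2⟩ := as_small (p := p) hK' (K'.sub_mem hz (hev f hf)) hzf
  -- the new generator `z₁ = z - e`
  have hz1K : z - e ∉ K' := by
    intro h1
    apply hzK
    have h2 := K'.add_mem h1 he
    rwa [sub_add_cancel] at h2
  have hadj : ∀ w ∈ K', adj K' (z - w) = adj K' z := by
    intro w hw
    apply le_antisymm
    · exact adj_le (le_adj K' z) (Subfield.sub_mem _ (mem_adj_self K' z) (le_adj K' z hw))
    · refine adj_le (le_adj K' _) ?_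
      have h1 := Subfield.add_mem _ (mem_adj_self K' (z - w)) (le_adj K' (z - w) hw)
      rwa [sub_add_cancel] at h1
  have hz1 : (z - e) ^ p - (z - e) = f.eval T := by
    have h1 : wp p (z - e) = wp p z - wp p e := wp_sub z e
    have h2 : wp p e = z ^ p - z - f.eval T := he2
    have h3 : wp p z = z ^ p - z := rfl
    have h4 : wp p (z - e) = (z - e) ^ p - (z - e) := rfl
    rw [← h4, h1, h2, h3]; ring
  have hI1 : Imm K (adj K' (z - e)) := by
    rw [hadj e he]; exact hI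
  obtain ⟨δ, hδ⟩ := exists_dfd h.dense hK' hT hTK' hKK' hI1 hf hz1 hz1K
  obtain ⟨c⟩ := h.pc
  have hv : T4 L T := t4_of_tt h.dense hT
  have hpos : 0 < rho L T := by rw [rho_eq h.dense]; exact hT.pos
  obtain ⟨g, hg, b, hb, hl⟩ := as_step (fun y => IsAlgClosed.exists_pow_nat_eq y hp.pos) c
    (h.fpp hk) hv hpos hδ
  have hh : PolyIn L (f - wp p g) := polyIn_sub hf (polyIn_sub (polyIn_pow hg p) hg)
  obtain ⟨b', hb', hne, hlt⟩ := lin_close h.dense hT hh hb hl
  -- the generator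
  have hwe : e + g.eval T ∈ K' := K'.add_mem he (hev g hg)
  have hwz : wp p (z - (e + g.eval T)) = (f - wp p g).eval T := by
    have h1 : z - (e + g.eval T) = (z - e) - g.eval T := by ring
    have h2 : wp p (z - e) = f.eval T := hz1
    rw [h1, wp_sub, h2, eval_sub, wp_eval]
  set y := z - (e + g.eval T) with hy
  have hadjy : adj K' y = adj K' z := hadj _ hwe
  have hyK' : y ∉ K' := by
    intro h1
    apply hzK
    have h2 := K'.add_mem h1 hwe
    rwa [hy, sub_add_cancel] at h2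
  set q := ((f - wp p g).eval T - (f - wp p g).eval b') / (taylor b' (f - wp p g)).coeff 1 + b'
    with hq
  have hLy : L ≤ adj K y := hLK.trans (le_adj K y)
  have hqy : q ∈ adj K y := by
    refine Subfield.add_mem _ (Subfield.div_mem _ (Subfield.sub_mem _ ?_ ?_) ?_) (hLy hb')
    · rw [← hwz]
      exact Subfield.sub_mem _ (Subfield.pow_mem _ (mem_adj_self K y) p) (mem_adj_self K y)
    · exact hLy (eval_mem hh hb')
    · exact hLy (polyIn_taylor hh hb' 1)
  have hqK' : q ∈ K' := by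
    refine K'.add_mem (K'.div_mem (K'.sub_mem (hev _ hh) ?_) ?_) (hLK' hb')
    · exact hLK' (eval_mem hh hb')
    · exact hLK' (polyIn_taylor hh hb' 1)
  have hdq : DenseIn (adj K q) K' := hT.gc hd hqK' hlt
  have hqle : adj K q ≤ adj K y := adj_le (le_adj K y) hqy
  have hyw : y ^ p - y ∈ K' := by
    have h1 : wp p y = y ^ p - y := rfl
    rw [← h1, hwz]
    exact hev _ hh
  have hyalg : IsAlgebraic K' y := (isSeparable_of_wp (p := p) hyw).isIntegral.isAlgebraic
  rw [← hadjy]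
  refine ⟨y, mem_adj_self K' y, fun h1 => hyK' (hKK' h1),
    adj_le (hKK'.trans (le_adj K' y)) (mem_adj_self K' y), ?_⟩
  intro w hw ε hε
  obtain ⟨P, hP, -, hPw⟩ := exists_poly_of_mem_adj hyalg hw
  have hpos' : ∀ i : ℕ, 0 < ε / 2 / (‖y‖ ^ i + 1) := fun i => by positivity
  choose a ha1 ha2 using fun i : ℕ => hdq.2 (P.coeff i) (hP i) _ (hpos' i)
  refine ⟨∑ i ∈ Finset.range (P.natDegree + 1), a i * y ^ i, ?_, ?_⟩
  · exact Subfield.sum_mem _ fun i _ => Subfield.mul_mem _ (hqle (ha1 i))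
      (Subfield.pow_mem _ (mem_adj_self K y) i)
  · rw [← hPw, eval_eq_sum_range, ← Finset.sum_sub_distrib]
    refine lt_of_le_of_lt ?_ (half_lt_self hε)
    refine IsUltrametricDist.norm_sum_le_of_forall_le_of_nonneg (by positivity) fun i _ => ?_
    rw [← sub_mul, norm_mul, norm_pow]
    have h4 : 0 ≤ ‖y‖ ^ i := by positivity
    have h5 := (le_div_iff₀ (by positivity)).1 (ha2 i).le
    nlinarith [norm_nonneg (P.coeff i - a i)]

end HR
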