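import Pool.Agent.Lib.HR.CC

/-!
# T4L: elementary facts on points `v` of type `T4 L v`
-/

namespace HR

open Polynomial

variable {W : Type*} [NormedField W] [IsUltrametricDist W] {L : Subfield W} {v : W}

omit [IsUltrametricDist W] in
theorem T4.pos (hv : T4 L v) {b : W} (hb : b ∈ L) : 0 < ‖v - b‖ := by
  obtain ⟨b', _, h⟩ := hv.imm b hb
  exact (norm_nonneg _).trans_lt h

omit [IsUltrametricDist W] in
/-- finitely many eventual statements: centres can be compared -/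
theorem exists_closer (hv : T4 L v) {b₁ b₂ : W} (h1 : b₁ ∈ L) (h2 : b₂ ∈ L) :
    ∃ b ∈ L, ‖v - b‖ ≤ ‖v - b₁‖ ∧ ‖v - b‖ ≤ ‖v - b₂‖ := by
  rcases le_total ‖v - b₁‖ ‖v - b₂‖ with h | h
  · exact ⟨b₁, h1, le_rfl, h⟩
  · exact ⟨b₂, h2, h, le_rfl⟩

/-- The value of a polynomial is stable: `‖P v‖ = ‖P b‖`, and the Taylor coefficients at `b` satisfy
the strict domination, for `b` close to `v`. -/
theorem T4.stable (hv : T4 L v) {P : W[X]} (hP : PolyIn L P) (h0 : P ≠ 0) :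
    P.eval v ≠ 0 ∧ ∃ b₀ ∈ L, ∀ b ∈ L, ‖v - b‖ ≤ ‖v - b₀‖ →
      ‖P.eval b‖ = ‖P.eval v‖ ∧
      ∀ n, 1 ≤ n → ‖(taylor b P).coeff n‖ * ‖v - b‖ ^ n < ‖P.eval v‖ := by
  obtain ⟨b₀, hb₀, h⟩ := hv.tt P hP h0
  have key : ∀ b ∈ L, ‖v - b‖ ≤ ‖v - b₀‖ → ‖P.eval b‖ = ‖P.eval v‖ := by
    intro b hb hbb
    have hlt := h b hb hbb
    have hpos : 0 < ‖P.eval b‖ := by
      have h1 := hlt 1 le_rfl
      exact (mul_nonneg (norm_nonneg _) (pow_nonneg (norm_nonneg _) _)).trans_lt h1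
    have h2 : ‖(taylor b P - C (P.eval b)).eval (v - b)‖ < ‖P.eval b‖ := by
      refine norm_eval_lt (s := ‖v - b‖) (hv.pos hb) hpos ?_ le_rfl ?_
      · rw [coeff_sub, taylor_coeff_zero, coeff_C_zero, sub_self]
      · intro n hn
        rw [coeff_sub, coeff_C_of_ne_zero (by omega), sub_zero]
        exact hlt n hn
    have h3 : (taylor b P - C (P.eval b)).eval (v - b) = P.eval v - P.eval b := by
      rw [eval_sub, eval_C, taylor_eval, sub_add_cancel]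
    rw [h3] at h2
    -- ultrametric
    have h4 := IsUltrametricDist.norm_add_le_max (P.eval v - P.eval b) (P.eval b)
    rw [sub_add_cancel, max_eq_right h2.le] at h4
    have h5 := IsUltrametricDist.norm_add_le_max (-(P.eval v - P.eval b)) (P.eval v)
    have h6 : -(P.eval v - P.eval b) + P.eval v = P.eval b := by ring
    rw [h6, norm_neg] at h5
    rcases le_max_iff.1 h5 with h7 | h7
    · exact absurd h7 (not_le.2 h2)
    · exact le_antisymm h7 h4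
  refine ⟨?_, b₀, hb₀, fun b hb hbb => ⟨key b hb hbb, fun n hn => ?_⟩⟩
  · intro h1
    have h2 := key b₀ hb₀ le_rfl
    have h3 := h b₀ hb₀ le_rfl 1 le_rfl
    rw [h2, h1, norm_zero] at h3
    exact absurd h3 (not_lt.2 (mul_nonneg (norm_nonneg _) (pow_nonneg (norm_nonneg _) _)))
  · rw [← key b hb hbb]
    exact h b hb hbb n hn

omit [IsUltrametricDist W] in
theorem rho_nonneg : 0 ≤ rho L v := by
  refine Real.sInf_nonneg ?_
  rintro _ ⟨b, _, rfl⟩
  exact norm_nonneg _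

omit [IsUltrametricDist W] in
theorem rho_le {b : W} (hb : b ∈ L) : rho L v ≤ ‖v - b‖ := by
  refine csInf_le ⟨0, ?_⟩ ⟨b, hb, rfl⟩
  rintro _ ⟨b, _, rfl⟩
  exact norm_nonneg _

omit [IsUltrametricDist W] in
theorem rho_lt (hv : T4 L v) {b : W} (hb : b ∈ L) : rho L v < ‖v - b‖ := by
  obtain ⟨b', hb', h⟩ := hv.imm b hb
  exact (rho_le hb').trans_lt h

omit [IsUltrametricDist W] in
theorem exists_lt_of_rho_lt {t : ℝ} (ht : rho L v < t) : ∃ b ∈ L, ‖v - b‖ < t := by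
  have hne : ({r | ∃ b ∈ L, r = ‖v - b‖} : Set ℝ).Nonempty := ⟨_, 0, L.zero_mem, rfl⟩
  obtain ⟨_, ⟨b, hb, rfl⟩, h⟩ := exists_lt_of_csInf_lt hne ht
  exact ⟨b, hb, h⟩

omit [IsUltrametricDist W] in
/-- continuity: if `φ * ρ ^ q < t` then `φ * ‖v - b‖ ^ q < t` for `b` close to `v`. -/
theorem exists_mul_pow_lt {φ t : ℝ} (hφ : 0 ≤ φ) (q : ℕ) (ht : φ * rho L v ^ q < t) :
    ∃ b₀ ∈ L, ∀ b ∈ L, ‖v - b‖ ≤ ‖v - b₀‖ → φ * ‖v - b‖ ^ q < t := by
  have hc : ContinuousAt (fun x : ℝ => φ * x ^ q) (rho L v) := by fun_prop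
  have hev : ∀ᶠ x in nhds (rho L v), φ * x ^ q < t := hc.eventually_lt continuousAt_const ht
  obtain ⟨δ, hδ, hball⟩ := Metric.eventually_nhds_iff.1 hev
  obtain ⟨b₀, hb₀, hlt⟩ := exists_lt_of_rho_lt (L := L) (v := v)
    (show rho L v < rho L v + δ by linarith)
  refine ⟨b₀, hb₀, fun b _ hbb => ?_⟩
  have h1 : φ * ‖v - b₀‖ ^ q < t := by
    refine hball ?_
    rw [Real.dist_eq, abs_lt]
    have h2 := rho_le (v := v) hb₀
    constructor <;> linarith
  exact (mul_le_mul_of_nonneg_left (pow_le_pow_left₀ (norm_nonneg _) hbb q) hφ).trans_lt h1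

/-- two centres: the distance of a centre to a strictly closer centre -/
theorem norm_sub_of_closer {b b' : W} (h : ‖v - b'‖ < ‖v - b‖) : ‖b' - b‖ = ‖v - b‖ := by
  have h1 : b' - b = (v - b) + (-(v - b')) := by ring
  have h2 := IsUltrametricDist.norm_add_le_max (v - b) (-(v - b'))
  rw [← h1, norm_neg, max_eq_left h.le] at h2
  have h3 := IsUltrametricDist.norm_add_le_max (b' - b) (v - b')
  have h4 : b' - b + (v - b') = v - b := by ring
  rw [h4] at h3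
  rcases le_max_iff.1 h3 with h5 | h5
  · exact le_antisymm h2 h5
  · exact absurd h5 (not_le.2 h)

theorem norm_sub_le_of_le {b b' : W} (h : ‖v - b'‖ ≤ ‖v - b‖) : ‖b' - b‖ ≤ ‖v - b‖ := by
  have h1 : b' - b = (v - b) + (-(v - b')) := by ring
  have h2 := IsUltrametricDist.norm_add_le_max (v - b) (-(v - b'))
  rw [← h1, norm_neg, max_eq_left h] at h2
  exact h2

/-- A bound for the Taylor coefficients of a fixed polynomial at all centres close to `v`:
let `h` be the polynomial, `b₁` a centre; then for `b` with `‖v - b‖ ≤ ‖v - b₁‖`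
`‖(taylor b h)_n‖ * ‖v - b₁‖ ^ n ≤ max_{m ≥ n} ‖(taylor b₁ h)_m‖ * ‖v - b₁‖ ^ m`. -/
theorem norm_taylor_closer {h : W[X]} {b b₁ : W} (hpos : 0 < ‖v - b₁‖)
    (hb : ‖v - b‖ ≤ ‖v - b₁‖) {N : ℝ} {n : ℕ}
    (hN : ∀ m, n ≤ m → ‖(taylor b₁ h).coeff m‖ * ‖v - b₁‖ ^ m ≤ N) :
    ‖(taylor b h).coeff n‖ * ‖v - b₁‖ ^ n ≤ N := by
  have h1 : taylor b h = taylor (b - b₁) (taylor b₁ h) := by
    rw [taylor_taylor, sub_add_cancel]
  rw [h1]
  exact norm_taylor_coeff_le hpos (norm_sub_le_of_le hb) hN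

end HR
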