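import Pool.Agent.Lib.HR.BLem
import Pool.Agent.Lib.HR.T4L

/-!
# DefA: first consequences of the defect data

`claimB`: take `g` with `‖f v - wp (g v)‖ < t`, `h = f - wp g`; `h ≠ 0` since its value has norm
`> δ`.  By `T4.stable` for `h`: for `b` close to `v`, `‖h b‖ = ‖h v‖ < t` and
`‖(taylor b h)_n‖ ‖v-b‖ ^ n < ‖h v‖ < t` for `n ≥ 1`; `norm_cc_lt` gives the first statement, and
`h b = f b - wp (g b)` the second.

`claimB'`: given `b` and `N > δ` with `‖c_n‖ ‖v - b‖ ^ n ≤ N`: take `b'` closer to `v` than `b` and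
than the centre of `claimB` for `t = N`: `‖f b' - wp g‖ < N`, and by `cc_eval` (at `y = b'`)
`f b' - f b = c (b' - b) + wp (..)` with `‖c (b' - b)‖ ≤ N` (`norm_eval_le`).

`claimA`: suppose `‖c_n‖ ‖v-b‖ ^ n ≤ δ` for all `n ≥ 1`.  By `claimB'` for every `N > δ` there is
`g ∈ L` with `‖f b - wp g‖ ≤ N`; by `B_lemma` there is one with `≤ δ`.  Then by `cc_eval` at `y = v`,
`f v - wp (g + G (v - b)) = (f b - wp g) + c (v - b)` has norm `≤ δ`, against `Dfd.lt` for the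
polynomial `C g + G.comp (X - C b)`.
-/

namespace HR

open Polynomial

variable {W : Type*} [NormedField W] [IsUltrametricDist W] {p : ℕ} [Fact p.Prime] [CharP W p]
  {L : Subfield W} {σ : W → W} {v : W} {f : W[X]} {δ : ℝ}

theorem claimB (hσ : Cart p L σ) (hv : T4 L v) (hd : Dfd p L v f δ) {t : ℝ} (ht : δ < t) :
    ∃ b₀ ∈ L, ∀ b ∈ L, ‖v - b‖ ≤ ‖v - b₀‖ →
      (∀ n, 1 ≤ n → ‖(cc σ p f b).coeff n‖ * ‖v - b‖ ^ n < t) ∧
      ∃ g ∈ L, ‖f.eval b - wp p g‖ < t := by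
  obtain ⟨g, hg, hgt⟩ := hd.near t ht
  have hh : PolyIn L (f - wp p g) :=
    polyIn_sub hd.polyIn (polyIn_sub (polyIn_pow hg p) hg)
  have hev : ∀ y : W, (f - wp p g).eval y = f.eval y - wp p (g.eval y) := by
    intro y
    rw [eval_sub, wp_eval]
  have hδ := hd.one_le
  have h0 : f - wp p g ≠ 0 := by
    intro h0
    have h1 := hd.lt g hg
    rw [← hev, h0, eval_zero, norm_zero] at h1
    linarith
  obtain ⟨-, b₀, hb₀, hst⟩ := hv.stable hh h0
  rw [hev] at hst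
  refine ⟨b₀, hb₀, fun b hb hbb => ?_⟩
  obtain ⟨h1, h2⟩ := hst b hb hbb
  refine ⟨fun n hn => ?_, g.eval b, eval_mem hg hb, ?_⟩
  · exact norm_cc_lt hσ hd.polyIn hg hb (hv.pos hb) (lt_of_le_of_lt hδ ht)
      (fun m hm => (h2 m hm).trans hgt) hn
  · rw [← hev, h1]
    exact hgt

theorem claimB' (hσ : Cart p L σ) (hv : T4 L v) (hd : Dfd p L v f δ) {b : W} (hb : b ∈ L)
    {N : ℝ} (hN : δ < N) (h : ∀ n, 1 ≤ n → ‖(cc σ p f b).coeff n‖ * ‖v - b‖ ^ n ≤ N) :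
    ∃ g ∈ L, ‖f.eval b - wp p g‖ ≤ N := by
  have hδ := hd.one_le
  obtain ⟨b₀, hb₀, hcl⟩ := claimB hσ hv hd hN
  obtain ⟨b', hb', h1, h2⟩ := exists_closer hv hb hb₀
  obtain ⟨-, g, hg, hgN⟩ := hcl b' hb' h2
  obtain ⟨G, hG, -, hGe⟩ := cc_eval hσ hd.polyIn hb
  have h3 := hGe b'
  refine ⟨g - G.eval (b' - b), sub_mem hg (eval_mem hG (sub_mem hb' hb)), ?_⟩
  have h4 : f.eval b - wp p (g - G.eval (b' - b)) =
      (f.eval b' - wp p g) - (cc σ p f b).eval (b' - b) := by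
    rw [wp_sub, h3]
    ring
  rw [h4, sub_eq_add_neg]
  refine (IsUltrametricDist.norm_add_le_max _ _).trans (max_le hgN.le ?_)
  rw [norm_neg]
  exact norm_eval_le (hv.pos hb) (by linarith) (cc_coeff_zero hσ hd.polyIn hb)
    (norm_sub_le_of_le h1) h

theorem claimA (c : PCoord p L) (hF : FPP p L) (hv : T4 L v) (hd : Dfd p L v f δ) {b : W}
    (hb : b ∈ L) : ∃ n, 1 ≤ n ∧ δ < ‖(cc (c.σ c.o) p f b).coeff n‖ * ‖v - b‖ ^ n := by
  by_contra hcon
  push Not at hcon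
  have hσ : Cart p L (c.σ c.o) := c.cart
  have hδ := hd.one_le
  obtain ⟨g, hg, hgδ⟩ := B_lemma c hF (eval_mem hd.polyIn hb) hδ (fun t ht => by
    obtain ⟨g, hg, hgN⟩ := claimB' hσ hv hd hb (N := (δ + t) / 2) (by linarith)
      (fun n hn => (hcon n hn).trans (by linarith))
    exact ⟨g, hg, by linarith⟩)
  obtain ⟨G, hG, -, hGe⟩ := cc_eval hσ hd.polyIn hb
  have h3 := hGe v
  have hP : PolyIn L (C g + G.comp (X - C b)) :=
    polyIn_add (polyIn_C hg) (polyIn_comp hG (polyIn_sub polyIn_X (polyIn_C hb)))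
  have h4 := hd.lt _ hP
  have h5 : (C g + G.comp (X - C b)).eval v = g + G.eval (v - b) := by
    rw [eval_add, eval_C, eval_comp, eval_sub, eval_X, eval_C]
  have h6 : f.eval v - wp p (g + G.eval (v - b)) =
      (f.eval b - wp p g) + (cc (c.σ c.o) p f b).eval (v - b) := by
    rw [wp_add, h3]
    ring
  rw [h5, h6] at h4
  have h7 : ‖(cc (c.σ c.o) p f b).eval (v - b)‖ ≤ δ :=
    norm_eval_le (hv.pos hb) (by linarith) (cc_coeff_zero hσ hd.polyIn hb) le_rfl hcon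
  have h8 := (IsUltrametricDist.norm_add_le_max (f.eval b - wp p g)
    ((cc (c.σ c.o) p f b).eval (v - b))).trans (max_le hgδ h7)
  linarith

end HR
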