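import Pool.Agent.Lib.HR.T4L

/-!
# DefC: the stable top index

General form: `K` is a subfield containing `L` with a Cartier operator `σ` (used for `K = L` and for
`K = ⊤`), `f ∈ K[X]`, centres `b ∈ L`.  Hypotheses: at every centre `b` the maximum
`N_b = max_{n ≥ 1} ‖c_n(b)‖ ‖v - b‖ ^ n` is `> δ ≥ 1` (`hA`), and `N_b < t` for `b` close, every
`t > δ` (`hB`).

For each `b` there is a top index `n_b` at the radius `‖v - b‖` (`exists_isTop`), and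
`N_b = ‖c_{n_b}‖ ‖v-b‖ ^ n_b > δ ≥ 1`.  For `b'` with `‖v - b'‖ ≤ ‖v - b‖`: by `cc_recenter` and
`top_recenter` (radius `s = ‖v - b‖`, `e = b' - b`, `‖e‖ ≤ s`) the top index of `cc f b'` at the
radius `‖v - b‖` is again `n_b`, with `‖c_{n_b}(b')‖ = ‖c_{n_b}(b)‖`; by `IsTop.mono` `n_{b'} ≤ n_b`.
Choose `b₁` with `q = n_{b₁}` minimal (well-founded).  Then for all `b` with `‖v-b‖ ≤ ‖v-b₁‖`:
`n_b = q`, `‖c_q(b)‖ = ‖c_q(b₁)‖ = φ`, and `IsTop ‖v - b₁‖ (cc f b) q` gives `big`.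
`val`: `φ ‖v-b‖ ^ q = N_b > δ`, and `< t` for `b` close, so `φ ρ ^ q = δ` by continuity
(`exists_mul_pow_lt`, `rho_le`): if `φ ρ ^ q < δ` then `φ ‖v - b‖ ^ q < δ` for `b` close,
contradiction; `φ ρ ^ q ≤ φ ‖v - b‖ ^ q < t` for every `t > δ`.
-/

namespace HR

open Polynomial

variable {W : Type*} [NormedField W] [IsUltrametricDist W] {p : ℕ} [Fact p.Prime] [CharP W p]
  {L K : Subfield W} {σ : W → W} {v : W} {f : W[X]} {δ : ℝ}

theorem exists_stab (hLK : L ≤ K) (hσ : Cart p K σ) (hf : PolyIn K f) (hv : T4 L v)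
    (hδ : 1 ≤ δ)
    (hA : ∀ b ∈ L, ∃ n, 1 ≤ n ∧ δ < ‖(cc σ p f b).coeff n‖ * ‖v - b‖ ^ n)
    (hB : ∀ t, δ < t → ∃ b₀ ∈ L, ∀ b ∈ L, ‖v - b‖ ≤ ‖v - b₀‖ →
      ∀ n, 1 ≤ n → ‖(cc σ p f b).coeff n‖ * ‖v - b‖ ^ n < t) :
    ∃ q φ b₁, Stab σ p L v f δ q φ b₁ := by
  classical
  -- the top index at a centre
  have hne : ∀ b ∈ L, ∃ n, 1 ≤ n ∧ (cc σ p f b).coeff n ≠ 0 := by
    intro b hb
    obtain ⟨n, hn, hlt⟩ := hA b hb
    refine ⟨n, hn, fun h0 => ?_⟩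
    rw [h0, norm_zero, zero_mul] at hlt
    linarith
  have htop : ∀ b ∈ L, ∃ ν, IsTop ‖v - b‖ (cc σ p f b) ν := fun b hb =>
    exists_isTop (hv.pos hb) (hne b hb)
  have hbig : ∀ b ∈ L, ∀ ν, IsTop ‖v - b‖ (cc σ p f b) ν →
      δ < ‖(cc σ p f b).coeff ν‖ * ‖v - b‖ ^ ν := by
    intro b hb ν hν
    obtain ⟨n, hn, hlt⟩ := hA b hb
    exact hlt.trans_le (hν.le n hn)
  -- recentring
  have hrec : ∀ b ∈ L, ∀ ν, IsTop ‖v - b‖ (cc σ p f b) ν → ∀ b' ∈ L, ‖v - b'‖ ≤ ‖v - b‖ →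
      IsTop ‖v - b‖ (cc σ p f b') ν ∧
        ‖(cc σ p f b').coeff ν‖ = ‖(cc σ p f b).coeff ν‖ := by
    intro b hb ν hν b' hb' hle
    have hbK := hLK hb
    have hbK' := hLK hb'
    have h1 := top_recenter hσ (polyIn_cc hσ hf hbK) (Sop_cc hσ hf hbK) (hv.pos hb) hν
      (lt_of_le_of_lt hδ (hbig b hb ν hν)) (sub_mem hbK' hbK) (norm_sub_le_of_le hle)
    rw [← cc_recenter hσ hf hbK hbK'] at h1
    refine ⟨h1.1, ?_⟩
    have h2 : ‖(cc σ p f b').coeff ν - (cc σ p f b).coeff ν‖ < ‖(cc σ p f b).coeff ν‖ :=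
      lt_of_mul_lt_mul_right h1.2 (pow_nonneg (norm_nonneg _) _)
    have h3 : (cc σ p f b').coeff ν =
        (cc σ p f b).coeff ν + ((cc σ p f b').coeff ν - (cc σ p f b).coeff ν) := by ring
    rw [h3, IsUltrametricDist.norm_add_eq_max_of_norm_ne_norm h2.ne', max_eq_left h2.le]
  -- minimal top index
  have hex : ∃ q, ∃ b ∈ L, IsTop ‖v - b‖ (cc σ p f b) q := by
    obtain ⟨ν, hν⟩ := htop 0 (zero_mem L)
    exact ⟨ν, 0, zero_mem L, hν⟩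
  set q := Nat.find hex with hq
  obtain ⟨b₁, hb₁, ht₁⟩ := Nat.find_spec hex
  have hmin : ∀ b ∈ L, ∀ ν, IsTop ‖v - b‖ (cc σ p f b) ν → q ≤ ν := fun b hb ν hν =>
    Nat.find_min' hex ⟨b, hb, hν⟩
  have hall : ∀ b ∈ L, ‖v - b‖ ≤ ‖v - b₁‖ → IsTop ‖v - b‖ (cc σ p f b) q := by
    intro b hb hle
    obtain ⟨ν, hν⟩ := htop b hb
    have h1 := (hrec b₁ hb₁ q ht₁ b hb hle).1
    have h2 : ν ≤ q := IsTop.mono (hv.pos hb) hle h1 hν
    have h3 : q ≤ ν := hmin b hb ν hν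
    rwa [le_antisymm h2 h3] at hν
  set φ := ‖(cc σ p f b₁).coeff q‖ with hφ
  have hφ0 : 0 < φ := norm_pos_iff.2 ht₁.ne
  have hlead : ∀ b ∈ L, ‖v - b‖ ≤ ‖v - b₁‖ → ‖(cc σ p f b).coeff q‖ = φ := fun b hb hle =>
    (hrec b₁ hb₁ q ht₁ b hb hle).2
  refine ⟨q, φ, b₁, ⟨hb₁, ht₁.one_le, hφ0, ?_, hall, hlead, ?_⟩⟩
  · -- the value
    refine le_antisymm ?_ ?_
    · by_contra hcon
      push Not at hcon
      obtain ⟨b₀, hb₀, h0⟩ := hB _ hcon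
      obtain ⟨b, hb, hb1, hb2⟩ := exists_closer hv hb₀ hb₁
      have h1 := h0 b hb hb1 q ht₁.one_le
      rw [hlead b hb hb2] at h1
      have h2 : φ * rho L v ^ q ≤ φ * ‖v - b‖ ^ q :=
        mul_le_mul_of_nonneg_left (pow_le_pow_left₀ rho_nonneg (rho_le hb) q) hφ0.le
      linarith
    · by_contra hcon
      push Not at hcon
      obtain ⟨b₀, hb₀, h0⟩ := exists_mul_pow_lt hφ0.le q hcon
      obtain ⟨b, hb, hb1, hb2⟩ := exists_closer hv hb₀ hb₁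
      have h1 := h0 b hb hb1
      have h2 := hbig b hb q (hall b hb hb2)
      rw [hlead b hb hb2] at h2
      linarith
  · intro b hb hle n hn
    have h1 := (hrec b₁ hb₁ q ht₁ b hb hle).1.lt n hn
    rwa [hlead b hb hle] at h1

end HR
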