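import Mathlib

/-!
# Henselian rationality over Abhyankar fields: definitions

All fields are subfields of one ultrametric field `W` of characteristic `p`.
Polynomials over a subfield `L` are elements of `W[X]` with coefficients in `L` (`PolyIn`).
-/

namespace HR

open Polynomial

section defs

variable {W : Type*} [NormedField W]

/-- all coefficients of `f` lie in the subfield `L` -/
def PolyIn (L : Subfield W) (f : W[X]) : Prop := ∀ n, f.coeff n ∈ L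

/-- the Artin-Schreier operator `g ^ p - g` -/
def wp (p : ℕ) {R : Type*} [Ring R] (g : R) : R := g ^ p - g

/-- Orthogonal coordinates of `L` over `L ^ p`: an orthogonal basis `x j` (with `x o = 1`) and the
coordinate functions `σ j`, `y = ∑ (σ j y) ^ p * x j`. -/
structure PCoord (p : ℕ) (L : Subfield W) where
  J : Type
  fin : Fintype J
  dec : DecidableEq J
  o : J
  x : J → W
  σ : J → W → W
  x_mem : ∀ j, x j ∈ L
  x_ne : ∀ j, x j ≠ 0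
  x_o : x o = 1
  σ_mem : ∀ j, ∀ y ∈ L, σ j y ∈ L
  sum : ∀ y ∈ L, ∑ j, (σ j y) ^ p * x j = y
  orth : ∀ a : J → W, (∀ j, a j ∈ L) → ∀ j, ‖a j‖ ^ p * ‖x j‖ ≤ ‖∑ i, (a i) ^ p * x i‖

attribute [instance] PCoord.fin PCoord.dec

/-- Cartier type operator on `L`: additive, `p⁻¹`-linear, `σ 1 = 1`, `‖σ y‖ ^ p ≤ ‖y‖`. -/
structure Cart (p : ℕ) (L : Subfield W) (σ : W → W) : Prop where
  mem : ∀ y ∈ L, σ y ∈ L
  add : ∀ y ∈ L, ∀ z ∈ L, σ (y + z) = σ y + σ z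
  smul : ∀ a ∈ L, ∀ y ∈ L, σ (a ^ p * y) = a * σ y
  one : σ 1 = 1
  norm : ∀ y ∈ L, ‖σ y‖ ^ p ≤ ‖y‖

/-- Solvability of `X = A + C X` for additive `p⁻¹`-linear operators `C` of `L ^ ι`. -/
def FPP (p : ℕ) (L : Subfield W) : Prop :=
  ∀ (ι : Type) [Fintype ι] (C : (ι → W) → (ι → W)),
    (∀ X : ι → W, (∀ i, X i ∈ L) → ∀ i, C X i ∈ L) →
    (∀ X Y : ι → W, (∀ i, X i ∈ L) → (∀ i, Y i ∈ L) → C (X + Y) = C X + C Y) →
    (∀ a ∈ L, ∀ X : ι → W, (∀ i, X i ∈ L) → C (fun i => a ^ p * X i) = fun i => a * C X i) →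
    ∀ A : ι → W, (∀ i, A i ∈ L) → ∃ X : ι → W, (∀ i, X i ∈ L) ∧ X = A + C X

/-- Finite orthogonal `K`-basis `e` of the subset `X`. -/
structure IsOB (K : Subfield W) {ι : Type*} [Fintype ι] (e : ι → W) (X : Set W) : Prop where
  ne : ∀ i, e i ≠ 0
  span : ∀ y, y ∈ X ↔ ∃ a : ι → W, (∀ i, a i ∈ K) ∧ y = ∑ i, a i * e i
  orth : ∀ a : ι → W, (∀ i, a i ∈ K) → ∀ i, ‖a i‖ * ‖e i‖ ≤ ‖∑ j, a j * e j‖

/-- `X` has a finite orthogonal `K`-basis. -/
def HasOB (K : Subfield W) (X : Set W) : Prop :=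
  ∃ (n : ℕ) (e : Fin n → W), IsOB K e X

/-- `K`-linear subsets. -/
structure KSub (K : Subfield W) (Y : Set W) : Prop where
  zero : (0 : W) ∈ Y
  add : ∀ a ∈ Y, ∀ b ∈ Y, a + b ∈ Y
  smul : ∀ c ∈ K, ∀ a ∈ Y, c * a ∈ Y

/-- `S` is immediate over `L`: nonzero elements of `S` are approximated by elements of `L`. -/
def Imm (L : Subfield W) (S : Set W) : Prop :=
  ∀ y ∈ S, y ≠ 0 → ∃ c ∈ L, ‖y - c‖ < ‖y‖

/-- `v` is a point of type four over `L`, or a transcendental element of the completion: no best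
approximation, and every polynomial over `L` is dominated by its constant term near `v`. -/
structure T4 (L : Subfield W) (v : W) : Prop where
  imm : ∀ b ∈ L, ∃ b' ∈ L, ‖v - b'‖ < ‖v - b‖
  tt : ∀ P : W[X], PolyIn L P → P ≠ 0 → ∃ b₀ ∈ L, ∀ b ∈ L, ‖v - b‖ ≤ ‖v - b₀‖ →
    ∀ n, 1 ≤ n → ‖(taylor b P).coeff n‖ * ‖v - b‖ ^ n < ‖P.eval b‖

/-- the distance of `v` to `L` -/
noncomputable def rho (L : Subfield W) (v : W) : ℝ := sInf {r | ∃ b ∈ L, r = ‖v - b‖}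

/-- Cartier type operator on polynomials: coefficient `n ≥ 1` of `Sop σ p h` is
`σ (h.coeff (p * n))`. -/
noncomputable def Sop (σ : W → W) (p : ℕ) (h : W[X]) : W[X] :=
  ∑ n ∈ Finset.Icc 1 h.natDegree, monomial n (σ (h.coeff (p * n)))

/-- `G = S h + S² h + ...` -/
noncomputable def Gop (σ : W → W) (p : ℕ) (h : W[X]) : W[X] :=
  ∑ i ∈ Finset.Icc 1 (h.natDegree + 1), (Sop σ p)^[i] h

/-- the Artin-Schreier normal form of `h` (the constant term is untouched) -/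
noncomputable def NF (σ : W → W) (p : ℕ) (h : W[X]) : W[X] := h + Gop σ p h - (Gop σ p h) ^ p

/-- the normal form of the nonconstant part of `f` at the centre `b` -/
noncomputable def cc (σ : W → W) (p : ℕ) (f : W[X]) (b : W) : W[X] :=
  NF σ p (taylor b f - C (f.eval b))

/-- `ν` is the top dominating index `≥ 1` of `h` at radius `s`. -/
structure IsTop (s : ℝ) (h : W[X]) (ν : ℕ) : Prop where
  one_le : 1 ≤ ν
  ne : h.coeff ν ≠ 0
  le : ∀ n, 1 ≤ n → ‖h.coeff n‖ * s ^ n ≤ ‖h.coeff ν‖ * s ^ ν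
  lt : ∀ n, ν < n → ‖h.coeff n‖ * s ^ n < ‖h.coeff ν‖ * s ^ ν

/-- Defect data: `δ ≥ 1` is the infimum, not attained, of `‖f v - wp (g v)‖` over `g ∈ L[X]`. -/
structure Dfd (p : ℕ) (L : Subfield W) (v : W) (f : W[X]) (δ : ℝ) : Prop where
  polyIn : PolyIn L f
  one_le : 1 ≤ δ
  lt : ∀ g : W[X], PolyIn L g → δ < ‖f.eval v - wp p (g.eval v)‖
  near : ∀ t, δ < t → ∃ g : W[X], PolyIn L g ∧ ‖f.eval v - wp p (g.eval v)‖ < t

/-- Stable top index data (conclusion of the top index analysis). -/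
structure Stab (σ : W → W) (p : ℕ) (L : Subfield W) (v : W) (f : W[X]) (δ : ℝ)
    (q : ℕ) (φ : ℝ) (b₁ : W) : Prop where
  mem : b₁ ∈ L
  one_le : 1 ≤ q
  pos : 0 < φ
  val : φ * rho L v ^ q = δ
  top : ∀ b ∈ L, ‖v - b‖ ≤ ‖v - b₁‖ → IsTop ‖v - b‖ (cc σ p f b) q
  lead : ∀ b ∈ L, ‖v - b‖ ≤ ‖v - b₁‖ → ‖(cc σ p f b).coeff q‖ = φ
  big : ∀ b ∈ L, ‖v - b‖ ≤ ‖v - b₁‖ → ∀ n, q < n →
    ‖(cc σ p f b).coeff n‖ * ‖v - b₁‖ ^ n < φ * ‖v - b₁‖ ^ q

/-- The additive structure at the centre `b`. -/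
structure AddData (σ : W → W) (p : ℕ) (L : Subfield W) (v : W) (f : W[X]) (δ : ℝ)
    (q : ℕ) (b : W) : Prop where
  mem : b ∈ L
  pow : ∃ j, 1 ≤ j ∧ q = p ^ j
  small : ∀ n, 1 ≤ n → ((∀ i, n ≠ p ^ i) ∨ q < n) →
    ‖(cc σ p f b).coeff n‖ * ‖v - b‖ ^ n < δ
  bdd : ∀ i, ‖(cc σ p f b).coeff (p ^ i)‖ * rho L v ^ (p ^ i) ≤ δ

/-- `h` is linearly dominated at the centre `b` (radius `‖v - b‖`). -/
def LinDom (v : W) (h : W[X]) (b : W) : Prop :=
  ∀ n, 2 ≤ n → ‖(taylor b h).coeff n‖ * ‖v - b‖ ^ n < ‖(taylor b h).coeff 1‖ * ‖v - b‖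

end defs

end HR
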