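import Pool.Agent.Lib.HR.PM
import Pool.Agent.Lib.MP_1a953e_ag.Gal2

/-!
# Dev: reduction to towers of Artin-Schreier extensions

Let `K'` be `PClosed` over `K` (`exists_pclosed`), `M' = Q ⊔ K'`.  `E / Q` finite separable.  Apply
`galois_devissage` to the base `M'` and the field `M'(y)`, `E = Q(y)` (`FSep.prim`); the field `E0` has degree
prime to `p` over `M'` and is separable, so `E0 = M'` (`pm`, primitive element).  Use the property

`P F : ∃ K₁ D, FSep K K₁ ∧ K₁ ≤ K' ∧ ASTower p (Q ⊔ K₁) D ∧ D ≤ E ⊔ K₁ ∧ F = D ⊔ K'`.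

Start: `F = M'`, `K₁ = K`, `D = Q ⊔ K = Q`.  Step: `F = D ⊔ K'`, `z ∈ M'(y) = E ⊔ K'`, `z ^ p - z ∈ F`.  By
`exists_finset_of_mem_sup` and `PClosed.loc` there is `K₂ ≤ K'`, `FSep K K₂`, `K₁ ≤ K₂`, with
`z ∈ E ⊔ K₂` and `z ^ p - z ∈ D ⊔ K₂`.  `astower_sup`: `ASTower p (Q ⊔ K₂) (D ⊔ K₂)` (induction,
`adj D z ⊔ M = adj (D ⊔ M) z`; `(Q ⊔ K₁) ⊔ K₂ = Q ⊔ K₂`), so `ASTower p (Q ⊔ K₂) (adj (D ⊔ K₂) z)`, and
`F ⊔ closure {z} = adj (D ⊔ K₂) z ⊔ K'`.
End: `E ⊔ K' = D ⊔ K'` with `D ≤ E ⊔ K₁`; `y ∈ D ⊔ K₃` for some `K₃ ≥ K₁`, `FSep K K₃`, `K₃ ≤ K'`, so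
`E ⊔ K₃ = D ⊔ K₃` and `ASTower p (Q ⊔ K₃) (E ⊔ K₃)`; the degree of `K₃` is prime to `p` (`PClosed.sub`).
-/

namespace HR

open Polynomial MP1a953e

variable {W : Type*} [NormedField W] {p : ℕ}

theorem astower_sup {Q D : Subfield W} (h : ASTower p Q D) (M : Subfield W) :
    ASTower p (Q ⊔ M) (D ⊔ M) := by
  induction h with
  | base => exact ASTower.base
  | step D z h hz ih =>
    have h1 : adj D z ⊔ M = adj (D ⊔ M) z := by
      unfold MP1a953e.adj
      rw [sup_assoc, sup_comm (Subfield.closure {z}) M, sup_assoc]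
    rw [h1]
    exact ASTower.step _ z ih ((le_sup_left : D ≤ D ⊔ M) hz)

theorem ASTower.le {Q D : Subfield W} (h : ASTower p Q D) : Q ≤ D := by
  induction h with
  | base => exact le_rfl
  | step D z h hz ih => exact ih.trans (le_adj _ _)

variable [IsUltrametricDist W] [IsAlgClosed W] [Fact p.Prime] [CharP W p]
  {k L K Q E : Subfield W}

theorem dev (hk : IsAlgClosed k) (h : HCl p k L K) (hI : MP1a953e.Imm K Q)
    (hQ : IsComplete (Q : Set W)) (hE : FSep Q E) :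
    ∃ K₁, FSep K K₁ ∧ ¬ p ∣ K.relfinrank K₁ ∧ ASTower p (Q ⊔ K₁) (E ⊔ K₁) := by
  classical
  obtain ⟨K', hP⟩ := exists_pclosed (p := p) K
  have hKQ : K ≤ Q := hI.1
  have hQE : Q ≤ E := hE.le
  obtain ⟨y, hyE, -, hEy⟩ := hE.prim
  -- the field `E ⊔ K'` over `Q ⊔ K'`
  have hsup : FSep (Q ⊔ K' : Subfield W) ((Q ⊔ K') ⊔ E) := hE.sup_base le_sup_left
  obtain ⟨E1, hfin1, hsep1, hE1⟩ := hsup.toIF
  obtain ⟨E0, hfin0, hsep0, hdeg0, hind⟩ := galois_devissage (p := p) (Q ⊔ K') E1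
  have hE0 : E0.toSubfield = Q ⊔ K' := by
    have h1 : FSep (Q ⊔ K' : Subfield W) E0.toSubfield := FSep.ofIF E0
    obtain ⟨x, hx, hxs, hxe⟩ := h1.prim
    have h2 : (Q ⊔ K' : Subfield W).relfinrank E0.toSubfield = (minpoly (Q ⊔ K' : Subfield W) x).natDegree := by
      rw [hxe, relfinrank_adj hxs]
    have h3 : (Q ⊔ K' : Subfield W).relfinrank E0.toSubfield =
        Module.finrank (Q ⊔ K' : Subfield W) E0 := by
      rw [Subfield.relfinrank_eq_finrank_of_le h1.le]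
      have h4 : Subfield.extendScalars h1.le = E0 := by
        ext t
        rfl
      rw [h4]
    have h5 : x ∈ Q ⊔ K' := pm hk h hI hQ hP hxs (by rw [← h2, h3]; exact hdeg0)
    apply le_antisymm _ h1.le
    rw [hxe]
    exact adj_le le_rfl h5
  have hE10 : (E1 ⊔ E0).toSubfield = E ⊔ K' := by
    have h1 : E0 ≤ E1 := by
      intro t ht
      have h2 : t ∈ E0.toSubfield := ht
      rw [hE0] at h2
      have h3 : t ∈ E1.toSubfield := by
        rw [hE1]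
        exact (le_sup_left : Q ⊔ K' ≤ (Q ⊔ K') ⊔ E) h2
      exact h3
    rw [sup_eq_left.2 h1, hE1]
    apply le_antisymm
    · exact sup_le (sup_le (hQE.trans le_sup_left) le_sup_right) le_sup_left
    · exact sup_le le_sup_right (le_sup_right.trans le_sup_left)
  rw [hE0, hE10] at hind
  have hend := hind
    (fun F => ∃ K₁ D, FSep K K₁ ∧ K₁ ≤ K' ∧ ASTower p (Q ⊔ K₁) D ∧ D ≤ E ⊔ K₁ ∧ F = D ⊔ K')
    (by
      refine ⟨K, Q ⊔ K, FSep.refl K, hP.le, ASTower.base, sup_le (hQE.trans le_sup_left)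
        le_sup_right, ?_⟩
      rw [sup_assoc, sup_eq_right.2 hP.le])
    (by
      rintro F z - - hz hzF ⟨K₁, D, hK₁, hK₁', hT, hDE, rfl⟩
      obtain ⟨s1, hs1, hzs1⟩ := exists_finset_of_mem_sup hz
      obtain ⟨s2, hs2, hzs2⟩ := exists_finset_of_mem_sup hzF
      obtain ⟨E', hE', hE'K, hsE', -⟩ := hP.loc (s1 ∪ s2) (by
        rw [Finset.coe_union]
        exact Set.union_subset hs1 hs2)
      rw [Finset.coe_union] at hsE'
      have hc1 : Subfield.closure (s1 : Set W) ≤ K₁ ⊔ E' :=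
        Subfield.closure_le.2 (Set.subset_union_left.trans
          (hsE'.trans (SetLike.coe_subset_coe.2 (le_sup_right : E' ≤ K₁ ⊔ E'))))
      have hc2 : Subfield.closure (s2 : Set W) ≤ K₁ ⊔ E' :=
        Subfield.closure_le.2 (Set.subset_union_right.trans
          (hsE'.trans (SetLike.coe_subset_coe.2 (le_sup_right : E' ≤ K₁ ⊔ E'))))
      have hz1 : z ∈ E ⊔ (K₁ ⊔ E') := (sup_le_sup_left hc1 E) hzs1
      have hz2 : z ^ p - z ∈ D ⊔ (K₁ ⊔ E') := (sup_le_sup_left hc2 D) hzs2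
      have hK2' : K₁ ⊔ E' ≤ K' := sup_le hK₁' hE'K
      refine ⟨K₁ ⊔ E', adj (D ⊔ (K₁ ⊔ E')) z, hK₁.sup hE', hK2', ?_, ?_, ?_⟩
      · have h1 := astower_sup hT (K₁ ⊔ E')
        rw [sup_assoc, sup_eq_right.2 (le_sup_left : K₁ ≤ K₁ ⊔ E')] at h1
        exact ASTower.step _ z h1 hz2
      · refine adj_le (sup_le ?_ le_sup_right) hz1
        exact hDE.trans (sup_le_sup_left le_sup_left E)
      · unfold MP1a953e.adj
        apply le_antisymm
        · refine sup_le (sup_le ?_ le_sup_right) ?_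
          · exact le_sup_left.trans (le_sup_left.trans le_sup_left)
          · exact le_sup_right.trans le_sup_left
        · refine sup_le (sup_le (sup_le ?_ ?_) le_sup_right) ?_
          · exact le_sup_left.trans le_sup_left
          · exact hK2'.trans (le_sup_right.trans le_sup_left)
          · exact le_sup_right.trans le_sup_left)
  obtain ⟨K₁, D, hK₁, hK₁', hT, hDE, hEK⟩ := hend
  have hyD : y ∈ D ⊔ K' := by
    rw [← hEK]
    exact (le_sup_left : E ≤ E ⊔ K') hyE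
  obtain ⟨s, hs, hys⟩ := exists_finset_of_mem_sup hyD
  obtain ⟨E', hE', hE'K, hsE', -⟩ := hP.loc s hs
  have hc : Subfield.closure (s : Set W) ≤ K₁ ⊔ E' :=
    Subfield.closure_le.2 (hsE'.trans (SetLike.coe_subset_coe.2 (le_sup_right : E' ≤ K₁ ⊔ E')))
  have hy3 : y ∈ D ⊔ (K₁ ⊔ E') := (sup_le_sup_left hc D) hys
  have hK3' : K₁ ⊔ E' ≤ K' := sup_le hK₁' hE'K
  refine ⟨K₁ ⊔ E', hK₁.sup hE', hP.sub _ (hK₁.sup hE') hK3', ?_⟩
  have h1 := astower_sup hT (K₁ ⊔ E')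
  rw [sup_assoc, sup_eq_right.2 (le_sup_left : K₁ ≤ K₁ ⊔ E')] at h1
  have h2 : E ⊔ (K₁ ⊔ E') = D ⊔ (K₁ ⊔ E') := by
    apply le_antisymm
    · refine sup_le ?_ le_sup_right
      rw [hEy]
      refine adj_le ?_ hy3
      exact (le_sup_left.trans hT.le).trans le_sup_left
    · refine sup_le ?_ le_sup_right
      exact hDE.trans (sup_le_sup_left le_sup_left E)
  rw [h2]
  exact h1

end HR
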