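import Pool.Agent.Lib.HR.BLem

/-!
# FixA: exact solutions of the additive system

`Lam c J a j y = σ_o^[j-1] (σ_J y / σ_J (a j))`, `T(e) = ∑_{i ≤ j} a_i e ^ (p^i)`,
`F = f₀ + T(e) - wp g`.  Wanted: `e, g ∈ L` with `Lam F = 0` and `σ_o F = 0`.

Computation (all in `L`, `σ_o (a_i) = 0` for `1 ≤ i ≤ j`, `J ≠ o`):
`σ_o (a_i e^(p^i)) = e^(p^(i-1)) σ_o (a_i) = 0` for `i ≥ 1`; `σ_o (g^p) = g`; so
`σ_o F = σ_o (f₀ + a_0 e + g) - g`.
`σ_J (a_i e^(p^i)) = e^(p^(i-1)) σ_J (a_i)` for `i ≥ 1`, `σ_J (g^p) = 0`, so with `s = σ_J (a_j)`: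
`σ_J F / s = (σ_J (f₀ + a_0 e + g))/s + ∑_{i=1}^{j-1} d_i e^(p^(i-1)) + e^(p^(j-1))`,
`d_i = σ_J (a_i)/s`, and `Lam F = e + σ_o^[j-1] ( (σ_J (f₀ + a_0 e + g))/s ) +
∑_{i=1}^{j-1} σ_o^[j-i] (e λ_i)`, `λ_i = σ_o^[i-1] (d_i)`.
Apply `FPP` with unknowns `g, e, s_1, ..., s_{j-1}` (e.g. `ι = Fin (j+1)`): if `j = 1`:
`g = σ_o (f₀) + σ_o (a_0 e + g)`, `e = -(σ_J f₀)/s - (σ_J (a_0 e + g))/s`.
If `j ≥ 2`: `g = σ_o f₀ + σ_o (a_0 e + g)`; `e = - σ_o (s_{j-1})`;
`s_1 = (σ_J f₀)/s + (σ_J (a_0 e + g))/s - d_1 σ_o (s_{j-1})`;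
`s_i = σ_o (s_{i-1}) - λ_i σ_o (s_{j-1})` for `2 ≤ i ≤ j-1`.
(Then `s_i = σ_o^[i-1] ((σ_J (f₀ + a_0 e + g))/s) + ∑_{l ≤ i} σ_o^[i-l] (λ_l e)` by induction.)
All operators are additive and `p⁻¹`-linear.
-/

namespace HR

open Polynomial

variable {W : Type*} [NormedField W] [IsUltrametricDist W] {p : ℕ} [Fact p.Prime] [CharP W p]
  {L : Subfield W}

omit [CharP W p] [IsUltrametricDist W] [Fact p.Prime] in
private theorem iter_mem (c : PCoord p L) (k : ℕ) {y : W} (hy : y ∈ L) :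
    (c.σ c.o)^[k] y ∈ L := by
  induction k generalizing y with
  | zero => exact hy
  | succ k ih =>
    rw [Function.iterate_succ_apply]
    exact ih (c.σ_mem _ _ hy)

private theorem iter_add (c : PCoord p L) (k : ℕ) {y z : W} (hy : y ∈ L) (hz : z ∈ L) :
    (c.σ c.o)^[k] (y + z) = (c.σ c.o)^[k] y + (c.σ c.o)^[k] z := by
  induction k generalizing y z with
  | zero => rfl
  | succ k ih =>
    rw [Function.iterate_succ_apply, Function.iterate_succ_apply, Function.iterate_succ_apply,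
      c.σ_add hy hz, ih (c.σ_mem _ _ hy) (c.σ_mem _ _ hz)]

private theorem iter_pow_mul (c : PCoord p L) (k : ℕ) {a y : W} (ha : a ∈ L) (hy : y ∈ L) :
    (c.σ c.o)^[k] (a ^ (p ^ k) * y) = a * (c.σ c.o)^[k] y := by
  induction k generalizing y with
  | zero => simp
  | succ k ih =>
    rw [Function.iterate_succ_apply, Function.iterate_succ_apply, pow_succ p k, pow_mul,
      c.σ_pow_mul (pow_mem ha _) hy, ih (c.σ_mem _ _ hy)]

private theorem iter_one (c : PCoord p L) (k : ℕ) : (c.σ c.o)^[k] 1 = 1 := by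
  induction k with
  | zero => rfl
  | succ k ih =>
    rw [Function.iterate_succ_apply, c.cart.one, ih]

/-- the projection `Lam` of the blueprint -/
noncomputable def Lam (c : PCoord p L) (J : c.J) (a : W) (j : ℕ) (y : W) : W :=
  (c.σ c.o)^[j - 1] (c.σ J y / c.σ J a)

theorem exists_fix (c : PCoord p L) (hF : FPP p L) {j : ℕ} (hj : 1 ≤ j) (a : ℕ → W)
    (ha : ∀ i, a i ∈ L) (hn : ∀ i, 1 ≤ i → c.σ c.o (a i) = 0) {J : c.J} (hJ : J ≠ c.o)
    (hJa : c.σ J (a j) ≠ 0) {f₀ : W} (hf₀ : f₀ ∈ L) :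
    ∃ e ∈ L, ∃ g ∈ L,
      Lam c J (a j) j (f₀ + ∑ i ∈ Finset.range (j + 1), a i * e ^ (p ^ i) - wp p g) = 0 ∧
      c.σ c.o (f₀ + ∑ i ∈ Finset.range (j + 1), a i * e ^ (p ^ i) - wp p g) = 0 := by
  classical
  set σ := c.σ c.o with hσ
  set τ := c.σ J with hτ
  set s := τ (a j) with hs
  have hsL : s ∈ L := c.σ_mem _ _ (ha j)
  have hσm : ∀ {y : W}, y ∈ L → σ y ∈ L := fun hy => c.σ_mem _ _ hy
  have hτm : ∀ {y : W}, y ∈ L → τ y ∈ L := fun hy => c.σ_mem _ _ hy
  -- coefficients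
  have hdL : ∀ k, τ (a k) / s ∈ L := fun k => div_mem (hτm (ha k)) hsL
  have hlL : ∀ k, σ^[k] (τ (a (k + 1)) / s) ∈ L := fun k => iter_mem c k (hdL _)
  have hlast : j - 1 < j := by omega
  -- the operator
  let E : (Option (Fin j) → W) → W := fun X => - X (some ⟨j - 1, hlast⟩)
  have hEL : ∀ X : Option (Fin j) → W, (∀ i, X i ∈ L) → E X ∈ L := fun X hX => neg_mem (hX _)
  let Cc : (Option (Fin j) → W) → Option (Fin j) → W := fun X o =>
    match o with
    | none => σ (a 0 * E X + X none)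
    | some i => if i.1 = 0 then τ (a 0 * E X + X none) / s
        else σ (X (some ⟨i.1 - 1, by omega⟩) + σ^[i.1 - 1] (τ (a (i.1 - 1 + 1)) / s) * E X)
  have hE0 : ∀ X : Option (Fin j) → W, (∀ i, X i ∈ L) → a 0 * E X + X none ∈ L :=
    fun X hX => add_mem (mul_mem (ha 0) (hEL X hX)) (hX _)
  have hE1 : ∀ X : Option (Fin j) → W, (∀ i, X i ∈ L) → ∀ i : Fin j,
      X (some ⟨i.1 - 1, by omega⟩) + σ^[i.1 - 1] (τ (a (i.1 - 1 + 1)) / s) * E X ∈ L :=
    fun X hX i => add_mem (hX _) (mul_mem (hlL _) (hEL X hX))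
  obtain ⟨X, hXL, hX⟩ := hF (Option (Fin j)) Cc
    (by
      intro X hX o
      match o with
      | none => exact hσm (hE0 X hX)
      | some i =>
        show (if i.1 = 0 then τ (a 0 * E X + X none) / s
          else σ (X (some ⟨i.1 - 1, by omega⟩) + σ^[i.1 - 1] (τ (a (i.1 - 1 + 1)) / s) * E X)) ∈ L
        split_ifs with h
        · exact div_mem (hτm (hE0 X hX)) hsL
        · exact hσm (hE1 X hX i))
    (by
      intro X Y hX hY
      have hEadd : E (X + Y) = E X + E Y := by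
        show -(X _ + Y _) = -X _ + -Y _
        ring
      funext o
      match o with
      | none =>
        show σ (a 0 * E (X + Y) + (X none + Y none)) =
          σ (a 0 * E X + X none) + σ (a 0 * E Y + Y none)
        rw [← c.σ_add (hE0 X hX) (hE0 Y hY), hEadd]
        congr 1
        ring
      | some i =>
        show (if i.1 = 0 then τ (a 0 * E (X + Y) + (X none + Y none)) / s
          else σ ((X (some ⟨i.1 - 1, by omega⟩) + Y (some ⟨i.1 - 1, by omega⟩)) +
            σ^[i.1 - 1] (τ (a (i.1 - 1 + 1)) / s) * E (X + Y))) =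
          (if i.1 = 0 then τ (a 0 * E X + X none) / s
          else σ (X (some ⟨i.1 - 1, by omega⟩) +
            σ^[i.1 - 1] (τ (a (i.1 - 1 + 1)) / s) * E X)) +
          (if i.1 = 0 then τ (a 0 * E Y + Y none) / s
          else σ (Y (some ⟨i.1 - 1, by omega⟩) +
            σ^[i.1 - 1] (τ (a (i.1 - 1 + 1)) / s) * E Y))
        split_ifs with h
        · rw [← add_div, ← c.σ_add (hE0 X hX) (hE0 Y hY), hEadd]
          congr 2
          ring
        · rw [← c.σ_add (hE1 X hX i) (hE1 Y hY i), hEadd]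
          congr 1
          ring)
    (by
      intro b hb X hX
      have hEs : E (fun i => b ^ p * X i) = b ^ p * E X := by
        show -(b ^ p * X _) = b ^ p * (-X _)
        ring
      funext o
      match o with
      | none =>
        show σ (a 0 * E (fun i => b ^ p * X i) + b ^ p * X none) = b * σ (a 0 * E X + X none)
        rw [← c.σ_pow_mul hb (hE0 X hX), hEs]
        congr 1
        ring
      | some i =>
        show (if i.1 = 0 then τ (a 0 * E (fun i => b ^ p * X i) + b ^ p * X none) / s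
          else σ (b ^ p * X (some ⟨i.1 - 1, by omega⟩) +
            σ^[i.1 - 1] (τ (a (i.1 - 1 + 1)) / s) * E (fun i => b ^ p * X i))) =
          b * (if i.1 = 0 then τ (a 0 * E X + X none) / s
          else σ (X (some ⟨i.1 - 1, by omega⟩) +
            σ^[i.1 - 1] (τ (a (i.1 - 1 + 1)) / s) * E X))
        split_ifs with h
        · rw [← mul_div_assoc, ← c.σ_pow_mul hb (hE0 X hX), hEs]
          congr 2
          ring
        · rw [← c.σ_pow_mul hb (hE1 X hX i), hEs]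
          congr 1
          ring)
    (fun o => match o with
      | none => σ f₀
      | some i => if i.1 = 0 then τ f₀ / s else 0)
    (by
      intro o
      match o with
      | none => exact hσm hf₀
      | some i =>
        show (if i.1 = 0 then τ f₀ / s else 0) ∈ L
        split_ifs
        · exact div_mem (hτm hf₀) hsL
        · exact zero_mem _)
  -- the solution
  set e := E X with he
  set g := X none with hg
  have heL : e ∈ L := hEL X hXL
  have hgL : g ∈ L := hXL none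
  have h0L : a 0 * e + g ∈ L := hE0 X hXL
  have eqg : g = σ f₀ + σ (a 0 * e + g) := congrFun hX none
  have equ : ∀ i : Fin j, X (some i) = (if i.1 = 0 then τ f₀ / s else 0) +
      (if i.1 = 0 then τ (a 0 * e + g) / s
        else σ (X (some ⟨i.1 - 1, by omega⟩) + σ^[i.1 - 1] (τ (a (i.1 - 1 + 1)) / s) * e)) :=
    fun i => congrFun hX (some i)
  -- the sums
  let Y : ℕ → W := fun k => τ (f₀ + (a 0 * e + g)) / s +
    ∑ l ∈ Finset.range k, e ^ (p ^ l) * (τ (a (l + 1)) / s)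
  have hYL : ∀ k, Y k ∈ L := fun k => add_mem (div_mem (hτm (add_mem hf₀ h0L)) hsL)
    (sum_mem fun l _ => mul_mem (pow_mem heL _) (hdL _))
  have hYs : ∀ k, Y (k + 1) = Y k + e ^ (p ^ k) * (τ (a (k + 1)) / s) := by
    intro k
    show _ + ∑ l ∈ Finset.range (k + 1), _ = _
    rw [Finset.sum_range_succ, ← add_assoc]
  have hYk : ∀ k, σ^[k] (Y (k + 1)) = σ^[k] (Y k) + e * σ^[k] (τ (a (k + 1)) / s) := by
    intro k
    rw [hYs, iter_add c k (hYL k) (mul_mem (pow_mem heL _) (hdL _)),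
      iter_pow_mul c k heL (hdL _)]
  have hU : ∀ k (hk : k < j), X (some ⟨k, hk⟩) = σ^[k] (Y k) := by
    intro k
    induction k with
    | zero =>
      intro hk
      rw [equ ⟨0, hk⟩, if_pos rfl, if_pos rfl, ← add_div, ← c.σ_add hf₀ h0L]
      show _ = τ (f₀ + (a 0 * e + g)) / s + ∑ l ∈ Finset.range 0, _
      rw [Finset.sum_range_zero, add_zero]
    | succ k ih =>
      intro hk
      rw [equ ⟨k + 1, hk⟩, if_neg (Nat.succ_ne_zero k), if_neg (Nat.succ_ne_zero k), zero_add,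
        Function.iterate_succ_apply', hYk k, ← ih (by omega)]
      show σ (X (some ⟨k, _⟩) + σ^[k] (τ (a (k + 1)) / s) * e) = _
      rw [mul_comm e]
  have hwp : wp p g = g ^ p - g := rfl
  have hTL : ∀ i, a i * e ^ (p ^ i) ∈ L := fun i => mul_mem (ha i) (pow_mem heL _)
  have hsumL : ∑ i ∈ Finset.range j, a (i + 1) * e ^ (p ^ (i + 1)) ∈ L :=
    sum_mem fun i _ => hTL _
  have hF : f₀ + ∑ i ∈ Finset.range (j + 1), a i * e ^ (p ^ i) - wp p g =
      (f₀ + (a 0 * e + g)) + ∑ i ∈ Finset.range j, a (i + 1) * e ^ (p ^ (i + 1)) - g ^ p := by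
    rw [Finset.sum_range_succ', hwp, pow_zero, pow_one]
    ring
  have hT : ∀ i (k : c.J), c.σ k (a (i + 1) * e ^ (p ^ (i + 1))) =
      e ^ (p ^ i) * c.σ k (a (i + 1)) := by
    intro i k
    rw [mul_comm, pow_succ p i, pow_mul, c.σ_pow_mul (pow_mem heL _) (ha _)]
  have hgen : ∀ k : c.J, c.σ k (f₀ + ∑ i ∈ Finset.range (j + 1), a i * e ^ (p ^ i) - wp p g) =
      c.σ k (f₀ + (a 0 * e + g)) + ∑ i ∈ Finset.range j, e ^ (p ^ i) * c.σ k (a (i + 1)) -
        c.σ k (g ^ p) := by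
    intro k
    rw [hF, c.σ_sub (add_mem (add_mem hf₀ h0L) hsumL) (pow_mem hgL _),
      c.σ_add (add_mem hf₀ h0L) hsumL, c.σ_sum _ _ (fun i _ => hTL _)]
    congr 2
    exact Finset.sum_congr rfl fun i _ => hT i k
  refine ⟨e, heL, g, hgL, ?_, ?_⟩
  · unfold Lam
    have h1 : c.σ J (f₀ + ∑ i ∈ Finset.range (j + 1), a i * e ^ (p ^ i) - wp p g) / c.σ J (a j) =
        Y j := by
      rw [hgen J, c.σ_ne_pow hgL hJ, sub_zero, add_div, Finset.sum_div]
      show _ = τ (f₀ + (a 0 * e + g)) / s + ∑ l ∈ Finset.range j, _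
      congr 1
      exact Finset.sum_congr rfl fun i _ => by rw [mul_div_assoc]
    rw [h1]
    obtain ⟨i, rfl⟩ : ∃ i, j = i + 1 := ⟨j - 1, by omega⟩
    show σ^[i] (Y (i + 1)) = 0
    have h2 : X (some ⟨i, by omega⟩) = - e := by
      rw [he]
      show _ = - - X (some ⟨i + 1 - 1, hlast⟩)
      rw [neg_neg]
      rfl
    rw [hYk, ← hU i (by omega), h2, ← hs, div_self hJa, iter_one]
    ring
  · refine (hgen c.o).trans ?_
    have h3 : ∑ i ∈ Finset.range j, e ^ (p ^ i) * c.σ c.o (a (i + 1)) = 0 :=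
      Finset.sum_eq_zero (fun i _ => by
        have h4 : c.σ c.o (a (i + 1)) = 0 := hn (i + 1) (by omega)
        rw [h4, mul_zero])
    rw [h3, c.σ_o_pow hgL, add_zero, c.σ_add hf₀ h0L]
    exact sub_eq_zero.mpr eqg.symm

end HR
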