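import Pool.Agent.Lib.HR.FixA
import Pool.Agent.Lib.HR.DefA
import Pool.Agent.Lib.HR.DefC

/-!
# FixB: additive data are contradictory

`Lam_norm`: `‖σ_J y‖ ^ p ‖x_J‖ ≤ ‖y‖`, so `‖σ_J y / σ_J a‖ ^ p ≤ ‖y‖ / (‖σ_J a‖ ^ p ‖x_J‖) = ‖y‖/φ`, and
`‖σ_o^[j-1] w‖ ^ (p^(j-1)) ≤ ‖w‖` (iterate `Cart.norm`), `p ^ j = p^(j-1) * p`.

`fix_close`.  Let `D = e - e'`, `E = g - g'` (`(e,g)` the exact solution, `(e',g')` the approximate
one, `‖F'‖ ≤ t`).  `F - F' = T(D) - E^p + E` (additivity), so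
`D + Lam (∑_{i<j} a_i D^(p^i) + E) = - Lam F'` and `σ_o (a_0 D + E) - E = - σ_o F'`.
Let `r = max (φ ‖D‖^q) (‖E‖^p)`, suppose `r > t > δ ≥ 1`.  With `φ ρ^q = δ`, `‖a_i‖ ρ^(p^i) ≤ δ`
(`i < j`): `‖D‖ ≤ ρ (r/δ)^(1/q)` i.e. `(‖D‖/ρ)^q ≤ r/δ`; hence for `i < j`:
`‖a_i‖ ‖D‖^(p^i) ≤ δ (‖D‖/ρ)^(p^i) < r` (if `‖D‖ ≤ ρ` it is `≤ δ < r`, otherwise
`(‖D‖/ρ)^(p^i) < (‖D‖/ρ)^q ≤ r/δ`).  `‖E‖ < r` (if `‖E‖ ≤ 1`: `1 ≤ δ < r`; otherwise `‖E‖ < ‖E‖^p ≤ r`).
So `‖Lam (...)‖^q φ < r` (`Lam_norm`), `φ ‖Lam F'‖^q ≤ t < r`, thus `φ ‖D‖^q < r`; and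
`‖σ_o (a_0 D + E)‖^p < r`, `‖σ_o F'‖^p ≤ t < r`, so `‖E‖^p < r`.  Contradiction, so `r ≤ t`.

`no_addData`: at the centre `b` of `AddData`, `q = p^j`, `a_i = (cc f b).coeff (p^i)` for `i ≤ j`
(and `0` for `i > j`); `σ_o (a_i) = 0` for `i ≥ 1` (`Sop_cc`), choose `J` with
`‖a_j‖ = ‖σ_J (a_j)‖^p ‖x_J‖` (`exists_norm`), `J ≠ o` because `σ_o (a_j) = 0 ≠` (norm `φ > 0`).
Exact solution `(e, g)` for `f₀ = f b`.  For `b'' ∈ L` strictly closer than `b`:
`t = φ ‖v-b''‖^q > δ`, `claimB'` gives `g''` with `‖f b'' - wp g''‖ ≤ t`; `cc_eval` at `y = b''`: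
`f b'' = f b + (cc f b)(b''-b) + wp g₁` and `(cc f b)(b''-b) = T(b''-b) + R`, `‖R‖ < δ` (the other
coefficients, `AddData.small`, `norm_eval_lt`).  So `‖f b + T(b''-b) - wp (g''-g₁)‖ ≤ t` and
`fix_close` gives `φ ‖e - (b''-b)‖^q ≤ φ ‖v-b''‖^q`, `‖v - (b+e)‖ ≤ ‖v - b''‖`.  This holds for all
`b''` strictly closer than `b`, but `b + e ∈ L`, contradicting `T4.imm`.
-/

namespace HR

open Polynomial

variable {W : Type*} [NormedField W] [IsUltrametricDist W] {p : ℕ} [Fact p.Prime] [CharP W p]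
  {L : Subfield W} {v : W} {f : W[X]} {δ : ℝ} {q : ℕ} {φ : ℝ} {b₁ : W}

omit [IsUltrametricDist W] [Fact p.Prime] [CharP W p] in
private theorem fixb_iter_mem {σ : W → W} (hσ : Cart p L σ) {w : W} (hw : w ∈ L) (k : ℕ) :
    σ^[k] w ∈ L := by
  induction k with
  | zero => exact hw
  | succ k ih =>
    rw [Function.iterate_succ_apply']
    exact hσ.mem _ ih

omit [IsUltrametricDist W] [CharP W p] in
private theorem fixb_iter_norm {σ : W → W} (hσ : Cart p L σ) {w : W} (hw : w ∈ L) (k : ℕ) :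
    ‖σ^[k] w‖ ^ (p ^ k) ≤ ‖w‖ := by
  induction k with
  | zero => simp
  | succ k ih =>
    rw [Function.iterate_succ_apply', pow_succ, mul_comm, pow_mul]
    exact (pow_le_pow_left₀ (pow_nonneg (norm_nonneg _) _)
      (hσ.norm _ (fixb_iter_mem hσ hw k)) _).trans ih

omit [IsUltrametricDist W] [CharP W p] in
private theorem fixb_iter_add {σ : W → W} (hσ : Cart p L σ) {w z : W} (hw : w ∈ L) (hz : z ∈ L)
    (k : ℕ) : σ^[k] (w + z) = σ^[k] w + σ^[k] z := by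
  induction k with
  | zero => rfl
  | succ k ih =>
    rw [Function.iterate_succ_apply', Function.iterate_succ_apply', Function.iterate_succ_apply',
      ih, hσ.add _ (fixb_iter_mem hσ hw k) _ (fixb_iter_mem hσ hz k)]

omit [IsUltrametricDist W] [CharP W p] in
private theorem fixb_iter_pow {σ : W → W} (hσ : Cart p L σ) {w : W} (hw : w ∈ L) (k : ℕ) :
    σ^[k] (w ^ (p ^ k)) = w := by
  induction k with
  | zero => simp
  | succ k ih =>
    rw [Function.iterate_succ_apply, pow_succ, pow_mul, hσ.pow (pow_mem hw _), ih]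

omit [IsUltrametricDist W] [Fact p.Prime] [CharP W p] in
private theorem fixb_coord_mem (c : PCoord p L) (J : c.J) {a y : W} (ha : a ∈ L) (hy : y ∈ L) :
    c.σ J y / c.σ J a ∈ L := div_mem (c.σ_mem J y hy) (c.σ_mem J a ha)

theorem Lam_norm (c : PCoord p L) {J : c.J} {a : W} {j : ℕ} (hj : 1 ≤ j) (hJa : c.σ J a ≠ 0)
    {y : W} (hy : y ∈ L) (ha : a ∈ L) :
    (‖c.σ J a‖ ^ p * ‖c.x J‖) * ‖Lam c J a j y‖ ^ (p ^ j) ≤ ‖y‖ := by
  have hσ : Cart p L (c.σ c.o) := c.cart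
  have h1 : ‖Lam c J a j y‖ ^ (p ^ (j - 1)) ≤ ‖c.σ J y / c.σ J a‖ :=
    fixb_iter_norm hσ (fixb_coord_mem c J ha hy) (j - 1)
  have h2 : ‖Lam c J a j y‖ ^ (p ^ j) ≤ ‖c.σ J y / c.σ J a‖ ^ p := by
    have h3 : p ^ j = p ^ (j - 1) * p := by
      rw [← pow_succ]
      congr 1
      omega
    rw [h3, pow_mul]
    exact pow_le_pow_left₀ (pow_nonneg (norm_nonneg _) _) h1 p
  have h4 : 0 < ‖c.σ J a‖ ^ p := pow_pos (norm_pos_iff.mpr hJa) p
  calc (‖c.σ J a‖ ^ p * ‖c.x J‖) * ‖Lam c J a j y‖ ^ (p ^ j)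
      ≤ (‖c.σ J a‖ ^ p * ‖c.x J‖) * ‖c.σ J y / c.σ J a‖ ^ p :=
        mul_le_mul_of_nonneg_left h2 (mul_nonneg h4.le (norm_nonneg _))
    _ = ‖c.σ J y‖ ^ p * ‖c.x J‖ := by
        rw [norm_div, div_pow]
        field_simp
    _ ≤ ‖y‖ := c.norm_σ hy J

private theorem fixb_Lam_add (c : PCoord p L) {J : c.J} {a : W} {j : ℕ} (ha : a ∈ L) {y z : W}
    (hy : y ∈ L) (hz : z ∈ L) : Lam c J a j (y + z) = Lam c J a j y + Lam c J a j z := by
  unfold Lam
  rw [c.σ_add hy hz, add_div, fixb_iter_add c.cart (fixb_coord_mem c J ha hy)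
    (fixb_coord_mem c J ha hz)]

private theorem fixb_Lam_lead (c : PCoord p L) {J : c.J} {a : W} {j : ℕ} (hj : 1 ≤ j)
    (hJa : c.σ J a ≠ 0) (ha : a ∈ L) {D : W} (hD : D ∈ L) :
    Lam c J a j (a * D ^ (p ^ j)) = D := by
  unfold Lam
  have h3 : p ^ j = p ^ (j - 1) * p := by
    rw [← pow_succ]
    congr 1
    omega
  rw [h3, pow_mul, mul_comm a, c.σ_pow_mul (pow_mem hD _) ha, mul_div_assoc, div_self hJa, mul_one,
    fixb_iter_pow c.cart hD]

omit [IsUltrametricDist W] [CharP W p] in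
private theorem fixb_iter_zero {σ : W → W} (hσ : Cart p L σ) (k : ℕ) : σ^[k] 0 = 0 := by
  induction k with
  | zero => rfl
  | succ k ih => rw [Function.iterate_succ_apply', ih, hσ.zero]

private theorem fixb_Lam_pow (c : PCoord p L) {J : c.J} (hJ : J ≠ c.o) {a : W} {j : ℕ} {E : W}
    (hE : E ∈ L) : Lam c J a j (E ^ p) = 0 := by
  unfold Lam
  rw [c.σ_ne_pow hE hJ, zero_div, fixb_iter_zero c.cart]

private theorem fixb_bound {ai ρ δ φ r D : ℝ} {m q : ℕ} (hmq : m < q) (hai : 0 ≤ ai) (hρ : 0 < ρ)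
    (hδ : 1 ≤ δ) (hφρ : φ * ρ ^ q = δ) (hb : ai * ρ ^ m ≤ δ) (hr : δ < r) (hD : 0 ≤ D)
    (hDr : φ * D ^ q ≤ r) : ai * D ^ m < r := by
  rcases le_or_gt D ρ with h | h
  · exact (mul_le_mul_of_nonneg_left (pow_le_pow_left₀ hD h m) hai).trans_lt (hb.trans_lt hr)
  · have hx : 1 < D / ρ := (one_lt_div hρ).mpr h
    have e1 : D = ρ * (D / ρ) := by field_simp
    have h1 : ai * D ^ m = (ai * ρ ^ m) * (D / ρ) ^ m := by
      rw [mul_assoc, ← mul_pow, ← e1]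
    have h2 : φ * D ^ q = δ * (D / ρ) ^ q := by
      rw [← hφρ, mul_assoc, ← mul_pow, ← e1]
    have h3 : (D / ρ) ^ m < (D / ρ) ^ q := pow_lt_pow_right₀ hx hmq
    have h4 : 0 < (D / ρ) ^ m := by positivity
    rw [h2] at hDr
    rw [h1]
    calc (ai * ρ ^ m) * (D / ρ) ^ m ≤ δ * (D / ρ) ^ m := mul_le_mul_of_nonneg_right hb h4.le
      _ < δ * (D / ρ) ^ q := mul_lt_mul_of_pos_left h3 (by linarith)
      _ ≤ r := hDr

theorem fix_close (c : PCoord p L) {j : ℕ} (hj : 1 ≤ j) (a : ℕ → W)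
    (ha : ∀ i, a i ∈ L) (hn : ∀ i, 1 ≤ i → c.σ c.o (a i) = 0) {J : c.J} (hJ : J ≠ c.o)
    (hJa : c.σ J (a j) ≠ 0) {f₀ : W} (hf₀ : f₀ ∈ L) {ρ δ φ t : ℝ} (hρ : 0 < ρ) (hδ : 1 ≤ δ)
    (hφ : φ = ‖c.σ J (a j)‖ ^ p * ‖c.x J‖) (hφρ : φ * ρ ^ (p ^ j) = δ)
    (hb : ∀ i, i < j → ‖a i‖ * ρ ^ (p ^ i) ≤ δ) (ht : δ < t)
    {e g : W} (he : e ∈ L) (hg : g ∈ L)
    (h1 : Lam c J (a j) j (f₀ + ∑ i ∈ Finset.range (j + 1), a i * e ^ (p ^ i) - wp p g) = 0)
    (h2 : c.σ c.o (f₀ + ∑ i ∈ Finset.range (j + 1), a i * e ^ (p ^ i) - wp p g) = 0)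
    {e' g' : W} (he' : e' ∈ L) (hg' : g' ∈ L)
    (h3 : ‖f₀ + ∑ i ∈ Finset.range (j + 1), a i * e' ^ (p ^ i) - wp p g'‖ ≤ t) :
    φ * ‖e - e'‖ ^ (p ^ j) ≤ t := by
  have hp2 : 2 ≤ p := (Fact.out : p.Prime).two_le
  have hp0 : p ≠ 0 := by omega
  have hσ : Cart p L (c.σ c.o) := c.cart
  set D : W := e - e' with hD
  set E : W := g - g' with hE
  have hDL : D ∈ L := sub_mem he he'
  have hEL : E ∈ L := sub_mem hg hg'
  set F : W := f₀ + ∑ i ∈ Finset.range (j + 1), a i * e ^ (p ^ i) - wp p g with hF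
  set F' : W := f₀ + ∑ i ∈ Finset.range (j + 1), a i * e' ^ (p ^ i) - wp p g' with hF'
  set T : W := ∑ i ∈ Finset.range j, a i * D ^ (p ^ i) with hT
  have hTL : T ∈ L := sum_mem fun i _ => mul_mem (ha i) (pow_mem hDL _)
  have hF'L : F' ∈ L := sub_mem (add_mem hf₀ (sum_mem fun i _ => mul_mem (ha i) (pow_mem he' _)))
    (sub_mem (pow_mem hg' p) hg')
  have hmain : F + E ^ p = ((F' + T) + E) + a j * D ^ (p ^ j) := by
    have e1 : ∑ i ∈ Finset.range (j + 1), a i * e ^ (p ^ i) =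
        (∑ i ∈ Finset.range (j + 1), a i * e' ^ (p ^ i)) + (T + a j * D ^ (p ^ j)) := by
      rw [hT, ← Finset.sum_range_succ (fun i => a i * D ^ (p ^ i)) j, ← Finset.sum_add_distrib]
      refine Finset.sum_congr rfl fun i _ => ?_
      rw [hD, sub_pow_char_pow]
      ring
    have e2 : E ^ p = g ^ p - g' ^ p := by
      rw [hE, sub_pow_char]
    rw [hF, hF', e1, e2, hE, wp, wp]
    ring
  have hjL : a j * D ^ (p ^ j) ∈ L := mul_mem (ha j) (pow_mem hDL _)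
  have hFL : F ∈ L := sub_mem (add_mem hf₀ (sum_mem fun i _ => mul_mem (ha i) (pow_mem he _)))
    (sub_mem (pow_mem hg p) hg)
  have hsumL : (F' + T) + E ∈ L := add_mem (add_mem hF'L hTL) hEL
  -- the two relations
  have hr1 : Lam c J (a j) j ((F' + T) + E) + D = 0 := by
    have h4 := fixb_Lam_add c (J := J) (j := j) (ha j) hFL (pow_mem hEL p)
    rw [h1, fixb_Lam_pow c hJ hEL, hmain, fixb_Lam_add c (ha j) hsumL hjL,
      fixb_Lam_lead c hj hJa (ha j) hDL] at h4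
    rw [h4, add_zero]
  have hzero : ∀ i, 1 ≤ i → c.σ c.o (a i * D ^ (p ^ i)) = 0 := by
    intro i hi
    have h5 : p ^ i = p ^ (i - 1) * p := by
      rw [← pow_succ]
      congr 1
      omega
    rw [h5, pow_mul, mul_comm (a i), c.σ_pow_mul (pow_mem hDL _) (ha i), hn i hi, mul_zero]
  have hr2 : c.σ c.o ((F' + a 0 * D) + E) = E := by
    have h4 := c.σ_add hFL (pow_mem hEL p) c.o
    rw [h2, zero_add, c.σ_o_pow hEL, hmain, c.σ_add hsumL hjL, hzero j hj, add_zero,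
      c.σ_add (add_mem hF'L hTL) hEL, c.σ_add hF'L hTL] at h4
    have h5 : c.σ c.o T = c.σ c.o (a 0 * D) := by
      rw [hT, c.σ_sum _ _ (fun i _ => mul_mem (ha i) (pow_mem hDL _))]
      have h6 : 0 ∈ Finset.range j := Finset.mem_range.mpr (by omega)
      rw [Finset.sum_eq_single_of_mem 0 h6 (fun i _ hi => hzero i (by omega)), pow_zero, pow_one]
    rw [c.σ_add (add_mem hF'L (mul_mem (ha 0) hDL)) hEL, c.σ_add hF'L (mul_mem (ha 0) hDL), ← h5]
    exact h4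
  by_contra hcon
  push Not at hcon
  set r : ℝ := max (φ * ‖D‖ ^ (p ^ j)) (‖E‖ ^ p) with hr
  have hrt : t < r := hcon.trans_le (le_max_left _ _)
  have hr0 : 0 < r := by linarith
  have hEr : ‖E‖ < r := by
    rcases le_or_gt ‖E‖ 1 with h | h
    · linarith
    · have h4 : ‖E‖ ^ 1 < ‖E‖ ^ p := pow_lt_pow_right₀ h (by omega)
      rw [pow_one] at h4
      exact h4.trans_le (le_max_right _ _)
  have hai : ∀ i, i < j → ‖a i * D ^ (p ^ i)‖ < r := by
    intro i hi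
    rw [norm_mul, norm_pow]
    exact fixb_bound (Nat.pow_lt_pow_right (by omega) hi) (norm_nonneg _) hρ hδ hφρ (hb i hi)
      (ht.trans hrt) (norm_nonneg _) (le_max_left _ _)
  have hTr : ‖T‖ < r := by
    have hne : (Finset.range j).Nonempty := ⟨0, Finset.mem_range.mpr (by omega)⟩
    obtain ⟨i, hi, hle⟩ := IsUltrametricDist.exists_norm_finsetSum_le_of_nonempty hne
      (fun i => a i * D ^ (p ^ i))
    exact lt_of_le_of_lt hle (hai i (Finset.mem_range.mp hi))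
  have hF'r : ‖F'‖ < r := lt_of_le_of_lt h3 hrt
  have hlt1 : φ * ‖D‖ ^ (p ^ j) < r := by
    have h4 : ‖D‖ = ‖Lam c J (a j) j ((F' + T) + E)‖ := by
      rw [eq_neg_of_add_eq_zero_right hr1, norm_neg]
    have h5 := Lam_norm c hj hJa hsumL (ha j)
    rw [← hφ, ← h4] at h5
    refine lt_of_le_of_lt h5 ?_
    refine lt_of_le_of_lt (IsUltrametricDist.norm_add_le_max _ _) (max_lt ?_ hEr)
    exact lt_of_le_of_lt (IsUltrametricDist.norm_add_le_max _ _) (max_lt hF'r hTr)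
  have hlt2 : ‖E‖ ^ p < r := by
    have hmemL : (F' + a 0 * D) + E ∈ L := add_mem (add_mem hF'L (mul_mem (ha 0) hDL)) hEL
    have h5 := hσ.norm _ hmemL
    rw [hr2] at h5
    have h6 := hai 0 (by omega)
    rw [pow_zero, pow_one] at h6
    refine lt_of_le_of_lt h5 ?_
    refine lt_of_le_of_lt (IsUltrametricDist.norm_add_le_max _ _) (max_lt ?_ hEr)
    exact lt_of_le_of_lt (IsUltrametricDist.norm_add_le_max _ _) (max_lt hF'r h6)
  exact absurd (max_lt hlt1 hlt2) (lt_irrefl r)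

theorem no_addData (c : PCoord p L) (hF : FPP p L) (hv : T4 L v) (hpos : 0 < rho L v)
    (hd : Dfd p L v f δ) (hs : Stab (c.σ c.o) p L v f δ q φ b₁) {b : W}
    (hb : ‖v - b‖ ≤ ‖v - b₁‖) (ha : AddData (c.σ c.o) p L v f δ q b) : False := by
  have hp2 : 2 ≤ p := (Fact.out : p.Prime).two_le
  have hp0 : p ≠ 0 := by omega
  have hσ : Cart p L (c.σ c.o) := c.cart
  have hδ := hd.one_le
  have hbL := ha.mem
  obtain ⟨j, hj, rfl⟩ := ha.pow
  set h : W[X] := cc (c.σ c.o) p f b with hh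
  have hhL : PolyIn L h := polyIn_cc hσ hd.polyIn hbL
  let a : ℕ → W := fun i => h.coeff (p ^ i)
  have haL : ∀ i, a i ∈ L := fun i => hhL _
  have hn : ∀ i, 1 ≤ i → c.σ c.o (a i) = 0 := by
    intro i hi
    have h1 := congrArg (fun P : W[X] => P.coeff (p ^ (i - 1))) (Sop_cc hσ hd.polyIn hbL)
    beta_reduce at h1
    rw [coeff_Sop hσ.zero, if_pos (Nat.one_le_pow _ _ (by omega)), coeff_zero, ← pow_succ'] at h1
    have h2 : i - 1 + 1 = i := by omega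
    rw [h2] at h1
    exact h1
  have hlead : ‖a j‖ = φ := hs.lead b hbL hb
  obtain ⟨J, hJn⟩ := c.exists_norm (haL j)
  have hφpos := hs.pos
  have hJa : c.σ J (a j) ≠ 0 := by
    intro h0
    rw [h0, norm_zero, zero_pow hp0, zero_mul, hlead] at hJn
    linarith
  have hJ : J ≠ c.o := by
    intro h0
    rw [h0] at hJa
    exact hJa (hn j hj)
  have hfb : f.eval b ∈ L := eval_mem hd.polyIn hbL
  obtain ⟨e, he, g, hg, hfix1, hfix2⟩ := exists_fix c hF hj a haL hn hJ hJa hfb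
  obtain ⟨G, hG, -, hGe⟩ := cc_eval hσ hd.polyIn hbL
  -- the remainder polynomial
  set R : W[X] := h - ∑ i ∈ Finset.range (j + 1), monomial (p ^ i) (a i) with hR
  have hRc : ∀ n, R.coeff n = h.coeff n - ∑ i ∈ Finset.range (j + 1), if p ^ i = n then a i else 0 := by
    intro n
    rw [hR, coeff_sub, finsetSum_coeff]
    simp only [coeff_monomial]
  have hR0 : R.coeff 0 = 0 := by
    rw [hRc, cc_coeff_zero hσ hd.polyIn hbL, zero_sub, neg_eq_zero]
    refine Finset.sum_eq_zero fun i _ => ?_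
    rw [if_neg (pow_ne_zero i hp0)]
  have hRs : ∀ n, 1 ≤ n → ‖R.coeff n‖ * ‖v - b‖ ^ n < δ := by
    intro n hn1
    by_cases hex : ∃ i ∈ Finset.range (j + 1), p ^ i = n
    · obtain ⟨i, hi, hin⟩ := hex
      rw [hRc, Finset.sum_eq_single_of_mem i hi, if_pos hin]
      · have h3 : a i = h.coeff n := by rw [← hin]
        rw [h3, sub_self, norm_zero, zero_mul]
        linarith
      · intro i' _ hne
        rw [if_neg]
        intro h3
        exact hne (Nat.pow_right_injective hp2 (h3.trans hin.symm))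
    · rw [hRc, Finset.sum_eq_zero, sub_zero]
      · apply ha.small n hn1
        by_cases hpw : ∃ i, n = p ^ i
        · obtain ⟨i, hi⟩ := hpw
          right
          by_contra hle
          push Not at hle
          apply hex
          refine ⟨i, Finset.mem_range.mpr ?_, hi.symm⟩
          rw [hi] at hle
          have := (Nat.pow_le_pow_iff_right (by omega : 1 < p)).mp hle
          omega
        · left
          push Not at hpw
          exact hpw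
      · intro i hi
        rw [if_neg]
        intro h3
        exact hex ⟨i, hi, h3⟩
  have hev : ∀ y : W, h.eval y = (∑ i ∈ Finset.range (j + 1), a i * y ^ (p ^ i)) + R.eval y := by
    intro y
    rw [hR, eval_sub, eval_finsetSum]
    simp only [eval_monomial]
    ring
  have key : ∀ b'' ∈ L, ‖v - b''‖ < ‖v - b‖ → ‖v - (b + e)‖ ≤ ‖v - b''‖ := by
    intro b'' hb'' hlt
    have hle1 : ‖v - b''‖ ≤ ‖v - b₁‖ := hlt.le.trans hb
    have htop := hs.top b'' hb'' hle1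
    have hlead'' := hs.lead b'' hb'' hle1
    have hδt : δ < φ * ‖v - b''‖ ^ (p ^ j) := by
      rw [← hs.val]
      exact mul_lt_mul_of_pos_left (pow_lt_pow_left₀ (rho_lt hv hb'') rho_nonneg
        (pow_ne_zero j hp0)) hφpos
    obtain ⟨g'', hg'', hgN⟩ := claimB' hσ hv hd hb'' hδt (fun n hn1 => by
      have := htop.le n hn1
      rwa [hlead''] at this)
    have h5 := hGe b''
    have hεL : b'' - b ∈ L := sub_mem hb'' hbL
    have h6 : f.eval b + ∑ i ∈ Finset.range (j + 1), a i * (b'' - b) ^ (p ^ i) -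
        wp p (g'' - G.eval (b'' - b)) = (f.eval b'' - wp p g'') - R.eval (b'' - b) := by
      rw [wp_sub, h5, ← hh, hev]
      ring
    have hRle : ‖R.eval (b'' - b)‖ < δ :=
      norm_eval_lt (hv.pos hbL) (by linarith) hR0 (norm_sub_le_of_le hlt.le) hRs
    have h7 : ‖f.eval b + ∑ i ∈ Finset.range (j + 1), a i * (b'' - b) ^ (p ^ i) -
        wp p (g'' - G.eval (b'' - b))‖ ≤ φ * ‖v - b''‖ ^ (p ^ j) := by
      rw [h6, sub_eq_add_neg]
      refine (IsUltrametricDist.norm_add_le_max _ _).trans (max_le hgN ?_)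
      rw [norm_neg]
      linarith
    have h8 := fix_close c hj a haL hn hJ hJa hfb hpos hδ (hlead ▸ hJn) hs.val
      (fun i _ => ha.bdd i) hδt he hg hfix1 hfix2 hεL (sub_mem hg'' (eval_mem hG hεL)) h7
    have h9 : ‖e - (b'' - b)‖ ≤ ‖v - b''‖ := by
      by_contra hcon
      push Not at hcon
      have := mul_lt_mul_of_pos_left (pow_lt_pow_left₀ hcon (norm_nonneg _)
        (pow_ne_zero j hp0)) hφpos
      linarith
    have h10 : v - (b + e) = (v - b'') + -(e - (b'' - b)) := by ring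
    rw [h10]
    refine (IsUltrametricDist.norm_add_le_max _ _).trans (max_le le_rfl ?_)
    rw [norm_neg]
    exact h9
  obtain ⟨b₂, hb₂, hlt2⟩ := hv.imm b hbL
  have h11 := key b₂ hb₂ hlt2
  obtain ⟨b₃, hb₃, hlt3⟩ := hv.imm (b + e) (add_mem hbL he)
  have h12 := key b₃ hb₃ (hlt3.trans (h11.trans_lt hlt2))
  linarith

end HR
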