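import Pool.Agent.Lib.HR.DefA
import Pool.Agent.Lib.HR.DefC

/-!
# HatA: the perfect normal form

`W` is perfect, `σh` the `p`-th root: it is a Cartier operator on `⊤`, and `cc σh p f b` is the
Artin-Schreier normal form over `W`, with exponents prime to `p` only.

`cc_hat`: `cc_decomp` for `L` and `NF_add_wp` for `⊤`.

`hat_coeff`: `ch = NF σh p h = h + G - G ^ p`, `G_n = σh (h_{pn} + G_{pn})`.  For `m` prime to `p`:
`ch_m = h_m + G_m = ∑_{a ≥ 0} σh^a (h_{m p^a})` (finite sum).  Its `p ^ K`-th power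
(`K` with `m p ^ (K+1) > natDegree h`) is `z_K = ∑_{a ≤ K} (h_{m p^a}) ^ (p ^ (K-a)) ∈ L`, and
`z_K = (z_{K-1}) ^ p + h_{m p^K}` (with `z_{K-1} = ∑_{a ≤ K-1} (h_{m p^a}) ^ (p^(K-1-a)) ∈ L`).
For `K ≥ 1` `h_{m p^K}` has `σ_o = 0` (normality), and `z_{K-1} ^ p` has only the coordinate `o`, so by
`norm_σ`, `exists_norm`: `‖z_K‖ = max (‖z_{K-1}‖ ^ p) ‖h_{m p^K}‖`.  Induction on `K`:
`‖z_K‖ = max_{a ≤ K} ‖h_{m p^a}‖ ^ (p ^ (K - a))`.  Take `p ^ K`-th roots.

`hat_stab`: use `claimA`, `claimB` (for `σ = c.σ c.o`) and `hat_coeff` (with `h = cc (c.σ c.o) p f b`)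
to verify `hA` and `hB` of `exists_stab` for `K = ⊤`, `σ = σh`, `δ = 1`.
-/

namespace HR

open Polynomial

variable {W : Type*} [NormedField W] [IsUltrametricDist W] {p : ℕ} [Fact p.Prime] [CharP W p]
  {L : Subfield W} {σ σh : W → W} {v : W} {f : W[X]} {δ : ℝ}

omit [IsUltrametricDist W] in
private theorem hata_inj {a b : W} (h : a ^ p = b ^ p) : a = b := by
  have h1 : (a - b) ^ p = 0 := by rw [sub_pow_char, h, sub_self]
  exact sub_eq_zero.1 (pow_eq_zero_iff (Fact.out : p.Prime).ne_zero |>.1 h1)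

theorem cart_hat (hr : ∀ y, σh y ^ p = y) : Cart p (⊤ : Subfield W) σh where
  mem y _ := Subfield.mem_top _
  add y _ z _ := by
    apply hata_inj (p := p)
    rw [hr, add_pow_char, hr, hr]
  smul a _ y _ := by
    apply hata_inj (p := p)
    rw [hr, mul_pow, hr]
  one := by
    apply hata_inj (p := p)
    rw [hr, one_pow]
  norm y _ := by
    rw [← norm_pow, hr]

omit [IsUltrametricDist W] [Fact p.Prime] [CharP W p] in
private theorem hata_top (g : W[X]) : PolyIn (⊤ : Subfield W) g := fun _ => Subfield.mem_top _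

theorem cc_hat (hr : ∀ y, σh y ^ p = y) (hσ : Cart p L σ) (hf : PolyIn L f) {b : W} (hb : b ∈ L) :
    cc σh p f b = NF σh p (cc σ p f b) := by
  obtain ⟨G, _, hG0, hG, _⟩ := cc_decomp hσ hf hb
  have h1 : taylor b f - C (f.eval b) = cc σ p f b + wp p G := by
    rw [hG]; ring
  have h2 : cc σh p f b = NF σh p (taylor b f - C (f.eval b)) := rfl
  rw [h2, h1]
  exact NF_add_wp (cart_hat hr) (hata_top _) (hata_top _) hG0

theorem hat_coeff_dvd (hr : ∀ y, σh y ^ p = y) (h : W[X]) {m : ℕ} (hm : 1 ≤ m) (hd : p ∣ m) :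
    (NF σh p h).coeff m = 0 := by
  have hσ := cart_hat (W := W) (p := p) hr
  have hp : 0 < p := (Fact.out : p.Prime).pos
  obtain ⟨n, rfl⟩ := hd
  have hn : 1 ≤ n := by
    rcases Nat.eq_zero_or_pos n with h0 | h0
    · rw [h0] at hm; simp at hm
    · exact h0
  have h1 := Sop_NF hσ (hata_top h)
  have h2 := coeff_Sop (p := p) hσ.zero (NF σh p h) n
  rw [h1, coeff_zero, if_pos hn] at h2
  rw [← hr ((NF σh p h).coeff (p * n)), ← h2, zero_pow hp.ne']

/-- the recursion `z_0 = h_m`, `z_{K+1} = z_K ^ p + h_{m p^{K+1}}` -/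
private noncomputable def hataz (p : ℕ) (h : W[X]) (m : ℕ) : ℕ → W
  | 0 => h.coeff m
  | K + 1 => hataz p h m K ^ p + h.coeff (m * p ^ (K + 1))

omit [IsUltrametricDist W] [Fact p.Prime] [CharP W p] in
private theorem hata_mem {h : W[X]} (hh : PolyIn L h) (m K : ℕ) : hataz p h m K ∈ L := by
  induction K with
  | zero => exact hh m
  | succ K ih => exact add_mem (pow_mem ih p) (hh _)

/-- norm of the recursion -/
private theorem hata_step (c : PCoord p L) {y z : W} (hy : y ∈ L) (hz : z ∈ L)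
    (h0 : c.σ c.o y = 0) : ‖z ^ p + y‖ = max (‖z‖ ^ p) ‖y‖ := by
  have hp : p ≠ 0 := (Fact.out : p.Prime).ne_zero
  refine le_antisymm ?_ (max_le ?_ ?_)
  · have h1 := IsUltrametricDist.norm_add_le_max (z ^ p) y
    rwa [norm_pow] at h1
  · have h1 := c.norm_σ (add_mem (pow_mem hz p) hy) c.o
    rw [c.σ_add (pow_mem hz p) hy, c.σ_o_pow hz, h0, add_zero, c.x_o, norm_one, mul_one] at h1
    exact h1
  · obtain ⟨j, hj⟩ := c.exists_norm hy
    by_cases hjo : j = c.o
    · rw [hjo, h0, norm_zero, zero_pow hp, zero_mul] at hj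
      rw [hj]
      exact norm_nonneg _
    · have h1 := c.norm_σ (add_mem (pow_mem hz p) hy) j
      rw [c.σ_add (pow_mem hz p) hy, c.σ_ne_pow hz hjo, zero_add, ← hj] at h1
      exact h1

private theorem hata_max (c : PCoord p L) {h : W[X]} (hh : PolyIn L h)
    (hn : Sop (c.σ c.o) p h = 0) {m : ℕ} (hm : 1 ≤ m) (K : ℕ) :
    (∀ a ≤ K, ‖h.coeff (m * p ^ a)‖ ^ (p ^ (K - a)) ≤ ‖hataz p h m K‖) ∧
      ∃ a ≤ K, ‖h.coeff (m * p ^ a)‖ ^ (p ^ (K - a)) = ‖hataz p h m K‖ := by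
  have hp : 0 < p := (Fact.out : p.Prime).pos
  induction K with
  | zero =>
    have e : hataz p h m 0 = h.coeff m := rfl
    refine ⟨fun a ha => ?_, 0, le_rfl, ?_⟩
    · obtain rfl : a = 0 := by omega
      rw [e]
      simp
    · rw [e]
      simp
  | succ K ih =>
    obtain ⟨ih1, a₀, ha₀, ih2⟩ := ih
    have e : hataz p h m (K + 1) = hataz p h m K ^ p + h.coeff (m * p ^ (K + 1)) := rfl
    have hy0 : c.σ c.o (h.coeff (m * p ^ (K + 1))) = 0 := by
      have h2 := coeff_Sop (p := p) c.cart.zero h (m * p ^ K)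
      have h3 : 1 ≤ m * p ^ K := Nat.mul_pos hm (pow_pos hp K)
      have h4 : p * (m * p ^ K) = m * p ^ (K + 1) := by ring
      rw [hn, coeff_zero, if_pos h3, h4] at h2
      exact h2.symm
    have hst := hata_step c (hh (m * p ^ (K + 1))) (hata_mem (p := p) hh m K) hy0
    rw [← e] at hst
    have hpw : ∀ a ≤ K, ∀ x : ℝ, x ^ (p ^ (K + 1 - a)) = (x ^ (p ^ (K - a))) ^ p := by
      intro a ha x
      have h5 : K + 1 - a = (K - a) + 1 := by omega
      rw [h5, pow_succ, pow_mul]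
    refine ⟨fun a ha => ?_, ?_⟩
    · rcases Nat.lt_or_ge K a with h5 | h5
      · obtain rfl : a = K + 1 := by omega
        rw [hst, Nat.sub_self, pow_zero, pow_one]
        exact le_max_right _ _
      · rw [hpw a h5, hst]
        exact (pow_le_pow_left₀ (pow_nonneg (norm_nonneg _) _) (ih1 a h5) p).trans
          (le_max_left _ _)
    · rcases le_total (‖hataz p h m K‖ ^ p) ‖h.coeff (m * p ^ (K + 1))‖ with h5 | h5
      · refine ⟨K + 1, le_rfl, ?_⟩
        rw [hst, max_eq_right h5, Nat.sub_self, pow_zero, pow_one]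
      · refine ⟨a₀, by omega, ?_⟩
        rw [hst, max_eq_left h5, hpw a₀ ha₀, ih2]

omit [IsUltrametricDist W] in
/-- `u_n = h_n + G_n` has `u_m ^ (p ^ K) = z_K + G_{m p^K}` -/
private theorem hata_pow (hσ : Cart p (⊤ : Subfield W) σh) (hr : ∀ y, σh y ^ p = y) (h : W[X])
    {m : ℕ} (hm : 1 ≤ m) (K : ℕ) :
    (h.coeff m + (Gop σh p h).coeff m) ^ (p ^ K) =
      hataz p h m K + (Gop σh p h).coeff (m * p ^ K) := by
  have hp : 0 < p := (Fact.out : p.Prime).pos
  have hG := Sop_add_Gop hσ (hata_top h)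
  have hGn : ∀ n, 1 ≤ n → (Gop σh p h).coeff n ^ p = h.coeff (p * n) +
      (Gop σh p h).coeff (p * n) := by
    intro n hn
    have h2 := coeff_Sop (p := p) hσ.zero (h + Gop σh p h) n
    rw [hG, if_pos hn] at h2
    rw [h2, hr, coeff_add]
  induction K with
  | zero =>
    have e : hataz p h m 0 = h.coeff m := rfl
    rw [pow_zero, pow_one, mul_one, e]
  | succ K ih =>
    have e : hataz p h m (K + 1) = hataz p h m K ^ p + h.coeff (m * p ^ (K + 1)) := rfl
    have h3 : 1 ≤ m * p ^ K := Nat.mul_pos hm (pow_pos hp K)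
    have h4 : p * (m * p ^ K) = m * p ^ (K + 1) := by ring
    have h5 : ∀ x : W, x ^ (p ^ (K + 1)) = (x ^ (p ^ K)) ^ p := fun x => by
      rw [pow_succ, pow_mul]
    rw [h5, ih, add_pow_char, hGn _ h3, h4, e, add_assoc]

theorem hat_coeff (hr : ∀ y, σh y ^ p = y) (c : PCoord p L) {h : W[X]} (hh : PolyIn L h)
    (hn : Sop (c.σ c.o) p h = 0) {m : ℕ} (hm : ¬ p ∣ m) :
    (∀ a, ‖h.coeff (m * p ^ a)‖ ≤ ‖(NF σh p h).coeff m‖ ^ (p ^ a)) ∧
      ∃ a, ‖h.coeff (m * p ^ a)‖ = ‖(NF σh p h).coeff m‖ ^ (p ^ a) := by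
  have hσ := cart_hat (W := W) (p := p) hr
  have hpp : p.Prime := Fact.out
  have hp : 0 < p := hpp.pos
  have hm1 : 1 ≤ m := by
    rcases Nat.eq_zero_or_pos m with h0 | h0
    · exact absurd (h0 ▸ dvd_zero p) hm
    · exact h0
  have hu : (NF σh p h).coeff m = h.coeff m + (Gop σh p h).coeff m := by
    rw [NF, coeff_sub, coeff_add, coeff_pow_of_not_dvd _ hm, sub_zero]
  -- a large `K`
  set K := h.natDegree + (Gop σh p h).natDegree + 1 with hK
  have hKlt : ∀ a, K ≤ a → K < m * p ^ a := by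
    intro a ha
    have h1 : a < p ^ a := Nat.lt_pow_self hpp.one_lt
    calc K ≤ a := ha
      _ < p ^ a := h1
      _ = 1 * p ^ a := (one_mul _).symm
      _ ≤ m * p ^ a := Nat.mul_le_mul_right _ hm1
  have hGK : (Gop σh p h).coeff (m * p ^ K) = 0 := by
    apply coeff_eq_zero_of_natDegree_lt
    have := hKlt K le_rfl
    omega
  have hpow := hata_pow hσ hr h hm1 K
  rw [hGK, add_zero, ← hu] at hpow
  have hz : ‖(NF σh p h).coeff m‖ ^ (p ^ K) = ‖hataz p h m K‖ := by rw [← norm_pow, hpow]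
  obtain ⟨h1, a₀, ha₀, h2⟩ := hata_max c hh hn hm1 K
  have hsplit : ∀ a ≤ K, ‖(NF σh p h).coeff m‖ ^ (p ^ K) =
      (‖(NF σh p h).coeff m‖ ^ (p ^ a)) ^ (p ^ (K - a)) := by
    intro a ha
    rw [← pow_mul, ← pow_add, Nat.add_sub_cancel' ha]
  refine ⟨fun a => ?_, a₀, ?_⟩
  · rcases Nat.lt_or_ge K a with h5 | h5
    · have h6 : h.coeff (m * p ^ a) = 0 := by
        apply coeff_eq_zero_of_natDegree_lt
        have := hKlt a h5.le
        omega
      rw [h6, norm_zero]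
      exact pow_nonneg (norm_nonneg _) _
    · have h6 := h1 a h5
      rw [← hz, hsplit a h5] at h6
      exact le_of_pow_le_pow_left₀ (pow_pos hp _).ne' (pow_nonneg (norm_nonneg _) _) h6
  · rw [← hz, hsplit a₀ ha₀] at h2
    exact (pow_left_inj₀ (norm_nonneg _) (pow_nonneg (norm_nonneg _) _) (pow_pos hp _).ne').1 h2

theorem hat_stab (hr : ∀ y, σh y ^ p = y) (c : PCoord p L) (hF : FPP p L) (hv : T4 L v)
    (hd : Dfd p L v f 1) : ∃ q φ b₁, Stab σh p L v f 1 q φ b₁ := by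
  have hσ := cart_hat (W := W) (p := p) hr
  have hpp : p.Prime := Fact.out
  have hp : 0 < p := hpp.pos
  have hcart : Cart p L (c.σ c.o) := c.cart
  refine exists_stab (K := (⊤ : Subfield W)) le_top hσ (hata_top f) hv le_rfl ?_ ?_
  · intro b hb
    obtain ⟨n, hn, hlt⟩ := claimA c hF hv hd hb
    obtain ⟨a, m, hm, rfl⟩ := Nat.exists_eq_pow_mul_and_not_dvd (n := n) (by omega) p hpp.ne_one
    have hm1 : 1 ≤ m := by
      rcases Nat.eq_zero_or_pos m with h0 | h0
      · exact absurd (h0 ▸ dvd_zero p) hm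
      · exact h0
    refine ⟨m, hm1, ?_⟩
    rw [cc_hat hr hcart hd.polyIn hb]
    have h1 := (hat_coeff hr c (polyIn_cc hcart hd.polyIn hb)
      (Sop_cc hcart hd.polyIn hb) hm).1 a
    rw [mul_comm m (p ^ a)] at h1
    have h2 : 1 < (‖(NF σh p (cc (c.σ c.o) p f b)).coeff m‖ * ‖v - b‖ ^ m) ^ (p ^ a) := by
      refine hlt.trans_le ?_
      rw [mul_pow, ← pow_mul, mul_comm m (p ^ a)]
      exact mul_le_mul_of_nonneg_right h1 (pow_nonneg (norm_nonneg _) _)
    by_contra hcon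
    push Not at hcon
    exact absurd h2 (not_lt.2 (pow_le_one₀
      (mul_nonneg (norm_nonneg _) (pow_nonneg (norm_nonneg _) _)) hcon))
  · intro t ht
    obtain ⟨b₀, hb₀, hB⟩ := claimB hcart hv hd ht
    refine ⟨b₀, hb₀, fun b hb hbb n hn => ?_⟩
    rw [cc_hat hr hcart hd.polyIn hb]
    by_cases hpn : p ∣ n
    · rw [hat_coeff_dvd hr _ hn hpn, norm_zero, zero_mul]
      linarith
    · obtain ⟨-, a, ha⟩ := hat_coeff hr c (polyIn_cc hcart hd.polyIn hb)
        (Sop_cc hcart hd.polyIn hb) hpn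
      have h1 := (hB b hb hbb).1 (n * p ^ a) (Nat.mul_pos hn (pow_pos hp a))
      rw [ha, pow_mul, ← mul_pow] at h1
      by_contra hcon
      push Not at hcon
      have h2 : 1 ≤ ‖(NF σh p (cc (c.σ c.o) p f b)).coeff n‖ * ‖v - b‖ ^ n := by linarith
      have h3 := le_self_pow₀ h2 (pow_pos hp a).ne'
      linarith

end HR
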