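import Pool.Agent.Lib.HR.HatA

/-!
# HatB: the stable top index of the perfect normal form is one

`q` is prime to `p` (`hat_coeff_dvd`; the coefficient `q` of `cc σh p f b` is not zero).
Suppose `q ≥ 2`.

`hat_coeff_one_norm`: let `b` be as close as `b₁`, `s = ‖v - b‖`, `b' ∈ L` strictly closer,
`e = b' - b`, `‖e‖ = s`; `ch = cc σh p f b`, `h = taylor e ch - C (ch.eval e)`, so
`cc σh p f b' = NF σh p h = h + G - G ^ p`, `N = φ s ^ q > 1` (`φ ρ ^ q = 1`, `rho_lt`),
`(‖G_n‖ s ^ n) ^ p ≤ N` hence `‖G_n‖ s ^ n < N`.  For `1 ≤ m < q` prime to `p`: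
`‖(cc σh p f b')_m‖ ‖v-b'‖ ^ m ≤ φ ‖v-b'‖ ^ q`, so `‖(cc σh p f b')_m‖ ≤ φ ‖v-b'‖ ^ (q-m) < φ s ^ (q-m)`,
and therefore `‖h_m‖ s ^ m < N`.  So in the derivative `D = derivative ch`
(`taylor e D = derivative (taylor e ch)`), all coefficients of `taylor e D` of index `m - 1`,
`m ≠ q`, satisfy `‖·‖ s ^ (m-1) < φ s ^ (q-1)` (`m` divisible by `p`: zero; `m < q`: above; `m > q`:
`Stab.top`, `norm_taylor_coeff_lt`), and the one of index `q - 1` has norm `‖q h_q‖ = φ`
(`norm_taylor_coeff_sub_lt`).  Evaluate at `-e`: `D(0) = ch_1 = (taylor e D)(-e)`, so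
`‖ch_1‖ = φ s ^ (q-1)`.

`qhat_eq_one`: `(cc σh p f b).coeff 1 ^ (p^A) = Z.eval b` with
`Z = ∑_{a ≤ A} (hasseDeriv (p^a) f) ^ (p^(A-a)) ∈ L[X]`, `p ^ (A+1) > natDegree f`
(`NF σh` of `taylor b f - C _`, coefficient `1` is `∑_a σh^a ((taylor b f)_{p^a})`).  If `Z = 0` then
`ch_1 = 0`, contradiction with `φ s ^ (q-1) > 0`.  Otherwise `‖Z b‖` is constant for `b` close
(`T4.stable`), but `(φ ‖v-b‖ ^ (q-1)) ^ (p^A)` strictly decreases with `‖v-b‖` (`T4.imm`,
`q - 1 ≥ 1`).
-/

namespace HR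

open Polynomial

variable {W : Type*} [NormedField W] [IsUltrametricDist W] {p : ℕ} [Fact p.Prime] [CharP W p]
  {L : Subfield W} {σh : W → W} {v : W} {f : W[X]} {q : ℕ} {φ : ℝ} {b₁ : W}

omit [IsUltrametricDist W] [Fact p.Prime] [CharP W p] in
private theorem hatb_top (g : W[X]) : PolyIn (⊤ : Subfield W) g := fun _ => trivial

omit [IsUltrametricDist W] [Fact p.Prime] [CharP W p] in
private theorem hatb_taylor_derivative (e : W) (g : W[X]) :
    taylor e (derivative g) = derivative (taylor e g) := by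
  rw [taylor_apply, taylor_apply, derivative_comp, derivative_add, derivative_X, derivative_C,
    add_zero, one_mul]

omit [Fact p.Prime] [CharP W p] in
/-- a polynomial with one strictly dominating term at radius `‖y‖` -/
private theorem hatb_eval_norm {P : W[X]} {y : W} {M : ℝ} (hM : 0 < M) {k : ℕ}
    (hk : ‖P.coeff k‖ * ‖y‖ ^ k = M) (ho : ∀ m, m ≠ k → ‖P.coeff m‖ * ‖y‖ ^ m < M) :
    ‖P.eval y‖ = M := by
  have h1 : P.eval y = P.coeff k * y ^ k +
      ∑ i ∈ (Finset.range (P.natDegree + 1)).erase k, P.coeff i * y ^ i := by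
    have hkm : k ∈ Finset.range (P.natDegree + 1) := by
      rw [Finset.mem_range]
      by_contra hcon
      have h2 : P.coeff k = 0 := coeff_eq_zero_of_natDegree_lt (by omega)
      rw [h2, norm_zero, zero_mul] at hk
      linarith
    rw [eval_eq_sum_range, ← Finset.add_sum_erase _ _ hkm]
  have h2 : ‖∑ i ∈ (Finset.range (P.natDegree + 1)).erase k, P.coeff i * y ^ i‖ < M := by
    rcases ((Finset.range (P.natDegree + 1)).erase k).eq_empty_or_nonempty with he | he
    · rw [he, Finset.sum_empty, norm_zero]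
      exact hM
    · obtain ⟨i, hi, hle⟩ := IsUltrametricDist.exists_norm_finsetSum_le_of_nonempty he
        (fun i => P.coeff i * y ^ i)
      refine lt_of_le_of_lt hle ?_
      rw [norm_mul, norm_pow]
      exact ho i (Finset.ne_of_mem_erase hi)
  have h3 : ‖P.coeff k * y ^ k‖ = M := by
    rw [norm_mul, norm_pow]
    exact hk
  rw [h1, IsUltrametricDist.norm_add_eq_max_of_norm_ne_norm (by rw [h3]; exact h2.ne'), h3]
  exact max_eq_left h2.le

theorem hat_coeff_one_norm (hr : ∀ y, σh y ^ p = y) (hf : PolyIn L f) (hv : T4 L v)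
    (hs : Stab σh p L v f 1 q φ b₁) (hq : 2 ≤ q) {b : W} (hb : b ∈ L)
    (hbb : ‖v - b‖ ≤ ‖v - b₁‖) :
    ‖(cc σh p f b).coeff 1‖ = φ * ‖v - b‖ ^ (q - 1) := by
  have hσ : Cart p (⊤ : Subfield W) σh := cart_hat hr
  have hφ := hs.pos
  obtain ⟨b', hb', hlt⟩ := hv.imm b hb
  set s : ℝ := ‖v - b‖ with hsdef
  have hspos : 0 < s := hv.pos hb
  set e : W := b' - b with he
  have hes : ‖e‖ = s := norm_sub_of_closer hlt
  set ch : W[X] := cc σh p f b with hch
  set h : W[X] := taylor e ch - C (ch.eval e) with hh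
  have hcc' : cc σh p f b' = NF σh p h :=
    cc_recenter hσ (hatb_top f) (Subfield.mem_top b) (Subfield.mem_top b')
  have htop := hs.top b hb hbb
  have hlead := hs.lead b hb hbb
  have htop' := hs.top b' hb' (hlt.le.trans hbb)
  have hlead' := hs.lead b' hb' (hlt.le.trans hbb)
  rw [← hch] at htop hlead
  rw [← hsdef] at htop
  set N : ℝ := φ * s ^ q with hN
  have hN1 : 1 < N := by
    rw [hN, ← hs.val]
    exact mul_lt_mul_of_pos_left (pow_lt_pow_left₀ (rho_lt hv hb) rho_nonneg (by omega)) hφ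
  have hp2 : 2 ≤ p := (Fact.out : p.Prime).two_le
  have hc1 : ∀ n, 1 ≤ n → ‖ch.coeff n‖ * s ^ n ≤ N := by
    intro n hn
    have := htop.le n hn
    rwa [hlead] at this
  have hc2 : ∀ n, q < n → ‖ch.coeff n‖ * s ^ n < N := by
    intro n hn
    have := htop.lt n hn
    rwa [hlead] at this
  have ht1 : ∀ n, 1 ≤ n → ‖(taylor e ch).coeff n‖ * s ^ n ≤ N := fun n hn =>
    norm_taylor_coeff_le hspos hes.le (fun m hm => hc1 m (hn.trans hm))
  have hhc : ∀ n, 1 ≤ n → h.coeff n = (taylor e ch).coeff n := by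
    intro n hn
    rw [hh, coeff_sub, coeff_C, if_neg (by omega), sub_zero]
  -- norms of `G`
  have hG : ∀ n, ‖(Gop σh p h).coeff n‖ * s ^ n < N := by
    intro n
    have h1 := norm_Gop hσ (hatb_top h) hspos hN1.le
      (fun n hn => by rw [hhc n hn]; exact ht1 n hn) n
    by_contra hcon
    push Not at hcon
    have h2 : N ^ p ≤ (‖(Gop σh p h).coeff n‖ * s ^ n) ^ p :=
      pow_le_pow_left₀ (by linarith) hcon p
    have h3 : N ^ 1 < N ^ p := pow_lt_pow_right₀ hN1 (by omega)
    rw [pow_one] at h3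
    linarith
  -- small indices
  have hsmall : ∀ m, 1 ≤ m → m < q → ¬ p ∣ m → ‖(taylor e ch).coeff m‖ * s ^ m < N := by
    intro m hm hmq hpm
    have h1 : (cc σh p f b').coeff m = h.coeff m + (Gop σh p h).coeff m := by
      rw [hcc', NF, coeff_sub, coeff_add, coeff_pow_of_not_dvd _ hpm, sub_zero]
    have h2 : ‖(cc σh p f b').coeff m‖ * s ^ m < N := by
      have h3 := htop'.le m hm
      rw [hlead'] at h3
      have hs' : 0 < ‖v - b'‖ := hv.pos hb'
      have h4 : ‖(cc σh p f b').coeff m‖ ≤ φ * ‖v - b'‖ ^ (q - m) := by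
        have h5 : φ * ‖v - b'‖ ^ q = (φ * ‖v - b'‖ ^ (q - m)) * ‖v - b'‖ ^ m := by
          rw [mul_assoc, ← pow_add, Nat.sub_add_cancel hmq.le]
        rw [h5] at h3
        exact le_of_mul_le_mul_right h3 (pow_pos hs' m)
      have h6 : φ * ‖v - b'‖ ^ (q - m) < φ * s ^ (q - m) :=
        mul_lt_mul_of_pos_left (pow_lt_pow_left₀ hlt hs'.le (by omega)) hφ
      have h7 : N = (φ * s ^ (q - m)) * s ^ m := by
        rw [hN, mul_assoc, ← pow_add, Nat.sub_add_cancel hmq.le]
      rw [h7]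
      exact mul_lt_mul_of_pos_right (lt_of_le_of_lt h4 h6) (pow_pos hspos m)
    have h8 : (taylor e ch).coeff m = (cc σh p f b').coeff m + -(Gop σh p h).coeff m := by
      rw [h1, hhc m hm]
      ring
    rw [h8]
    have hsm : 0 < s ^ m := pow_pos hspos m
    rw [← lt_div_iff₀ hsm]
    refine lt_of_le_of_lt (IsUltrametricDist.norm_add_le_max _ _) (max_lt ?_ ?_)
    · rw [lt_div_iff₀ hsm]
      exact h2
    · rw [norm_neg, lt_div_iff₀ hsm]
      exact hG m
  have hbig : ∀ m, q < m → ‖(taylor e ch).coeff m‖ * s ^ m < N := fun m hm =>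
    norm_taylor_coeff_lt hspos (by linarith) hes.le (fun n hn => hc2 n (by omega))
  have hmid : ‖(taylor e ch).coeff q‖ = φ := by
    have h1 : ‖(taylor e ch).coeff q - ch.coeff q‖ * s ^ q < N :=
      norm_taylor_coeff_sub_lt hspos (by linarith) hes.le (fun n hn => hc2 n hn)
    have h2 : ‖(taylor e ch).coeff q - ch.coeff q‖ < ‖ch.coeff q‖ := by
      rw [hlead]
      exact lt_of_mul_lt_mul_right h1 (pow_pos hspos q).le
    have h3 : (taylor e ch).coeff q = ch.coeff q + ((taylor e ch).coeff q - ch.coeff q) := by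
      ring
    rw [h3, IsUltrametricDist.norm_add_eq_max_of_norm_ne_norm h2.ne', max_eq_left h2.le, hlead]
  -- `q` is prime to `p`
  have hpq : ¬ p ∣ q := by
    intro hd
    have h1 : ch.coeff q = 0 := by
      rw [hch, cc]
      exact hat_coeff_dvd hr _ (by omega) hd
    rw [h1, norm_zero] at hlead
    linarith
  -- evaluate the derivative
  have hD : (taylor e (derivative ch)).eval (-e) = ch.coeff 1 := by
    rw [taylor_eval, neg_add_cancel, ← coeff_zero_eq_eval_zero, coeff_derivative]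
    simp
  have hM : 0 < φ * s ^ (q - 1) := mul_pos hφ (pow_pos hspos _)
  have hcoeff : ∀ m, (taylor e (derivative ch)).coeff m =
      (taylor e ch).coeff (m + 1) * ((m + 1 : ℕ) : W) := by
    intro m
    rw [hatb_taylor_derivative, coeff_derivative]
    push_cast
    ring
  have hNs : N = (φ * s ^ (q - 1)) * s := by
    rw [hN, mul_assoc, ← pow_succ]
    congr 2
    omega
  rw [← hD]
  apply hatb_eval_norm hM (k := q - 1)
  · rw [norm_neg, hes, hcoeff]
    have h1 : q - 1 + 1 = q := by omega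
    rw [h1, norm_mul, norm_natCast_of_not_dvd hpq, mul_one, hmid]
  · intro m hm
    rw [norm_neg, hes, hcoeff, norm_mul]
    by_cases hpm : p ∣ m + 1
    · have h1 : ((m + 1 : ℕ) : W) = 0 := (CharP.cast_eq_zero_iff W p (m + 1)).mpr hpm
      rw [h1, norm_zero, mul_zero, zero_mul]
      exact hM
    · rw [norm_natCast_of_not_dvd hpm, mul_one]
      have h1 : ‖(taylor e ch).coeff (m + 1)‖ * s ^ (m + 1) < N := by
        rcases lt_or_gt_of_ne (show m + 1 ≠ q by omega) with h2 | h2
        · exact hsmall (m + 1) (by omega) h2 hpm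
        · exact hbig (m + 1) h2
      rw [hNs, pow_succ, ← mul_assoc] at h1
      exact lt_of_mul_lt_mul_right h1 hspos.le

omit [IsUltrametricDist W] [Fact p.Prime] [CharP W p] in
private theorem hatb_polyIn_hasse (hf : PolyIn L f) (k : ℕ) : PolyIn L (hasseDeriv k f) := by
  intro n
  rw [hasseDeriv_coeff]
  exact mul_mem (natCast_mem L _) (hf _)

omit [IsUltrametricDist W] [CharP W p] in
private theorem hatb_iter_coeff (h0 : σh 0 = 0) (h : W[X]) (i n : ℕ) (hn : 1 ≤ n) :
    ((Sop σh p)^[i] h).coeff n = σh^[i] (h.coeff (p ^ i * n)) := by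
  induction i generalizing n with
  | zero => simp
  | succ i ih =>
    have hp : 0 < p := (Fact.out : p.Prime).pos
    rw [Function.iterate_succ_apply', coeff_Sop h0, if_pos hn, ih (p * n) (Nat.mul_pos hp hn),
      Function.iterate_succ_apply']
    congr 3
    ring

omit [IsUltrametricDist W] [Fact p.Prime] [CharP W p] in
private theorem hatb_iter_pow (hr : ∀ y, σh y ^ p = y) (i : ℕ) (y : W) :
    (σh^[i] y) ^ (p ^ i) = y := by
  induction i with
  | zero => simp
  | succ i ih =>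
    rw [Function.iterate_succ_apply', pow_succ', pow_mul, hr, ih]

theorem hat_coeff_one_pow (hr : ∀ y, σh y ^ p = y) (hf : PolyIn L f) :
    ∃ (A : ℕ) (Z : W[X]), PolyIn L Z ∧ ∀ b, (cc σh p f b).coeff 1 ^ (p ^ A) = Z.eval b := by
  have hσ : Cart p (⊤ : Subfield W) σh := cart_hat hr
  have hp2 : 2 ≤ p := (Fact.out : p.Prime).two_le
  refine ⟨f.natDegree + 1, ∑ i ∈ Finset.range (f.natDegree + 2),
    (hasseDeriv (p ^ i) f) ^ (p ^ (f.natDegree + 1 - i)),
    polyIn_sum _ _ fun i _ => polyIn_pow (hatb_polyIn_hasse hf _) _, fun b => ?_⟩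
  set h : W[X] := taylor b f - C (f.eval b) with hh
  have hdeg : h.natDegree ≤ f.natDegree := by
    rw [hh]
    refine (natDegree_sub_le _ _).trans (max_le (by rw [natDegree_taylor]) ?_)
    rw [natDegree_C]
    omega
  have hcoef : ∀ n, 1 ≤ n → h.coeff n = (hasseDeriv n f).eval b := by
    intro n hn
    rw [hh, coeff_sub, coeff_C, if_neg (by omega), sub_zero, taylor_coeff]
  have h1 : (cc σh p f b).coeff 1 =
      ∑ i ∈ Finset.range (h.natDegree + 2), σh^[i] (h.coeff (p ^ i)) := by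
    have hnd : ¬ p ∣ 1 := by
      intro hd
      have := Nat.le_of_dvd one_pos hd
      omega
    have e1 : Finset.range (h.natDegree + 2) = insert 0 (Finset.Icc 1 (h.natDegree + 1)) := by
      ext i
      simp only [Finset.mem_range, Finset.mem_insert, Finset.mem_Icc]
      omega
    rw [cc, ← hh, NF, coeff_sub, coeff_add, coeff_pow_of_not_dvd _ hnd, sub_zero, Gop,
      finsetSum_coeff, e1, Finset.sum_insert (by simp)]
    simp only [pow_zero, Function.iterate_zero, id_eq]
    congr 1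
    refine Finset.sum_congr rfl fun i _ => ?_
    rw [hatb_iter_coeff hσ.zero h i 1 le_rfl, mul_one]
  have h2 : ∑ i ∈ Finset.range (h.natDegree + 2), σh^[i] (h.coeff (p ^ i)) =
      ∑ i ∈ Finset.range (f.natDegree + 2), σh^[i] (h.coeff (p ^ i)) := by
    refine Finset.sum_subset ?_ ?_
    · intro i hi
      rw [Finset.mem_range] at hi ⊢
      omega
    · intro i _ hi
      rw [Finset.mem_range, not_lt] at hi
      have h3 : i < p ^ i := Nat.lt_pow_self (by omega)
      have h4 : h.coeff (p ^ i) = 0 := coeff_eq_zero_of_natDegree_lt (by omega)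
      rw [h4]
      have h5 : ∀ k : ℕ, σh^[k] 0 = 0 := by
        intro k
        induction k with
        | zero => rfl
        | succ k ih => rw [Function.iterate_succ_apply', ih, hσ.zero]
      exact h5 i
  rw [h1, h2, eval_finsetSum, sum_pow_char_pow]
  refine Finset.sum_congr rfl fun i hi => ?_
  have hi' : i ≤ f.natDegree + 1 := by
    have := Finset.mem_range.mp hi
    omega
  have h3 : p ^ (f.natDegree + 1) = p ^ i * p ^ (f.natDegree + 1 - i) := by
    rw [← pow_add]
    congr 1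
    omega
  rw [h3, pow_mul, hatb_iter_pow hr, eval_pow, hcoef _ (Nat.one_le_pow _ _ (by omega))]

theorem qhat_eq_one (hr : ∀ y, σh y ^ p = y) (hf : PolyIn L f) (hv : T4 L v)
    (hs : Stab σh p L v f 1 q φ b₁) : q = 1 := by
  by_contra hne
  have hq : 2 ≤ q := by
    have := hs.one_le
    omega
  have hp2 : 2 ≤ p := (Fact.out : p.Prime).two_le
  have hφ := hs.pos
  obtain ⟨A, Z, hZ, hZe⟩ := hat_coeff_one_pow (L := L) hr hf
  have hZn : ∀ b ∈ L, ‖v - b‖ ≤ ‖v - b₁‖ →
      ‖Z.eval b‖ = (φ * ‖v - b‖ ^ (q - 1)) ^ (p ^ A) := by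
    intro b hb hbb
    rw [← hZe b, norm_pow, hat_coeff_one_norm hr hf hv hs hq hb hbb]
  have hZ0 : Z ≠ 0 := by
    intro h0
    have h1 := hZn b₁ hs.mem le_rfl
    rw [h0, eval_zero, norm_zero] at h1
    have h2 : 0 < (φ * ‖v - b₁‖ ^ (q - 1)) ^ (p ^ A) :=
      pow_pos (mul_pos hφ (pow_pos (hv.pos hs.mem) _)) _
    linarith
  obtain ⟨-, b₀, hb₀, hst⟩ := hv.stable hZ hZ0
  obtain ⟨b, hb, h1, h2⟩ := exists_closer hv hb₀ hs.mem
  obtain ⟨b', hb', hlt⟩ := hv.imm b hb
  have h3 := (hst b hb h1).1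
  have h4 := (hst b' hb' (hlt.le.trans h1)).1
  rw [hZn b hb h2] at h3
  rw [hZn b' hb' (hlt.le.trans h2)] at h4
  have h5 : (φ * ‖v - b'‖ ^ (q - 1)) ^ (p ^ A) < (φ * ‖v - b‖ ^ (q - 1)) ^ (p ^ A) := by
    apply pow_lt_pow_left₀ _ (mul_nonneg hφ.le (pow_nonneg (norm_nonneg _) _))
      (pow_ne_zero _ (by omega))
    exact mul_lt_mul_of_pos_left (pow_lt_pow_left₀ hlt (norm_nonneg _) (by omega)) hφ
  linarith

end HR
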