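import Pool.Agent.Lib.HR.PC

/-!
# NF: the Artin-Schreier normal form of polynomials

`σ` is a Cartier type operator on `L`.  `Sop σ p h` has coefficient `σ (h.coeff (p n))` at `n ≥ 1`
and `0` at `0`; its degree is at most `natDegree h / p`, and it has no constant term, so the iterates
`S^i h` vanish for `i > natDegree h` (if `natDegree h = 0` already `S h = 0`).  Hence
`G = S h + S² h + ...` satisfies `S (h + G) = G`, and `S (G ^ p) = G` since `G` has no constant term
(`(g ^ p).coeff (p n) = (g.coeff n) ^ p`, `expand`/`map_frobenius` or `Polynomial.expand_char`), so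
`S (NF h) = S h + S G - G = 0`.  Uniqueness: if `c` is normal (`S c = 0`) and `h = c + g ^ p - g`,
`g` without constant term, then `S h = g - S g`, so `g = S h + S g`, and iterating `g = G`.
Norms (`N ≥ 1`): `‖S h‖_s ^ p ≤ ‖h‖_s`, so all iterates `S^i h` have `(‖·‖_s) ^ p ≤ N`.
-/

namespace HR

open Polynomial

variable {W : Type*} [NormedField W] [IsUltrametricDist W] {p : ℕ} [Fact p.Prime] [CharP W p]
  {L : Subfield W} {σ : W → W}

omit [IsUltrametricDist W] [Fact p.Prime] [CharP W p] in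
theorem polyIn_zero : PolyIn L (0 : W[X]) := by
  intro n
  rw [coeff_zero]
  exact zero_mem L

omit [IsUltrametricDist W] [Fact p.Prime] [CharP W p] in
theorem polyIn_add {f g : W[X]} (hf : PolyIn L f) (hg : PolyIn L g) : PolyIn L (f + g) := by
  intro n
  rw [coeff_add]
  exact add_mem (hf n) (hg n)

omit [IsUltrametricDist W] [Fact p.Prime] [CharP W p] in
theorem polyIn_neg {f : W[X]} (hf : PolyIn L f) : PolyIn L (-f) := by
  intro n
  rw [coeff_neg]
  exact neg_mem (hf n)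

omit [IsUltrametricDist W] [Fact p.Prime] [CharP W p] in
theorem polyIn_sub {f g : W[X]} (hf : PolyIn L f) (hg : PolyIn L g) : PolyIn L (f - g) := by
  intro n
  rw [coeff_sub]
  exact sub_mem (hf n) (hg n)

omit [IsUltrametricDist W] [Fact p.Prime] [CharP W p] in
theorem polyIn_mul {f g : W[X]} (hf : PolyIn L f) (hg : PolyIn L g) : PolyIn L (f * g) := by
  intro n
  rw [coeff_mul]
  exact sum_mem fun x _ => mul_mem (hf _) (hg _)

omit [IsUltrametricDist W] [Fact p.Prime] [CharP W p] in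
theorem polyIn_pow {f : W[X]} (hf : PolyIn L f) (n : ℕ) : PolyIn L (f ^ n) := by
  induction n with
  | zero =>
    intro n
    rw [pow_zero, coeff_one]
    split_ifs
    · exact one_mem L
    · exact zero_mem L
  | succ n ih =>
    rw [pow_succ]
    exact polyIn_mul ih hf

omit [IsUltrametricDist W] [Fact p.Prime] [CharP W p] in
theorem polyIn_C {a : W} (ha : a ∈ L) : PolyIn L (C a) := by
  intro n
  rw [coeff_C]
  split_ifs
  · exact ha
  · exact zero_mem L

omit [IsUltrametricDist W] [Fact p.Prime] [CharP W p] in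
theorem polyIn_X : PolyIn L (X : W[X]) := by
  intro n
  rw [coeff_X]
  split_ifs
  · exact one_mem L
  · exact zero_mem L

omit [IsUltrametricDist W] [Fact p.Prime] [CharP W p] in
theorem polyIn_sum {ι : Type*} (s : Finset ι) (f : ι → W[X]) (hf : ∀ i ∈ s, PolyIn L (f i)) :
    PolyIn L (∑ i ∈ s, f i) := by
  intro n
  rw [finsetSum_coeff]
  exact sum_mem fun i hi => hf i hi n

omit [IsUltrametricDist W] [Fact p.Prime] [CharP W p] in
theorem polyIn_comp {f g : W[X]} (hf : PolyIn L f) (hg : PolyIn L g) : PolyIn L (f.comp g) := by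
  rw [comp, eval₂_eq_sum_range]
  exact polyIn_sum _ _ fun i _ => polyIn_mul (polyIn_C (hf i)) (polyIn_pow hg i)

omit [IsUltrametricDist W] [Fact p.Prime] [CharP W p] in
theorem polyIn_taylor {f : W[X]} (hf : PolyIn L f) {b : W} (hb : b ∈ L) :
    PolyIn L (taylor b f) := by
  rw [taylor_apply]
  exact polyIn_comp hf (polyIn_add polyIn_X (polyIn_C hb))

omit [IsUltrametricDist W] [Fact p.Prime] [CharP W p] in
theorem polyIn_derivative {f : W[X]} (hf : PolyIn L f) : PolyIn L (derivative f) := by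
  intro n
  rw [coeff_derivative]
  exact mul_mem (hf _) (add_mem (natCast_mem L n) (one_mem L))

omit [IsUltrametricDist W] [Fact p.Prime] [CharP W p] in
theorem eval_mem {f : W[X]} (hf : PolyIn L f) {b : W} (hb : b ∈ L) : f.eval b ∈ L := by
  rw [eval_eq_sum_range]
  exact sum_mem fun i _ => mul_mem (hf i) (pow_mem hb i)

omit [IsUltrametricDist W] [CharP W p] in
theorem coeff_Sop (h0 : σ 0 = 0) (h : W[X]) (n : ℕ) :
    (Sop σ p h).coeff n = if 1 ≤ n then σ (h.coeff (p * n)) else 0 := by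
  have hp : 0 < p := (Fact.out : p.Prime).pos
  rw [Sop, finsetSum_coeff]
  simp only [coeff_monomial]
  rw [Finset.sum_ite_eq' (Finset.Icc 1 h.natDegree) n]
  by_cases hn : 1 ≤ n
  · rw [if_pos hn]
    by_cases hn' : n ≤ h.natDegree
    · rw [if_pos (Finset.mem_Icc.2 ⟨hn, hn'⟩)]
    · rw [if_neg (fun h' => hn' (Finset.mem_Icc.1 h').2)]
      have h1 : h.coeff (p * n) = 0 := by
        apply coeff_eq_zero_of_natDegree_lt
        calc h.natDegree < n := not_le.1 hn'
          _ ≤ p * n := Nat.le_mul_of_pos_left n hp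
      rw [h1, h0]
  · rw [if_neg hn, if_neg (fun h' => hn (Finset.mem_Icc.1 h').1)]

omit [IsUltrametricDist W] [CharP W p] in
private theorem nf_zero (hσ : Cart p L σ) : σ 0 = 0 := by
  have hp : p ≠ 0 := (Fact.out : p.Prime).ne_zero
  have h := hσ.smul 0 (zero_mem L) 0 (zero_mem L)
  rw [zero_pow hp, zero_mul, zero_mul] at h
  exact h

omit [IsUltrametricDist W] [CharP W p] in
theorem polyIn_Sop (hσ : Cart p L σ) {h : W[X]} (hh : PolyIn L h) : PolyIn L (Sop σ p h) := by
  intro n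
  rw [coeff_Sop (nf_zero hσ)]
  split_ifs
  · exact hσ.mem _ (hh _)
  · exact zero_mem L

omit [IsUltrametricDist W] [CharP W p] in
theorem Sop_add (hσ : Cart p L σ) {f g : W[X]} (hf : PolyIn L f) (hg : PolyIn L g) :
    Sop σ p (f + g) = Sop σ p f + Sop σ p g := by
  ext n
  rw [coeff_add, coeff_Sop (nf_zero hσ), coeff_Sop (nf_zero hσ), coeff_Sop (nf_zero hσ)]
  split_ifs
  · rw [coeff_add, hσ.add _ (hf _) _ (hg _)]
  · rw [add_zero]

omit [IsUltrametricDist W] [CharP W p] in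
theorem Sop_sub (hσ : Cart p L σ) {f g : W[X]} (hf : PolyIn L f) (hg : PolyIn L g) :
    Sop σ p (f - g) = Sop σ p f - Sop σ p g := by
  have h1 : Sop σ p (f - g) + Sop σ p g = Sop σ p f := by
    rw [← Sop_add hσ (polyIn_sub hf hg) hg, sub_add_cancel]
  rw [← h1, add_sub_cancel_right]

omit [IsUltrametricDist W] in
theorem coeff_pow_mul (g : W[X]) (n : ℕ) : (g ^ p).coeff (p * n) = (g.coeff n) ^ p := by
  have hp : 0 < p := (Fact.out : p.Prime).pos
  rw [← map_frobenius_expand p g, coeff_map, coeff_expand_mul' hp, frobenius_def]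

omit [IsUltrametricDist W] in
theorem coeff_pow_of_not_dvd (g : W[X]) {n : ℕ} (hn : ¬ p ∣ n) : (g ^ p).coeff n = 0 := by
  have hp : 0 < p := (Fact.out : p.Prime).pos
  rw [← map_frobenius_expand p g, coeff_map, coeff_expand hp, if_neg hn, map_zero]

omit [IsUltrametricDist W] in
theorem Sop_pow (hσ : Cart p L σ) {g : W[X]} (hg : PolyIn L g) (g0 : g.coeff 0 = 0) :
    Sop σ p (g ^ p) = g := by
  ext n
  rw [coeff_Sop (nf_zero hσ)]
  split_ifs with h
  · have h1 := hσ.smul (g.coeff n) (hg n) 1 (one_mem L)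
    rw [coeff_pow_mul]
    rw [mul_one, hσ.one, mul_one] at h1
    exact h1
  · have : n = 0 := by omega
    rw [this, g0]

omit [IsUltrametricDist W] [CharP W p] in
private theorem nf_Sop_zero (hσ : Cart p L σ) : Sop σ p (0 : W[X]) = 0 := by
  ext n
  rw [coeff_Sop (nf_zero hσ)]
  split_ifs
  · rw [coeff_zero, coeff_zero, nf_zero hσ]
  · rw [coeff_zero]

omit [IsUltrametricDist W] [CharP W p] in
private theorem nf_polyIn_iter (hσ : Cart p L σ) {h : W[X]} (hh : PolyIn L h) (i : ℕ) :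
    PolyIn L ((Sop σ p)^[i] h) := by
  induction i with
  | zero => exact hh
  | succ i ih =>
    rw [Function.iterate_succ_apply']
    exact polyIn_Sop hσ ih

omit [IsUltrametricDist W] [CharP W p] in
private theorem nf_Sop_sum (hσ : Cart p L σ) {ι : Type*} (s : Finset ι) (f : ι → W[X])
    (hf : ∀ i ∈ s, PolyIn L (f i)) : Sop σ p (∑ i ∈ s, f i) = ∑ i ∈ s, Sop σ p (f i) := by
  classical
  induction s using Finset.induction_on with
  | empty => simp [nf_Sop_zero hσ]
  | insert a s ha ih =>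
    rw [Finset.sum_insert ha, Finset.sum_insert ha,
      Sop_add hσ (hf a (by simp)) (polyIn_sum _ _ fun i hi => hf i (by simp [hi])),
      ih fun i hi => hf i (by simp [hi])]

omit [IsUltrametricDist W] [CharP W p] in
/-- coefficients of the iterates of index `> natDegree / p ^ i` vanish -/
private theorem nf_iter_coeff (hσ : Cart p L σ) (h : W[X]) (i n : ℕ)
    (hn : h.natDegree < p ^ i * n) : ((Sop σ p)^[i] h).coeff n = 0 := by
  induction i generalizing n with
  | zero =>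
    rw [pow_zero, one_mul] at hn
    exact coeff_eq_zero_of_natDegree_lt hn
  | succ i ih =>
    rw [Function.iterate_succ_apply', coeff_Sop (nf_zero hσ)]
    split_ifs
    · rw [ih (p * n) (by rw [pow_succ] at hn; rwa [← mul_assoc]), nf_zero hσ]
    · rfl

omit [IsUltrametricDist W] [CharP W p] in
private theorem nf_lt_pow (D : ℕ) {n : ℕ} (hn : 1 ≤ n) : D < p ^ (D + 1) * n := by
  have hp : 2 ≤ p := (Fact.out : p.Prime).two_le
  have h1 : D + 1 < p ^ (D + 1) := Nat.lt_pow_self (by omega)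
  calc D < p ^ (D + 1) := by omega
    _ = p ^ (D + 1) * 1 := by ring
    _ ≤ p ^ (D + 1) * n := Nat.mul_le_mul_left _ hn

omit [IsUltrametricDist W] [CharP W p] in
private theorem nf_iter_zero (hσ : Cart p L σ) (h : W[X]) {i : ℕ} (hi : i = h.natDegree + 1) :
    (Sop σ p)^[i] h = 0 := by
  ext n
  rw [coeff_zero]
  by_cases hn : 1 ≤ n
  · exact nf_iter_coeff hσ h i n (by rw [hi]; exact nf_lt_pow _ hn)
  · rw [hi, Function.iterate_succ_apply', coeff_Sop (nf_zero hσ), if_neg hn]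

omit [IsUltrametricDist W] [CharP W p] in
private theorem nf_fixed_zero (hσ : Cart p L σ) {d : W[X]} (_hd : PolyIn L d)
    (e : d = Sop σ p d) : d = 0 := by
  have h1 : ∀ i, (Sop σ p)^[i] d = d := by
    intro i
    induction i with
    | zero => rfl
    | succ i ih => rw [Function.iterate_succ_apply', ih, ← e]
  rw [← h1 (d.natDegree + 1)]
  exact nf_iter_zero hσ d rfl

omit [IsUltrametricDist W] [CharP W p] in
theorem polyIn_Gop (hσ : Cart p L σ) {h : W[X]} (hh : PolyIn L h) : PolyIn L (Gop σ p h) := by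
  exact polyIn_sum _ _ fun i _ => nf_polyIn_iter hσ hh i

omit [IsUltrametricDist W] [CharP W p] in
theorem Gop_coeff_zero (hσ : Cart p L σ) (h : W[X]) : (Gop σ p h).coeff 0 = 0 := by
  rw [Gop, finsetSum_coeff]
  refine Finset.sum_eq_zero fun i hi => ?_
  obtain ⟨j, rfl⟩ : ∃ j, i = j + 1 := ⟨i - 1, by have := (Finset.mem_Icc.1 hi).1; omega⟩
  rw [Function.iterate_succ_apply', coeff_Sop (nf_zero hσ), if_neg (by omega)]

omit [IsUltrametricDist W] [CharP W p] in
theorem Sop_add_Gop (hσ : Cart p L σ) {h : W[X]} (hh : PolyIn L h) :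
    Sop σ p (h + Gop σ p h) = Gop σ p h := by
  have hz : (Sop σ p)^[h.natDegree + 2] h = 0 := by
    have h1 : (Sop σ p)^[h.natDegree + 1] h = 0 := nf_iter_zero hσ h (by omega)
    rw [Function.iterate_succ_apply', h1]
    exact nf_Sop_zero hσ
  rw [Sop_add hσ hh (polyIn_Gop hσ hh)]
  have h2 : Sop σ p (Gop σ p h) = ∑ i ∈ Finset.Icc 1 (h.natDegree + 1), (Sop σ p)^[i + 1] h := by
    rw [Gop, nf_Sop_sum hσ _ _ fun i _ => nf_polyIn_iter hσ hh i]
    exact Finset.sum_congr rfl fun i _ => (Function.iterate_succ_apply' _ _ _).symm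
  have h3 : ∀ D : ℕ, Sop σ p h + ∑ i ∈ Finset.Icc 1 D, (Sop σ p)^[i + 1] h =
      ∑ i ∈ Finset.Icc 1 D, (Sop σ p)^[i] h + (Sop σ p)^[D + 1] h := by
    intro D
    induction D with
    | zero => simp
    | succ D ih =>
      rw [Finset.sum_Icc_succ_top (by omega), Finset.sum_Icc_succ_top (by omega), ← add_assoc, ih]
  rw [h2, h3, hz, add_zero]
  rfl

omit [IsUltrametricDist W] in
theorem polyIn_NF (hσ : Cart p L σ) {h : W[X]} (hh : PolyIn L h) : PolyIn L (NF σ p h) := by
  exact polyIn_sub (polyIn_add hh (polyIn_Gop hσ hh)) (polyIn_pow (polyIn_Gop hσ hh) p)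

omit [IsUltrametricDist W] in
theorem NF_coeff_zero (hσ : Cart p L σ) {h : W[X]} (hh : PolyIn L h) :
    (NF σ p h).coeff 0 = h.coeff 0 := by
  have hp : 0 < p := (Fact.out : p.Prime).pos
  have h1 : ((Gop σ p h) ^ p).coeff 0 = 0 := by
    have h2 := coeff_pow_mul (p := p) (Gop σ p h) 0
    rw [mul_zero, Gop_coeff_zero hσ, zero_pow hp.ne'] at h2
    exact h2
  rw [NF, coeff_sub, coeff_add, Gop_coeff_zero hσ, h1]
  ring

omit [IsUltrametricDist W] in
theorem Sop_NF (hσ : Cart p L σ) {h : W[X]} (hh : PolyIn L h) : Sop σ p (NF σ p h) = 0 := by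
  rw [NF, Sop_sub hσ (polyIn_add hh (polyIn_Gop hσ hh)) (polyIn_pow (polyIn_Gop hσ hh) p),
    Sop_add_Gop hσ hh, Sop_pow hσ (polyIn_Gop hσ hh) (Gop_coeff_zero hσ h), sub_self]

omit [IsUltrametricDist W] in
/-- The normal form is unique. -/
theorem NF_unique (hσ : Cart p L σ) {h c g : W[X]} (hh : PolyIn L h) (hc : PolyIn L c)
    (hg : PolyIn L g) (c0 : Sop σ p c = 0) (g0 : g.coeff 0 = 0) (e : h = c + wp p g) :
    NF σ p h = c ∧ Gop σ p h = g := by
  have e1 : Sop σ p h = g - Sop σ p g := by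
    rw [e, wp, Sop_add hσ hc (polyIn_sub (polyIn_pow hg p) hg), c0, zero_add,
      Sop_sub hσ (polyIn_pow hg p) hg, Sop_pow hσ hg g0]
  have e2 : Gop σ p h = Sop σ p h + Sop σ p (Gop σ p h) := by
    rw [← Sop_add hσ hh (polyIn_Gop hσ hh), Sop_add_Gop hσ hh]
  have e3 : g - Gop σ p h = 0 := by
    refine nf_fixed_zero hσ (polyIn_sub hg (polyIn_Gop hσ hh)) ?_
    rw [Sop_sub hσ hg (polyIn_Gop hσ hh)]
    have e4 : Sop σ p g = g - Sop σ p h := by rw [e1]; abel
    have e5 : Sop σ p (Gop σ p h) = Gop σ p h - Sop σ p h := by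
      have := e2
      rw [eq_sub_iff_add_eq, add_comm]
      exact this.symm
    rw [e4, e5]
    abel
  have e6 : Gop σ p h = g := (sub_eq_zero.1 e3).symm
  refine ⟨?_, e6⟩
  rw [NF, e6, e, wp]
  ring

omit [IsUltrametricDist W] in
theorem NF_add_wp (hσ : Cart p L σ) {h g : W[X]} (hh : PolyIn L h)
    (hg : PolyIn L g) (g0 : g.coeff 0 = 0) : NF σ p (h + wp p g) = NF σ p h := by
  have h1 : h = NF σ p h + wp p (Gop σ p h) := by
    rw [NF, wp]; ring
  refine (NF_unique hσ (c := NF σ p h) (g := Gop σ p h + g) ?_ (polyIn_NF hσ hh)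
    (polyIn_add (polyIn_Gop hσ hh) hg) (Sop_NF hσ hh) ?_ ?_).1
  · exact polyIn_add hh (polyIn_sub (polyIn_pow hg p) hg)
  · rw [coeff_add, Gop_coeff_zero hσ, g0, add_zero]
  · have h2 : wp p (Gop σ p h + g) = wp p (Gop σ p h) + wp p g := by
      rw [wp, wp, wp, add_pow_char]
      ring
    rw [h2, ← add_assoc, ← h1]

private theorem nf_le_of_pow {q : ℕ} (hq : q ≠ 0) {x N : ℝ} (hN : 1 ≤ N) (_hx : 0 ≤ x)
    (h : x ^ q ≤ N) : x ≤ N := by
  by_cases h1 : x ≤ 1
  · linarith
  · exact (le_self_pow₀ (le_of_not_ge h1) hq).trans h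

omit [IsUltrametricDist W] [CharP W p] in
private theorem nf_iter_norm (hσ : Cart p L σ) {h : W[X]} (hh : PolyIn L h) {s N : ℝ} (hs : 0 < s)
    (hN : 1 ≤ N) (hb : ∀ n, 1 ≤ n → ‖h.coeff n‖ * s ^ n ≤ N) (i n : ℕ) :
    (‖((Sop σ p)^[i + 1] h).coeff n‖ * s ^ n) ^ p ≤ N := by
  have hp : p ≠ 0 := (Fact.out : p.Prime).ne_zero
  induction i generalizing n with
  | zero =>
    rw [Function.iterate_succ_apply', coeff_Sop (nf_zero hσ)]
    split_ifs with hn
    · rw [Function.iterate_zero, id, mul_pow, ← pow_mul, mul_comm n p]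
      refine le_trans (mul_le_mul_of_nonneg_right (hσ.norm _ (hh _)) (pow_nonneg hs.le _)) ?_
      exact hb (p * n) (Nat.mul_pos (Nat.pos_of_ne_zero hp) hn)
    · rw [norm_zero, zero_mul, zero_pow hp]
      linarith
  | succ i ih =>
    rw [Function.iterate_succ_apply', coeff_Sop (nf_zero hσ)]
    split_ifs with hn
    · rw [mul_pow, ← pow_mul, mul_comm n p]
      refine le_trans (mul_le_mul_of_nonneg_right
        (hσ.norm _ (nf_polyIn_iter hσ hh (i + 1) _)) (pow_nonneg hs.le _)) ?_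
      exact nf_le_of_pow hp hN (mul_nonneg (norm_nonneg _) (pow_nonneg hs.le _)) (ih (p * n))
    · rw [norm_zero, zero_mul, zero_pow hp]
      linarith

theorem norm_Gop (hσ : Cart p L σ) {h : W[X]} (hh : PolyIn L h) {s N : ℝ} (hs : 0 < s)
    (hN : 1 ≤ N) (hb : ∀ n, 1 ≤ n → ‖h.coeff n‖ * s ^ n ≤ N) (n : ℕ) :
    (‖(Gop σ p h).coeff n‖ * s ^ n) ^ p ≤ N := by
  have hp : 0 < p := (Fact.out : p.Prime).pos
  have hne : (Finset.Icc 1 (h.natDegree + 1)).Nonempty := ⟨1, Finset.mem_Icc.2 ⟨le_rfl, by omega⟩⟩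
  obtain ⟨i, hi, hle⟩ := IsUltrametricDist.exists_norm_finsetSum_le_of_nonempty hne
    (fun i => ((Sop σ p)^[i] h).coeff n)
  have h1 : (Gop σ p h).coeff n = ∑ i ∈ Finset.Icc 1 (h.natDegree + 1),
      ((Sop σ p)^[i] h).coeff n := by
    rw [Gop, finsetSum_coeff]
  rw [h1]
  obtain ⟨j, rfl⟩ : ∃ j, i = j + 1 := ⟨i - 1, by have := (Finset.mem_Icc.1 hi).1; omega⟩
  refine le_trans ?_ (nf_iter_norm hσ hh hs hN hb j n)
  exact pow_le_pow_left₀ (mul_nonneg (norm_nonneg _) (pow_nonneg hs.le _))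
    (mul_le_mul_of_nonneg_right hle (pow_nonneg hs.le _)) p

theorem norm_NF (hσ : Cart p L σ) {h : W[X]} (hh : PolyIn L h) {s N : ℝ} (hs : 0 < s)
    (hN : 1 ≤ N) (hb : ∀ n, 1 ≤ n → ‖h.coeff n‖ * s ^ n ≤ N) {n : ℕ} (hn : 1 ≤ n) :
    ‖(NF σ p h).coeff n‖ * s ^ n ≤ N := by
  have hp : 0 < p := (Fact.out : p.Prime).pos
  have hG : ∀ m, (‖(Gop σ p h).coeff m‖ * s ^ m) ^ p ≤ N := norm_Gop hσ hh hs hN hb
  have hG1 : ‖(Gop σ p h).coeff n‖ * s ^ n ≤ N :=
    nf_le_of_pow hp.ne' hN (mul_nonneg (norm_nonneg _) (pow_nonneg hs.le _)) (hG n)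
  have hG2 : ‖((Gop σ p h) ^ p).coeff n‖ * s ^ n ≤ N := by
    by_cases hpn : p ∣ n
    · obtain ⟨m, rfl⟩ := hpn
      rw [coeff_pow_mul, norm_pow]
      have h2 := hG m
      rw [mul_pow, ← pow_mul, mul_comm m p] at h2
      exact h2
    · rw [coeff_pow_of_not_dvd _ hpn, norm_zero, zero_mul]
      linarith
  have hsn : 0 < s ^ n := pow_pos hs n
  rw [NF, coeff_sub, coeff_add, sub_eq_add_neg]
  have h3 : ‖h.coeff n + (Gop σ p h).coeff n + -((Gop σ p h) ^ p).coeff n‖ ≤ N / s ^ n := by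
    refine (IsUltrametricDist.norm_add_le_max _ _).trans (max_le
      ((IsUltrametricDist.norm_add_le_max _ _).trans (max_le ?_ ?_)) ?_)
    · rw [le_div_iff₀ hsn]; exact hb n hn
    · rw [le_div_iff₀ hsn]; exact hG1
    · rw [norm_neg, le_div_iff₀ hsn]; exact hG2
  rwa [le_div_iff₀ hsn] at h3

/-- Strict version of `norm_NF` (finitely many coefficients are nonzero). -/
theorem norm_NF_lt (hσ : Cart p L σ) {h : W[X]} (hh : PolyIn L h) {s t : ℝ} (hs : 0 < s)
    (ht : 1 < t) (hb : ∀ n, 1 ≤ n → ‖h.coeff n‖ * s ^ n < t) {n : ℕ} (hn : 1 ≤ n) :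
    ‖(NF σ p h).coeff n‖ * s ^ n < t := by
  obtain ⟨N, hN1, hNt, hN⟩ : ∃ N : ℝ, 1 ≤ N ∧ N < t ∧ ∀ n, 1 ≤ n → ‖h.coeff n‖ * s ^ n ≤ N := by
    have hne : (insert 0 (Finset.Icc 1 h.natDegree)).Nonempty := ⟨0, by simp⟩
    set F : ℕ → ℝ := fun n => if n = 0 then 1 else ‖h.coeff n‖ * s ^ n with hF
    refine ⟨(insert 0 (Finset.Icc 1 h.natDegree)).sup' hne F, ?_, ?_, ?_⟩
    · have h1 := Finset.le_sup' F (Finset.mem_insert_self 0 (Finset.Icc 1 h.natDegree))
      simp [hF] at h1 ⊢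
    · rw [Finset.sup'_lt_iff]
      intro n hn
      rw [hF]
      by_cases h0 : n = 0
      · simp only [h0, if_true]; exact ht
      · simp only [h0, if_false]
        exact hb n (by omega)
    · intro n hn1
      by_cases hnd : n ≤ h.natDegree
      · have h1 := Finset.le_sup' F
          (show n ∈ insert 0 (Finset.Icc 1 h.natDegree) from
            Finset.mem_insert_of_mem (Finset.mem_Icc.2 ⟨hn1, hnd⟩))
        rw [hF] at h1
        simp only [show n ≠ 0 by omega, if_false] at h1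
        exact h1
      · rw [coeff_eq_zero_of_natDegree_lt (not_le.1 hnd), norm_zero, zero_mul]
        have h1 := Finset.le_sup' F (Finset.mem_insert_self 0 (Finset.Icc 1 h.natDegree))
        have h2 : (1 : ℝ) ≤ (insert 0 (Finset.Icc 1 h.natDegree)).sup' hne F := by
          have h3 : F 0 = 1 := by simp [hF]
          rw [← h3]; exact h1
        linarith
  exact lt_of_le_of_lt (norm_NF hσ hh hs hN1 hN hn) hNt

end HR
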