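import Pool.Agent.Lib.HR.FS

/-!
# PCl: extensions closed under degree prime to `p`

`exists_pclosed`: Zorn for the set of `K'` with `K ≤ K'` such that every finite subset of `K'` lies in some
`E ≤ K'` with `FSep K E`, `¬ p ∣ K.relfinrank E` (contains `K`; unions of chains).  Let `K'` be maximal.
`sub`: `E = adj K y` (`FSep.prim`), `y ∈ E₁ ≤ K'` with `E₁` of degree prime to `p`, `E ≤ E₁`
and `K.relfinrank E ∣ K.relfinrank E₁` (`relfinrank_mul_relfinrank`).
`root`: let `y` be separable over `K` of degree prime to `p` over `K'`.  `adj K' y` has the local property: a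
finite subset `s` consists of polynomials in `y` with coefficients in `K'` (`exists_poly_of_mem_adj`); take
`E ≤ K'` good, containing these coefficients and those of `minpoly K' y`; then `minpoly E y` has the same
degree, `adj E y` is finite separable over `K` (`FSep.trans`, `IsSeparable.tower_top`) and
`K.relfinrank (adj E y) = K.relfinrank E * (minpoly E y).natDegree` (`relfinrank_mul_relfinrank`,
`relfinrank_adj`) is prime to `p`.  By maximality `y ∈ K'`.

`exists_root_of_pclosed`: `g` monic over `K'` of degree prime to `p`; some irreducible factor `q` (monic,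
over `K'`) has degree prime to `p` (the degree of `g` is the sum of the degrees of its irreducible factors), `q`
is separable (`q' ≠ 0` since its degree is prime to `p`; `Irreducible.separable` criterion
`separable_iff_derivative_ne_zero`); a root `y` of `q` in `W` is separable over `K'`, hence over `K` (the elements
of `K'` are separable over `K`), of degree `deg q` over `K'`; `PClosed.root` gives `y ∈ K'`.
-/

namespace HR

open Polynomial MP1a953e

variable {W : Type*} [NormedField W] {p : ℕ} [Fact p.Prime] [CharP W p] {K K' : Subfield W}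

/-- lifting of polynomials with coefficients in a subfield -/
private theorem lift_polyIn {E : Subfield W} {g : W[X]} (hg : PolyIn E g) :
    ∃ g0 : E[X], g0.map E.subtype = g ∧ g0.natDegree = g.natDegree := by
  have h1 : g ∈ lifts E.subtype := by
    rw [lifts_iff_coeff_lifts]
    intro n
    exact ⟨⟨g.coeff n, hg n⟩, rfl⟩
  obtain ⟨g0, h2⟩ := (mem_lifts g).1 h1
  refine ⟨g0, h2, ?_⟩
  rw [← h2, natDegree_map]

private theorem sep_of_le {E M : Subfield W} (hEM : E ≤ M) {y : W} (hy : IsSeparable E y) :
    IsSeparable M y := by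
  have h1 := (FSep.adj hy).sup_base hEM
  refine h1.sep y ?_
  exact (le_sup_right : adj E y ≤ M ⊔ adj E y) (mem_adj_self E y)

/-- if the coefficients of the minimal polynomial of `y` over `K'` lie in `E ≤ K'`, then the minimal
polynomials over `E` and `K'` have the same image -/
private theorem minpoly_map_eq {E : Subfield W} (hE : E ≤ K') {y : W} (hy : IsIntegral K' y)
    (hc : ∀ n, (((minpoly K' y).coeff n : K') : W) ∈ E) :
    IsIntegral E y ∧ (minpoly E y).map E.subtype = (minpoly K' y).map K'.subtype := by
  have h1 : PolyIn E ((minpoly K' y).map K'.subtype) := by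
    intro n
    rw [coeff_map]
    exact hc n
  obtain ⟨q, hq, hqd⟩ := lift_polyIn h1
  have hmon : q.Monic := by
    have h2 : (q.map E.subtype).Monic := by
      rw [hq]; exact (minpoly.monic hy).map _
    exact monic_of_injective E.subtype_injective h2
  have hq0 : aeval y q = 0 := by
    have h3 : aeval y q = (q.map E.subtype).eval y := by
      rw [aeval_def, eval_map]; rfl
    rw [h3, hq, eval_map]
    exact minpoly.aeval K' y
  have hint : IsIntegral E y := ⟨q, hmon, by rw [← aeval_def]; exact hq0⟩
  refine ⟨hint, ?_⟩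
  have hdvd : minpoly E y ∣ q := minpoly.dvd E y hq0
  -- the converse bound on the degree
  have h4 : PolyIn K' ((minpoly E y).map E.subtype) := by
    intro n
    rw [coeff_map]
    exact hE (SetLike.coe_mem _)
  obtain ⟨r, hr, hrd⟩ := lift_polyIn h4
  have hr0 : aeval y r = 0 := by
    have h3 : aeval y r = (r.map K'.subtype).eval y := by
      rw [aeval_def, eval_map]; rfl
    rw [h3, hr, eval_map]
    exact minpoly.aeval E y
  have hrm : r.Monic := by
    have h2 : (r.map K'.subtype).Monic := by
      rw [hr]; exact (minpoly.monic hint).map _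
    exact monic_of_injective K'.subtype_injective h2
  have hdeg : (minpoly K' y).natDegree ≤ r.natDegree :=
    natDegree_le_of_dvd (minpoly.dvd K' y hr0) hrm.ne_zero
  have hd2 : r.natDegree = (minpoly E y).natDegree := by
    rw [hrd, natDegree_map]
  have hd3 : q.natDegree = (minpoly K' y).natDegree := by
    rw [hqd, natDegree_map]
  have heq : minpoly E y = q := by
    refine (eq_of_monic_of_dvd_of_natDegree_le (minpoly.monic hint) hmon hdvd ?_).symm
    omega
  rw [heq, hq]

/-- the local property -/
private def Good (p : ℕ) (K K' : Subfield W) : Prop :=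
  K ≤ K' ∧ ∀ s : Finset W, (s : Set W) ⊆ K' → ∃ E, FSep K E ∧ E ≤ K' ∧ (s : Set W) ⊆ E ∧
    ¬ p ∣ K.relfinrank E

omit [CharP W p] in
private theorem good_self (K : Subfield W) : Good p K K := by
  refine ⟨le_rfl, fun s hs => ⟨K, FSep.refl K, le_rfl, hs, ?_⟩⟩
  rw [Subfield.relfinrank_self]
  exact (Fact.out : p.Prime).one_lt.ne' ∘ Nat.dvd_one.1

omit [Fact p.Prime] [CharP W p] in
private theorem good_chain (K : Subfield W) (c : Set (Subfield W)) (hc : c ⊆ {L | Good p K L})
    (hch : IsChain (· ≤ ·) c) (y : Subfield W) (hy : y ∈ c) :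
    ∃ ub ∈ {L | Good p K L}, ∀ z ∈ c, z ≤ ub := by
  have hne : c.Nonempty := ⟨y, hy⟩
  have hdir : DirectedOn (· ≤ ·) c := hch.directedOn
  refine ⟨sSup c, ⟨?_, ?_⟩, fun z hz => le_sSup hz⟩
  · exact (hc hy).1.trans (le_sSup hy)
  · intro s hs
    have h1 : (s : Set W) ⊆ ⋃ L ∈ c, (L : Set W) := by
      intro x hx
      have h2 := hs hx
      rw [SetLike.mem_coe, Subfield.mem_sSup_of_directedOn hne hdir] at h2
      obtain ⟨L, hL, hxL⟩ := h2
      exact Set.mem_biUnion hL hxL
    have hdir2 : DirectedOn (fun i j : Subfield W => (i : Set W) ⊆ (j : Set W)) c := hdir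
    obtain ⟨L, hL, hsL⟩ :=
      DirectedOn.exists_mem_subset_of_finset_subset_biUnion hne hdir2 h1
    obtain ⟨E, hE1, hE2, hE3, hE4⟩ := (hc hL).2 s hsL
    exact ⟨E, hE1, hE2.trans (le_sSup hL), hE3, hE4⟩

omit [CharP W p] in
private theorem good_adj (h : Good p K K') {y : W} (hy : IsSeparable K y)
    (hd : ¬ p ∣ (minpoly K' y).natDegree) : Good p K (adj K' y) := by
  classical
  have hyK' : IsSeparable K' y := sep_of_le h.1 hy
  refine ⟨h.1.trans (le_adj K' y), fun s hs => ?_⟩
  have hx : ∀ x : W, x ∈ s → ∃ f : W[X], PolyIn K' f ∧ f.eval y = x := by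
    intro x hx
    obtain ⟨f, hf1, -, hf2⟩ := exists_poly_of_mem_adj hyK'.isIntegral.isAlgebraic (hs hx)
    exact ⟨f, hf1, hf2⟩
  choose! f hf1 hf2 using hx
  let m : W[X] := (minpoly K' y).map K'.subtype
  let T : Finset W := (s.biUnion fun x => (Finset.range ((f x).natDegree + 1)).image
    fun n => (f x).coeff n) ∪ (Finset.range (m.natDegree + 1)).image fun n => m.coeff n
  have hm : PolyIn K' m := by
    intro n
    show ((minpoly K' y).map K'.subtype).coeff n ∈ K'
    rw [coeff_map]
    exact SetLike.coe_mem _
  have hT : (T : Set W) ⊆ K' := by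
    intro x hx
    simp only [T, Finset.coe_union, Finset.coe_biUnion, Finset.coe_image, Set.mem_union,
      Set.mem_iUnion, Set.mem_image, Finset.mem_coe] at hx
    rcases hx with ⟨z, hz, n, -, rfl⟩ | ⟨n, -, rfl⟩
    · exact hf1 z hz n
    · exact hm n
  obtain ⟨E, hE1, hE2, hE3, hE4⟩ := h.2 T hT
  have hfE : ∀ x ∈ s, PolyIn E (f x) := by
    intro x hx n
    by_cases hn : n ≤ (f x).natDegree
    · apply hE3
      simp only [T, Finset.coe_union, Finset.coe_biUnion, Finset.coe_image, Set.mem_union,
        Set.mem_iUnion, Set.mem_image, Finset.mem_coe]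
      exact Or.inl ⟨x, hx, n, Finset.mem_range.2 (by omega), rfl⟩
    · rw [coeff_eq_zero_of_natDegree_lt (by omega)]
      exact E.zero_mem
  have hmE : PolyIn E m := by
    intro n
    by_cases hn : n ≤ m.natDegree
    · apply hE3
      simp only [T, Finset.coe_union, Finset.coe_biUnion, Finset.coe_image, Set.mem_union,
        Set.mem_iUnion, Set.mem_image, Finset.mem_coe]
      exact Or.inr ⟨n, Finset.mem_range.2 (by omega), rfl⟩
    · rw [coeff_eq_zero_of_natDegree_lt (by omega)]
      exact E.zero_mem
  have hyE : IsSeparable E y := sep_of_le hE1.le hy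
  have hmin := (minpoly_map_eq hE2 hyK'.isIntegral (fun n => by
    have := hmE n
    have h2 : m.coeff n = K'.subtype ((minpoly K' y).coeff n) := coeff_map _ _
    rw [h2] at this
    exact this)).2
  have hdeg : (minpoly E y).natDegree = (minpoly K' y).natDegree := by
    have := congrArg natDegree hmin
    rwa [natDegree_map, natDegree_map] at this
  refine ⟨adj E y, hE1.trans (FSep.adj hyE), ?_, ?_, ?_⟩
  · exact adj_le (hE2.trans (le_adj K' y)) (mem_adj_self K' y)
  · intro x hx
    have h1 : (f x).eval y ∈ adj E y := by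
      rw [eval_eq_sum_range]
      refine sum_mem fun n _ => mul_mem (le_adj E y (hfE x hx n)) (pow_mem (mem_adj_self E y) n)
    rw [hf2 x hx] at h1
    exact h1
  · have h1 := Subfield.relfinrank_mul_relfinrank hE1.le (le_adj E y)
    rw [← h1, relfinrank_adj hyE, hdeg]
    intro h2
    rcases ((Fact.out : p.Prime).dvd_mul).1 h2 with h3 | h3
    · exact hE4 h3
    · exact hd h3

omit [CharP W p] in
theorem exists_pclosed (K : Subfield W) : ∃ K', PClosed p K K' := by
  obtain ⟨K', hKK', hmax⟩ := zorn_le_nonempty₀ {L | Good p K L}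
    (fun c hc hch y hy => good_chain K c hc hch y hy) K (good_self K)
  have hgood : Good p K K' := hmax.prop
  refine ⟨K', hgood.1, hgood.2, ?_, ?_⟩
  · intro E hE hEK' hdvd
    obtain ⟨y, hyE, hys, hEy⟩ := hE.prim
    obtain ⟨E₁, h1, h2, h3, h4⟩ := hgood.2 {y} (by simpa using hEK' hyE)
    have hyE₁ : y ∈ E₁ := h3 (by simp)
    have hEE₁ : E ≤ E₁ := by
      rw [hEy]; exact adj_le h1.le hyE₁
    have h5 := Subfield.relfinrank_mul_relfinrank hE.le hEE₁
    apply h4
    rw [← h5]
    exact Dvd.dvd.mul_right hdvd _
  · intro y hy hd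
    have h1 : Good p K (adj K' y) := good_adj hgood hy hd
    have h2 : adj K' y ≤ K' := hmax.le_of_ge h1 (le_adj K' y)
    exact h2 (mem_adj_self K' y)

omit [CharP W p] in
theorem PClosed.sep (h : PClosed p K K') {x : W} (hx : x ∈ K') : IsSeparable K x := by
  obtain ⟨E, h1, -, h3, -⟩ := h.loc {x} (by simpa using hx)
  exact h1.sep x (h3 (by simp))

theorem exists_root_of_pclosed [IsAlgClosed W] (h : PClosed p K K') {g : W[X]} (hg : g.Monic)
    (hgK : PolyIn K' g) (hdeg : ¬ p ∣ g.natDegree) : ∃ c ∈ K', g.eval c = 0 := by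
  classical
  obtain ⟨g0, hg0, hg0d⟩ := lift_polyIn hgK
  have hg0m : g0.Monic := monic_of_injective K'.subtype_injective (by rw [hg0]; exact hg)
  -- an irreducible factor of degree prime to p
  have hfac : ∃ q : K'[X], Irreducible q ∧ q.Monic ∧ q ∣ g0 ∧ ¬ p ∣ q.natDegree := by
    by_contra hcon
    push Not at hcon
    apply hdeg
    rw [← hg0d]
    have h1 : (UniqueFactorizationMonoid.normalizedFactors g0).prod = g0 := by
      have := UniqueFactorizationMonoid.prod_normalizedFactors_eq (a := g0) hg0m.ne_zero
      rw [this]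
      exact hg0m.normalize_eq_self
    have h2 : (UniqueFactorizationMonoid.normalizedFactors g0).prod.natDegree =
        ((UniqueFactorizationMonoid.normalizedFactors g0).map natDegree).sum := by
      apply natDegree_multiset_prod_of_monic
      intro f hf
      exact ((Polynomial.mem_normalizedFactors_iff hg0m.ne_zero).1 hf).2.1
    rw [← h1, h2]
    apply Multiset.dvd_sum
    intro d hd
    obtain ⟨q, hq, rfl⟩ := Multiset.mem_map.1 hd
    exact hcon q (UniqueFactorizationMonoid.irreducible_of_normalized_factor q hq)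
      ((Polynomial.mem_normalizedFactors_iff hg0m.ne_zero).1 hq).2.1
      (UniqueFactorizationMonoid.dvd_of_mem_normalizedFactors hq)
  obtain ⟨q, hqi, hqm, hqg, hqd⟩ := hfac
  have : CharP K' p := inferInstance
  have hqsep : q.Separable := by
    rw [separable_iff_derivative_ne_zero hqi]
    intro h0
    have h1 : (derivative q).coeff (q.natDegree - 1) = 0 := by rw [h0, coeff_zero]
    have hpos : 0 < q.natDegree := by
      rcases Nat.eq_zero_or_pos q.natDegree with h2 | h2
      · exact absurd (h2 ▸ dvd_zero p) hqd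
      · exact h2
    rw [coeff_derivative, Nat.sub_add_cancel hpos, ← Nat.cast_succ, Nat.succ_eq_add_one,
      Nat.sub_add_cancel hpos, hqm.coeff_natDegree, one_mul] at h1
    exact hqd ((CharP.cast_eq_zero_iff K' p q.natDegree).1 h1)
  obtain ⟨y, hy⟩ := IsAlgClosed.exists_aeval_eq_zero W q hqi.degree_pos.ne'
  have hmin : minpoly K' y = q := (minpoly.eq_of_irreducible_of_monic hqi hy hqm).symm
  have hyint : IsIntegral K' y := ⟨q, hqm, by rw [← aeval_def]; exact hy⟩
  have hysep : IsSeparable K y := by
    obtain ⟨E, hE1, hE2, hE3, -⟩ := h.loc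
      ((Finset.range (q.natDegree + 1)).image fun n => ((q.coeff n : K') : W)) (by
        intro x hx
        simp only [Finset.coe_image, Set.mem_image] at hx
        obtain ⟨n, -, rfl⟩ := hx
        exact SetLike.coe_mem _)
    have hcE : ∀ n, (((minpoly K' y).coeff n : K') : W) ∈ E := by
      intro n
      rw [hmin]
      by_cases hn : n ≤ q.natDegree
      · apply hE3
        simp only [Finset.coe_image, Set.mem_image]
        exact ⟨n, Finset.mem_coe.2 (Finset.mem_range.2 (by omega)), rfl⟩
      · rw [coeff_eq_zero_of_natDegree_lt (by omega)]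
        exact E.zero_mem
    obtain ⟨hEint, hEmap⟩ := minpoly_map_eq hE2 hyint hcE
    have hEsep : IsSeparable E y := by
      show (minpoly E y).Separable
      rw [← separable_map E.subtype, hEmap, separable_map, hmin]
      exact hqsep
    exact (hE1.trans (FSep.adj hEsep)).sep y (mem_adj_self E y)
  refine ⟨y, h.root y hysep (by rw [hmin]; exact hqd), ?_⟩
  obtain ⟨r, hr⟩ := hqg
  have h3 : g.eval y = aeval y g0 := by
    rw [← hg0, eval_map, aeval_def]; rfl
  rw [h3, hr, map_mul, hy, zero_mul]

end HR
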