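import Pool.Agent.Lib.HR.PCl
import Pool.Agent.Lib.HR.Am

/-!
# PM: no extensions of degree prime to `p` over `Q ⊔ K'`

`Q` complete, immediate over `K`; `K'` is `PClosed` over `K`; `M' = Q ⊔ K'`.

`imm_sup_pclosed`: `x ∈ Q ⊔ K'`, `x ≠ 0`: `x ∈ Q ⊔ closure s`, `s ⊆ K'` finite
(`exists_finset_of_mem_sup`), `s ⊆ E ≤ K'`, `FSep K E`; `E` has an orthogonal basis (`stable`), so
`Imm E (Q ⊔ E)` (`Imm.sup`, Lin1).

`pm`: let `y` be separable over `M'` of degree `n` prime to `p`.  By `exists_trace_zero` we may assume trace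
zero; suppose `y ≠ 0`.  `f = minpoly M' y = ∏ (X - y i)`, all `‖y i‖ = ‖y‖ = R` (`conj_norm` with `c = 0`,
`y i` conjugate to `y`), so `‖f_i‖ ≤ R ^ (n - i)`, `‖f_0‖ = R ^ n`.  Choose `g` monic over `K'` of degree `n` with
`g_i ∈ K'`, `‖f_i - g_i‖ < ‖f_i‖` if `f_i ≠ 0` (`imm_sup_pclosed`), `g_i = 0` otherwise.
`exists_root_of_pclosed`: `c ∈ K'`, `g(c) = 0`.  `‖c‖ = R`: the terms of `g(c) = 0` have norms
`≤ R ^ (n-i) ‖c‖ ^ i`, with equality for `i = 0, n`; if `‖c‖ > R` the term `i = n` is alone, if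
`‖c‖ < R` the term `i = 0` is alone.  `‖f(c)‖ = ‖f(c) - g(c)‖ < R ^ n`, so `∏ ‖c - y i‖ < R ^ n` and some
`‖c - y i‖ < R`; by `conj_norm` `‖y - c‖ = ‖y i - c‖ < R = ‖y‖`, contradicting `trace_lemma`.
So `y = 0`, and the original element is in `M'`.
-/

namespace HR

open Polynomial MP1a953e

variable {W : Type*} [NormedField W] [IsUltrametricDist W] [IsAlgClosed W] {p : ℕ}
  [Fact p.Prime] [CharP W p] {k L K Q K' : Subfield W}

theorem imm_sup_pclosed (hk : IsAlgClosed k) (h : HCl p k L K) (hI : MP1a953e.Imm K Q)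
    (hP : PClosed p K K') : MP1a953e.Imm K' (Q ⊔ K') := by
  refine ⟨le_sup_right, fun x hx hx0 => ?_⟩
  obtain ⟨s, hs, hxs⟩ := exists_finset_of_mem_sup hx
  obtain ⟨E, hE, hEK, hsE, -⟩ := hP.loc s hs
  obtain ⟨d, θ, hθ⟩ := orthBasis_of_hasOB hE.le (stable hk h hE).ob
  have h1 : MP1a953e.Imm E (Q ⊔ E) := Imm.sup hI hθ
  have h2 : x ∈ Q ⊔ E := (sup_le_sup_left (Subfield.closure_le.2 hsE) Q) hxs
  obtain ⟨f, hf, hfx⟩ := h1.2 x h2 hx0
  exact ⟨f, hEK hf, hfx⟩

omit [IsAlgClosed W] in
private theorem pm_coeff (s : Multiset W) {R : ℝ} (hR : 0 ≤ R) (h : ∀ a ∈ s, ‖a‖ ≤ R) (i : ℕ) :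
    ‖((s.map fun a => X - C a).prod).coeff i‖ ≤ R ^ (s.card - i) := by
  induction s using Multiset.induction_on generalizing i with
  | empty =>
    rw [Multiset.map_zero, Multiset.prod_zero, Multiset.card_zero, Nat.zero_sub, pow_zero,
      coeff_one]
    split_ifs
    · rw [norm_one]
    · rw [norm_zero]; exact zero_le_one
  | cons a s ih =>
    have ha : ‖a‖ ≤ R := h a (Multiset.mem_cons_self a s)
    have ih' := ih (fun b hb => h b (Multiset.mem_cons_of_mem hb))
    rw [Multiset.map_cons, Multiset.prod_cons, Multiset.card_cons, sub_mul]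
    cases i with
    | zero =>
      rw [coeff_sub, coeff_X_mul_zero, coeff_C_mul, zero_sub, norm_neg, norm_mul, Nat.sub_zero,
        pow_succ, mul_comm (R ^ s.card) R]
      have h2 := ih' 0
      rw [Nat.sub_zero] at h2
      exact mul_le_mul ha h2 (norm_nonneg _) hR
    | succ j =>
      rw [coeff_sub, coeff_X_mul, coeff_C_mul, Nat.add_sub_add_right, sub_eq_add_neg]
      refine (IsUltrametricDist.norm_add_le_max _ _).trans (max_le (ih' j) ?_)
      rw [norm_neg, norm_mul]
      by_cases hj : j < s.card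
      · have h3 : s.card - j = (s.card - (j + 1)) + 1 := by omega
        rw [h3, pow_succ, mul_comm (R ^ (s.card - (j + 1))) R]
        exact mul_le_mul ha (ih' (j + 1)) (norm_nonneg _) hR
      · have h4 : ((s.map fun a => X - C a).prod).coeff (j + 1) = 0 := by
          apply coeff_eq_zero_of_natDegree_lt
          rw [natDegree_multiset_prod_X_sub_C_eq_card]
          omega
        rw [h4, norm_zero, mul_zero]
        exact pow_nonneg hR _

omit [IsUltrametricDist W] [IsAlgClosed W] in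
private theorem pm_const (s : Multiset W) {R : ℝ} (h : ∀ a ∈ s, ‖a‖ = R) :
    ‖((s.map fun a => X - C a).prod).coeff 0‖ = R ^ s.card := by
  induction s using Multiset.induction_on with
  | empty => rw [Multiset.map_zero, Multiset.prod_zero, Multiset.card_zero, pow_zero,
      coeff_one_zero, norm_one]
  | cons a s ih =>
    have ha : ‖a‖ = R := h a (Multiset.mem_cons_self a s)
    have ih' := ih (fun b hb => h b (Multiset.mem_cons_of_mem hb))
    rw [Multiset.map_cons, Multiset.prod_cons, Multiset.card_cons, sub_mul, coeff_sub,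
      coeff_X_mul_zero, coeff_C_mul, zero_sub, norm_neg, norm_mul, ih', ha, pow_succ, mul_comm]

omit [IsUltrametricDist W] [IsAlgClosed W] in
private theorem pm_eval (s : Multiset W) {R : ℝ} (hR : 0 ≤ R) (c : W)
    (h : ∀ a ∈ s, R ≤ ‖c - a‖) : R ^ s.card ≤ ‖((s.map fun a => X - C a).prod).eval c‖ := by
  induction s using Multiset.induction_on with
  | empty => rw [Multiset.map_zero, Multiset.prod_zero, Multiset.card_zero, pow_zero,
      eval_one, norm_one]
  | cons a s ih =>
    have ha : R ≤ ‖c - a‖ := h a (Multiset.mem_cons_self a s)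
    have ih' := ih (fun b hb => h b (Multiset.mem_cons_of_mem hb))
    rw [Multiset.map_cons, Multiset.prod_cons, Multiset.card_cons, eval_mul, eval_sub, eval_X,
      eval_C, norm_mul, pow_succ, mul_comm (R ^ s.card) R]
    exact mul_le_mul ha ih' (pow_nonneg hR _) (norm_nonneg _)

omit [IsAlgClosed W] in
private theorem pm_sum_lt {n : ℕ} {t : ℕ → W} {B : ℝ} (hB : 0 < B) (h : ∀ i, i < n → ‖t i‖ < B) :
    ‖∑ i ∈ Finset.range n, t i‖ < B := by
  rcases Nat.eq_zero_or_pos n with rfl | hn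
  · rw [Finset.range_zero, Finset.sum_empty, norm_zero]
    exact hB
  · have hne : (Finset.range n).Nonempty := ⟨0, Finset.mem_range.2 hn⟩
    obtain ⟨i, hi, hle⟩ := IsUltrametricDist.exists_norm_finsetSum_le_of_nonempty hne t
    exact lt_of_le_of_lt hle (h i (Finset.mem_range.1 hi))

/-- The approximation argument. -/
private theorem pm_key {f : W[X]} {n : ℕ} (hn : 0 < n) {R : ℝ} (hR : 0 < R) {K' : Subfield W}
    (hf : f.Monic) (hfn : f.natDegree = n) (hfa : ∀ a ∈ f.roots, ‖a‖ = R)
    (happ : ∀ i, f.coeff i ≠ 0 → ∃ g ∈ K', ‖f.coeff i - g‖ < ‖f.coeff i‖)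
    (hroot : ∀ g : W[X], g.Monic → PolyIn K' g → g.natDegree = n → ∃ c ∈ K', g.eval c = 0) :
    ∃ c ∈ K', ∃ a ∈ f.roots, ‖a - c‖ < R := by
  have hprod : f = (f.roots.map fun a => X - C a).prod := by
    have h1 := (IsAlgClosed.splits f).eq_prod_roots
    rw [hf.leadingCoeff, C_1, one_mul] at h1
    exact h1
  have hcard : f.roots.card = n := by
    have h1 : f.natDegree = ((f.roots.map fun a => X - C a).prod).natDegree := by rw [← hprod]
    rw [natDegree_multiset_prod_X_sub_C_eq_card, hfn] at h1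
    exact h1.symm
  have hcoef : ∀ i, ‖f.coeff i‖ ≤ R ^ (n - i) := by
    intro i
    have h1 := pm_coeff f.roots hR.le (fun a ha => (hfa a ha).le) i
    rw [← hprod, hcard] at h1
    exact h1
  have hconst : ‖f.coeff 0‖ = R ^ n := by
    have h1 := pm_const f.roots hfa
    rw [← hprod, hcard] at h1
    exact h1
  have hch : ∀ i, ∃ g ∈ K', (f.coeff i = 0 → g = 0) ∧
      (f.coeff i ≠ 0 → ‖f.coeff i - g‖ < ‖f.coeff i‖) := by
    intro i
    by_cases h0 : f.coeff i = 0
    · exact ⟨0, K'.zero_mem, fun _ => rfl, fun h => absurd h0 h⟩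
    · obtain ⟨g, hg, hg'⟩ := happ i h0
      exact ⟨g, hg, fun h => absurd h h0, fun _ => hg'⟩
  choose gc hgK hg0 hg1 using hch
  have hgc : ∀ i, ‖gc i‖ ≤ R ^ (n - i) := by
    intro i
    by_cases h0 : f.coeff i = 0
    · rw [hg0 i h0, norm_zero]
      exact pow_nonneg hR.le _
    · have h1 : gc i = f.coeff i + -(f.coeff i - gc i) := by ring
      rw [h1]
      refine (IsUltrametricDist.norm_add_le_max _ _).trans (max_le (hcoef i) ?_)
      rw [norm_neg]
      exact (hg1 i h0).le.trans (hcoef i)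
  have hR0 : f.coeff 0 ≠ 0 := by
    intro h
    rw [h, norm_zero] at hconst
    exact (pow_pos hR n).ne hconst
  have hgc0 : R ^ n ≤ ‖gc 0‖ := by
    by_contra hlt
    push Not at hlt
    have h1 : f.coeff 0 = (f.coeff 0 - gc 0) + gc 0 := by ring
    have h2 : ‖f.coeff 0‖ < R ^ n := by
      rw [h1]
      refine lt_of_le_of_lt (IsUltrametricDist.norm_add_le_max _ _) (max_lt ?_ hlt)
      rw [← hconst]
      exact hg1 0 hR0
    rw [hconst] at h2
    exact lt_irrefl _ h2
  -- the polynomial `g`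
  obtain ⟨r, hr⟩ : ∃ r : W[X], r = ∑ i ∈ Finset.range n, C (gc i) * X ^ i := ⟨_, rfl⟩
  have hrc : ∀ m, r.coeff m = if m < n then gc m else 0 := by
    intro m
    rw [hr, finsetSum_coeff]
    simp only [coeff_C_mul, coeff_X_pow, mul_ite, mul_one, mul_zero]
    rw [Finset.sum_ite_eq]
    simp only [Finset.mem_range]
  have hrd : r.degree < n := by
    rw [degree_lt_iff_coeff_zero]
    intro m hm
    rw [hrc, if_neg (by omega)]
  have hgm : (X ^ n + r).Monic := monic_X_pow_add hrd
  have hgK' : PolyIn K' (X ^ n + r) := by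
    intro m
    rw [coeff_add, hrc, coeff_X_pow]
    refine K'.add_mem ?_ ?_
    · split_ifs
      · exact K'.one_mem
      · exact K'.zero_mem
    · split_ifs
      · exact hgK m
      · exact K'.zero_mem
  have hgd : (X ^ n + r).natDegree = n := by
    rw [natDegree_add_eq_left_of_degree_lt (by rw [degree_X_pow]; exact hrd), natDegree_X_pow]
  obtain ⟨c, hcK, hc⟩ := hroot _ hgm hgK' hgd
  have hre : r.eval c = ∑ i ∈ Finset.range n, gc i * c ^ i := by
    rw [hr, eval_finsetSum]
    exact Finset.sum_congr rfl fun i _ => by rw [eval_mul, eval_C, eval_pow, eval_X]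
  rw [eval_add, eval_pow, eval_X, hre] at hc
  have hRc : ¬ R < ‖c‖ := by
    intro hlt
    have hcpos : 0 < ‖c‖ := hR.trans hlt
    have h1 : ‖∑ i ∈ Finset.range n, gc i * c ^ i‖ < ‖c‖ ^ n := by
      refine pm_sum_lt (pow_pos hcpos n) fun i hi => ?_
      rw [norm_mul, norm_pow]
      have h2 : ‖c‖ ^ n = ‖c‖ ^ (n - i) * ‖c‖ ^ i := by
        rw [← pow_add]
        congr 1
        omega
      rw [h2]
      refine mul_lt_mul_of_pos_right ?_ (pow_pos hcpos i)
      exact lt_of_le_of_lt (hgc i) (pow_lt_pow_left₀ hlt hR.le (by omega))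
    have h3 : ‖c ^ n‖ = ‖∑ i ∈ Finset.range n, gc i * c ^ i‖ := by
      rw [eq_neg_of_add_eq_zero_left hc, norm_neg]
    rw [← h3, norm_pow] at h1
    exact lt_irrefl _ h1
  have hcR : ¬ ‖c‖ < R := by
    intro hlt
    obtain ⟨m, rfl⟩ : ∃ m, n = m + 1 := ⟨n - 1, by omega⟩
    rw [Finset.sum_range_succ'] at hc
    have h1 : ‖∑ i ∈ Finset.range m, gc (i + 1) * c ^ (i + 1)‖ < R ^ (m + 1) := by
      refine pm_sum_lt (pow_pos hR _) fun i hi => ?_
      rw [norm_mul, norm_pow]
      have h2 : R ^ (m + 1) = R ^ (m + 1 - (i + 1)) * R ^ (i + 1) := by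
        rw [← pow_add]
        congr 1
        omega
      rw [h2]
      exact mul_lt_mul' (hgc (i + 1)) (pow_lt_pow_left₀ hlt (norm_nonneg _) (by omega))
        (pow_nonneg (norm_nonneg _) _) (pow_pos hR _)
    have h3 : ‖c ^ (m + 1)‖ < R ^ (m + 1) := by
      rw [norm_pow]
      exact pow_lt_pow_left₀ hlt (norm_nonneg _) (by omega)
    have h4 : gc 0 = -(c ^ (m + 1) + ∑ i ∈ Finset.range m, gc (i + 1) * c ^ (i + 1)) := by
      rw [pow_zero, mul_one] at hc
      linear_combination hc
    have h5 : ‖gc 0‖ < R ^ (m + 1) := by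
      rw [h4, norm_neg]
      exact lt_of_le_of_lt (IsUltrametricDist.norm_add_le_max _ _) (max_lt h3 h1)
    exact absurd hgc0 (not_le.2 h5)
  have hcR' : ‖c‖ = R := le_antisymm (not_lt.1 hRc) (not_lt.1 hcR)
  have hfc : f.eval c = ∑ i ∈ Finset.range n, (f.coeff i - gc i) * c ^ i := by
    have h1 : f.eval c = ∑ i ∈ Finset.range n, f.coeff i * c ^ i + c ^ n := by
      rw [eval_eq_sum_range, hfn, Finset.sum_range_succ]
      have h2 : f.coeff n = 1 := by
        rw [← hfn]
        exact hf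
      rw [h2, one_mul]
    rw [h1, eq_neg_of_add_eq_zero_left hc, ← sub_eq_add_neg, ← Finset.sum_sub_distrib]
    exact Finset.sum_congr rfl fun i _ => by ring
  have hfc' : ‖f.eval c‖ < R ^ n := by
    rw [hfc]
    refine pm_sum_lt (pow_pos hR n) fun i hi => ?_
    rw [norm_mul, norm_pow, hcR']
    have h2 : R ^ n = R ^ (n - i) * R ^ i := by
      rw [← pow_add]
      congr 1
      omega
    rw [h2]
    refine mul_lt_mul_of_pos_right ?_ (pow_pos hR i)
    by_cases h0 : f.coeff i = 0
    · rw [hg0 i h0, h0, sub_zero, norm_zero]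
      exact pow_pos hR _
    · exact lt_of_lt_of_le (hg1 i h0) (hcoef i)
  by_contra hcon
  push Not at hcon
  have h1 := pm_eval f.roots hR.le c (fun a ha => by
    have h2 := hcon c hcK a ha
    rwa [norm_sub_rev] at h2)
  rw [← hprod, hcard] at h1
  exact absurd hfc' (not_lt.2 h1)

theorem pm (hk : IsAlgClosed k) (h : HCl p k L K) (hI : MP1a953e.Imm K Q)
    (hQ : IsComplete (Q : Set W)) (hP : PClosed p K K') {y : W}
    (hy : IsSeparable (Q ⊔ K' : Subfield W) y)
    (hp : ¬ p ∣ (minpoly (Q ⊔ K' : Subfield W) y).natDegree) : y ∈ Q ⊔ K' := by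
  obtain ⟨M', hM'⟩ : ∃ M' : Subfield W, M' = Q ⊔ K' := ⟨_, rfl⟩
  rw [← hM'] at hy hp ⊢
  have hImm : MP1a953e.Imm K' M' := by
    rw [hM']
    exact imm_sup_pclosed hk h hI hP
  have hQM : Q ≤ M' := by
    rw [hM']
    exact le_sup_left
  have hKM : K' ≤ M' := by
    rw [hM']
    exact le_sup_right
  have hnt : ∃ x ∈ Q, 1 < ‖x‖ := by
    obtain ⟨x, hx, hx1⟩ := h.nontriv
    exact ⟨x, hI.1 (h.dense.1 hx), hx1⟩
  have halg : ∀ x ∈ M', IsAlgebraic Q x := by
    have h1 : M' ≤ (algebraicClosure Q W).toSubfield := by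
      rw [hM']
      refine sup_le ?_ ?_
      · intro x hx
        exact (algebraicClosure Q W).algebraMap_mem ⟨x, hx⟩
      · intro x hx
        have h2 : IsAlgebraic K x := (hP.sep hx).isIntegral.isAlgebraic
        have h3 : IsAlgebraic Q x := by
          obtain ⟨q, hq0, hq⟩ := h2
          refine ⟨q.map (Subfield.inclusion hI.1), ?_, ?_⟩
          · exact (Polynomial.map_ne_zero_iff (Subfield.inclusion hI.1).injective).2 hq0
          · rw [aeval_def, eval₂_map]
            rw [aeval_def] at hq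
            exact hq
        exact mem_algebraicClosure_iff.2 h3
    intro x hx
    exact mem_algebraicClosure_iff.1 (h1 hx)
  obtain ⟨y', hy's, hy'a, hy'd, hy'0⟩ := exists_trace_zero hy hp
  by_cases hz : y' = 0
  · have h1 : y ∈ adj M' y' := by
      rw [hy'a]
      exact mem_adj_self M' y
    have h2 : adj M' y' ≤ M' := adj_le le_rfl (by rw [hz]; exact M'.zero_mem)
    exact h2 h1
  · exfalso
    have hR : 0 < ‖y'‖ := norm_pos_iff.2 hz
    have hint : IsIntegral M' y' := hy's.isIntegral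
    obtain ⟨f, hf⟩ : ∃ f : W[X], f = (minpoly M' y').map (algebraMap M' W) := ⟨_, rfl⟩
    have hfm : f.Monic := by
      rw [hf]
      exact (minpoly.monic hint).map _
    have hfn : f.natDegree = (minpoly M' y').natDegree := by
      rw [hf]
      exact natDegree_map _
    have hp' : ¬ p ∣ (minpoly M' y').natDegree := by
      rw [hy'd]
      exact hp
    have hn : 0 < (minpoly M' y').natDegree := minpoly.natDegree_pos hint
    have hconj : ∀ a ∈ f.roots, minpoly M' y' = minpoly M' a := by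
      intro a ha
      have h1 : (aeval a) (minpoly M' y') = 0 := by
        rw [aeval_def, ← eval_map, ← hf]
        exact (mem_roots'.1 ha).2
      exact minpoly.eq_of_irreducible_of_monic (minpoly.irreducible hint) h1 (minpoly.monic hint)
    have hfa : ∀ a ∈ f.roots, ‖a‖ = ‖y'‖ := by
      intro a ha
      have h1 := conj_norm hQ hnt hQM halg hint.isAlgebraic (hconj a ha) M'.zero_mem
      rw [sub_zero, sub_zero] at h1
      exact h1.symm
    obtain ⟨c, hcK, a, ha, hac⟩ := pm_key hn hR hfm hfn hfa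
      (fun i hi => by
        have h1 : f.coeff i ∈ M' := by
          rw [hf, coeff_map]
          exact ((minpoly M' y').coeff i).2
        exact hImm.2 _ h1 hi)
      (fun g hg hgK hgd => exists_root_of_pclosed hP hg hgK (by rw [hgd]; exact hp'))
    have h1 := conj_norm hQ hnt hQM halg hint.isAlgebraic (hconj a ha) (hKM hcK)
    rw [← h1] at hac
    exact trace_lemma hQ hnt hQM halg hy's hp' hy'0 (hKM hcK) hac

end HR
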