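import Pool.Agent.Lib.HR.OL
import Pool.Agent.Lib.HR.FS
import Pool.Agent.Lib.HR.CC
import Pool.Agent.Lib.MP_1a953e_ag.GP1

/-!
# POrth: orthogonality of powers

Common computation: let `h ∈ E[X]`, `h = a ∏ (X - β)` in `W[X]`; if for every root `β` of `h`
`‖y - β‖ = max ‖y‖ ‖β‖`, then `‖h(y)‖ = ‖a‖ ∏ max ‖y‖ ‖β‖ ≥ ‖h i‖ ‖y‖ ^ i` for all `i` (the coefficient
`h i` is `±a` times the elementary symmetric polynomial of degree `deg h - i` of the roots; or:
induction on the number of roots, with `g = (X - β) h`, `g_i = h_(i-1) - β h_i`).  (`pow_orth_of_roots`)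
If `‖y - β‖ < max ‖y‖ ‖β‖` then `‖y‖ = ‖β‖` and `‖y - β‖ < ‖y‖`.

`powOrth_of_min`: let `deg h < n = deg y`, `β` a root of `h` with `‖y - β‖ < ‖y‖ = ‖β‖`; `β ≠ 0` has degree
`< n` over `E`, so it is not `Bad`: there is `c ∈ E` with `‖β - c‖ < ‖β‖`; then `‖y - c‖ < ‖y‖`,
contradicting `Bad E y`.

`powOrth_as`: `deg h < p`; `β` a root of `h` with `‖θ - β‖ < ‖θ‖ = ‖β‖`, `β` algebraic over `E` of degree
`n' < p` (so `‖(n' : W)‖ = 1`).  For a root `β'` of `minpoly E β` the elements `wp (β' - θ)` and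
`wp (β - θ)` of `W` are values of one polynomial over `E`, so they have the same norm, and some
`i` in the prime field has `‖β' - θ - i‖ < ‖θ‖`.  Sum over the roots: `‖n' θ + ∑ i_j - ∑ β_j‖ < ‖θ‖`,
`∑ β_j ∈ E` (minus the next coefficient), so `c = (∑ β_j - ∑ i_j)/n' ∈ E` has `‖θ - c‖ < ‖θ‖`,
contradicting `Bad E θ`.
-/

namespace HR

open Polynomial MP1a953e

variable {W : Type*} [NormedField W] [IsUltrametricDist W] [IsAlgClosed W]

omit [IsAlgClosed W] in
private lemma orth_mult {y : W} (s : Multiset W) (hs : ∀ β ∈ s, max ‖y‖ ‖β‖ ≤ ‖y - β‖) (i : ℕ) :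
    ‖((s.map (fun β => (X - C β : W[X]))).prod).coeff i‖ * ‖y‖ ^ i ≤
      ‖((s.map (fun β => (X - C β : W[X]))).prod).eval y‖ := by
  induction s using Multiset.induction_on generalizing i with
  | empty =>
    rw [Multiset.map_zero, Multiset.prod_zero, eval_one, norm_one, coeff_one]
    split_ifs with h
    · subst h; simp
    · simp
  | cons β s ih =>
    have ih' := ih (fun γ hγ => hs γ (Multiset.mem_cons_of_mem hγ))
    have hβ := hs β (Multiset.mem_cons_self β s)
    set g := (s.map (fun β => (X - C β : W[X]))).prod with hg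
    rw [Multiset.map_cons, Multiset.prod_cons, ← hg, eval_mul, eval_sub, eval_X, eval_C, norm_mul]
    have h1 : ‖(C β * g).coeff i‖ * ‖y‖ ^ i ≤ ‖y - β‖ * ‖g.eval y‖ := by
      rw [coeff_C_mul, norm_mul, mul_assoc]
      exact mul_le_mul ((le_max_right _ _).trans hβ) (ih' i) (by positivity) (norm_nonneg _)
    have h2 : ‖(X * g).coeff i‖ * ‖y‖ ^ i ≤ ‖y - β‖ * ‖g.eval y‖ := by
      rcases i with _ | i
      · rw [coeff_X_mul_zero, norm_zero, zero_mul]
        positivity
      · rw [coeff_X_mul, pow_succ]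
        calc ‖g.coeff i‖ * (‖y‖ ^ i * ‖y‖) = ‖y‖ * (‖g.coeff i‖ * ‖y‖ ^ i) := by ring
          _ ≤ _ := mul_le_mul ((le_max_left _ _).trans hβ) (ih' i) (by positivity) (norm_nonneg _)
    rw [sub_mul, coeff_sub]
    have h3 : ‖(X * g).coeff i - (C β * g).coeff i‖ ≤ max ‖(X * g).coeff i‖ ‖(C β * g).coeff i‖ := by
      have := IsUltrametricDist.norm_add_le_max ((X * g).coeff i) (-(C β * g).coeff i)
      rwa [← sub_eq_add_neg, norm_neg] at this
    calc ‖(X * g).coeff i - (C β * g).coeff i‖ * ‖y‖ ^ i ≤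
        max ‖(X * g).coeff i‖ ‖(C β * g).coeff i‖ * ‖y‖ ^ i :=
          mul_le_mul_of_nonneg_right h3 (by positivity)
      _ = max (‖(X * g).coeff i‖ * ‖y‖ ^ i) (‖(C β * g).coeff i‖ * ‖y‖ ^ i) := by
          rw [max_mul_of_nonneg _ _ (by positivity)]
      _ ≤ _ := max_le h2 h1

theorem pow_orth_of_roots {h : W[X]} {y : W}
    (hr : ∀ β, h.eval β = 0 → max ‖y‖ ‖β‖ ≤ ‖y - β‖) (i : ℕ) :
    ‖h.coeff i‖ * ‖y‖ ^ i ≤ ‖h.eval y‖ := by
  by_cases h0 : h = 0
  · subst h0; simp
  have h1 := (IsAlgClosed.splits h).eq_prod_roots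
  have h2 := orth_mult (y := y) h.roots (fun β hβ => hr β (by
    rw [mem_roots h0] at hβ; exact hβ)) i
  have h3 : h.coeff i = h.leadingCoeff * ((h.roots.map (fun β => (X - C β : W[X]))).prod).coeff i := by
    conv_lhs => rw [h1]
    rw [coeff_C_mul]
  have h4 : h.eval y = h.leadingCoeff * ((h.roots.map (fun β => (X - C β : W[X]))).prod).eval y := by
    conv_lhs => rw [h1]
    rw [eval_mul, eval_C]
  rw [h3, h4, norm_mul, norm_mul, mul_assoc]
  exact mul_le_mul_of_nonneg_left h2 (norm_nonneg _)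

omit [IsUltrametricDist W] [IsAlgClosed W] in
private lemma lift_poly {E : Subfield W} {h : W[X]} (hh : PolyIn E h) :
    ∃ h' : E[X], h'.map (algebraMap E W) = h := by
  have : h ∈ lifts (algebraMap E W) := by
    rw [lifts_iff_coeff_lifts]
    intro n
    exact ⟨⟨h.coeff n, hh n⟩, rfl⟩
  exact this

omit [IsUltrametricDist W] [IsAlgClosed W] in
private lemma alg_root {E : Subfield W} {h : W[X]} (hh : PolyIn E h) (h0 : h ≠ 0) {β : W}
    (hβ : h.eval β = 0) : IsAlgebraic E β ∧ (minpoly E β).natDegree ≤ h.natDegree := by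
  obtain ⟨h', rfl⟩ := lift_poly hh
  have h1 : h' ≠ 0 := by rintro rfl; exact h0 (Polynomial.map_zero _)
  have h2 : aeval β h' = 0 := by rw [aeval_def, ← eval_map]; exact hβ
  refine ⟨⟨h', h1, h2⟩, ?_⟩
  rw [natDegree_map]
  exact natDegree_le_of_dvd (minpoly.dvd E β h2) h1

omit [IsAlgClosed W] in
private lemma close_of_lt {y β : W} (h : ‖y - β‖ < max ‖y‖ ‖β‖) : ‖y‖ = ‖β‖ ∧ ‖y - β‖ < ‖y‖ := by
  have h1 : ‖y‖ = ‖β‖ := by
    by_contra hne
    have h2 := IsUltrametricDist.norm_add_eq_max_of_norm_ne_norm (x := y) (y := -β)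
      (by rwa [norm_neg])
    rw [norm_neg, ← sub_eq_add_neg] at h2
    rw [h2] at h
    exact lt_irrefl _ h
  refine ⟨h1, ?_⟩
  rw [← h1, max_self] at h
  exact h

theorem powOrth_of_min {E : Subfield W} {y : W} (hy : IsAlgebraic E y) (hb : Bad E y)
    (hmin : ∀ β : W, IsAlgebraic E β → β ≠ 0 → Bad E β →
      (minpoly E y).natDegree ≤ (minpoly E β).natDegree) :
    PowOrth E y (minpoly E y).natDegree := by
  have _ := hy
  intro h hh hdeg i
  by_cases h0 : h = 0
  · subst h0; simp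
  refine pow_orth_of_roots (fun β hβ => ?_) i
  by_contra hcon
  obtain ⟨h1, h2⟩ := close_of_lt (not_le.1 hcon)
  obtain ⟨h3, h4⟩ := alg_root hh h0 hβ
  have hβ0 : β ≠ 0 := by
    rintro rfl
    rw [sub_zero] at h2
    exact lt_irrefl _ h2
  have h5 : ¬ Bad E β := fun h5 => by
    have := hmin β h3 hβ0 h5
    omega
  unfold Bad at h5
  push Not at h5
  obtain ⟨c, hc, hc2⟩ := h5
  have h6 : ‖y - c‖ ≤ max ‖y - β‖ ‖β - c‖ := by
    have := IsUltrametricDist.norm_add_le_max (y - β) (β - c)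
    rwa [sub_add_sub_cancel] at this
  have h7 : max ‖y - β‖ ‖β - c‖ < ‖y‖ := max_lt h2 (by rw [h1]; exact hc2)
  exact absurd (hb c hc) (not_le.2 (h6.trans_lt h7))

omit [IsUltrametricDist W] [IsAlgClosed W] in
private lemma int_aeval {E : Subfield W} {x : W} (hx : IsAlgebraic E x) (A : E[X]) :
    IsIntegral E (aeval x A) := by
  rw [aeval_eq_sum_range]
  refine IsIntegral.sum _ fun i _ => ?_
  rw [Algebra.smul_def]
  exact isIntegral_algebraMap.mul (hx.isIntegral.pow i)

omit [IsUltrametricDist W] [IsAlgClosed W] in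
private lemma minpoly_aeval_eq {E : Subfield W} {x y : W} (hx : IsAlgebraic E x)
    (hxy : minpoly E x = minpoly E y) (A : E[X]) :
    minpoly E (aeval x A) = minpoly E (aeval y A) := by
  have hAx : IsIntegral E (aeval x A) := int_aeval hx A
  have h1 : aeval x ((minpoly E (aeval x A)).comp A) = 0 := by
    rw [aeval_comp]; exact minpoly.aeval _ _
  have h2 := minpoly.dvd E x h1
  rw [hxy] at h2
  obtain ⟨g, hg⟩ := h2
  have h3 : aeval (aeval y A) (minpoly E (aeval x A)) = 0 := by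
    rw [← aeval_comp, hg, map_mul, minpoly.aeval, zero_mul]
  exact minpoly.eq_of_irreducible_of_monic (minpoly.irreducible hAx) h3 (minpoly.monic hAx)

omit [IsUltrametricDist W] [IsAlgClosed W] in
private lemma wp_prod {p : ℕ} [Fact p.Prime] [CharP W p] (x : W) :
    x ^ p - x = ∏ a : ZMod p, (x - (ZMod.castHom (dvd_refl p) W) a) := by
  have h1 : (X ^ p - X : (ZMod p)[X]) = ∏ a : ZMod p, (X - C a) := by
    have hm : (X ^ p - X : (ZMod p)[X]).Monic := by
      refine monic_X_pow_sub (p := (X : (ZMod p)[X])) (n := p) ?_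
      rw [degree_X]
      exact_mod_cast (Fact.out : p.Prime).one_lt
    have hr : (X ^ p - X : (ZMod p)[X]).roots = Finset.univ.val := by
      have := FiniteField.roots_X_pow_card_sub_X (ZMod p)
      rwa [ZMod.card] at this
    have h2 := prod_multiset_X_sub_C_of_monic_of_roots_card_eq hm (by
      rw [hr, FiniteField.X_pow_card_sub_X_natDegree_eq _ (Fact.out : p.Prime).one_lt]
      have := ZMod.card p
      rwa [← Finset.card_univ] at this)
    rw [hr] at h2
    exact h2.symm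
  have h3 := congrArg (fun f : (ZMod p)[X] => f.eval₂ (ZMod.castHom (dvd_refl p) W) x) h1
  simp only [eval₂_sub, eval₂_pow, eval₂_X] at h3
  rw [h3, eval₂_finsetProd]
  refine Finset.prod_congr rfl fun a _ => ?_
  rw [eval₂_sub, eval₂_X, eval₂_C]

omit [IsUltrametricDist W] [IsAlgClosed W] in
private lemma cast_mem {p : ℕ} [Fact p.Prime] [CharP W p] (E : Subfield W) (a : ZMod p) :
    (ZMod.castHom (dvd_refl p) W) a ∈ E := by
  have h1 : (ZMod.castHom (dvd_refl p) W) a = ((a.val : ℕ) : W) := by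
    conv_lhs => rw [← ZMod.natCast_zmod_val a]
    rw [map_natCast]
  rw [h1]
  exact natCast_mem E _

omit [IsUltrametricDist W] [IsAlgClosed W] in
/-- if `wp d` is smaller than `r ^ p` then `d` is closer than `r` to the prime field -/
private lemma near_prime {p : ℕ} [Fact p.Prime] [CharP W p] {d : W} {r : ℝ} (hr : 0 ≤ r)
    (h : ‖d ^ p - d‖ < r ^ p) (E : Subfield W) : ∃ i ∈ E, ‖d - i‖ < r := by
  by_contra hcon
  push Not at hcon
  rw [wp_prod d, norm_prod] at h
  have h2 : r ^ p ≤ ∏ a : ZMod p, ‖d - (ZMod.castHom (dvd_refl p) W) a‖ := by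
    calc r ^ p = ∏ _a : ZMod p, r := by rw [Finset.prod_const, Finset.card_univ, ZMod.card]
      _ ≤ _ := Finset.prod_le_prod (fun _ _ => hr) (fun a _ => hcon _ (cast_mem E a))
  linarith

theorem powOrth_as {p : ℕ} [Fact p.Prime] [CharP W p] {E : Subfield W}
    (hE : IsComplete (E : Set W)) (hnt : ∃ x ∈ E, 1 < ‖x‖) {θ : W} (hθ : θ ^ p - θ ∈ E)
    (hb : Bad E θ) : PowOrth E θ p := by
  have hp : p.Prime := Fact.out
  intro h hh hdeg i
  by_cases h0 : h = 0
  · subst h0; simp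
  refine pow_orth_of_roots (fun β hβ => ?_) i
  by_contra hcon
  obtain ⟨h1, h2⟩ := close_of_lt (not_le.1 hcon)
  obtain ⟨h3, h4⟩ := alg_root hh h0 hβ
  have hθ0 : 0 < ‖θ‖ := (norm_nonneg _).trans_lt h2
  -- `‖θ‖ ≥ 1`
  have hθ1 : 1 ≤ ‖θ‖ := by
    by_contra hlt
    have hlt' := not_le.1 hlt
    have h5 := hb (-(θ ^ p - θ)) (E.neg_mem hθ)
    have h6 : θ - -(θ ^ p - θ) = θ ^ p := by ring
    rw [h6, norm_pow] at h5
    have h7 : ‖θ‖ ^ p < ‖θ‖ ^ 1 := pow_lt_pow_right_of_lt_one₀ hθ0 hlt' hp.one_lt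
    rw [pow_one] at h7
    linarith
  -- the polynomial `X ^ p - X - a`
  set A : E[X] := X ^ p - X - C ⟨θ ^ p - θ, hθ⟩ with hA
  have hAe : ∀ x : W, aeval x A = (x - θ) ^ p - (x - θ) := by
    intro x
    rw [hA, map_sub, map_sub, map_pow, aeval_X, aeval_C, sub_pow_char]
    show x ^ p - x - (θ ^ p - θ) = _
    ring
  have hAβ : ‖aeval β A‖ < ‖θ‖ ^ p := by
    rw [hAe]
    have hd : ‖β - θ‖ < ‖θ‖ := by rw [norm_sub_rev]; exact h2
    have h5 : ‖(β - θ) ^ p - (β - θ)‖ ≤ max ‖(β - θ) ^ p‖ ‖β - θ‖ := by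
      have := IsUltrametricDist.norm_add_le_max ((β - θ) ^ p) (-(β - θ))
      rwa [← sub_eq_add_neg, norm_neg] at this
    refine h5.trans_lt (max_lt ?_ ?_)
    · rw [norm_pow]
      exact pow_lt_pow_left₀ hd (norm_nonneg _) hp.ne_zero
    · exact hd.trans_le (le_self_pow₀ hθ1 hp.ne_zero)
  have hβi := h3.isIntegral
  set P := minpoly E β with hP
  set s : Multiset W := (P.map (algebraMap E W)).roots with hs
  have hPm : (P.map (algebraMap E W)).Monic := (minpoly.monic hβi).map _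
  have hsp : (P.map (algebraMap E W)).Splits := IsAlgClosed.splits _
  have hscard : s.card = P.natDegree := by
    rw [hs, ← natDegree_map (algebraMap E W)]
    exact (splits_iff_card_roots.1 hsp)
  -- every root is close to `θ` plus the prime field
  have hroot : ∀ γ ∈ s, ∃ c ∈ E, ‖γ - θ - c‖ < ‖θ‖ := by
    intro γ hγ
    rw [hs, mem_roots hPm.ne_zero, IsRoot.def, eval_map, ← aeval_def] at hγ
    have hmin : minpoly E β = minpoly E γ := by
      exact minpoly.eq_of_irreducible_of_monic (minpoly.irreducible hβi) hγ (minpoly.monic hβi)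
    have h5 := norm_eq_of_minpoly_eq hE hnt (x := aeval β A) (y := aeval γ A) (int_aeval h3 A).isAlgebraic
      (minpoly_aeval_eq h3 hmin A)
    rw [h5, hAe] at hAβ
    exact near_prime (norm_nonneg _) hAβ E
  -- sum over the roots
  have hsum : ∀ t : Multiset W, (∀ γ ∈ t, ∃ c ∈ E, ‖γ - θ - c‖ < ‖θ‖) →
      ∃ c ∈ E, ‖t.sum - (t.card : W) * θ - c‖ < ‖θ‖ := by
    intro t
    induction t using Multiset.induction_on with
    | empty =>
      intro _
      exact ⟨0, E.zero_mem, by simpa using hθ0⟩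
    | cons γ t ih =>
      intro ht
      obtain ⟨c, hc, hc1⟩ := ih (fun δ hδ => ht δ (Multiset.mem_cons_of_mem hδ))
      obtain ⟨c', hc', hc1'⟩ := ht γ (Multiset.mem_cons_self γ t)
      refine ⟨c' + c, E.add_mem hc' hc, ?_⟩
      have e : (γ ::ₘ t).sum - ((γ ::ₘ t).card : W) * θ - (c' + c) =
          (γ - θ - c') + (t.sum - (t.card : W) * θ - c) := by
        rw [Multiset.sum_cons, Multiset.card_cons]
        push_cast
        ring
      rw [e]
      exact (IsUltrametricDist.norm_add_le_max _ _).trans_lt (max_lt hc1' hc1)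
  obtain ⟨c, hc, hc1⟩ := hsum s hroot
  have hSE : s.sum ∈ E := by
    have h5 := hsp.nextCoeff_eq_neg_sum_roots_of_monic hPm
    have h6 : s.sum = -(P.map (algebraMap E W)).nextCoeff := by rw [h5, neg_neg]
    rw [h6]
    refine E.neg_mem ?_
    rw [nextCoeff]
    split_ifs
    · exact E.zero_mem
    · rw [coeff_map]
      exact (P.coeff _).2
  have hn1 : 0 < P.natDegree := minpoly.natDegree_pos hβi
  have hn2 : P.natDegree < p := h4.trans_lt hdeg
  have hnd : ¬ p ∣ P.natDegree := fun hd => by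
    have := Nat.le_of_dvd hn1 hd
    omega
  have hnn : ‖(P.natDegree : W)‖ = 1 := norm_natCast_of_not_dvd hnd
  have hn0 : (P.natDegree : W) ≠ 0 := by
    intro h5
    rw [h5, norm_zero] at hnn
    exact zero_ne_one hnn
  rw [hscard] at hc1
  have h5 := hb ((s.sum - c) / (P.natDegree : W)) (E.div_mem (E.sub_mem hSE hc) (natCast_mem E _))
  have h6 : s.sum - (P.natDegree : W) * θ - c =
      -((P.natDegree : W) * (θ - (s.sum - c) / (P.natDegree : W))) := by
    field_simp
    ring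
  rw [h6, norm_neg, norm_mul, hnn, one_mul] at hc1
  linarith

end HR
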