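import Pool.Agent.Lib.HR.AddBig
import Pool.Agent.Lib.HR.AddOne
import Pool.Agent.Lib.HR.FixB

/-!
# Step: the Artin-Schreier step

`exists_stab` (with `K = L`, `σ = c.σ c.o`, using `claimA`, `claimB`) gives `q, φ, b₁`.  If `q ≥ 2`
then `addData_of_gt` or `addData_of_one` and `no_addData` give a contradiction.  So `q = 1`, and
`Stab.top` at `b₁` says that `cc f b₁` is dominated by its linear coefficient: for `n ≥ 2`
`‖c_n‖ ‖v-b₁‖ ^ n < ‖c_1‖ ‖v-b₁‖`.  By `cc_decomp` at `b = b₁`,
`f - wp (G.comp (X - C b₁)) = C (f b₁) + (cc f b₁).comp (X - C b₁)`, whose Taylor coefficients at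
`b₁` of index `≥ 1` are those of `cc f b₁`.
-/

namespace HR

open Polynomial

variable {W : Type*} [NormedField W] [IsUltrametricDist W] {p : ℕ} [Fact p.Prime] [CharP W p]
  {L : Subfield W} {v : W} {f : W[X]} {δ : ℝ}

/-- THE ARTIN-SCHREIER STEP.  If the best Artin-Schreier approximation of `f v` is not attained
over `L[X]` then `f - wp g` is linearly dominated at some centre for some `g ∈ L[X]`. -/
theorem as_step (hperf : ∀ y : W, ∃ z, z ^ p = y) (c : PCoord p L) (hF : FPP p L)
    (hv : T4 L v) (hpos : 0 < rho L v) (hd : Dfd p L v f δ) :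
    ∃ g : W[X], PolyIn L g ∧ ∃ b ∈ L, LinDom v (f - wp p g) b := by
  have hcart : Cart p L (c.σ c.o) := c.cart
  obtain ⟨q, φ, b₁, hs⟩ := exists_stab (le_refl L) hcart hd.polyIn hv hd.one_le
    (fun b hb => claimA c hF hv hd hb)
    (fun t ht => by
      obtain ⟨b₀, hb₀, h⟩ := claimB hcart hv hd ht
      exact ⟨b₀, hb₀, fun b hb hle => (h b hb hle).1⟩)
  -- the top index is one
  have hq : q = 1 := by
    by_contra hq1
    have hq2 : 2 ≤ q := by
      have := hs.one_le
      omega
    rcases hd.one_le.eq_or_lt with h | h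
    · subst h
      obtain ⟨b, hb, ha⟩ := addData_of_one hperf c hF hv hd hs hq2
      exact no_addData c hF hv hpos hd hs hb ha
    · obtain ⟨b, hb, ha⟩ := addData_of_gt c hv hd h hs hq2
      exact no_addData c hF hv hpos hd hs hb ha
  subst hq
  have htop := hs.top b₁ hs.mem le_rfl
  obtain ⟨G, hG, -, hdec, -⟩ := cc_decomp hcart hd.polyIn hs.mem
  have hGc : PolyIn L (G.comp (X - C b₁)) :=
    polyIn_comp hG (polyIn_sub polyIn_X (polyIn_C hs.mem))
  refine ⟨G.comp (X - C b₁), hGc, b₁, hs.mem, ?_⟩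
  have hT : taylor b₁ (G.comp (X - C b₁)) = G := by
    rw [taylor_apply, comp_assoc]
    simp
  have hT2 : taylor b₁ (f - wp p (G.comp (X - C b₁))) =
      C (f.eval b₁) + cc (c.σ c.o) p f b₁ := by
    rw [map_sub, wp_taylor, hT, hdec]
    ring
  have hco : ∀ n, 1 ≤ n → (taylor b₁ (f - wp p (G.comp (X - C b₁)))).coeff n =
      (cc (c.σ c.o) p f b₁).coeff n := by
    intro n hn
    rw [hT2, coeff_add, coeff_C, if_neg (by omega), zero_add]
  intro n hn
  rw [hco n (by omega), hco 1 le_rfl]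
  have := htop.lt n (by omega)
  rwa [pow_one] at this

end HR
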