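import Pool.Agent.Lib.HR.NF

/-!
# Top: the top dominating index

`IsTop s h ν`: `ν ≥ 1` is the largest index with `‖h_ν‖ s ^ ν = max_{n ≥ 1} ‖h_n‖ s ^ n`.

`top_recenter` (the key invariance).  Let `c` be normal (`Sop σ p c = 0`), `ν` its top index at the
radius `s`, `N = ‖c_ν‖ s ^ ν > 1`, `‖e‖ ≤ s`, `h = taylor e c - C (c.eval e)`.
Then `h_n = ∑_{m ≥ n} (m choose n) c_m e ^ (m - n)` for `n ≥ 1` (`taylor_coeff`,
`hasseDeriv`, or `coeff_taylor`), so `‖h_n‖ s ^ n ≤ N`, `< N` for `n > ν`, and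
`‖h_ν - c_ν‖ s ^ ν < N`.  Let `G = Gop σ p h`: `(‖G_n‖ s ^ n) ^ p ≤ N` (norm_Gop) hence
`‖G_n‖ s ^ n < N` (as `N > 1`).  `NF h = h + G - G ^ p`; at an index `n` prime to `p` the
coefficient is `h_n + G_n`; at `p n` it is `h_{pn} + G_{pn} - G_n ^ p` with
`G_n = σ (h_{pn} + G_{pn})`, so `‖G_n ^ p‖ ≤ ‖h_{pn} + G_{pn}‖`; for `p n = ν` moreover
`σ (c_ν) = 0`, so `G_n = σ (h_ν - c_ν + G_ν)` and `‖G_n ^ p‖ s ^ ν < N`.
-/

namespace HR

open Polynomial

variable {W : Type*} [NormedField W] [IsUltrametricDist W] {p : ℕ} [Fact p.Prime] [CharP W p]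
  {L : Subfield W} {σ : W → W}

omit [IsUltrametricDist W] in
theorem exists_isTop {s : ℝ} (hs : 0 < s) {h : W[X]} (hh : ∃ n, 1 ≤ n ∧ h.coeff n ≠ 0) :
    ∃ ν, IsTop s h ν := by
  classical
  set f : ℕ → ℝ := fun n => ‖h.coeff n‖ * s ^ n with hf
  set T : Finset ℕ := h.support.filter (fun n => 1 ≤ n) with hT
  have hTmem : ∀ n, n ∈ T ↔ h.coeff n ≠ 0 ∧ 1 ≤ n := by
    intro n
    rw [hT, Finset.mem_filter, mem_support_iff]
  have hne : T.Nonempty := by
    obtain ⟨n, h1, h2⟩ := hh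
    exact ⟨n, (hTmem n).2 ⟨h2, h1⟩⟩
  obtain ⟨a, haT, hamax⟩ := Finset.exists_max_image T f hne
  set T' : Finset ℕ := T.filter (fun n => f n = f a) with hT'
  have hne' : T'.Nonempty := ⟨a, by rw [hT', Finset.mem_filter]; exact ⟨haT, rfl⟩⟩
  have hν := T'.max'_mem hne'
  set ν := T'.max' hne' with hνdef
  rw [hT', Finset.mem_filter] at hν
  obtain ⟨hνT, hνa⟩ := hν
  have hpos : 0 < f ν := mul_pos (norm_pos_iff.2 ((hTmem ν).1 hνT).1) (pow_pos hs ν)
  have hle : ∀ n, 1 ≤ n → f n ≤ f ν := by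
    intro n hn
    by_cases h0 : h.coeff n = 0
    · have : f n = 0 := by
        simp only [hf]
        rw [h0, norm_zero, zero_mul]
      rw [this]
      exact hpos.le
    · rw [hνa]
      exact hamax n ((hTmem n).2 ⟨h0, hn⟩)
  refine ⟨ν, ((hTmem ν).1 hνT).2, ((hTmem ν).1 hνT).1, hle, ?_⟩
  intro n hn
  have hn1 : 1 ≤ n := le_trans ((hTmem ν).1 hνT).2 hn.le
  refine lt_of_le_of_ne (hle n hn1) ?_
  intro heq
  have heq' : f n = f ν := heq
  have h0 : h.coeff n ≠ 0 := by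
    intro h0
    have : f n = 0 := by
      simp only [hf]
      rw [h0, norm_zero, zero_mul]
    rw [this] at heq'
    exact hpos.ne heq'
  have hmem : n ∈ T' := by
    rw [hT', Finset.mem_filter]
    exact ⟨(hTmem n).2 ⟨h0, hn1⟩, heq'.trans hνa⟩
  exact absurd (T'.le_max' n hmem) (not_le.2 hn)

omit [IsUltrametricDist W] in
theorem IsTop.unique {s : ℝ} {h : W[X]} {ν ν' : ℕ} (h1 : IsTop s h ν)
    (h2 : IsTop s h ν') : ν = ν' := by
  rcases lt_trichotomy ν ν' with hlt | heq | hlt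
  · exact absurd (h1.lt ν' hlt) (not_lt.2 (h2.le ν h1.one_le))
  · exact heq
  · exact absurd (h2.lt ν hlt) (not_lt.2 (h1.le ν' h2.one_le))

omit [IsUltrametricDist W] in
/-- The top index does not increase when the radius decreases. -/
theorem IsTop.mono {s s' : ℝ} {h : W[X]} {ν ν' : ℕ} (hs' : 0 < s') (hss : s' ≤ s)
    (h1 : IsTop s h ν) (h2 : IsTop s' h ν') : ν' ≤ ν := by
  by_contra hcon
  rw [not_le] at hcon
  have ha := h1.lt ν' hcon
  have hb := h2.le ν h1.one_le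
  have hs : 0 < s := hs'.trans_le hss
  obtain ⟨d, rfl⟩ := Nat.exists_eq_add_of_lt hcon
  have hb' : ‖h.coeff ν‖ ≤ ‖h.coeff (ν + d + 1)‖ * s' ^ (d + 1) := by
    have e1 : ‖h.coeff (ν + d + 1)‖ * s' ^ (ν + d + 1) =
        (‖h.coeff (ν + d + 1)‖ * s' ^ (d + 1)) * s' ^ ν := by ring
    rw [e1] at hb
    exact le_of_mul_le_mul_right hb (pow_pos hs' ν)
  have hc : ‖h.coeff ν‖ * s ^ ν ≤ ‖h.coeff (ν + d + 1)‖ * s ^ (ν + d + 1) := by
    calc ‖h.coeff ν‖ * s ^ ν ≤ (‖h.coeff (ν + d + 1)‖ * s' ^ (d + 1)) * s ^ ν :=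
          mul_le_mul_of_nonneg_right hb' (pow_nonneg hs.le _)
      _ ≤ (‖h.coeff (ν + d + 1)‖ * s ^ (d + 1)) * s ^ ν := by
          refine mul_le_mul_of_nonneg_right ?_ (pow_nonneg hs.le _)
          exact mul_le_mul_of_nonneg_left (pow_le_pow_left₀ hs'.le hss _) (norm_nonneg _)
      _ = ‖h.coeff (ν + d + 1)‖ * s ^ (ν + d + 1) := by ring
  exact absurd ha (not_lt.2 hc)

omit [IsUltrametricDist W] in
private theorem top_coeff (c : W[X]) (e : W) (n : ℕ) :
    (taylor e c).coeff n =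
      ∑ i ∈ c.support, ((i.choose n : ℕ) : W) * c.coeff i * e ^ (i - n) := by
  rw [taylor_coeff, hasseDeriv_apply, sum_def, eval_finsetSum]
  refine Finset.sum_congr rfl fun i _ => ?_
  rw [eval_monomial]

private theorem top_term {c : W[X]} {s : ℝ} (hs : 0 < s) {e : W} (he : ‖e‖ ≤ s) {n i : ℕ}
    (hi : n ≤ i) : ‖((i.choose n : ℕ) : W) * c.coeff i * e ^ (i - n)‖ * s ^ n ≤
      ‖c.coeff i‖ * s ^ i := by
  rw [norm_mul, norm_mul, norm_pow]
  have h1 : ‖((i.choose n : ℕ) : W)‖ ≤ 1 := IsUltrametricDist.norm_natCast_le_one W _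
  have h2 : ‖e‖ ^ (i - n) ≤ s ^ (i - n) := pow_le_pow_left₀ (norm_nonneg _) he _
  calc ‖((i.choose n : ℕ) : W)‖ * ‖c.coeff i‖ * ‖e‖ ^ (i - n) * s ^ n
      ≤ 1 * ‖c.coeff i‖ * s ^ (i - n) * s ^ n := by gcongr
    _ = ‖c.coeff i‖ * s ^ i := by
        rw [one_mul, mul_assoc, ← pow_add, Nat.sub_add_cancel hi]

/-- The coefficients of a recentred polynomial. -/
theorem norm_taylor_coeff_le {c : W[X]} {s N : ℝ} (hs : 0 < s) {e : W} (he : ‖e‖ ≤ s)
    {n : ℕ} (hb : ∀ m, n ≤ m → ‖c.coeff m‖ * s ^ m ≤ N) :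
    ‖(taylor e c).coeff n‖ * s ^ n ≤ N := by
  have hN : 0 ≤ N := (mul_nonneg (norm_nonneg _) (pow_nonneg hs.le _)).trans (hb n le_rfl)
  have hsn : 0 < s ^ n := pow_pos hs n
  rw [← le_div_iff₀ hsn, top_coeff]
  refine IsUltrametricDist.norm_sum_le_of_forall_le_of_nonneg (div_nonneg hN hsn.le) fun i _ => ?_
  rw [le_div_iff₀ hsn]
  rcases lt_or_ge i n with hi | hi
  · rw [Nat.choose_eq_zero_of_lt hi, Nat.cast_zero, zero_mul, zero_mul, norm_zero, zero_mul]
    exact hN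
  · exact (top_term hs he hi).trans (hb i hi)

/-- Strict version (finitely many coefficients). -/
theorem norm_taylor_coeff_lt {c : W[X]} {s N : ℝ} (hs : 0 < s) (hN : 0 < N) {e : W}
    (he : ‖e‖ ≤ s) {n : ℕ} (hb : ∀ m, n ≤ m → ‖c.coeff m‖ * s ^ m < N) :
    ‖(taylor e c).coeff n‖ * s ^ n < N := by
  have hsn : 0 < s ^ n := pow_pos hs n
  rw [top_coeff]
  rcases c.support.eq_empty_or_nonempty with hemp | hne
  · rw [hemp, Finset.sum_empty, norm_zero, zero_mul]
    exact hN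
  · obtain ⟨i, _, hi⟩ := IsUltrametricDist.exists_norm_finsetSum_le_of_nonempty hne
      (fun i => ((i.choose n : ℕ) : W) * c.coeff i * e ^ (i - n))
    refine (mul_le_mul_of_nonneg_right hi hsn.le).trans_lt ?_
    rcases lt_or_ge i n with hin | hin
    · rw [Nat.choose_eq_zero_of_lt hin, Nat.cast_zero, zero_mul, zero_mul, norm_zero, zero_mul]
      exact hN
    · exact (top_term hs he hin).trans_lt (hb i hin)

/-- The difference of the `n`-th coefficients of `taylor e c` and `c` involves the coefficients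
`c_m`, `m > n`, only. -/
theorem norm_taylor_coeff_sub_lt {c : W[X]} {s N : ℝ} (hs : 0 < s) (hN : 0 < N) {e : W}
    (he : ‖e‖ ≤ s) {n : ℕ} (hb : ∀ m, n < m → ‖c.coeff m‖ * s ^ m < N) :
    ‖(taylor e c).coeff n - c.coeff n‖ * s ^ n < N := by
  have h1 : (taylor e c).coeff n - c.coeff n =
      (taylor e (c - monomial n (c.coeff n))).coeff n := by
    rw [map_sub, coeff_sub, taylor_monomial, coeff_C_mul, coeff_X_add_C_pow, Nat.sub_self,
      pow_zero, Nat.choose_self, Nat.cast_one, mul_one, mul_one]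
  rw [h1]
  refine norm_taylor_coeff_lt hs hN he fun m hm => ?_
  rw [coeff_sub, coeff_monomial]
  rcases hm.eq_or_lt with heq | hlt
  · rw [if_pos heq, heq, sub_self, norm_zero, zero_mul]
    exact hN
  · rw [if_neg hlt.ne, sub_zero]
    exact hb m hlt

/-- Key invariance of the top index. -/
theorem top_recenter (hσ : Cart p L σ) {c : W[X]} (hc : PolyIn L c) (hn : Sop σ p c = 0)
    {s : ℝ} (hs : 0 < s) {ν : ℕ} (ht : IsTop s c ν) (h1 : 1 < ‖c.coeff ν‖ * s ^ ν) {e : W}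
    (he : e ∈ L) (hes : ‖e‖ ≤ s) :
    IsTop s (NF σ p (taylor e c - C (c.eval e))) ν ∧
      ‖(NF σ p (taylor e c - C (c.eval e))).coeff ν - c.coeff ν‖ * s ^ ν
        < ‖c.coeff ν‖ * s ^ ν := by
  have hp : p.Prime := Fact.out
  set N : ℝ := ‖c.coeff ν‖ * s ^ ν with hN
  have hN0 : 0 < N := zero_lt_one.trans h1
  set h : W[X] := taylor e c - C (c.eval e) with hh
  have hhL : PolyIn L h := polyIn_sub (polyIn_taylor hc he) (polyIn_C (eval_mem hc he))
  have hcoef : ∀ n, 1 ≤ n → h.coeff n = (taylor e c).coeff n := by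
    intro n hn1
    rw [hh, coeff_sub, coeff_C_of_ne_zero (by omega), sub_zero]
  have hle : ∀ n, 1 ≤ n → ‖h.coeff n‖ * s ^ n ≤ N := by
    intro n hn1
    rw [hcoef n hn1]
    exact norm_taylor_coeff_le hs hes fun m hm => ht.le m (hn1.trans hm)
  have hlt : ∀ n, ν < n → ‖h.coeff n‖ * s ^ n < N := by
    intro n hn1
    rw [hcoef n (ht.one_le.trans hn1.le)]
    exact norm_taylor_coeff_lt hs hN0 hes fun m hm => ht.lt m (hn1.trans_le hm)
  have hsub : ‖h.coeff ν - c.coeff ν‖ * s ^ ν < N := by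
    rw [hcoef ν ht.one_le]
    exact norm_taylor_coeff_sub_lt hs hN0 hes fun m hm => ht.lt m hm
  set G : W[X] := Gop σ p h with hG
  have hGlt : ∀ n, ‖G.coeff n‖ * s ^ n < N := by
    intro n
    have h2 := norm_Gop hσ hhL hs h1.le hle n
    by_contra hcon
    rw [not_lt] at hcon
    have h3 : N < N ^ p := by
      calc N = N ^ 1 := (pow_one N).symm
        _ < N ^ p := pow_lt_pow_right₀ h1 hp.one_lt
    have h4 : N ^ p ≤ (‖G.coeff n‖ * s ^ n) ^ p := pow_le_pow_left₀ hN0.le hcon p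
    exact absurd (h3.trans_le (h4.trans h2)) (lt_irrefl _)
  have hSG : Sop σ p (h + G) = G := Sop_add_Gop hσ hhL
  have hGL : PolyIn L G := polyIn_Gop hσ hhL
  have hGσ : ∀ m, 1 ≤ m → G.coeff m = σ (h.coeff (p * m) + G.coeff (p * m)) := by
    intro m hm
    have h2 : (Sop σ p (h + G)).coeff m = G.coeff m := by rw [hSG]
    rw [coeff_Sop hσ.zero, if_pos hm, coeff_add] at h2
    exact h2.symm
  have hmax : ∀ (a b : W) (r : ℝ) (k : ℕ), ‖a‖ * s ^ k < r → ‖b‖ * s ^ k < r →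
      ‖a + b‖ * s ^ k < r := by
    intro a b r k ha hb
    have hsk := pow_pos hs k
    rcases le_max_iff.1 (IsUltrametricDist.norm_add_le_max a b) with h2 | h2
    · exact (mul_le_mul_of_nonneg_right h2 hsk.le).trans_lt ha
    · exact (mul_le_mul_of_nonneg_right h2 hsk.le).trans_lt hb
  have hNF : NF σ p h = h + G - G ^ p := rfl
  have hi : ∀ n, ν < n → ‖(NF σ p h).coeff n‖ * s ^ n < N := by
    intro n hn1
    have hsum := hmax _ _ _ n (hlt n hn1) (hGlt n)
    rw [hNF, coeff_sub, coeff_add, sub_eq_add_neg]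
    refine hmax _ _ _ n hsum ?_
    rw [norm_neg]
    by_cases hd : p ∣ n
    · obtain ⟨m, rfl⟩ := hd
      have hm : 1 ≤ m := by
        rcases Nat.eq_zero_or_pos m with h0 | h0
        · rw [h0, mul_zero] at hn1
          omega
        · exact h0
      rw [coeff_pow_mul, norm_pow, hGσ m hm]
      refine (mul_le_mul_of_nonneg_right (hσ.norm _ (L.add_mem (hhL _) (hGL _)))
        (pow_nonneg hs.le _)).trans_lt hsum
    · rw [coeff_pow_of_not_dvd G hd, norm_zero, zero_mul]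
      exact hN0
  have hii : ‖(NF σ p h).coeff ν - c.coeff ν‖ * s ^ ν < N := by
    have hsum := hmax _ _ _ ν hsub (hGlt ν)
    have e1 : (NF σ p h).coeff ν - c.coeff ν =
        (h.coeff ν - c.coeff ν + G.coeff ν) + -((G ^ p).coeff ν) := by
      rw [hNF, coeff_sub, coeff_add]
      ring
    rw [e1]
    refine hmax _ _ _ ν hsum ?_
    rw [norm_neg]
    by_cases hd : p ∣ ν
    · obtain ⟨m, hm'⟩ := hd
      have hm : 1 ≤ m := by
        rcases Nat.eq_zero_or_pos m with h0 | h0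
        · have := ht.one_le
          rw [hm', h0, mul_zero] at this
          omega
        · exact h0
      have hc0 : σ (c.coeff ν) = 0 := by
        have h2 : (Sop σ p c).coeff m = (0 : W[X]).coeff m := by rw [hn]
        rw [coeff_Sop hσ.zero, if_pos hm, coeff_zero, ← hm'] at h2
        exact h2
      have e2 : G.coeff m = σ (h.coeff ν - c.coeff ν + G.coeff ν) := by
        have e3 : h.coeff ν - c.coeff ν + G.coeff ν = (h.coeff ν + G.coeff ν) - c.coeff ν := by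
          ring
        rw [e3, hσ.sub (L.add_mem (hhL _) (hGL _)) (hc _), hc0, sub_zero, hGσ m hm, ← hm']
      have e4 : (G ^ p).coeff ν = (G.coeff m) ^ p := by
        rw [hm', coeff_pow_mul]
      rw [e4, norm_pow, e2]
      refine (mul_le_mul_of_nonneg_right
        (hσ.norm _ (L.add_mem (L.sub_mem (hhL _) (hc _)) (hGL _)))
        (pow_nonneg hs.le _)).trans_lt hsum
    · rw [coeff_pow_of_not_dvd G hd, norm_zero, zero_mul]
      exact hN0
  refine ⟨?_, hii⟩
  have heq : ‖(NF σ p h).coeff ν‖ = ‖c.coeff ν‖ := by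
    have hsn := pow_pos hs ν
    have h2 : ‖(NF σ p h).coeff ν - c.coeff ν‖ < ‖c.coeff ν‖ :=
      lt_of_mul_lt_mul_right hii hsn.le
    have h3 := IsUltrametricDist.norm_add_le_max ((NF σ p h).coeff ν - c.coeff ν) (c.coeff ν)
    rw [sub_add_cancel, max_eq_right h2.le] at h3
    have h5 := IsUltrametricDist.norm_add_le_max (-((NF σ p h).coeff ν - c.coeff ν))
      ((NF σ p h).coeff ν)
    have h6 : -((NF σ p h).coeff ν - c.coeff ν) + (NF σ p h).coeff ν = c.coeff ν := by ring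
    rw [h6, norm_neg] at h5
    rcases le_max_iff.1 h5 with h7 | h7
    · exact absurd h7 (not_le.2 h2)
    · exact le_antisymm h3 h7
  have heqN : ‖(NF σ p h).coeff ν‖ * s ^ ν = N := by rw [heq]
  refine ⟨ht.one_le, ?_, ?_, ?_⟩
  · intro h0
    rw [h0, norm_zero, zero_mul] at heqN
    exact hN0.ne heqN
  · intro n hn1
    rw [heqN]
    exact norm_NF hσ hhL hs h1.le hle hn1
  · intro n hn1
    rw [heqN]
    exact hi n hn1

end HR
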