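import Pool.Agent.Lib.HR.Dev
import Pool.Agent.Lib.HR.AsF

/-!
# Tower: generators after a finite extension of degree prime to `p`

`dev` gives `K₁`; `HCl.ext` (with `stable`) gives `L₁` with `HCl p k L₁ K₁`; `K₁ / K` has an orthogonal basis.
For the fields `D` of the tower `ASTower p (Q ⊔ K₁) (H ⊔ K₁)` (all `≤ H ⊔ K₁`: a tower field is
contained in the top one; prove the statement below for all `D ≤ H ⊔ K₁` by induction) we show: `D` is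
complete, and there is `Y ∈ D`, `Y ∉ K₁`, with `DenseIn (adj K₁ Y) D`.  Base: `D = Q ⊔ K₁`, `Y = v`
(`DenseIn.sup`, `mem_of_sup` from Lin3; complete: `OrthBasis.sup`, `OrthBasis.complete`).  Step:
`adj D z ≤ H ⊔ K₁` is immediate over `K₁` (`Imm.sup`: `Imm K₁ (H ⊔ K₁)`, `Imm.mono`), `TT K₁ Y` by `tt_of_hcl`
(for the pair `(L₁, K₁)`), `as_field`; completeness by `complete_adj` (Lin4; `z` is algebraic over `D`).
-/

namespace HR

open Polynomial MP1a953e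

variable {W : Type*} [NormedField W] [IsUltrametricDist W] [IsAlgClosed W] {p : ℕ}
  [Fact p.Prime] [CharP W p] {k L K Q H : Subfield W}

theorem tower (hk : IsAlgClosed k) (h : HCl p k L K) (hI : MP1a953e.Imm K H)
    {v : W} (hv : v ∈ Q) (hvK : v ∉ K) (hQ : IsComplete (Q : Set W))
    (hQd : DenseIn (adj K v) Q) (hH : FSep Q H) :
    ∃ L₁ K₁, HCl p k L₁ K₁ ∧ FSep K K₁ ∧ Ext L K L₁ K₁ ∧ ¬ p ∣ K.relfinrank K₁ ∧
      ∃ Y ∈ H ⊔ K₁, Y ∉ K₁ ∧ DenseIn (adj K₁ Y) (H ⊔ K₁) := by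
  have hKQ : K ≤ Q := (le_adj K v).trans hQd.1
  have hQH : Q ≤ H := hH.le
  have hIQ : MP1a953e.Imm K Q := ⟨hKQ, fun y hy hy0 => hI.2 y (hQH hy) hy0⟩
  have hIH : MP1a953e.Imm K H := hI
  obtain ⟨K₁, hK₁, hdeg, htow⟩ := dev hk h hIQ hQ hH
  obtain ⟨L₁, hL₁, hExt, -⟩ := h.ext (stable hk h hK₁)
  obtain ⟨d, θ, hθL, hθ⟩ := hExt
  have hIH1 : MP1a953e.Imm K₁ (H ⊔ K₁) := MP1a953e.Imm.sup hIH hθ
  have key : ∀ D : Subfield W, ASTower p (Q ⊔ K₁) D → D ≤ H ⊔ K₁ →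
      IsComplete (D : Set W) ∧ ∃ Y ∈ D, Y ∉ K₁ ∧ DenseIn (adj K₁ Y) D := by
    intro D hD
    induction hD with
    | base =>
      intro _
      refine ⟨(OrthBasis.sup hIQ hθ).complete hQ, v, ?_, ?_, DenseIn.sup hQd hθ⟩
      · exact (le_sup_left : Q ≤ Q ⊔ K₁) hv
      · exact fun hv1 => hvK (mem_of_sup hIQ hθ hv hv1)
    | step D z hD hz ih =>
      intro hle
      have hDle : D ≤ H ⊔ K₁ := (le_adj D z).trans hle
      obtain ⟨hDc, Y, hYD, hYK, hYd⟩ := ih hDle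
      have hTT : TT K₁ Y :=
        tt_of_hcl hk hL₁ ⟨(le_sup_right : K₁ ≤ Q ⊔ K₁).trans hD.le,
          fun y hy hy0 => hIH1.2 y (hDle hy) hy0⟩ hYD hYK
      refine ⟨?_, as_field hk hL₁ hDc hTT hYd hz
        (fun y hy hy0 => hIH1.2 y (hle hy) hy0)⟩
      obtain ⟨x, hx, hx1⟩ := h.nontrivK
      exact complete_adj hDc ⟨x, hD.le ((le_sup_left : Q ≤ Q ⊔ K₁) (hKQ hx)), hx1⟩
        (isSeparable_of_wp hz).isIntegral.isAlgebraic
  exact ⟨L₁, K₁, hL₁, hK₁, ⟨d, θ, hθL, hθ⟩, hdeg, (key _ htow le_rfl).2⟩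

end HR
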